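import Mathlib
import Pool.Agent.N48.Ann.NT10

/-! Abel summation and primitive points with a power saving. -/

set_option autoImplicit false

open Filter Topology
open Pool.Agent.N48.Ann

namespace Pool.Agent.D0H53.CL

lemma abel_eq (D f : ℕ → ℝ) : ∀ K : ℕ, 1 ≤ K → ∑ k ∈ Finset.Icc 1 K, D k * f k = (∑ k ∈ Finset.Icc 1 K, D k) * f K +
      ∑ k ∈ Finset.Icc 1 (K-1), (∑ j ∈ Finset.Icc 1 k, D j) * (f k - f (k+1)) := by
  intro K hK
  induction K, hK using Nat.le_induction with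
  | base => simp
  | succ n hn ih =>
    rw [Finset.sum_Icc_succ_top (by omega), Finset.sum_Icc_succ_top (by omega), ih]
    have e : Finset.Icc 1 (n + 1 - 1) = Finset.Icc 1 ((n - 1) + 1) := by congr 1; omega
    rw [e, Finset.sum_Icc_succ_top (by omega)]
    have e2 : n - 1 + 1 = n := by omega
    rw [e2]
    ring

/-- Abel summation with a general majorant of the partial sums -/
lemma abel_gen {D f B : ℕ → ℝ} (hP : ∀ X : ℕ, 1 ≤ X → |∑ k ∈ Finset.Icc 1 X, D k| ≤ B X) {K : ℕ} (hK : 1 ≤ K) :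
    |∑ k ∈ Finset.Icc 1 K, D k * f k| ≤ B K * |f K| + ∑ k ∈ Finset.Icc 1 (K-1), B k * |f k - f (k+1)| := by
  rw [abel_eq D f K hK]
  refine (abs_add_le _ _).trans ?_
  apply add_le_add
  · rw [abs_mul]
    exact mul_le_mul_of_nonneg_right (hP K hK) (abs_nonneg _)
  · refine (Finset.abs_sum_le_sum_abs _ _).trans ?_
    apply Finset.sum_le_sum
    intro k hk
    rw [Finset.mem_Icc] at hk
    rw [abs_mul]
    exact mul_le_mul_of_nonneg_right (hP k hk.1) (abs_nonneg _)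

/-- coprime points in a class, with a power saving -/
theorem Qp34 : ∃ C : ℝ, 0 < C ∧ ∀ a b : ℕ, a < 2 → b < 2 → a + b ≠ 0 → ∀ n : ℕ, 1 ≤ n →
    |((Qp a b n).card : ℝ) - 1 / (2 * Real.pi) * n| ≤ C * (n:ℝ) ^ (3/4:ℝ) := by
  have hpi := Real.pi_pos
  have hpi4 := Real.pi_lt_four
  have hpi3 := Real.pi_gt_three
  refine ⟨44, by norm_num, ?_⟩
  intro a b ha hb hab n hn
  have hn0 : (0:ℝ) < n := by exact_mod_cast hn
  have hn1 : (1:ℝ) ≤ n := by exact_mod_cast hn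
  obtain ⟨E, hE⟩ : ∃ E, E = Nat.sqrt n := ⟨_, rfl⟩
  have hE1 : 1 ≤ E := by rw [hE, Nat.le_sqrt']; omega
  have hE1' : (1:ℝ) ≤ E := by exact_mod_cast hE1
  have hE0 : (0:ℝ) < E := by linarith
  have hEs : (E:ℝ) ≤ √(n:ℝ) := by rw [hE]; exact Real.nat_sqrt_le_real_sqrt
  have hsE : √(n:ℝ) ≤ 2 * E := by
    have h1 : √(n:ℝ) < Nat.sqrt n + 1 := Real.real_sqrt_lt_nat_sqrt_succ
    rw [← hE] at h1
    linarith
  obtain ⟨T, hT⟩ : ∃ T, T = (Finset.Icc 1 E).filter (fun e => e % 2 = 1) := ⟨_, rfl⟩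
  have hTm : ∀ e ∈ T, 1 ≤ e ∧ e ^ 2 ≤ n := by
    intro e he
    rw [hT, Finset.mem_filter, Finset.mem_Icc, hE] at he
    exact ⟨he.1.1, Nat.le_sqrt'.mp he.1.2⟩
  have hmu : ∀ e : ℕ, |((ArithmeticFunction.moebius e : ℤ) : ℝ)| ≤ 1 := by
    intro e
    rw [← Int.cast_abs]
    exact_mod_cast ArithmeticFunction.abs_moebius_le_one
  have hsv := Qp_sieve ha hb hab n (Y := E) (by rw [hE])
  rw [← hT] at hsv
  have s1 : |∑ e ∈ T, ((ArithmeticFunction.moebius e : ℤ) : ℝ) * ((Qc a b (n / e ^ 2)).card : ℝ) -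
      ∑ e ∈ T, ((ArithmeticFunction.moebius e : ℤ) : ℝ) * (Real.pi / 16 * ((n:ℝ) / (e:ℝ) ^ 2))| ≤ 41 * (n:ℝ) ^ (3/4:ℝ) := by
    rw [← Finset.sum_sub_distrib]
    refine (Finset.abs_sum_le_sum_abs _ _).trans ?_
    calc _ ≤ ∑ e ∈ T, (20 * √(n:ℝ) * (1 / √(e:ℝ)) + 1) := by
          apply Finset.sum_le_sum
          intro e he
          obtain ⟨he1, he2⟩ := hTm e he
          have he0 : (0:ℝ) < e := by exact_mod_cast he1
          have he1' : (1:ℝ) ≤ e := by exact_mod_cast he1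
          rw [← mul_sub, abs_mul]
          have h1 := Qc_asymp ha hb (n / e ^ 2)
          have h2 : ((n / e ^ 2 : ℕ) : ℝ) ≤ (n:ℝ) / (e:ℝ) ^ 2 := by
            have := Nat.cast_div_le (α := ℝ) (m := n) (n := e ^ 2)
            rwa [Nat.cast_pow] at this
          have h3 : (n:ℝ) / (e:ℝ) ^ 2 - 1 ≤ ((n / e ^ 2 : ℕ) : ℝ) := by
            have h4 : n < e ^ 2 * (n / e ^ 2 + 1) := Nat.lt_mul_div_succ n (by positivity)
            have h5 : (n:ℝ) < (e:ℝ) ^ 2 * (((n / e ^ 2 : ℕ) : ℝ) + 1) := by exact_mod_cast h4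
            rw [sub_le_iff_le_add, div_le_iff₀ (by positivity)]
            linarith
          have h6 : √((n / e ^ 2 : ℕ) : ℝ) ≤ √(n:ℝ) * (1 / √(e:ℝ)) := by
            rw [← Real.sqrt_one, ← Real.sqrt_div zero_le_one, ← Real.sqrt_mul hn0.le]
            apply Real.sqrt_le_sqrt
            refine h2.trans ?_
            rw [mul_one_div]
            apply div_le_div_of_nonneg_left hn0.le he0
            nlinarith
          have h7 : |((Qc a b (n / e ^ 2)).card : ℝ) - Real.pi / 16 * ((n:ℝ) / (e:ℝ) ^ 2)| ≤ 20 * √(n:ℝ) * (1 / √(e:ℝ)) + 1 := by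
            have h8 := abs_le.mp h1
            have h9 : Real.pi / 16 ≤ 1 := by linarith
            have h10 : 0 < Real.pi / 16 := by positivity
            have h11 : 0 ≤ (n:ℝ) / (e:ℝ) ^ 2 - ((n / e ^ 2 : ℕ) : ℝ) := by linarith
            have h12 : (n:ℝ) / (e:ℝ) ^ 2 - ((n / e ^ 2 : ℕ) : ℝ) ≤ 1 := by linarith
            have h13 : Real.pi / 16 * ((n:ℝ) / (e:ℝ) ^ 2 - ((n / e ^ 2 : ℕ) : ℝ)) ≤ 1 := by nlinarith
            have h14 : 0 ≤ Real.pi / 16 * ((n:ℝ) / (e:ℝ) ^ 2 - ((n / e ^ 2 : ℕ) : ℝ)) := by positivity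
            rw [abs_le]
            constructor <;> linarith
          calc _ ≤ 1 * (20 * √(n:ℝ) * (1 / √(e:ℝ)) + 1) := mul_le_mul (hmu e) h7 (abs_nonneg _) (by norm_num)
            _ = _ := one_mul _
      _ ≤ ∑ e ∈ Finset.Icc 1 E, (20 * √(n:ℝ) * (1 / √(e:ℝ)) + 1) := by
          apply Finset.sum_le_sum_of_subset_of_nonneg
          · rw [hT]; exact Finset.filter_subset _ _
          · intro _ _ _; positivity
      _ = 20 * √(n:ℝ) * ∑ e ∈ Finset.Icc 1 E, (1 / √(e:ℝ)) + E := by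
          rw [Finset.sum_add_distrib, ← Finset.mul_sum]; simp
      _ ≤ 20 * √(n:ℝ) * (2 * √(E:ℝ)) + E := by
          have := sum_inv_sqrt E
          gcongr
      _ ≤ 40 * (n:ℝ) ^ (3/4:ℝ) + (n:ℝ) ^ (3/4:ℝ) := by
          have h1 : √(E:ℝ) ≤ (n:ℝ) ^ (1/4:ℝ) := by
            calc √(E:ℝ) ≤ √(√(n:ℝ)) := Real.sqrt_le_sqrt hEs
              _ = (n:ℝ) ^ (1/4:ℝ) := by
                  rw [Real.sqrt_eq_rpow, Real.sqrt_eq_rpow, ← Real.rpow_mul hn0.le]; norm_num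
          have h2 : √(n:ℝ) * (n:ℝ) ^ (1/4:ℝ) = (n:ℝ) ^ (3/4:ℝ) := by
            rw [Real.sqrt_eq_rpow, ← Real.rpow_add hn0]; norm_num
          have h3 : (E:ℝ) ≤ (n:ℝ) ^ (3/4:ℝ) := by
            refine hEs.trans ?_
            rw [Real.sqrt_eq_rpow]
            exact Real.rpow_le_rpow_of_exponent_le hn1 (by norm_num)
          have h4 : 20 * √(n:ℝ) * (2 * √(E:ℝ)) ≤ 40 * (n:ℝ) ^ (3/4:ℝ) := by
            calc 20 * √(n:ℝ) * (2 * √(E:ℝ)) ≤ 20 * √(n:ℝ) * (2 * (n:ℝ) ^ (1/4:ℝ)) := by gcongr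
              _ = 40 * (√(n:ℝ) * (n:ℝ) ^ (1/4:ℝ)) := by ring
              _ = _ := by rw [h2]
          linarith
      _ = 41 * (n:ℝ) ^ (3/4:ℝ) := by ring
  have s2 : ∑ e ∈ T, ((ArithmeticFunction.moebius e : ℤ) : ℝ) * (Real.pi / 16 * ((n:ℝ) / (e:ℝ) ^ 2)) =
      Real.pi / 16 * n * ∑ e ∈ T, ((ArithmeticFunction.moebius e : ℤ) : ℝ) / (e:ℝ) ^ 2 := by
    rw [Finset.mul_sum]
    apply Finset.sum_congr rfl
    intro e _
    ring
  have s3 := mu_tail hE1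
  rw [← hT] at s3
  rw [s2] at s1
  obtain ⟨A, hA⟩ : ∃ A : ℝ, A = ∑ e ∈ T, ((ArithmeticFunction.moebius e : ℤ) : ℝ) / (e:ℝ) ^ 2 := ⟨_, rfl⟩
  rw [← hA] at s1 s3
  have s4 : |Real.pi / 16 * n * A - 1 / (2 * Real.pi) * n| ≤ 2 * (n:ℝ) ^ (3/4:ℝ) := by
    have e1 : Real.pi / 16 * n * A - 1 / (2 * Real.pi) * n = (Real.pi / 16 * n) * (A - 8 / Real.pi ^ 2) := by
      field_simp
      ring
    rw [e1, abs_mul, abs_of_nonneg (by positivity)]
    have h1 : (n:ℝ) * (1 / E) ≤ 2 * √(n:ℝ) := by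
      rw [mul_one_div, div_le_iff₀ hE0]
      have : (n:ℝ) = √(n:ℝ) * √(n:ℝ) := (Real.mul_self_sqrt hn0.le).symm
      nlinarith [Real.sqrt_nonneg (n:ℝ)]
    have h2 : √(n:ℝ) ≤ (n:ℝ) ^ (3/4:ℝ) := by
      rw [Real.sqrt_eq_rpow]
      exact Real.rpow_le_rpow_of_exponent_le hn1 (by norm_num)
    calc Real.pi / 16 * n * |A - 8 / Real.pi ^ 2| ≤ Real.pi / 16 * n * (1 / E) := by gcongr
      _ = Real.pi / 16 * (n * (1 / E)) := by ring
      _ ≤ 1 * (2 * √(n:ℝ)) := by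
          apply mul_le_mul _ h1 (by positivity) (by norm_num)
          linarith
      _ ≤ 2 * (n:ℝ) ^ (3/4:ℝ) := by linarith
  rw [hsv]
  have h0 : 0 ≤ (n:ℝ) ^ (3/4:ℝ) := by positivity
  obtain ⟨p1, p2⟩ := abs_le.mp s1
  obtain ⟨p3, p4⟩ := abs_le.mp s4
  rw [abs_le]
  constructor <;> linarith

end Pool.Agent.D0H53.CL
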