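import Mathlib
import Pool.Agent.H383.RR

/-! The square of the number of representations by two squares as a Dirichlet convolution. -/

set_option autoImplicit false

open Set Filter Topology
open Pool.Agent.H383.Gauss

namespace Pool.Agent.D0H53.CL

/-- canonical generator of a principal ideal -/
noncomputable def gg (G : GaussianInt) : GaussianInt := Submodule.IsPrincipal.generator (Ideal.span {G})

lemma gg_span (G : GaussianInt) : Ideal.span {gg G} = Ideal.span {G} := Ideal.span_singleton_generator (Ideal.span {G})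

lemma gg_unit (G : GaussianInt) : ∃ u : GaussianIntˣ, gg G * u = G := Ideal.span_singleton_eq_span_singleton.mp (gg_span G)

lemma gg_of_span {G H : GaussianInt} (h : Ideal.span {G} = Ideal.span {H}) : gg G = gg H := by
  unfold gg; simp only [h]

lemma gg_cg {G z w : GaussianInt} (h : Ideal.span {G} = Ideal.span {z, w}) : gg G = cg z w := by
  unfold gg cg; simp only [h]

lemma norm_unit (u : GaussianIntˣ) : (u : GaussianInt).norm = 1 := by
  have h1 : (u : GaussianInt).norm.natAbs = 1 := Zsqrtd.norm_eq_one_iff.mpr u.isUnit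
  have h0 : 0 ≤ (u : GaussianInt).norm := by rw [norm_eq]; positivity
  omega

lemma norm_gg (G : GaussianInt) : (gg G).norm = G.norm := by
  obtain ⟨u, hu⟩ := gg_unit G
  conv_rhs => rw [← hu]
  rw [Zsqrtd.norm_mul, norm_unit, mul_one]

lemma norm_star' (a : GaussianInt) : (star a).norm = a.norm := by
  simp [Zsqrtd.norm, Zsqrtd.re_star, Zsqrtd.im_star]

lemma span_pair {G a : GaussianInt} (ha : IsCoprime a (star a)) : Ideal.span {G} = Ideal.span {gg G * a, G * star a} := by
  obtain ⟨u, hu⟩ := gg_unit G
  apply le_antisymm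
  · rw [Ideal.span_singleton_le_iff_mem, Ideal.mem_span_pair]
    obtain ⟨x, y, hxy⟩ := ha
    refine ⟨x * u, y, ?_⟩
    have h1 : x * (u:GaussianInt) * (gg G * a) + y * (G * star a) = G * (x * a + y * star a) := by
      linear_combination (x * a) * hu
    rw [h1, hxy, mul_one]
  · rw [Ideal.span_le]
    intro t ht
    simp only [Set.mem_insert_iff, Set.mem_singleton_iff] at ht
    rcases ht with rfl | rfl
    · rw [← gg_span]
      exact Ideal.mul_mem_right _ _ (Ideal.subset_span (by simp))
    · exact Ideal.mul_mem_right _ _ (Ideal.subset_span (by simp))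

/-- elements of norm `k` -/
noncomputable def As (k : ℕ) : Finset GaussianInt := (A_finite k).toFinset

open Classical in
/-- elements of norm `k` coprime to their conjugate -/
noncomputable def Pf (k : ℕ) : Finset GaussianInt := (As k).filter (fun a => IsCoprime a (star a))

lemma mem_As {k : ℕ} {z : GaussianInt} : z ∈ As k ↔ z.norm = (k:ℤ) := by
  unfold As
  rw [Set.Finite.mem_toFinset, mem_A]

open Classical in
lemma mem_Pf {k : ℕ} {z : GaussianInt} : z ∈ Pf k ↔ z.norm = (k:ℤ) ∧ IsCoprime z (star z) := by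
  unfold Pf
  rw [Finset.mem_filter, mem_As]

lemma card_As (k : ℕ) : ((As k).card : ℝ) = rA k := by
  unfold rA As
  rw [Set.ncard_eq_toFinset_card _ (A_finite k)]

theorem rA_sq_eq {m : ℕ} (hm : 1 ≤ m) :
    (rA m)^2 = ∑ x ∈ m.divisorsAntidiagonal, rA x.1 * ((Pf x.2).card : ℝ) := by
  classical
  have hm0 : (m:ℤ) ≠ 0 := by exact_mod_cast (by omega : m ≠ 0)
  have hcard : ((m.divisorsAntidiagonal).sigma (fun x => As x.1 ×ˢ Pf x.2)).card = (As m ×ˢ As m).card := by
    apply Finset.card_bij (fun y _ => (gg y.2.1 * y.2.2, y.2.1 * star y.2.2))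
    · rintro ⟨x, G, a⟩ h
      rw [Finset.mem_sigma, Nat.mem_divisorsAntidiagonal, Finset.mem_product, mem_As, mem_Pf] at h
      obtain ⟨⟨hx, _⟩, hG, ha, _⟩ := h
      have hxx : (m:ℤ) = x.1 * x.2 := by exact_mod_cast hx.symm
      simp only at hG ha ⊢
      rw [Finset.mem_product, mem_As, mem_As]
      simp only
      rw [Zsqrtd.norm_mul, Zsqrtd.norm_mul, norm_gg, norm_star', hG, ha, hxx]
      exact ⟨rfl, rfl⟩
    · rintro ⟨x, G, a⟩ h ⟨x', G', a'⟩ h' heq
      rw [Finset.mem_sigma, Nat.mem_divisorsAntidiagonal, Finset.mem_product, mem_As, mem_Pf] at h h'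
      obtain ⟨⟨hx, _⟩, hG, ha, hc⟩ := h
      obtain ⟨⟨hx', _⟩, hG', ha', hc'⟩ := h'
      simp only at hG ha hc hG' ha' hc'
      simp only [Prod.mk.injEq] at heq
      obtain ⟨h1, h2⟩ := heq
      have hxx : (m:ℤ) = x.1 * x.2 := by exact_mod_cast hx.symm
      have hspan : Ideal.span {G} = Ideal.span {G'} := by
        rw [span_pair (G := G) hc, span_pair (G := G') hc', h1, h2]
      have hgg := gg_of_span hspan
      have hG0 : G.norm ≠ 0 := by
        rw [hG]; intro h0; rw [h0, zero_mul] at hxx; exact hm0 hxx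
      have ha0 : a.norm ≠ 0 := by
        rw [ha]; intro h0; rw [h0, mul_zero] at hxx; exact hm0 hxx
      have hgg0 : gg G ≠ 0 := by
        intro h0
        apply hG0
        rw [← norm_gg, h0, Zsqrtd.norm_zero]
      have hsa0 : star a ≠ 0 := by
        intro h0
        apply ha0
        rw [← norm_star', h0, Zsqrtd.norm_zero]
      rw [← hgg] at h1
      have haa : a = a' := mul_left_cancel₀ hgg0 h1
      subst haa
      have hGG : G = G' := mul_right_cancel₀ hsa0 h2
      subst hGG
      have hx1 : x = x' := by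
        apply Prod.ext
        · have : (x.1:ℤ) = x'.1 := by rw [← hG, ← hG']
          exact_mod_cast this
        · have : (x.2:ℤ) = x'.2 := by rw [← ha, ← ha']
          exact_mod_cast this
      subst hx1
      rfl
    · rintro ⟨z, w⟩ h
      rw [Finset.mem_product, mem_As, mem_As] at h
      simp only at h
      obtain ⟨hz, hw⟩ := h
      obtain ⟨G, a, u, hu, e1, e2, e3⟩ := key_pair hm (mem_A.mpr hz) (mem_A.mpr hw)
      obtain ⟨g, hg⟩ : ∃ g, g = cg z w := ⟨_, rfl⟩
      rw [← hg] at e1 e3
      have hg0 : g ≠ 0 := by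
        intro h0
        rw [e1, h0, zero_mul, Zsqrtd.norm_zero] at hz
        exact hm0 hz.symm
      obtain ⟨v, hv⟩ := hu
      have hnv : u.norm = 1 := by rw [← hv]; exact norm_unit v
      have hspanG : Ideal.span {G} = Ideal.span {z, w} := by
        rw [← cg_span, ← hg]
        rw [Ideal.span_singleton_eq_span_singleton]
        refine Associated.symm ⟨v, ?_⟩
        rw [hv, e3]
      have hcop : IsCoprime a (star a) := by
        have h1 : g ∈ Ideal.span {z, w} := by
          rw [← cg_span, ← hg]; exact Ideal.subset_span (by simp)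
        rw [Ideal.mem_span_pair] at h1
        obtain ⟨x, y, hxy⟩ := h1
        refine ⟨x, y * u, ?_⟩
        have h2 : g * (x * a + y * u * star a) = g * 1 := by
          rw [mul_one]
          conv_rhs => rw [← hxy]
          rw [e1, e2, e3]; ring
        exact mul_left_cancel₀ hg0 h2
      have hprod : G.norm * a.norm = m := by
        rw [e3, Zsqrtd.norm_mul, hnv, mul_one, ← Zsqrtd.norm_mul, ← e1, hz]
      have hG0 : 0 ≤ G.norm := by rw [norm_eq]; positivity
      have ha0 : 0 ≤ a.norm := by rw [norm_eq]; positivity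
      refine ⟨⟨(G.norm.toNat, a.norm.toNat), G, a⟩, ?_, ?_⟩
      · rw [Finset.mem_sigma, Nat.mem_divisorsAntidiagonal, Finset.mem_product, mem_As, mem_Pf]
        simp only
        refine ⟨⟨?_, by omega⟩, (Int.toNat_of_nonneg hG0).symm, (Int.toNat_of_nonneg ha0).symm, hcop⟩
        have : ((G.norm.toNat * a.norm.toNat : ℕ) : ℤ) = m := by
          push_cast
          rw [Int.toNat_of_nonneg hG0, Int.toNat_of_nonneg ha0]; exact hprod
        exact_mod_cast this
      · simp only
        rw [gg_cg hspanG, ← hg, ← e1, ← e2]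
  rw [Finset.card_sigma, Finset.card_product] at hcard
  have h2 : ((∑ x ∈ m.divisorsAntidiagonal, (As x.1 ×ˢ Pf x.2).card : ℕ) : ℝ) = (((As m).card * (As m).card : ℕ) : ℝ) := by
    exact_mod_cast hcard
  push_cast at h2
  rw [card_As] at h2
  rw [sq, ← h2]
  apply Finset.sum_congr rfl
  intro x _
  rw [Finset.card_product, ← card_As]
  push_cast; rfl

end Pool.Agent.D0H53.CL
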