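import Mathlib
import Pool.Agent.D0H53.CL.A1
import Pool.Agent.D0H53.CL.A2

/-! Counting the Gaussian integers coprime to their conjugate. -/

set_option autoImplicit false

open Filter Topology
open Pool.Agent.H383.Gauss Pool.Agent.N48.Ann

namespace Pool.Agent.D0H53.CL

lemma cop_iff (a : GaussianInt) : IsCoprime a (star a) ↔ IsCoprime a.re a.im ∧ (a.re + a.im) % 2 = 1 := by
  constructor
  · intro h
    constructor
    · rw [Int.isCoprime_iff_gcd_eq_one]
      obtain ⟨d, hd⟩ : ∃ d : ℕ, d = Int.gcd a.re a.im := ⟨_, rfl⟩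
      have h1 : (d:ℤ) ∣ a.re := by rw [hd]; exact Int.gcd_dvd_left _ _
      have h2 : (d:ℤ) ∣ a.im := by rw [hd]; exact Int.gcd_dvd_right _ _
      obtain ⟨x, hx⟩ := h1
      obtain ⟨y, hy⟩ := h2
      have h3 : ((d : ℕ) : GaussianInt) ∣ a := ⟨⟨x, y⟩, by
        apply Zsqrtd.ext
        · simp [hx]
        · simp [hy]⟩
      have h4 : ((d : ℕ) : GaussianInt) ∣ star a := ⟨⟨x, -y⟩, by
        apply Zsqrtd.ext
        · simp [hx]
        · simp [hy]⟩
      have h5 := h.isUnit_of_dvd' h3 h4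
      have h6 : ((d : ℕ) : GaussianInt).norm.natAbs = 1 := Zsqrtd.norm_eq_one_iff.mpr h5
      rw [← hd]
      rw [Zsqrtd.norm_natCast] at h6
      have h7 : d * d = 1 := by
        have : ((d:ℤ) * d).natAbs = d * d := by rw [Int.natAbs_mul]; simp
        rw [this] at h6; exact h6
      exact Nat.eq_one_of_mul_eq_one_left h7
    · by_contra hne
      have h0 : (a.re + a.im) % 2 = 0 := by omega
      obtain ⟨t, ht⟩ : ∃ t, a.re + a.im = 2 * t := ⟨(a.re + a.im) / 2, by omega⟩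
      have h3 : (⟨1, 1⟩ : GaussianInt) ∣ a := ⟨⟨t, t - a.re⟩, by
        apply Zsqrtd.ext
        · simp only [Zsqrtd.re_mul]; ring
        · simp only [Zsqrtd.im_mul]; linarith⟩
      have h4 : (⟨1, 1⟩ : GaussianInt) ∣ star a := ⟨⟨a.re - t, -t⟩, by
        apply Zsqrtd.ext
        · simp only [Zsqrtd.re_mul, Zsqrtd.re_star]; ring
        · simp only [Zsqrtd.im_mul, Zsqrtd.im_star]; linarith⟩
      have h5 := h.isUnit_of_dvd' h3 h4
      have h6 : (⟨1, 1⟩ : GaussianInt).norm.natAbs = 1 := Zsqrtd.norm_eq_one_iff.mpr h5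
      have h7 : (⟨1, 1⟩ : GaussianInt).norm = 2 := by rw [norm_eq]; norm_num
      rw [h7] at h6
      norm_num at h6
  · rintro ⟨⟨u, v, huv⟩, hpar⟩
    obtain ⟨q, hq⟩ : ∃ q : ℤ, a.re ^ 2 + a.im ^ 2 = 2 * q + 1 := by
      refine ⟨(a.re ^ 2 + a.im ^ 2) / 2, ?_⟩
      have h1 : (a.re ^ 2 + a.im ^ 2) % 2 = 1 := by
        have h2 : a.re ^ 2 + a.im ^ 2 = (a.re + a.im) ^ 2 - 2 * (a.re * a.im) := by ring
        have h3 : (a.re + a.im) ^ 2 % 2 = 1 := by
          rw [pow_two, Int.mul_emod, hpar]; norm_num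
        omega
      omega
    refine ⟨star a - ⟨q * u, -(q * v)⟩, -⟨q * u, q * v⟩, ?_⟩
    apply Zsqrtd.ext
    · simp only [Zsqrtd.re_add, Zsqrtd.re_mul, Zsqrtd.re_sub, Zsqrtd.im_sub, Zsqrtd.re_star, Zsqrtd.im_star,
        Zsqrtd.re_neg, Zsqrtd.im_neg, Zsqrtd.re_one]
      linear_combination hq - 2 * q * huv
    · simp only [Zsqrtd.im_add, Zsqrtd.im_mul, Zsqrtd.re_sub, Zsqrtd.im_sub, Zsqrtd.re_star, Zsqrtd.im_star,
        Zsqrtd.re_neg, Zsqrtd.im_neg, Zsqrtd.im_one]
      ring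

lemma mem_Pf' {k : ℕ} {z : GaussianInt} : z ∈ Pf k ↔ z.re ^ 2 + z.im ^ 2 = (k:ℤ) ∧ IsCoprime z.re z.im ∧ (z.re + z.im) % 2 = 1 := by
  rw [mem_Pf, cop_iff, norm_eq]

/-- the first quadrant -/
def R1 (z : GaussianInt) : Prop := 0 < z.re ∧ 0 ≤ z.im

instance (z : GaussianInt) : Decidable (R1 z) := by unfold R1; infer_instance

lemma rot_card {k : ℕ} (p q : GaussianInt → Prop) [DecidablePred p] [DecidablePred q]
    (h : ∀ z : GaussianInt, p z ↔ q ⟨-z.im, z.re⟩) : ((Pf k).filter p).card = ((Pf k).filter q).card := by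
  apply Finset.card_bij (fun z _ => (⟨-z.im, z.re⟩ : GaussianInt))
  · intro z hz
    rw [Finset.mem_filter, mem_Pf'] at hz ⊢
    obtain ⟨⟨h1, h2, h3⟩, h4⟩ := hz
    refine ⟨⟨?_, ?_, ?_⟩, (h z).mp h4⟩
    · simp only; rw [← h1]; ring
    · simp only; exact (IsCoprime.neg_left h2.symm)
    · simp only; omega
  · intro z _ w _ heq
    simp only [Zsqrtd.mk.injEq, neg_inj] at heq
    exact Zsqrtd.ext heq.2 heq.1
  · intro w hw
    refine ⟨⟨w.im, -w.re⟩, ?_, ?_⟩
    · rw [Finset.mem_filter, mem_Pf'] at hw ⊢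
      obtain ⟨⟨h1, h2, h3⟩, h4⟩ := hw
      refine ⟨⟨?_, ?_, ?_⟩, ?_⟩
      · simp only; rw [← h1]; ring
      · simp only; exact IsCoprime.neg_right h2.symm
      · simp only; omega
      · rw [h]; simpa using h4
    · apply Zsqrtd.ext <;> simp

lemma Pf_card {k : ℕ} (hk : 1 ≤ k) : (Pf k).card = 4 * ((Pf k).filter R1).card := by
  classical
  obtain ⟨p2, hp2⟩ : ∃ p : GaussianInt → Prop, p = fun z => z.re ≤ 0 ∧ 0 < z.im := ⟨_, rfl⟩
  obtain ⟨p3, hp3⟩ : ∃ p : GaussianInt → Prop, p = fun z => z.re < 0 ∧ z.im ≤ 0 := ⟨_, rfl⟩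
  obtain ⟨p4, hp4⟩ : ∃ p : GaussianInt → Prop, p = fun z => 0 ≤ z.re ∧ z.im < 0 := ⟨_, rfl⟩
  have c1 : ((Pf k).filter R1).card = ((Pf k).filter p2).card := rot_card R1 p2 (by
    intro z; rw [hp2]; unfold R1; simp only
    constructor <;> rintro ⟨h1, h2⟩ <;> constructor <;> omega)
  have c2 : ((Pf k).filter p2).card = ((Pf k).filter p3).card := rot_card p2 p3 (by
    intro z; rw [hp2, hp3]; simp only
    constructor <;> rintro ⟨h1, h2⟩ <;> constructor <;> omega)
  have c3 : ((Pf k).filter p3).card = ((Pf k).filter p4).card := rot_card p3 p4 (by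
    intro z; rw [hp3, hp4]; simp only
    constructor <;> rintro ⟨h1, h2⟩ <;> constructor <;> omega)
  have hU : Pf k = ((Pf k).filter R1 ∪ (Pf k).filter p2) ∪ ((Pf k).filter p3 ∪ (Pf k).filter p4) := by
    ext z
    simp only [Finset.mem_union, Finset.mem_filter]
    constructor
    · intro hz
      have h1 := (mem_Pf'.mp hz).1
      have h2 : ¬ (z.re = 0 ∧ z.im = 0) := by
        rintro ⟨h3, h4⟩
        rw [h3, h4] at h1
        have : (k:ℤ) = 0 := by rw [← h1]; norm_num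
        omega
      by_cases a1 : R1 z
      · left; left; exact ⟨hz, a1⟩
      · by_cases a2 : p2 z
        · left; right; exact ⟨hz, a2⟩
        · by_cases a3 : p3 z
          · right; left; exact ⟨hz, a3⟩
          · right; right
            refine ⟨hz, ?_⟩
            unfold R1 at a1
            simp only [hp2, hp3] at a2 a3
            rw [hp4]
            simp only
            omega
    · rintro ((h | h) | (h | h)) <;> exact h.1
  have hd1 : Disjoint ((Pf k).filter R1) ((Pf k).filter p2) := by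
    rw [Finset.disjoint_left]
    intro z h1 h2
    rw [Finset.mem_filter] at h1 h2
    have a1 := h1.2
    have a2 := h2.2
    unfold R1 at a1
    simp only [hp2] at a2
    omega
  have hd2 : Disjoint ((Pf k).filter p3) ((Pf k).filter p4) := by
    rw [Finset.disjoint_left]
    intro z h1 h2
    rw [Finset.mem_filter] at h1 h2
    have a1 := h1.2
    have a2 := h2.2
    simp only [hp3] at a1
    simp only [hp4] at a2
    omega
  have hd3 : Disjoint ((Pf k).filter R1 ∪ (Pf k).filter p2) ((Pf k).filter p3 ∪ (Pf k).filter p4) := by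
    rw [Finset.disjoint_left]
    intro z h1 h2
    simp only [Finset.mem_union, Finset.mem_filter] at h1 h2
    unfold R1 at h1
    simp only [hp2] at h1
    simp only [hp3, hp4] at h2
    omega
  conv_lhs => rw [hU]
  rw [Finset.card_union_of_disjoint hd3, Finset.card_union_of_disjoint hd1, Finset.card_union_of_disjoint hd2]
  omega

lemma quad_card {y : ℕ} (hy : 1 ≤ y) : ∑ k ∈ Finset.Icc 1 y, ((Pf k).filter R1).card = (Qp 1 0 y).card + (Qp 0 1 y).card + 1 := by
  classical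
  have hd : Disjoint (Qp 1 0 y) (Qp 0 1 y) := by
    rw [Finset.disjoint_left]
    intro p h1 h2
    rw [mem_Qp] at h1 h2
    omega
  have hd2 : Disjoint (Qp 1 0 y ∪ Qp 0 1 y) {((1:ℕ), (0:ℕ))} := by
    rw [Finset.disjoint_singleton_right, Finset.mem_union, mem_Qp, mem_Qp]
    omega
  have hcard : ((Finset.Icc 1 y).sigma (fun k => (Pf k).filter R1)).card = ((Qp 1 0 y ∪ Qp 0 1 y) ∪ {((1:ℕ), (0:ℕ))}).card := by
    apply Finset.card_bij (fun z _ => (z.2.re.toNat, z.2.im.toNat))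
    · rintro ⟨k, z⟩ hz
      rw [Finset.mem_sigma, Finset.mem_Icc, Finset.mem_filter, mem_Pf'] at hz
      simp only at hz
      obtain ⟨⟨hk1, hk2⟩, ⟨h1, h2, h3⟩, h4, h5⟩ := hz
      obtain ⟨x, hx⟩ := Int.eq_ofNat_of_zero_le h4.le
      obtain ⟨t, ht⟩ := Int.eq_ofNat_of_zero_le h5
      simp only
      rw [hx, ht] at h1 h2 h3 ⊢
      rw [hx] at h4
      simp only [Int.toNat_natCast]
      have hx1 : 1 ≤ x := by omega
      have hn : x ^ 2 + t ^ 2 = k := by exact_mod_cast h1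
      have hc : Nat.Coprime x t := Nat.isCoprime_iff_coprime.mp h2
      have hp : (x + t) % 2 = 1 := by omega
      rw [Finset.mem_union, Finset.mem_union, Finset.mem_singleton, mem_Qp, mem_Qp]
      simp only [Prod.mk.injEq]
      rcases Nat.eq_zero_or_pos t with h0 | h0
      · right
        subst h0
        rw [Nat.coprime_zero_right] at hc
        exact ⟨hc, rfl⟩
      · left
        by_cases hxp : x % 2 = 1
        · left
          exact ⟨⟨⟨hx1, h0, by omega⟩, hxp, by omega⟩, hc⟩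
        · right
          exact ⟨⟨⟨hx1, h0, by omega⟩, by omega, by omega⟩, hc⟩
    · rintro ⟨k, z⟩ hz ⟨k', z'⟩ hz' heq
      rw [Finset.mem_sigma, Finset.mem_Icc, Finset.mem_filter, mem_Pf'] at hz hz'
      simp only at hz hz'
      obtain ⟨⟨hk1, hk2⟩, ⟨h1, h2, h3⟩, h4, h5⟩ := hz
      obtain ⟨⟨hk1', hk2'⟩, ⟨h1', h2', h3'⟩, h4', h5'⟩ := hz'
      simp only [Prod.mk.injEq] at heq
      have e1 : z.re = z'.re := by omega
      have e2 : z.im = z'.im := by omega
      have e3 : z = z' := Zsqrtd.ext e1 e2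
      subst e3
      have e4 : k = k' := by
        have : (k:ℤ) = k' := by rw [← h1, ← h1']
        exact_mod_cast this
      subst e4
      rfl
    · rintro ⟨x, t⟩ hp
      rw [Finset.mem_union, Finset.mem_union, Finset.mem_singleton, mem_Qp, mem_Qp] at hp
      simp only [Prod.mk.injEq] at hp
      have hall : 1 ≤ x ∧ x ^ 2 + t ^ 2 ≤ y ∧ Nat.Coprime x t ∧ (x + t) % 2 = 1 := by
        rcases hp with (h | h) | h
        · exact ⟨h.1.1.1, h.1.1.2.2, h.2, by omega⟩
        · exact ⟨h.1.1.1, h.1.1.2.2, h.2, by omega⟩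
        · obtain ⟨h1, h2⟩ := h
          subst h1; subst h2
          exact ⟨le_rfl, by omega, by simp, rfl⟩
      obtain ⟨h1, h2, h3, h4⟩ := hall
      refine ⟨⟨x ^ 2 + t ^ 2, ⟨(x:ℤ), (t:ℤ)⟩⟩, ?_, ?_⟩
      · rw [Finset.mem_sigma, Finset.mem_Icc, Finset.mem_filter, mem_Pf']
        simp only
        refine ⟨⟨?_, h2⟩, ⟨by push_cast; ring, Nat.isCoprime_iff_coprime.mpr h3, by omega⟩, ?_⟩
        · have : 1 ≤ x ^ 2 := Nat.one_le_pow _ _ h1
          omega
        · unfold R1; simp only; omega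
      · simp
  rw [Finset.card_sigma, Finset.card_union_of_disjoint hd2, Finset.card_union_of_disjoint hd, Finset.card_singleton] at hcard
  exact hcard

lemma sum_Pf {y : ℕ} (hy : 1 ≤ y) : ∑ k ∈ Finset.Icc 1 y, (Pf k).card = 4 * ((Qp 1 0 y).card + (Qp 0 1 y).card + 1) := by
  rw [← quad_card hy, Finset.mul_sum]
  apply Finset.sum_congr rfl
  intro k hk
  rw [Finset.mem_Icc] at hk
  exact Pf_card hk.1

/-- the summatory function of the number of primitive points -/
theorem Pf_asymp : ∃ C : ℝ, 0 < C ∧ ∀ y : ℕ, 1 ≤ y →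
    |∑ k ∈ Finset.Icc 1 y, (((Pf k).card : ℝ) - 4 / Real.pi)| ≤ C * (y:ℝ) ^ (3/4:ℝ) := by
  obtain ⟨C, hC, h⟩ := Qp34
  have hpi := Real.pi_pos
  refine ⟨8 * C + 4, by positivity, ?_⟩
  intro y hy
  have hy1 : (1:ℝ) ≤ y := by exact_mod_cast hy
  have h1 := abs_le.mp (h 1 0 (by norm_num) (by norm_num) (by norm_num) y hy)
  have h2 := abs_le.mp (h 0 1 (by norm_num) (by norm_num) (by norm_num) y hy)
  have h3 : (∑ k ∈ Finset.Icc 1 y, ((Pf k).card : ℝ)) = 4 * (((Qp 1 0 y).card : ℝ) + (Qp 0 1 y).card + 1) := by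
    have := sum_Pf hy
    exact_mod_cast this
  rw [Finset.sum_sub_distrib, h3, Finset.sum_const, Nat.card_Icc, Nat.add_sub_cancel, nsmul_eq_mul]
  have h4 : (1:ℝ) ≤ (y:ℝ) ^ (3/4:ℝ) := Real.one_le_rpow hy1 (by norm_num)
  have e : (y:ℝ) * (4 / Real.pi) = 8 * (1 / (2 * Real.pi) * y) := by field_simp; norm_num
  rw [e, abs_le]
  constructor <;> linarith [h1.1, h1.2, h2.1, h2.2]

end Pool.Agent.D0H53.CL
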