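import Mathlib
import Pool.Agent.D0H53.CL.A3

/-! Counting all Gaussian integers of bounded norm. -/

set_option autoImplicit false

open Filter Topology
open Pool.Agent.H383.Gauss Pool.Agent.N48.Ann

namespace Pool.Agent.D0H53.CL

lemma mem_As' {k : ℕ} {z : GaussianInt} : z ∈ As k ↔ z.re ^ 2 + z.im ^ 2 = (k:ℤ) := by
  rw [mem_As, norm_eq]

lemma rotA_card {k : ℕ} (p q : GaussianInt → Prop) [DecidablePred p] [DecidablePred q]
    (h : ∀ z : GaussianInt, p z ↔ q ⟨-z.im, z.re⟩) : ((As k).filter p).card = ((As k).filter q).card := by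
  apply Finset.card_bij (fun z _ => (⟨-z.im, z.re⟩ : GaussianInt))
  · intro z hz
    rw [Finset.mem_filter, mem_As'] at hz ⊢
    obtain ⟨h1, h4⟩ := hz
    refine ⟨?_, (h z).mp h4⟩
    simp only; rw [← h1]; ring
  · intro z _ w _ heq
    simp only [Zsqrtd.mk.injEq, neg_inj] at heq
    exact Zsqrtd.ext heq.2 heq.1
  · intro w hw
    refine ⟨⟨w.im, -w.re⟩, ?_, ?_⟩
    · rw [Finset.mem_filter, mem_As'] at hw ⊢
      obtain ⟨h1, h4⟩ := hw
      refine ⟨?_, ?_⟩
      · simp only; rw [← h1]; ring
      · rw [h]; simpa using h4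
    · apply Zsqrtd.ext <;> simp

lemma As_card {k : ℕ} (hk : 1 ≤ k) : (As k).card = 4 * ((As k).filter R1).card := by
  classical
  obtain ⟨p2, hp2⟩ : ∃ p : GaussianInt → Prop, p = fun z => z.re ≤ 0 ∧ 0 < z.im := ⟨_, rfl⟩
  obtain ⟨p3, hp3⟩ : ∃ p : GaussianInt → Prop, p = fun z => z.re < 0 ∧ z.im ≤ 0 := ⟨_, rfl⟩
  obtain ⟨p4, hp4⟩ : ∃ p : GaussianInt → Prop, p = fun z => 0 ≤ z.re ∧ z.im < 0 := ⟨_, rfl⟩
  have c1 : ((As k).filter R1).card = ((As k).filter p2).card := rotA_card R1 p2 (by
    intro z; rw [hp2]; unfold R1; simp only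
    constructor <;> rintro ⟨h1, h2⟩ <;> constructor <;> omega)
  have c2 : ((As k).filter p2).card = ((As k).filter p3).card := rotA_card p2 p3 (by
    intro z; rw [hp2, hp3]; simp only
    constructor <;> rintro ⟨h1, h2⟩ <;> constructor <;> omega)
  have c3 : ((As k).filter p3).card = ((As k).filter p4).card := rotA_card p3 p4 (by
    intro z; rw [hp3, hp4]; simp only
    constructor <;> rintro ⟨h1, h2⟩ <;> constructor <;> omega)
  have hU : As k = ((As k).filter R1 ∪ (As k).filter p2) ∪ ((As k).filter p3 ∪ (As k).filter p4) := by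
    ext z
    simp only [Finset.mem_union, Finset.mem_filter]
    constructor
    · intro hz
      have h1 := mem_As'.mp hz
      have h2 : ¬ (z.re = 0 ∧ z.im = 0) := by
        rintro ⟨h3, h4⟩
        rw [h3, h4] at h1
        have : (k:ℤ) = 0 := by rw [← h1]; norm_num
        omega
      by_cases a1 : R1 z
      · left; left; exact ⟨hz, a1⟩
      · by_cases a2 : p2 z
        · left; right; exact ⟨hz, a2⟩
        · by_cases a3 : p3 z
          · right; left; exact ⟨hz, a3⟩
          · right; right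
            refine ⟨hz, ?_⟩
            unfold R1 at a1
            simp only [hp2, hp3] at a2 a3
            rw [hp4]
            simp only
            omega
    · rintro ((h | h) | (h | h)) <;> exact h.1
  have hd1 : Disjoint ((As k).filter R1) ((As k).filter p2) := by
    rw [Finset.disjoint_left]
    intro z h1 h2
    rw [Finset.mem_filter] at h1 h2
    have a1 := h1.2
    have a2 := h2.2
    unfold R1 at a1
    simp only [hp2] at a2
    omega
  have hd2 : Disjoint ((As k).filter p3) ((As k).filter p4) := by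
    rw [Finset.disjoint_left]
    intro z h1 h2
    rw [Finset.mem_filter] at h1 h2
    have a1 := h1.2
    have a2 := h2.2
    simp only [hp3] at a1
    simp only [hp4] at a2
    omega
  have hd3 : Disjoint ((As k).filter R1 ∪ (As k).filter p2) ((As k).filter p3 ∪ (As k).filter p4) := by
    rw [Finset.disjoint_left]
    intro z h1 h2
    simp only [Finset.mem_union, Finset.mem_filter] at h1 h2
    unfold R1 at h1
    simp only [hp2] at h1
    simp only [hp3, hp4] at h2
    omega
  conv_lhs => rw [hU]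
  rw [Finset.card_union_of_disjoint hd3, Finset.card_union_of_disjoint hd1, Finset.card_union_of_disjoint hd2]
  omega

lemma quadA_card {y : ℕ} : ∑ k ∈ Finset.Icc 1 y, ((As k).filter R1).card = (Qs y).card + Nat.sqrt y := by
  classical
  have hd : Disjoint (Qs y) ((Finset.Icc 1 (Nat.sqrt y)).image (fun x => (x, (0:ℕ)))) := by
    rw [Finset.disjoint_left]
    intro p h1 h2
    rw [mem_Qs] at h1
    rw [Finset.mem_image] at h2
    obtain ⟨x, _, hx⟩ := h2
    have : p.2 = 0 := by rw [← hx]
    omega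
  have hcard : ((Finset.Icc 1 y).sigma (fun k => (As k).filter R1)).card =
      (Qs y ∪ ((Finset.Icc 1 (Nat.sqrt y)).image (fun x => (x, (0:ℕ))))).card := by
    apply Finset.card_bij (fun z _ => (z.2.re.toNat, z.2.im.toNat))
    · rintro ⟨k, z⟩ hz
      rw [Finset.mem_sigma, Finset.mem_Icc, Finset.mem_filter, mem_As'] at hz
      simp only at hz
      obtain ⟨⟨hk1, hk2⟩, h1, h4, h5⟩ := hz
      obtain ⟨x, hx⟩ := Int.eq_ofNat_of_zero_le h4.le
      obtain ⟨t, ht⟩ := Int.eq_ofNat_of_zero_le h5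
      simp only
      rw [hx, ht] at h1 ⊢
      rw [hx] at h4
      simp only [Int.toNat_natCast]
      have hx1 : 1 ≤ x := by omega
      have hn : x ^ 2 + t ^ 2 = k := by exact_mod_cast h1
      rw [Finset.mem_union, mem_Qs, Finset.mem_image]
      rcases Nat.eq_zero_or_pos t with h0 | h0
      · right
        subst h0
        refine ⟨x, ?_, rfl⟩
        rw [Finset.mem_Icc, Nat.le_sqrt']
        exact ⟨hx1, by simp at hn; omega⟩
      · left
        exact ⟨hx1, h0, by simp only; omega⟩
    · rintro ⟨k, z⟩ hz ⟨k', z'⟩ hz' heq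
      rw [Finset.mem_sigma, Finset.mem_Icc, Finset.mem_filter, mem_As'] at hz hz'
      simp only at hz hz'
      obtain ⟨⟨hk1, hk2⟩, h1, h4, h5⟩ := hz
      obtain ⟨⟨hk1', hk2'⟩, h1', h4', h5'⟩ := hz'
      simp only [Prod.mk.injEq] at heq
      have e1 : z.re = z'.re := by omega
      have e2 : z.im = z'.im := by omega
      have e3 : z = z' := Zsqrtd.ext e1 e2
      subst e3
      have e4 : k = k' := by
        have : (k:ℤ) = k' := by rw [← h1, ← h1']
        exact_mod_cast this
      subst e4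
      rfl
    · rintro ⟨x, t⟩ hp
      rw [Finset.mem_union, mem_Qs, Finset.mem_image] at hp
      have hall : 1 ≤ x ∧ x ^ 2 + t ^ 2 ≤ y := by
        rcases hp with h | ⟨x', h1, h2⟩
        · exact ⟨h.1, h.2.2⟩
        · rw [Finset.mem_Icc, Nat.le_sqrt'] at h1
          simp only [Prod.mk.injEq] at h2
          obtain ⟨h3, h4⟩ := h2
          subst h3; subst h4
          exact ⟨h1.1, by simpa using h1.2⟩
      obtain ⟨h1, h2⟩ := hall
      refine ⟨⟨x ^ 2 + t ^ 2, ⟨(x:ℤ), (t:ℤ)⟩⟩, ?_, ?_⟩
      · rw [Finset.mem_sigma, Finset.mem_Icc, Finset.mem_filter, mem_As']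
        simp only
        refine ⟨⟨?_, h2⟩, by push_cast; ring, ?_⟩
        · have : 1 ≤ x ^ 2 := Nat.one_le_pow _ _ h1
          omega
        · unfold R1; simp only; omega
      · simp
  rw [Finset.card_sigma, Finset.card_union_of_disjoint hd, Finset.card_image_of_injective, Nat.card_Icc, Nat.add_sub_cancel] at hcard
  · exact hcard
  · intro a b hab
    simp only [Prod.mk.injEq, and_true] at hab
    exact hab

/-- the circle problem with the trivial error term -/
theorem rA_asymp (y : ℕ) : |∑ k ∈ Finset.Icc 1 y, rA k - Real.pi * y| ≤ 20 * √(y:ℝ) := by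
  have h1 : (∑ k ∈ Finset.Icc 1 y, rA k) = 4 * (((Qs y).card : ℝ) + Nat.sqrt y) := by
    have h2 : ∑ k ∈ Finset.Icc 1 y, (As k).card = 4 * ((Qs y).card + Nat.sqrt y) := by
      rw [← quadA_card, Finset.mul_sum]
      apply Finset.sum_congr rfl
      intro k hk
      rw [Finset.mem_Icc] at hk
      exact As_card hk.1
    have h3 : ((∑ k ∈ Finset.Icc 1 y, (As k).card : ℕ) : ℝ) = ((4 * ((Qs y).card + Nat.sqrt y) : ℕ) : ℝ) := by rw [h2]
    push_cast at h3
    rw [← h3]
    apply Finset.sum_congr rfl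
    intro k _
    rw [card_As]
  have h2 := abs_le.mp (Qs_asymp y)
  have h3 : ((Nat.sqrt y : ℕ) : ℝ) ≤ √(y:ℝ) := Real.nat_sqrt_le_real_sqrt
  have h4 : (0:ℝ) ≤ ((Nat.sqrt y : ℕ) : ℝ) := Nat.cast_nonneg _
  rw [h1, abs_le]
  constructor <;> linarith [h2.1, h2.2]

end Pool.Agent.D0H53.CL
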