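import Mathlib
import Pool.Agent.D0H53.CL.A4

/-! The mean square of the number of representations by two squares. -/

set_option autoImplicit false

open Filter Topology
open Pool.Agent.H383.Gauss Pool.Agent.N48.Ann

namespace Pool.Agent.D0H53.CL

lemma conv_sum (f g : ℕ → ℝ) (X : ℕ) : ∑ m ∈ Finset.Icc 1 X, ∑ x ∈ m.divisorsAntidiagonal, f x.1 * g x.2 =
    ∑ n ∈ Finset.Icc 1 X, g n * ∑ m ∈ Finset.Icc 1 (X / n), f m := by
  obtain ⟨F, hF⟩ : ∃ F : ArithmeticFunction ℝ, F = ⟨fun n => if n = 0 then 0 else f n, by simp⟩ := ⟨_, rfl⟩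
  obtain ⟨G, hG⟩ : ∃ G : ArithmeticFunction ℝ, G = ⟨fun n => if n = 0 then 0 else g n, by simp⟩ := ⟨_, rfl⟩
  have hF1 : ∀ n, 1 ≤ n → F n = f n := by
    intro n hn
    rw [hF]
    exact if_neg (by omega)
  have hG1 : ∀ n, 1 ≤ n → G n = g n := by
    intro n hn
    rw [hG]
    exact if_neg (by omega)
  have hIcc : ∀ N : ℕ, Finset.Icc 1 N = Finset.Ioc 0 N := by
    intro N; ext a; rw [Finset.mem_Icc, Finset.mem_Ioc]; omega
  have h := ArithmeticFunction.sum_Ioc_mul_eq_sum_sum G F X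
  have h1 : ∑ m ∈ Finset.Icc 1 X, ∑ x ∈ m.divisorsAntidiagonal, f x.1 * g x.2 = ∑ n ∈ Finset.Ioc 0 X, (G * F) n := by
    rw [hIcc]
    apply Finset.sum_congr rfl
    intro m _
    rw [mul_comm G F, ArithmeticFunction.mul_apply]
    apply Finset.sum_congr rfl
    intro x hx
    rw [Nat.mem_divisorsAntidiagonal] at hx
    have h1 : 1 ≤ x.1 := by
      rcases Nat.eq_zero_or_pos x.1 with h0 | h0
      · exfalso; apply hx.2; rw [← hx.1, h0, zero_mul]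
      · exact h0
    have h2 : 1 ≤ x.2 := by
      rcases Nat.eq_zero_or_pos x.2 with h0 | h0
      · exfalso; apply hx.2; rw [← hx.1, h0, mul_zero]
      · exact h0
    rw [hF1 _ h1, hG1 _ h2]
  rw [h1, h, ← hIcc]
  apply Finset.sum_congr rfl
  intro n hn
  rw [Finset.mem_Icc] at hn
  rw [hG1 n hn.1, ← hIcc]
  congr 1
  apply Finset.sum_congr rfl
  intro m hm
  rw [Finset.mem_Icc] at hm
  rw [hF1 m hm.1]

/-- number of primitive points -/
noncomputable def pc (k : ℕ) : ℝ := ((Pf k).card : ℝ)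

lemma pc_nonneg (k : ℕ) : 0 ≤ pc k := Nat.cast_nonneg _

lemma pc_inv : ∃ C : ℝ, 0 < C ∧ ∀ X : ℕ, 1 ≤ X → |∑ k ∈ Finset.Icc 1 X, pc k * (1 / (k:ℝ)) - 4 / Real.pi * Real.log X| ≤ C := by
  obtain ⟨C, hC, h⟩ := Pf_asymp
  have hpi := Real.pi_gt_three
  obtain ⟨Z, hZ⟩ : ∃ Z : ℝ, Z = ∑' n : ℕ, (n:ℝ) ^ (-(5/4):ℝ) := ⟨_, rfl⟩
  have hZs : Summable (fun n : ℕ => (n:ℝ) ^ (-(5/4):ℝ)) := by
    rw [Real.summable_nat_rpow]; norm_num
  have hZ0 : 0 ≤ Z := by rw [hZ]; exact tsum_nonneg (fun n => by positivity)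
  refine ⟨C + C * Z + 2, by positivity, ?_⟩
  intro X hX
  have hX1 : (1:ℝ) ≤ X := by exact_mod_cast hX
  have hX0 : (0:ℝ) < X := by linarith
  have h1 : |∑ k ∈ Finset.Icc 1 X, (pc k - 4 / Real.pi) * (1 / (k:ℝ))| ≤ C + C * Z := by
    refine (abel_gen (D := fun k => pc k - 4 / Real.pi) (f := fun k => 1 / (k:ℝ)) (B := fun k => C * (k:ℝ) ^ (3/4:ℝ)) h hX).trans ?_
    apply add_le_add
    · rw [abs_of_pos (by positivity)]
      have h2 : (X:ℝ) ^ (3/4:ℝ) ≤ X := by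
        calc (X:ℝ) ^ (3/4:ℝ) ≤ (X:ℝ) ^ (1:ℝ) := Real.rpow_le_rpow_of_exponent_le hX1 (by norm_num)
          _ = X := Real.rpow_one _
      calc C * (X:ℝ) ^ (3/4:ℝ) * (1 / X) ≤ C * X * (1 / X) := by gcongr
        _ = C := by field_simp
    · calc ∑ k ∈ Finset.Icc 1 (X-1), C * (k:ℝ) ^ (3/4:ℝ) * |1 / (k:ℝ) - 1 / ((k+1 : ℕ) : ℝ)|
          ≤ ∑ k ∈ Finset.Icc 1 (X-1), C * (k:ℝ) ^ (-(5/4):ℝ) := by
            apply Finset.sum_le_sum
            intro k hk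
            rw [Finset.mem_Icc] at hk
            have hk0 : (0:ℝ) < k := by exact_mod_cast hk.1
            have h2 : |1 / (k:ℝ) - 1 / ((k+1 : ℕ) : ℝ)| ≤ (k:ℝ) ^ (-(2:ℝ)) := by
              push_cast
              have e : 1 / (k:ℝ) - 1 / ((k:ℝ)+1) = 1 / (k * (k+1)) := by field_simp; ring
              rw [e, abs_of_pos (by positivity), Real.rpow_neg hk0.le, ← one_div]
              apply one_div_le_one_div_of_le (by positivity)
              rw [show (2:ℝ) = ((2:ℕ):ℝ) by norm_num, Real.rpow_natCast]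
              nlinarith
            calc C * (k:ℝ) ^ (3/4:ℝ) * |1 / (k:ℝ) - 1 / ((k+1 : ℕ) : ℝ)| ≤ C * (k:ℝ) ^ (3/4:ℝ) * (k:ℝ) ^ (-(2:ℝ)) := by gcongr
              _ = C * (k:ℝ) ^ (-(5/4):ℝ) := by
                  rw [mul_assoc, ← Real.rpow_add hk0]; norm_num
        _ = C * ∑ k ∈ Finset.Icc 1 (X-1), (k:ℝ) ^ (-(5/4):ℝ) := by rw [Finset.mul_sum]
        _ ≤ C * Z := by
            apply mul_le_mul_of_nonneg_left _ hC.le
            rw [hZ]
            exact hZs.sum_le_tsum _ (fun t _ => by positivity)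
  have h2 : ∑ k ∈ Finset.Icc 1 X, (pc k - 4 / Real.pi) * (1 / (k:ℝ)) = ∑ k ∈ Finset.Icc 1 X, pc k * (1 / (k:ℝ)) -
      4 / Real.pi * (harmonic X : ℝ) := by
    have : ((harmonic X : ℚ) : ℝ) = ∑ k ∈ Finset.Icc 1 X, 1 / (k:ℝ) := by
      rw [harmonic_eq_sum_Icc]; push_cast
      apply Finset.sum_congr rfl
      intro k _
      rw [one_div]
    rw [this, Finset.mul_sum, ← Finset.sum_sub_distrib]
    apply Finset.sum_congr rfl
    intro k _
    ring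
  have h3 : Real.log X ≤ (harmonic X : ℝ) := by
    have := log_add_one_le_harmonic X
    refine le_trans ?_ this
    apply Real.log_le_log hX0
    push_cast; linarith
  have h4 : (harmonic X : ℝ) ≤ 1 + Real.log X := harmonic_le_one_add_log X
  have h5 : 4 / Real.pi ≤ 2 := by
    rw [div_le_iff₀ (by positivity)]; linarith
  have h6 : 0 < 4 / Real.pi := by positivity
  have h7 : 4 / Real.pi * ((harmonic X : ℝ) - Real.log X) ≤ 2 := by nlinarith
  have h8 : 0 ≤ 4 / Real.pi * ((harmonic X : ℝ) - Real.log X) := by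
    apply mul_nonneg h6.le; linarith
  rw [h2] at h1
  obtain ⟨p1, p2⟩ := abs_le.mp h1
  rw [abs_le]
  constructor <;> nlinarith

lemma pc_sqrt : ∃ C : ℝ, 0 < C ∧ ∀ X : ℕ, 1 ≤ X → ∑ k ∈ Finset.Icc 1 X, pc k * (1 / √(k:ℝ)) ≤ C * √(X:ℝ) := by
  obtain ⟨C, hC, h⟩ := Pf_asymp
  have hpi := Real.pi_gt_three
  refine ⟨C + 4 * C + 4, by positivity, ?_⟩
  intro X hX
  have hX1 : (1:ℝ) ≤ X := by exact_mod_cast hX
  have hX0 : (0:ℝ) < X := by linarith
  have h1 : |∑ k ∈ Finset.Icc 1 X, (pc k - 4 / Real.pi) * (1 / √(k:ℝ))| ≤ (C + 4 * C) * (X:ℝ) ^ (1/4:ℝ) := by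
    refine (abel_gen (D := fun k => pc k - 4 / Real.pi) (f := fun k => 1 / √(k:ℝ)) (B := fun k => C * (k:ℝ) ^ (3/4:ℝ)) h hX).trans ?_
    rw [add_mul]
    apply add_le_add
    · rw [abs_of_pos (by positivity)]
      have e : (X:ℝ) ^ (3/4:ℝ) * (1 / √(X:ℝ)) = (X:ℝ) ^ (1/4:ℝ) := by
        rw [one_div, Real.sqrt_eq_rpow, ← Real.rpow_neg hX0.le, ← Real.rpow_add hX0]; norm_num
      rw [mul_assoc, e]
    · calc ∑ k ∈ Finset.Icc 1 (X-1), C * (k:ℝ) ^ (3/4:ℝ) * |1 / √(k:ℝ) - 1 / √((k+1 : ℕ) : ℝ)|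
          ≤ ∑ k ∈ Finset.Icc 1 (X-1), C * (k:ℝ) ^ (-(3/4):ℝ) := by
            apply Finset.sum_le_sum
            intro k hk
            rw [Finset.mem_Icc] at hk
            have hk0 : (0:ℝ) < k := by exact_mod_cast hk.1
            have h2 : |1 / √(k:ℝ) - 1 / √((k+1 : ℕ) : ℝ)| ≤ (k:ℝ) ^ (-(3/2):ℝ) := by
              push_cast
              have hs : 0 < √(k:ℝ) := Real.sqrt_pos.mpr hk0
              have hs1 : 0 < √((k:ℝ)+1) := Real.sqrt_pos.mpr (by linarith)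
              have hss : √(k:ℝ) ≤ √((k:ℝ)+1) := Real.sqrt_le_sqrt (by linarith)
              have e1 : √(k:ℝ) * √(k:ℝ) = k := Real.mul_self_sqrt hk0.le
              have e2 : √((k:ℝ)+1) * √((k:ℝ)+1) = k + 1 := Real.mul_self_sqrt (by linarith)
              rw [abs_of_nonneg (sub_nonneg.mpr (one_div_le_one_div_of_le hs hss))]
              have e3 : 1 / √(k:ℝ) - 1 / √((k:ℝ)+1) = (√((k:ℝ)+1) - √(k:ℝ)) / (√(k:ℝ) * √((k:ℝ)+1)) := by field_simp
              have e4 : √((k:ℝ)+1) - √(k:ℝ) ≤ 1 / √(k:ℝ) := by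
                rw [le_div_iff₀ hs]; nlinarith
              have e5 : (k:ℝ) ^ (-(3/2):ℝ) = (1 / √(k:ℝ)) / (√(k:ℝ) * √(k:ℝ)) := by
                rw [e1, Real.sqrt_eq_rpow, one_div, ← Real.rpow_neg hk0.le]
                nth_rewrite 3 [← Real.rpow_one (k:ℝ)]
                rw [← Real.rpow_sub hk0]; norm_num
              rw [e3, e5]
              gcongr
            calc C * (k:ℝ) ^ (3/4:ℝ) * |1 / √(k:ℝ) - 1 / √((k+1 : ℕ) : ℝ)| ≤ C * (k:ℝ) ^ (3/4:ℝ) * (k:ℝ) ^ (-(3/2):ℝ) := by gcongr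
              _ = C * (k:ℝ) ^ (-(3/4):ℝ) := by
                  rw [mul_assoc, ← Real.rpow_add hk0]; norm_num
        _ = C * ∑ k ∈ Finset.Icc 1 (X-1), (k:ℝ) ^ (-(3/4):ℝ) := by rw [Finset.mul_sum]
        _ ≤ C * ∑ k ∈ Finset.Icc 1 X, (k:ℝ) ^ (-(3/4):ℝ) := by
            apply mul_le_mul_of_nonneg_left _ hC.le
            apply Finset.sum_le_sum_of_subset_of_nonneg
            · exact Finset.Icc_subset_Icc_right (Nat.sub_le X 1)
            · intro _ _ _; positivity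
        _ ≤ C * (4 * (X:ℝ) ^ (1/4:ℝ)) := by
            apply mul_le_mul_of_nonneg_left _ hC.le
            have := head_rpow (s := 3/4) (by norm_num) (by norm_num) X
            refine this.trans (le_of_eq ?_)
            norm_num; ring
        _ = 4 * C * (X:ℝ) ^ (1/4:ℝ) := by ring
  have h2 : ∑ k ∈ Finset.Icc 1 X, pc k * (1 / √(k:ℝ)) = ∑ k ∈ Finset.Icc 1 X, (pc k - 4 / Real.pi) * (1 / √(k:ℝ)) +
      4 / Real.pi * ∑ k ∈ Finset.Icc 1 X, 1 / √(k:ℝ) := by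
    rw [Finset.mul_sum, ← Finset.sum_add_distrib]
    apply Finset.sum_congr rfl
    intro k _
    ring
  have h3 := sum_inv_sqrt X
  have h4 : (X:ℝ) ^ (1/4:ℝ) ≤ √(X:ℝ) := by
    rw [Real.sqrt_eq_rpow]
    exact Real.rpow_le_rpow_of_exponent_le hX1 (by norm_num)
  have h5 : 4 / Real.pi ≤ 2 := by
    rw [div_le_iff₀ (by positivity)]; linarith
  have h6 : 4 / Real.pi * ∑ k ∈ Finset.Icc 1 X, 1 / √(k:ℝ) ≤ 2 * (2 * √(X:ℝ)) := by
    apply mul_le_mul h5 h3 _ (by norm_num)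
    exact Finset.sum_nonneg (fun _ _ => by positivity)
  have h7 : (C + 4 * C) * (X:ℝ) ^ (1/4:ℝ) ≤ (C + 4 * C) * √(X:ℝ) := by gcongr
  rw [h2]
  have h8 := (abs_le.mp h1).2
  nlinarith

/-- the mean square of `r₂` -/
theorem sum_rA_sq : ∃ C : ℝ, 0 < C ∧ ∀ X : ℕ, 1 ≤ X → |∑ m ∈ Finset.Icc 1 X, (rA m)^2 - 4 * (X * Real.log X)| ≤ C * X := by
  obtain ⟨C1, hC1, h1⟩ := pc_inv
  obtain ⟨C2, hC2, h2⟩ := pc_sqrt
  have hpi := Real.pi_gt_three
  have hpi4 := Real.pi_lt_four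
  refine ⟨24 * C2 + 4 * C1, by positivity, ?_⟩
  intro X hX
  have hX1 : (1:ℝ) ≤ X := by exact_mod_cast hX
  have hX0 : (0:ℝ) < X := by linarith
  have e1 : ∑ m ∈ Finset.Icc 1 X, (rA m)^2 = ∑ k ∈ Finset.Icc 1 X, pc k * ∑ d ∈ Finset.Icc 1 (X / k), rA d := by
    rw [← conv_sum]
    apply Finset.sum_congr rfl
    intro m hm
    rw [Finset.mem_Icc] at hm
    exact rA_sq_eq hm.1
  have e2 : |∑ k ∈ Finset.Icc 1 X, pc k * (∑ d ∈ Finset.Icc 1 (X / k), rA d - Real.pi * (X / k))| ≤ 24 * C2 * X := by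
    refine (Finset.abs_sum_le_sum_abs _ _).trans ?_
    calc ∑ k ∈ Finset.Icc 1 X, |pc k * (∑ d ∈ Finset.Icc 1 (X / k), rA d - Real.pi * (X / k))|
        ≤ ∑ k ∈ Finset.Icc 1 X, (24 * √(X:ℝ)) * (pc k * (1 / √(k:ℝ))) := by
          apply Finset.sum_le_sum
          intro k hk
          rw [Finset.mem_Icc] at hk
          have hk0 : (0:ℝ) < k := by exact_mod_cast hk.1
          have hkX : (k:ℝ) ≤ X := by exact_mod_cast hk.2
          rw [abs_mul, abs_of_nonneg (pc_nonneg k)]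
          have h3 := abs_le.mp (rA_asymp (X / k))
          have h4 : ((X / k : ℕ) : ℝ) ≤ (X:ℝ) / k := Nat.cast_div_le
          have h5 : (X:ℝ) / k - 1 ≤ ((X / k : ℕ) : ℝ) := by
            have h6 : X < k * (X / k + 1) := Nat.lt_mul_div_succ X hk.1
            have h7 : (X:ℝ) < k * (((X / k : ℕ) : ℝ) + 1) := by exact_mod_cast h6
            rw [sub_le_iff_le_add, div_le_iff₀ hk0]
            linarith
          have h6 : √((X / k : ℕ) : ℝ) ≤ √((X:ℝ) / k) := Real.sqrt_le_sqrt h4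
          have h7 : 1 ≤ √((X:ℝ) / k) := by
            rw [Real.one_le_sqrt, one_le_div hk0]; exact hkX
          have h8 : √((X:ℝ) / k) = √(X:ℝ) * (1 / √(k:ℝ)) := by
            rw [Real.sqrt_div hX0.le]; ring
          have h9 : |∑ d ∈ Finset.Icc 1 (X / k), rA d - Real.pi * (X / k)| ≤ 24 * √((X:ℝ) / k) := by
            rw [abs_le]
            constructor <;> nlinarith [h3.1, h3.2]
          calc pc k * |∑ d ∈ Finset.Icc 1 (X / k), rA d - Real.pi * (X / k)| ≤ pc k * (24 * √((X:ℝ) / k)) :=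
                mul_le_mul_of_nonneg_left h9 (pc_nonneg k)
            _ = _ := by rw [h8]; ring
      _ = (24 * √(X:ℝ)) * ∑ k ∈ Finset.Icc 1 X, pc k * (1 / √(k:ℝ)) := by rw [Finset.mul_sum]
      _ ≤ (24 * √(X:ℝ)) * (C2 * √(X:ℝ)) := mul_le_mul_of_nonneg_left (h2 X hX) (by positivity)
      _ = 24 * C2 * (√(X:ℝ) * √(X:ℝ)) := by ring
      _ = 24 * C2 * X := by rw [Real.mul_self_sqrt hX0.le]
  have e3 : ∑ k ∈ Finset.Icc 1 X, pc k * (∑ d ∈ Finset.Icc 1 (X / k), rA d - Real.pi * (X / k)) =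
      ∑ m ∈ Finset.Icc 1 X, (rA m)^2 - Real.pi * X * ∑ k ∈ Finset.Icc 1 X, pc k * (1 / (k:ℝ)) := by
    rw [e1, Finset.mul_sum, ← Finset.sum_sub_distrib]
    apply Finset.sum_congr rfl
    intro k _
    ring
  rw [e3] at e2
  have h3 := h1 X hX
  have e4 : |Real.pi * X * ∑ k ∈ Finset.Icc 1 X, pc k * (1 / (k:ℝ)) - 4 * (X * Real.log X)| ≤ 4 * C1 * X := by
    have e5 : Real.pi * X * ∑ k ∈ Finset.Icc 1 X, pc k * (1 / (k:ℝ)) - 4 * (X * Real.log X) =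
        Real.pi * X * (∑ k ∈ Finset.Icc 1 X, pc k * (1 / (k:ℝ)) - 4 / Real.pi * Real.log X) := by
      field_simp
    rw [e5, abs_mul, abs_of_pos (by positivity)]
    calc Real.pi * X * |∑ k ∈ Finset.Icc 1 X, pc k * (1 / (k:ℝ)) - 4 / Real.pi * Real.log X| ≤ 4 * X * C1 := by gcongr
      _ = _ := by ring
  obtain ⟨p1, p2⟩ := abs_le.mp e2
  obtain ⟨p3, p4⟩ := abs_le.mp e4
  rw [abs_le]
  constructor <;> linarith

end Pool.Agent.D0H53.CL
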