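import Mathlib
import Pool.Agent.D0H53.CL.A5

/-! The number of points on the circle of integer radius as a divisor sum. -/

set_option autoImplicit false

open Filter Topology
open Pool.Agent.H383 Pool.Agent.H383.Gauss Pool.Agent.N48.Ann

namespace Pool.Agent.D0H53.CL

lemma conv2 (G : ℕ → ℕ → ℝ) (X : ℕ) : ∑ m ∈ Finset.Icc 1 X, ∑ x ∈ m.divisorsAntidiagonal, G x.1 x.2 =
    ∑ n ∈ Finset.Icc 1 X, ∑ m ∈ Finset.Icc 1 (X / n), G m n := by
  rw [Finset.sum_sigma', Finset.sum_sigma']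
  refine Finset.sum_bij' (fun a _ => (⟨a.2.2, a.2.1⟩ : Σ _ : ℕ, ℕ)) (fun b _ => (⟨b.2 * b.1, (b.2, b.1)⟩ : Σ _ : ℕ, ℕ × ℕ)) ?_ ?_ ?_ ?_ ?_
  · rintro ⟨m, x, y⟩ h
    rw [Finset.mem_sigma, Finset.mem_Icc, Nat.mem_divisorsAntidiagonal] at h
    simp only at h
    obtain ⟨⟨h1, h2⟩, h3, h4⟩ := h
    have hx : 0 < x := by rcases Nat.eq_zero_or_pos x with h | h; · rw [h] at h3; omega
                          · exact h
    have hy : 0 < y := by rcases Nat.eq_zero_or_pos y with h | h; · rw [h] at h3; omega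
                          · exact h
    rw [Finset.mem_sigma, Finset.mem_Icc, Finset.mem_Icc, Nat.le_div_iff_mul_le hy]
    simp only
    refine ⟨⟨hy, ?_⟩, hx, by omega⟩
    nlinarith
  · rintro ⟨n, m⟩ h
    rw [Finset.mem_sigma, Finset.mem_Icc, Finset.mem_Icc] at h
    simp only at h
    obtain ⟨⟨h1, h2⟩, h3, h4⟩ := h
    rw [Nat.le_div_iff_mul_le (by omega)] at h4
    rw [Finset.mem_sigma, Finset.mem_Icc, Nat.mem_divisorsAntidiagonal]
    simp only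
    refine ⟨⟨by nlinarith, h4⟩, trivial, Nat.mul_ne_zero (by omega) (by omega)⟩
  · rintro ⟨m, x, y⟩ h
    rw [Finset.mem_sigma, Finset.mem_Icc, Nat.mem_divisorsAntidiagonal] at h
    simp only at h
    simp only [Sigma.mk.injEq, heq_eq_eq, and_true]
    exact h.2.1
  · rintro ⟨n, m⟩ _
    rfl
  · rintro ⟨m, x, y⟩ _
    rfl

noncomputable def Hc (y : ℕ) : ℝ := ((Qp 1 0 y).card : ℝ) + ((Qp 0 1 y).card : ℝ) + ((Qp 1 1 (2*y)).card : ℝ)

lemma Qp_empty {a b y : ℕ} (hy : y ≤ 1) : Qp a b y = ∅ := by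
  rw [Finset.eq_empty_iff_forall_notMem]
  intro p hp
  rw [mem_Qp] at hp
  obtain ⟨⟨⟨h1, h2, h3⟩, -, -⟩, -⟩ := hp
  have a1 := Nat.one_le_pow 2 _ h1
  have a2 := Nat.one_le_pow 2 _ h2
  omega

lemma Hc_zero : Hc 0 = 0 := by
  unfold Hc
  rw [Qp_empty (by omega), Qp_empty (by omega), Qp_empty (by omega)]; simp

lemma Qp_mono {a b y z : ℕ} (h : y ≤ z) : ((Qp a b y).card : ℝ) ≤ ((Qp a b z).card : ℝ) := by
  have : Qp a b y ⊆ Qp a b z := by
    intro p hp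
    rw [mem_Qp] at hp ⊢
    exact ⟨⟨⟨hp.1.1.1, hp.1.1.2.1, hp.1.1.2.2.trans h⟩, hp.1.2⟩, hp.2⟩
  exact_mod_cast Finset.card_le_card this

lemma Hc_mono {y z : ℕ} (h : y ≤ z) : Hc y ≤ Hc z := by
  unfold Hc
  have h1 := Qp_mono (a := 1) (b := 0) h
  have h2 := Qp_mono (a := 0) (b := 1) h
  have h3 := Qp_mono (a := 1) (b := 1) (show 2 * y ≤ 2 * z by omega)
  linarith

lemma Hc_asymp : ∃ C : ℝ, 0 < C ∧ ∀ y : ℕ, 1 ≤ y → |Hc y - 2 / Real.pi * y| ≤ C * (y:ℝ) ^ (3/4:ℝ) := by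
  obtain ⟨C, hC, h⟩ := Qp34
  have hpi := Real.pi_pos
  refine ⟨4 * C, by positivity, ?_⟩
  intro y hy
  have hy0 : (0:ℝ) < y := by exact_mod_cast hy
  have h1 := abs_le.mp (h 1 0 (by norm_num) (by norm_num) (by norm_num) y hy)
  have h2 := abs_le.mp (h 0 1 (by norm_num) (by norm_num) (by norm_num) y hy)
  have h3 := abs_le.mp (h 1 1 (by norm_num) (by norm_num) (by norm_num) (2*y) (by omega))
  have e : (((2*y:ℕ):ℝ)) ^ (3/4:ℝ) ≤ 2 * (y:ℝ) ^ (3/4:ℝ) := by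
    push_cast
    rw [Real.mul_rpow (by norm_num) hy0.le]
    have : (2:ℝ) ^ (3/4:ℝ) ≤ 2 := by
      calc (2:ℝ) ^ (3/4:ℝ) ≤ (2:ℝ) ^ (1:ℝ) := Real.rpow_le_rpow_of_exponent_le (by norm_num) (by norm_num)
        _ = 2 := Real.rpow_one 2
    gcongr
  have e2 : C * (((2*y:ℕ):ℝ)) ^ (3/4:ℝ) ≤ C * (2 * (y:ℝ) ^ (3/4:ℝ)) := mul_le_mul_of_nonneg_left e hC.le
  have e3 : 1 / (2 * Real.pi) * ((2 * y : ℕ):ℝ) = 1 / (2 * Real.pi) * y + 1 / (2 * Real.pi) * y := by push_cast; ring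
  have e4 : 2 / Real.pi * (y:ℝ) = 4 * (1 / (2 * Real.pi) * y) := by field_simp; ring
  rw [e3] at h3
  unfold Hc
  rw [e4, abs_le]
  constructor <;> linarith [h1.1, h1.2, h2.1, h2.2, h3.1, h3.2]

noncomputable def hc (n : ℕ) : ℝ := Hc n - Hc (n-1)

lemma hc_nonneg (n : ℕ) : 0 ≤ hc n := by
  unfold hc
  linarith [Hc_mono (show n - 1 ≤ n by omega)]

lemma hc_sum (y : ℕ) : ∑ n ∈ Finset.Icc 1 y, hc n = Hc y := by
  induction y with
  | zero => simp [Hc_zero]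
  | succ y ih =>
    rw [Finset.sum_Icc_succ_top (by omega), ih]
    unfold hc
    rw [Nat.add_sub_cancel]; ring

lemma Qp11_two (y : ℕ) : Qp 1 1 (2 * y + 1) = Qp 1 1 (2 * y) := by
  ext p
  rw [mem_Qp, mem_Qp]
  constructor
  · rintro ⟨⟨⟨h1, h2, h3⟩, h4, h5⟩, h6⟩
    refine ⟨⟨⟨h1, h2, ?_⟩, h4, h5⟩, h6⟩
    have e1 : p.1 ^ 2 % 2 = 1 := by rw [Nat.pow_mod, h4]
    have e2 : p.2 ^ 2 % 2 = 1 := by rw [Nat.pow_mod, h5]
    omega
  · rintro ⟨⟨⟨h1, h2, h3⟩, h4, h5⟩, h6⟩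
    exact ⟨⟨⟨h1, h2, by omega⟩, h4, h5⟩, h6⟩

lemma Lp11 (K : ℕ) : Lp 1 1 (2*K) = ∑ g ∈ Finset.Icc 1 K, (Qp 1 1 (2*(K/g))).card := by
  unfold Lp
  have hsub : Finset.Icc 1 K ⊆ Finset.Icc 1 (2*K) := Finset.Icc_subset_Icc_right (by omega)
  rw [← Finset.sum_subset hsub]
  · apply Finset.sum_congr rfl
    intro g hg
    rw [Finset.mem_Icc] at hg
    have hd : 2 * K / g = 2 * (K / g) ∨ 2 * K / g = 2 * (K / g) + 1 := by
      have h1 := Nat.div_add_mod K g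
      have h2 := Nat.mod_lt K (show 0 < g by omega)
      have h0 := Nat.zero_le (K % g)
      have h3 : 2 * (K / g) ≤ 2 * K / g := by
        rw [Nat.le_div_iff_mul_le (by omega)]
        generalize K / g = q at h1 ⊢
        generalize K % g = r at h1 h2 h0
        nlinarith
      have h4 : 2 * K / g < 2 * (K / g) + 2 := by
        rw [Nat.div_lt_iff_lt_mul (by omega)]
        generalize K / g = q at h1 ⊢
        generalize K % g = r at h1 h2 h0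
        nlinarith
      omega
    rcases hd with h | h
    · rw [h]
    · rw [h, Qp11_two]
  · intro g hg hg'
    rw [Finset.mem_Icc] at hg hg'
    rw [Qp_empty]
    · simp
    · have : 2 * K / g < 2 := by
        rw [Nat.div_lt_iff_lt_mul (by omega)]; omega
      omega

lemma gz_sum (K : ℕ) : ∑ k ∈ Finset.Icc 1 K, gz k = 2 * K + 2 * ∑ g ∈ Finset.Icc 1 K, Hc (K / g) := by
  have h := sum_Zk K
  rw [Lp11] at h
  unfold Lp at h
  have h' : ((∑ k ∈ Finset.Icc 1 K, (Zk k).card : ℕ) : ℝ) = ((2 * K + 2 * (∑ g ∈ Finset.Icc 1 K, (Qp 1 0 (K / g)).card +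
      ∑ g ∈ Finset.Icc 1 K, (Qp 0 1 (K / g)).card + ∑ g ∈ Finset.Icc 1 K, (Qp 1 1 (2*(K/g))).card) : ℕ) : ℝ) := by
    rw [h]
  push_cast at h'
  unfold gz Hc
  rw [h', Finset.sum_add_distrib, Finset.sum_add_distrib]

lemma gz_eq {k : ℕ} (hk : 1 ≤ k) : gz k = 2 + 2 * ∑ x ∈ k.divisorsAntidiagonal, hc x.2 := by
  have key : ∀ K : ℕ, ∑ k ∈ Finset.Icc 1 K, gz k = ∑ k ∈ Finset.Icc 1 K, (2 + 2 * ∑ x ∈ k.divisorsAntidiagonal, hc x.2) := by
    intro K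
    rw [gz_sum, Finset.sum_add_distrib, ← Finset.mul_sum]
    have h1 := conv2 (fun _ n => hc n) K
    rw [h1]
    have h2 : ∑ n ∈ Finset.Icc 1 K, ∑ m ∈ Finset.Icc 1 (K / n), hc n = ∑ g ∈ Finset.Icc 1 K, Hc (K / g) := by
      simp_rw [← hc_sum]
      have a1 := conv2 (fun m n => hc m) K
      have a2 := conv2 (fun m n => hc n) K
      rw [← a1, ← a2]
      apply Finset.sum_congr rfl
      intro m _
      rw [← Nat.map_swap_divisorsAntidiagonal, Finset.sum_map]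
      simp
    rw [h2]
    simp
    ring
  have h1 := key k
  have h2 := key (k-1)
  obtain ⟨j, rfl⟩ : ∃ j, k = j + 1 := ⟨k-1, by omega⟩
  rw [Nat.add_sub_cancel] at h2
  rw [Finset.sum_Icc_succ_top (by omega), Finset.sum_Icc_succ_top (by omega), h2] at h1
  linarith

/-- the divisor form of the resonant sum -/
lemma B_div (φ t : ℝ) (M : ℕ) : ∑ k ∈ Finset.Icc 1 M, gz k * ff φ t k = 2 * ∑ k ∈ Finset.Icc 1 M, ff φ t k +
    2 * ∑ n ∈ Finset.Icc 1 M, hc n * (n:ℝ) ^ (-(3/2):ℝ) * ∑ j ∈ Finset.Icc 1 (M / n), ff φ (n * t) j := by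
  have h1 : ∑ k ∈ Finset.Icc 1 M, gz k * ff φ t k = ∑ k ∈ Finset.Icc 1 M, (2 * ff φ t k +
      2 * ∑ x ∈ k.divisorsAntidiagonal, hc x.2 * ff φ t ((x.1:ℝ) * x.2)) := by
    apply Finset.sum_congr rfl
    intro k hk
    rw [Finset.mem_Icc] at hk
    rw [gz_eq hk.1, add_mul, mul_assoc, Finset.sum_mul]
    congr 2
    apply Finset.sum_congr rfl
    intro x hx
    rw [Nat.mem_divisorsAntidiagonal] at hx
    rw [← hx.1]; push_cast; ring
  rw [h1, Finset.sum_add_distrib, ← Finset.mul_sum, ← Finset.mul_sum, conv2 (fun m n => hc n * ff φ t ((m:ℝ) * n))]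
  congr 2
  apply Finset.sum_congr rfl
  intro n hn
  rw [Finset.mem_Icc] at hn
  have hn0 : (0:ℝ) < n := by exact_mod_cast hn.1
  rw [Finset.mul_sum]
  apply Finset.sum_congr rfl
  intro j hj
  rw [Finset.mem_Icc] at hj
  have hj0 : (0:ℝ) < j := by exact_mod_cast hj.1
  unfold ff
  rw [Real.mul_rpow hj0.le hn0.le]
  rw [show (j:ℝ) * n * t = j * (n * t) by ring]
  ring

end Pool.Agent.D0H53.CL
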