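import Mathlib
import Pool.Agent.D0H53.CL.A9
import Pool.Agent.N48.Ann.NT10

/-! The resonant sum with a sharp error term. -/

set_option autoImplicit false

open Filter Topology
open Pool.Agent.H383 Pool.Agent.H383.Gauss Pool.Agent.N48.Ann

namespace Pool.Agent.D0H53.CL

lemma hc_inv : ∃ C : ℝ, 0 < C ∧ ∀ X : ℕ, 1 ≤ X → |∑ k ∈ Finset.Icc 1 X, hc k * (1 / (k:ℝ)) - 2 / Real.pi * Real.log X| ≤ C := by
  obtain ⟨C, hC, hh⟩ := Hc_asymp
  have hpi := Real.pi_gt_three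
  obtain ⟨Z, hZ⟩ : ∃ Z : ℝ, Z = ∑' n : ℕ, (n:ℝ) ^ (-(5/4):ℝ) := ⟨_, rfl⟩
  have hZs : Summable (fun n : ℕ => (n:ℝ) ^ (-(5/4):ℝ)) := by
    rw [Real.summable_nat_rpow]; norm_num
  have hZ0 : 0 ≤ Z := by rw [hZ]; exact tsum_nonneg (fun n => by positivity)
  refine ⟨C + C * Z + 2, by positivity, ?_⟩
  intro X hX
  have hX1 : (1:ℝ) ≤ X := by exact_mod_cast hX
  have hX0 : (0:ℝ) < X := by linarith
  have h : ∀ y : ℕ, 1 ≤ y → |∑ k ∈ Finset.Icc 1 y, (hc k - 2 / Real.pi)| ≤ C * (y:ℝ) ^ (3/4:ℝ) := by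
    intro y hy
    have e : ∑ k ∈ Finset.Icc 1 y, (hc k - 2 / Real.pi) = Hc y - 2 / Real.pi * y := by
      rw [Finset.sum_sub_distrib, hc_sum]; simp; ring
    rw [e]; exact hh y hy
  have h1 : |∑ k ∈ Finset.Icc 1 X, (hc k - 2 / Real.pi) * (1 / (k:ℝ))| ≤ C + C * Z := by
    refine (abel_gen (D := fun k => hc k - 2 / Real.pi) (f := fun k => 1 / (k:ℝ)) (B := fun k => C * (k:ℝ) ^ (3/4:ℝ)) h hX).trans ?_
    apply add_le_add
    · rw [abs_of_pos (by positivity)]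
      have h2 : (X:ℝ) ^ (3/4:ℝ) ≤ X := by
        calc (X:ℝ) ^ (3/4:ℝ) ≤ (X:ℝ) ^ (1:ℝ) := Real.rpow_le_rpow_of_exponent_le hX1 (by norm_num)
          _ = X := Real.rpow_one _
      calc C * (X:ℝ) ^ (3/4:ℝ) * (1 / X) ≤ C * X * (1 / X) := by gcongr
        _ = C := by field_simp
    · calc ∑ k ∈ Finset.Icc 1 (X-1), C * (k:ℝ) ^ (3/4:ℝ) * |1 / (k:ℝ) - 1 / ((k+1 : ℕ) : ℝ)|
          ≤ ∑ k ∈ Finset.Icc 1 (X-1), C * (k:ℝ) ^ (-(5/4):ℝ) := by
            apply Finset.sum_le_sum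
            intro k hk
            rw [Finset.mem_Icc] at hk
            have hk0 : (0:ℝ) < k := by exact_mod_cast hk.1
            have h2 : |1 / (k:ℝ) - 1 / ((k+1 : ℕ) : ℝ)| ≤ (k:ℝ) ^ (-(2:ℝ)) := by
              push_cast
              have e : 1 / (k:ℝ) - 1 / ((k:ℝ)+1) = 1 / (k * (k+1)) := by field_simp; ring
              rw [e, abs_of_pos (by positivity), Real.rpow_neg hk0.le, ← one_div]
              apply one_div_le_one_div_of_le (by positivity)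
              rw [show (2:ℝ) = ((2:ℕ):ℝ) by norm_num, Real.rpow_natCast]
              nlinarith
            calc C * (k:ℝ) ^ (3/4:ℝ) * |1 / (k:ℝ) - 1 / ((k+1 : ℕ) : ℝ)| ≤ C * (k:ℝ) ^ (3/4:ℝ) * (k:ℝ) ^ (-(2:ℝ)) := by gcongr
              _ = C * (k:ℝ) ^ (-(5/4):ℝ) := by
                  rw [mul_assoc, ← Real.rpow_add hk0]; norm_num
        _ = C * ∑ k ∈ Finset.Icc 1 (X-1), (k:ℝ) ^ (-(5/4):ℝ) := by rw [Finset.mul_sum]
        _ ≤ C * Z := by
            apply mul_le_mul_of_nonneg_left _ hC.le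
            rw [hZ]
            exact hZs.sum_le_tsum _ (fun t _ => by positivity)
  have h2 : ∑ k ∈ Finset.Icc 1 X, (hc k - 2 / Real.pi) * (1 / (k:ℝ)) = ∑ k ∈ Finset.Icc 1 X, hc k * (1 / (k:ℝ)) -
      2 / Real.pi * (harmonic X : ℝ) := by
    have : ((harmonic X : ℚ) : ℝ) = ∑ k ∈ Finset.Icc 1 X, 1 / (k:ℝ) := by
      rw [harmonic_eq_sum_Icc]; push_cast
      apply Finset.sum_congr rfl
      intro k _
      rw [one_div]
    rw [this, Finset.mul_sum, ← Finset.sum_sub_distrib]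
    apply Finset.sum_congr rfl
    intro k _
    ring
  have h3 : Real.log X ≤ (harmonic X : ℝ) := by
    have := log_add_one_le_harmonic X
    refine le_trans ?_ this
    apply Real.log_le_log hX0
    push_cast; linarith
  have h4 : (harmonic X : ℝ) ≤ 1 + Real.log X := harmonic_le_one_add_log X
  have h5 : 2 / Real.pi ≤ 2 := by
    rw [div_le_iff₀ (by positivity)]; linarith
  have h6 : 0 < 2 / Real.pi := by positivity
  have h7 : 2 / Real.pi * ((harmonic X : ℝ) - Real.log X) ≤ 2 := by nlinarith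
  have h8 : 0 ≤ 2 / Real.pi * ((harmonic X : ℝ) - Real.log X) := by
    apply mul_nonneg h6.le; linarith
  rw [h2] at h1
  obtain ⟨p1, p2⟩ := abs_le.mp h1
  rw [abs_le]
  constructor <;> nlinarith

lemma Hc_le : ∃ C : ℝ, 0 < C ∧ ∀ y : ℕ, 1 ≤ y → ∑ k ∈ Finset.Icc 1 y, hc k ≤ C * y := by
  obtain ⟨C, hC, h⟩ := Hc_asymp
  have hpi := Real.pi_gt_three
  refine ⟨C + 1, by positivity, ?_⟩
  intro y hy
  have hy1 : (1:ℝ) ≤ y := by exact_mod_cast hy
  rw [hc_sum]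
  have h1 := (abs_le.mp (h y hy)).2
  have h2 : (y:ℝ) ^ (3/4:ℝ) ≤ y := by
    calc (y:ℝ) ^ (3/4:ℝ) ≤ (y:ℝ) ^ (1:ℝ) := Real.rpow_le_rpow_of_exponent_le hy1 (by norm_num)
      _ = y := Real.rpow_one _
  have h3 : C * (y:ℝ) ^ (3/4:ℝ) ≤ C * y := by gcongr
  have h5 : 2 / Real.pi ≤ 1 := by
    rw [div_le_iff₀ (by positivity)]; linarith
  have h6 : 2 / Real.pi * y ≤ 1 * y := by gcongr
  linarith

lemma hc_dom {C : ℝ} (hC : ∀ y : ℕ, 1 ≤ y → ∑ k ∈ Finset.Icc 1 y, hc k ≤ C * y) {f : ℕ → ℝ}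
    (hf0 : ∀ m, 1 ≤ m → 0 ≤ f m) (hf : ∀ m, 1 ≤ m → f (m+1) ≤ f m) (N : ℕ) :
    ∑ n ∈ Finset.Icc 1 N, hc n * f n ≤ C * ∑ n ∈ Finset.Icc 1 N, f n := by
  have h1 := abel_cmp (u := hc) (v := fun _ => C) hf0 hf (by
    intro X hX
    have := hC X hX
    simp only [Finset.sum_const, Nat.card_Icc, Nat.add_sub_cancel, nsmul_eq_mul]
    linarith) N
  rw [Finset.mul_sum]
  exact h1

lemma hc_tail : ∃ C : ℝ, 0 < C ∧ ∀ A : ℕ, 1 ≤ A → ∀ N : ℕ,
    ∑ n ∈ Finset.Icc 1 A, hc n * (n:ℝ) ^ (-(1/2):ℝ) ≤ C * (A:ℝ) ^ (1/2:ℝ) ∧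
    ∑ n ∈ Finset.Ioc A N, hc n * (n:ℝ) ^ (-(3/2):ℝ) ≤ C * (A:ℝ) ^ (-(1/2):ℝ) := by
  obtain ⟨C, hC, h⟩ := Hc_le
  refine ⟨3 * C, by positivity, ?_⟩
  intro A hA N
  have hA1 : (1:ℝ) ≤ A := by exact_mod_cast hA
  have hA0 : (0:ℝ) < A := by linarith
  constructor
  · have h1 := hc_dom h (f := fun n : ℕ => (n:ℝ) ^ (-(1/2):ℝ)) (fun m _ => by positivity) (fun m hm => by
      have hm0 : (0:ℝ) < m := by exact_mod_cast hm
      exact Real.rpow_le_rpow_of_nonpos hm0 (by push_cast; linarith) (by norm_num)) A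
    refine h1.trans ?_
    have h2 := head_rpow (s := 1/2) (by norm_num) (by norm_num) A
    have e : (A:ℝ) ^ (1 - 1/2:ℝ) / (1 - 1/2) = 2 * (A:ℝ) ^ (1/2:ℝ) := by norm_num; ring
    rw [e] at h2
    have h3 := mul_le_mul_of_nonneg_left h2 hC.le
    have : 0 ≤ C * (A:ℝ) ^ (1/2:ℝ) := by positivity
    linarith
  · obtain ⟨f, hf⟩ : ∃ f : ℕ → ℝ, f = fun n => ((max n A : ℕ):ℝ) ^ (-(3/2):ℝ) := ⟨_, rfl⟩
    have h1 := hc_dom h (f := f) (fun m _ => by rw [hf]; positivity) (fun m hm => by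
      rw [hf]
      have hm0 : (0:ℝ) < ((max m A : ℕ):ℝ) := by
        have : 0 < max m A := by omega
        exact_mod_cast this
      apply Real.rpow_le_rpow_of_nonpos hm0 _ (by norm_num)
      have : max m A ≤ max (m+1) A := by omega
      exact_mod_cast this) N
    have h2 : ∑ n ∈ Finset.Ioc A N, hc n * (n:ℝ) ^ (-(3/2):ℝ) ≤ ∑ n ∈ Finset.Icc 1 N, hc n * f n := by
      calc ∑ n ∈ Finset.Ioc A N, hc n * (n:ℝ) ^ (-(3/2):ℝ) = ∑ n ∈ Finset.Ioc A N, hc n * f n := by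
            apply Finset.sum_congr rfl
            intro n hn
            rw [Finset.mem_Ioc] at hn
            rw [hf]
            simp only
            rw [max_eq_left (by omega)]
        _ ≤ _ := by
            apply Finset.sum_le_sum_of_subset_of_nonneg
            · intro n hn
              rw [Finset.mem_Ioc] at hn
              rw [Finset.mem_Icc]; omega
            · intro n _ _
              apply mul_nonneg (hc_nonneg n)
              rw [hf]; positivity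
    have h3 : ∑ n ∈ Finset.Icc 1 N, f n ≤ 3 * (A:ℝ) ^ (-(1/2):ℝ) := by
      have h4 := split_le (f := f) (fun m => by rw [hf]; positivity) A N
      have h5 : ∑ n ∈ Finset.Icc 1 A, f n = (A:ℝ) ^ (-(1/2):ℝ) := by
        have : ∑ n ∈ Finset.Icc 1 A, f n = ∑ n ∈ Finset.Icc 1 A, (A:ℝ) ^ (-(3/2):ℝ) := by
          apply Finset.sum_congr rfl
          intro n hn
          rw [Finset.mem_Icc] at hn
          rw [hf]
          simp only
          rw [max_eq_right (by omega)]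
        rw [this, Finset.sum_const, Nat.card_Icc, Nat.add_sub_cancel, nsmul_eq_mul]
        nth_rewrite 1 [← Real.rpow_one (A:ℝ)]
        rw [← Real.rpow_add hA0]; norm_num
      have h6 : ∑ n ∈ Finset.Ioc A N, f n = ∑ n ∈ Finset.Ioc A N, (n:ℝ) ^ (-(3/2):ℝ) := by
        apply Finset.sum_congr rfl
        intro n hn
        rw [Finset.mem_Ioc] at hn
        rw [hf]
        simp only
        rw [max_eq_left (by omega)]
      have h7 := tail_rpow (s := 3/2) (by norm_num) hA N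
      have e : (A:ℝ) ^ (1 - 3/2:ℝ) / (3/2 - 1) = 2 * (A:ℝ) ^ (-(1/2):ℝ) := by norm_num; ring
      rw [e] at h7
      rw [h5, h6] at h4
      linarith
    refine h2.trans (h1.trans ?_)
    calc C * ∑ n ∈ Finset.Icc 1 N, f n ≤ C * (3 * (A:ℝ) ^ (-(1/2):ℝ)) := mul_le_mul_of_nonneg_left h3 hC.le
      _ = _ := by ring

lemma rp1 {n M : ℝ} (hn : 0 < n) (hM : 0 < M) : (M / (2 * n)) ^ (-(1/2):ℝ) = (2:ℝ) ^ (1/2:ℝ) * (n ^ (1/2:ℝ) * M ^ (-(1/2):ℝ)) := by
  rw [Real.rpow_neg (by positivity), Real.div_rpow hM.le (by positivity), Real.mul_rpow (by norm_num) hn.le, Real.rpow_neg hM.le, inv_div]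
  ring

lemma rp2 {n : ℝ} (hn : 0 < n) : n ^ (-(3/2):ℝ) * n = n ^ (-(1/2):ℝ) := by
  nth_rewrite 2 [← Real.rpow_one n]
  rw [← Real.rpow_add hn]; norm_num

lemma rp3 {n : ℝ} (hn : 0 < n) : n ^ (-(3/2):ℝ) * n ^ (1/2:ℝ) = 1 / n := by
  rw [← Real.rpow_add hn, show (1:ℝ) / n = n ^ (-1:ℝ) by rw [Real.rpow_neg_one, one_div]]
  congr 1; norm_num

/-- trivial bound for the inner sum -/
lemma ff_sum_triv (φ t : ℝ) (J : ℕ) : |∑ j ∈ Finset.Icc 1 J, ff φ t j| ≤ 6 := by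
  refine (Finset.abs_sum_le_sum_abs _ _).trans ?_
  calc ∑ j ∈ Finset.Icc 1 J, |ff φ t j| ≤ ∑ j ∈ Finset.Icc 1 J, 2 * (j:ℝ) ^ (-(3/2):ℝ) := by
        apply Finset.sum_le_sum
        intro j hj
        rw [Finset.mem_Icc] at hj
        exact ff_le2 φ (by exact_mod_cast hj.1)
    _ = 2 * ∑ j ∈ Finset.Icc 1 J, (j:ℝ) ^ (-(3/2):ℝ) := by rw [Finset.mul_sum]
    _ ≤ 2 * 3 := by
        apply mul_le_mul_of_nonneg_left _ (by norm_num)
        have h1 := split_le (f := fun j : ℕ => (j:ℝ) ^ (-(3/2):ℝ)) (fun m => by positivity) 1 J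
        have h2 := tail_rpow (s := 3/2) (by norm_num) (le_refl 1) J
        norm_num at h1 h2 ⊢
        linarith
    _ = 6 := by norm_num

/-- **the resonant sum, sharp form** -/
theorem B_sharp : ∃ C : ℝ, 0 < C ∧ ∀ φ t : ℝ, 0 < t → t ≤ 1 → ∀ M : ℕ, 1 / t^2 ≤ M →
    |∑ k ∈ Finset.Icc 1 M, gz k * ff φ t k - 4 / Real.pi * Real.log (1 / t) * (2 * √(Real.pi * t) * Real.cos (φ + Real.pi / 4))| ≤
      C * √t := by
  obtain ⟨C1, hC1, h1⟩ := hc_inv
  obtain ⟨C2, hC2, h2⟩ := hc_tail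
  have hpi := Real.pi_gt_three
  have hpi4 := Real.pi_lt_four
  refine ⟨200 * (1 + C1 + C2), by positivity, ?_⟩
  intro φ t ht ht1 M hM
  have hst : 0 < √t := Real.sqrt_pos.mpr ht
  have hss : √t * √t = t := Real.mul_self_sqrt ht.le
  have hs1 : √t ≤ 1 := by
    rw [Real.sqrt_le_left (by norm_num)]; linarith
  have hts : t ≤ √t := by nlinarith
  obtain ⟨A, hA⟩ : ∃ A, A = ⌊1 / t⌋₊ := ⟨_, rfl⟩
  have hq1 : 1 ≤ 1 / t := by rw [one_le_div ht]; exact ht1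
  have hA1 : 1 ≤ A := by rw [hA, Nat.one_le_floor_iff]; exact hq1
  have hA1' : (1:ℝ) ≤ A := by exact_mod_cast hA1
  have hA0 : (0:ℝ) < A := by linarith
  have hAu : (A:ℝ) ≤ 1 / t := by rw [hA]; exact Nat.floor_le (by positivity)
  have hAl : 1 / t ≤ 2 * A := by
    have := Nat.lt_floor_add_one (1 / t)
    rw [← hA] at this
    linarith
  have hMt : 1 / t ≤ M := by
    refine le_trans ?_ hM
    apply one_div_le_one_div_of_le (by positivity)
    nlinarith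
  have hAM : A ≤ M := by
    have : (A:ℝ) ≤ M := hAu.trans hMt
    exact_mod_cast this
  have hM1 : 1 ≤ M := hA1.trans hAM
  have hM0 : (0:ℝ) < M := by exact_mod_cast hM1
  -- small quantities
  have hMinv : (M:ℝ) ^ (-(1/2):ℝ) ≤ t := by
    calc (M:ℝ) ^ (-(1/2):ℝ) ≤ (1 / t^2) ^ (-(1/2):ℝ) := Real.rpow_le_rpow_of_nonpos (by positivity) hM (by norm_num)
      _ = t := by
          rw [one_div, ← Real.rpow_natCast, ← Real.rpow_neg_one, ← Real.rpow_mul ht.le, ← Real.rpow_mul ht.le]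
          norm_num
  have hAh : (A:ℝ) ^ (-(1/2):ℝ) ≤ 2 * √t := by
    have h3 : 1 / (2 * t) ≤ A := by
      have : 1 / (2 * t) = 1 / t / 2 := by field_simp
      rw [this]; linarith
    calc (A:ℝ) ^ (-(1/2):ℝ) ≤ (1 / (2 * t)) ^ (-(1/2):ℝ) := Real.rpow_le_rpow_of_nonpos (by positivity) h3 (by norm_num)
      _ = √(2 * t) := by
          rw [one_div, ← Real.rpow_neg_one, ← Real.rpow_mul (by positivity), Real.sqrt_eq_rpow]
          norm_num
      _ = √2 * √t := Real.sqrt_mul (by norm_num) _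
      _ ≤ 2 * √t := by
          have : √2 ≤ 2 := by rw [Real.sqrt_le_left (by norm_num)]; norm_num
          gcongr
  have hAp : t * (A:ℝ) ^ (1/2:ℝ) ≤ √t := by
    rw [← Real.sqrt_eq_rpow]
    have h3 : √(A:ℝ) ≤ 1 / √t := by
      calc √(A:ℝ) ≤ √(1 / t) := Real.sqrt_le_sqrt hAu
        _ = 1 / √t := by rw [one_div, Real.sqrt_inv, one_div]
    calc t * √(A:ℝ) ≤ t * (1 / √t) := by gcongr
      _ = √t := by rw [mul_one_div, div_eq_iff hst.ne', hss]
  obtain ⟨Lt, hLt⟩ : ∃ Lt, Lt = Real.log (1 / t) := ⟨_, rfl⟩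
  have hLt0 : 0 ≤ Lt := by rw [hLt]; exact Real.log_nonneg hq1
  have hLts : t * Lt ≤ 2 * √t := by
    have h3 := Real.log_le_rpow_div (show 0 ≤ 1 / t by positivity) (show (0:ℝ) < 1/2 by norm_num)
    rw [← hLt, ← Real.sqrt_eq_rpow, one_div, Real.sqrt_inv] at h3
    calc t * Lt ≤ t * ((√t)⁻¹ / (1/2)) := by gcongr
      _ = 2 * √t := by
          have : t * (√t)⁻¹ = √t := by rw [← div_eq_mul_inv, div_eq_iff hst.ne', hss]
          calc t * ((√t)⁻¹ / (1/2)) = 2 * (t * (√t)⁻¹) := by ring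
            _ = _ := by rw [this]
  have hLA : |Real.log A - Lt| ≤ 1 := by
    have a1 : Real.log A ≤ Lt := by rw [hLt]; exact Real.log_le_log hA0 hAu
    have a2 : Lt ≤ Real.log 2 + Real.log A := by
      rw [hLt, ← Real.log_mul (by norm_num) hA0.ne']
      exact Real.log_le_log (by positivity) hAl
    have a3 : Real.log 2 < 1 := by have := Real.log_two_lt_d9; linarith
    rw [abs_le]; constructor <;> linarith
  obtain ⟨c, hc'⟩ : ∃ c, c = Real.cos (φ + Real.pi / 4) := ⟨_, rfl⟩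
  have hc1 : |c| ≤ 1 := by rw [hc']; exact Real.abs_cos_le_one _
  rw [← hc', ← hLt]
  -- first part
  have p1 : |2 * ∑ k ∈ Finset.Icc 1 M, ff φ t k| ≤ 36 * √t := by
    have := sum_ff φ ht hM1
    rw [← hc'] at this
    have a1 : |2 * √(Real.pi * t) * c| ≤ 4 * √t := by
      rw [Real.sqrt_mul (by positivity), abs_mul, abs_of_nonneg (by positivity)]
      have : √Real.pi ≤ 2 := by rw [Real.sqrt_le_left (by norm_num)]; linarith
      calc 2 * (√Real.pi * √t) * |c| ≤ 2 * (2 * √t) * 1 := by gcongr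
        _ = _ := by ring
    obtain ⟨b1, b2⟩ := abs_le.mp this
    obtain ⟨d1, d2⟩ := abs_le.mp a1
    rw [abs_le]
    constructor <;> linarith
  -- main part
  obtain ⟨g, hg⟩ : ∃ g : ℕ → ℝ, g = fun n => hc n * (n:ℝ) ^ (-(3/2):ℝ) * ∑ j ∈ Finset.Icc 1 (M / n), ff φ (n * t) j := ⟨_, rfl⟩
  have hgs : ∑ n ∈ Finset.Icc 1 M, g n = ∑ n ∈ Finset.Icc 1 A, g n + ∑ n ∈ Finset.Ioc A M, g n := by
    rw [← Finset.sum_union]
    · apply Finset.sum_congr _ (fun _ _ => rfl)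
      ext m
      rw [Finset.mem_union, Finset.mem_Icc, Finset.mem_Icc, Finset.mem_Ioc]; omega
    · rw [Finset.disjoint_left]
      intro m h1 h2
      rw [Finset.mem_Icc] at h1
      rw [Finset.mem_Ioc] at h2
      omega
  have p2 : |∑ n ∈ Finset.Ioc A M, g n| ≤ 12 * C2 * √t := by
    refine (Finset.abs_sum_le_sum_abs _ _).trans ?_
    calc ∑ n ∈ Finset.Ioc A M, |g n| ≤ ∑ n ∈ Finset.Ioc A M, 6 * (hc n * (n:ℝ) ^ (-(3/2):ℝ)) := by
          apply Finset.sum_le_sum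
          intro n _
          rw [hg]
          simp only
          have a0 : 0 ≤ hc n * (n:ℝ) ^ (-(3/2):ℝ) := mul_nonneg (hc_nonneg n) (by positivity)
          rw [abs_mul, abs_of_nonneg a0, mul_comm 6]
          exact mul_le_mul_of_nonneg_left (ff_sum_triv _ _ _) a0
      _ = 6 * ∑ n ∈ Finset.Ioc A M, hc n * (n:ℝ) ^ (-(3/2):ℝ) := by rw [Finset.mul_sum]
      _ ≤ 6 * (C2 * (2 * √t)) := by
          have := (h2 A hA1 M).2
          gcongr
          exact this.trans (by gcongr)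
      _ = _ := by ring
  have p3 : |∑ n ∈ Finset.Icc 1 A, g n - 2 * √(Real.pi * t) * c * ∑ n ∈ Finset.Icc 1 A, hc n * (1 / (n:ℝ))| ≤
      (10 * C2 + 8 * (C1 + 4)) * √t := by
    rw [Finset.mul_sum, ← Finset.sum_sub_distrib]
    refine (Finset.abs_sum_le_sum_abs _ _).trans ?_
    calc _ ≤ ∑ n ∈ Finset.Icc 1 A, (10 * t * (hc n * (n:ℝ) ^ (-(1/2):ℝ)) + 8 * (M:ℝ) ^ (-(1/2):ℝ) * (hc n * (1 / (n:ℝ)))) := by
          apply Finset.sum_le_sum
          intro n hn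
          rw [Finset.mem_Icc] at hn
          have hn1 : (1:ℝ) ≤ n := by exact_mod_cast hn.1
          have hn0 : (0:ℝ) < n := by linarith
          have hnM : n ≤ M := hn.2.trans hAM
          have hJ1 : 1 ≤ M / n := by rw [Nat.one_le_div_iff (by omega)]; exact hnM
          have a1 := sum_ff φ (show 0 < (n:ℝ) * t by positivity) hJ1
          rw [← hc'] at a1
          have a2 : (((M / n : ℕ):ℝ)) ^ (-(1/2):ℝ) ≤ 2 * ((n:ℝ) ^ (1/2:ℝ) * (M:ℝ) ^ (-(1/2):ℝ)) := by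
            have b1 : (M:ℝ) / (2 * n) ≤ ((M / n : ℕ):ℝ) := by
              have b2 : M < n * (M / n + 1) := Nat.lt_mul_div_succ M (by omega)
              have b3 : M ≤ 2 * n * (M / n) := by nlinarith
              have b4 : (M:ℝ) ≤ 2 * n * ((M / n : ℕ):ℝ) := by exact_mod_cast b3
              rw [div_le_iff₀ (by positivity)]; linarith
            calc (((M / n : ℕ):ℝ)) ^ (-(1/2):ℝ) ≤ ((M:ℝ) / (2 * n)) ^ (-(1/2):ℝ) :=
                  Real.rpow_le_rpow_of_nonpos (by positivity) b1 (by norm_num)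
              _ = (2:ℝ) ^ (1/2:ℝ) * ((n:ℝ) ^ (1/2:ℝ) * (M:ℝ) ^ (-(1/2):ℝ)) := rp1 hn0 hM0
              _ ≤ 2 * ((n:ℝ) ^ (1/2:ℝ) * (M:ℝ) ^ (-(1/2):ℝ)) := by
                  have : (2:ℝ) ^ (1/2:ℝ) ≤ 2 := by
                    calc (2:ℝ) ^ (1/2:ℝ) ≤ (2:ℝ) ^ (1:ℝ) := Real.rpow_le_rpow_of_exponent_le (by norm_num) (by norm_num)
                      _ = 2 := Real.rpow_one 2
                  gcongr
          have e1 : 2 * √(Real.pi * t) * c * (hc n * (1 / (n:ℝ))) = hc n * (n:ℝ) ^ (-(3/2):ℝ) * (2 * √(Real.pi * (n * t)) * c) := by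
            have b1 : √(Real.pi * (n * t)) = √(Real.pi * t) * (n:ℝ) ^ (1/2:ℝ) := by
              rw [show Real.pi * (n * t) = (Real.pi * t) * n by ring, Real.sqrt_mul (by positivity), ← Real.sqrt_eq_rpow]
            have b2 : (n:ℝ) ^ (-(3/2):ℝ) * (n:ℝ) ^ (1/2:ℝ) = 1 / n := rp3 hn0
            rw [b1, ← b2]; ring
          have a3 : 0 ≤ hc n * (n:ℝ) ^ (-(3/2):ℝ) := mul_nonneg (hc_nonneg n) (by positivity)
          rw [hg]
          simp only
          rw [e1, ← mul_sub, abs_mul, abs_of_nonneg a3]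
          calc hc n * (n:ℝ) ^ (-(3/2):ℝ) * |∑ j ∈ Finset.Icc 1 (M / n), ff φ (n * t) j - 2 * √(Real.pi * (n * t)) * c|
              ≤ hc n * (n:ℝ) ^ (-(3/2):ℝ) * (10 * (n * t) + 4 * (2 * ((n:ℝ) ^ (1/2:ℝ) * (M:ℝ) ^ (-(1/2):ℝ)))) := by
                apply mul_le_mul_of_nonneg_left _ a3
                linarith
            _ = 10 * t * (hc n * ((n:ℝ) ^ (-(3/2):ℝ) * n)) + 8 * (M:ℝ) ^ (-(1/2):ℝ) * (hc n * ((n:ℝ) ^ (-(3/2):ℝ) * (n:ℝ) ^ (1/2:ℝ))) := by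
                ring
            _ = _ := by
                rw [rp2 hn0, rp3 hn0]
      _ = 10 * t * ∑ n ∈ Finset.Icc 1 A, (hc n * (n:ℝ) ^ (-(1/2):ℝ)) + 8 * (M:ℝ) ^ (-(1/2):ℝ) * ∑ n ∈ Finset.Icc 1 A, (hc n * (1 / (n:ℝ))) := by
          rw [Finset.sum_add_distrib, Finset.mul_sum, Finset.mul_sum]
      _ ≤ 10 * (C2 * √t) + 8 * ((C1 + 4) * √t) := by
          apply add_le_add
          · have a1 := (h2 A hA1 M).1
            calc 10 * t * ∑ n ∈ Finset.Icc 1 A, (hc n * (n:ℝ) ^ (-(1/2):ℝ)) ≤ 10 * t * (C2 * (A:ℝ) ^ (1/2:ℝ)) := by gcongr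
              _ = 10 * (C2 * (t * (A:ℝ) ^ (1/2:ℝ))) := by ring
              _ ≤ _ := by gcongr
          · have a1 := (abs_le.mp (h1 A hA1)).2
            have a2 : 2 / Real.pi * Real.log A ≤ Lt := by
              have b1 : Real.log A ≤ Lt := by rw [hLt]; exact Real.log_le_log hA0 hAu
              have b2 : 2 / Real.pi ≤ 1 := by rw [div_le_iff₀ (by positivity)]; linarith
              have b3 : 0 ≤ Real.log A := Real.log_nonneg hA1'
              nlinarith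
            have a3 : ∑ n ∈ Finset.Icc 1 A, (hc n * (1 / (n:ℝ))) ≤ C1 + Lt := by linarith
            have a4 : 0 ≤ ∑ n ∈ Finset.Icc 1 A, (hc n * (1 / (n:ℝ))) :=
              Finset.sum_nonneg fun n _ => mul_nonneg (hc_nonneg n) (by positivity)
            calc 8 * (M:ℝ) ^ (-(1/2):ℝ) * ∑ n ∈ Finset.Icc 1 A, (hc n * (1 / (n:ℝ))) ≤ 8 * t * (C1 + Lt) := by gcongr
              _ = 8 * (C1 * t + t * Lt) := by ring
              _ ≤ 8 * (C1 * √t + 2 * √t) := by gcongr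
              _ ≤ _ := by nlinarith
      _ = _ := by ring
  have p4 : |2 * √(Real.pi * t) * c * (∑ n ∈ Finset.Icc 1 A, hc n * (1 / (n:ℝ)) - 2 / Real.pi * Lt)| ≤ 4 * (C1 + 1) * √t := by
    have a1 : |∑ n ∈ Finset.Icc 1 A, hc n * (1 / (n:ℝ)) - 2 / Real.pi * Lt| ≤ C1 + 1 := by
      have b1 := abs_le.mp (h1 A hA1)
      have b2 : |2 / Real.pi * (Real.log A - Lt)| ≤ 1 := by
        rw [abs_mul, abs_of_pos (by positivity)]
        have b3 : 2 / Real.pi ≤ 1 := by rw [div_le_iff₀ (by positivity)]; linarith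
        calc 2 / Real.pi * |Real.log A - Lt| ≤ 1 * 1 := mul_le_mul b3 hLA (abs_nonneg _) (by norm_num)
          _ = 1 := by norm_num
      have b4 := abs_le.mp b2
      rw [abs_le]
      constructor <;> linarith [b1.1, b1.2, b4.1, b4.2]
    have a2 : |2 * √(Real.pi * t) * c| ≤ 4 * √t := by
      rw [Real.sqrt_mul (by positivity), abs_mul, abs_of_nonneg (by positivity)]
      have : √Real.pi ≤ 2 := by rw [Real.sqrt_le_left (by norm_num)]; linarith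
      calc 2 * (√Real.pi * √t) * |c| ≤ 2 * (2 * √t) * 1 := by gcongr
        _ = _ := by ring
    rw [abs_mul]
    calc |2 * √(Real.pi * t) * c| * |∑ n ∈ Finset.Icc 1 A, hc n * (1 / (n:ℝ)) - 2 / Real.pi * Lt| ≤ (4 * √t) * (C1 + 1) :=
          mul_le_mul a2 a1 (abs_nonneg _) (by positivity)
      _ = _ := by ring
  have hfin : ∑ k ∈ Finset.Icc 1 M, gz k * ff φ t k - 4 / Real.pi * Lt * (2 * √(Real.pi * t) * c) =
      2 * ∑ k ∈ Finset.Icc 1 M, ff φ t k + 2 * (∑ n ∈ Finset.Icc 1 A, g n - 2 * √(Real.pi * t) * c * ∑ n ∈ Finset.Icc 1 A, hc n * (1 / (n:ℝ))) +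
      2 * ∑ n ∈ Finset.Ioc A M, g n + 2 * (2 * √(Real.pi * t) * c * (∑ n ∈ Finset.Icc 1 A, hc n * (1 / (n:ℝ)) - 2 / Real.pi * Lt)) := by
    rw [B_div]
    have : ∑ n ∈ Finset.Icc 1 M, hc n * (n:ℝ) ^ (-(3/2):ℝ) * ∑ j ∈ Finset.Icc 1 (M / n), ff φ (n * t) j = ∑ n ∈ Finset.Icc 1 M, g n := by
      rw [hg]
    rw [this, hgs]
    ring
  rw [hfin]
  obtain ⟨q1, q2⟩ := abs_le.mp p1
  obtain ⟨q3, q4⟩ := abs_le.mp p2
  obtain ⟨q5, q6⟩ := abs_le.mp p3
  obtain ⟨q7, q8⟩ := abs_le.mp p4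
  have r1 : 0 ≤ C1 * √t := by positivity
  have r2 : 0 ≤ C2 * √t := by positivity
  rw [abs_le]
  constructor <;> linarith

end Pool.Agent.D0H53.CL
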