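import Mathlib
import Pool.Agent.D0H53.CL.A10
import Pool.Agent.N48.Ann.AN3

/-! The bias with a sharp error term. -/

set_option autoImplicit false

open Filter Topology
open Pool.Agent.H383 Pool.Agent.H383.Gauss Pool.Agent.N48.Ann

namespace Pool.Agent.D0H53.CL

theorem BM_sharp : ∃ C : ℝ, 0 < C ∧ ∀ ρ : ℝ, 0 < ρ → ρ ≤ 1/10 → ∀ p M : ℕ, 1 / ρ^2 ≤ M →
    |BM Circ.ag (3 * Real.pi/4) p (p + ρ) M - lead ρ| ≤ C * √ρ ∧
    |BM Circ.ag (3 * Real.pi/4) (p - ρ) p M| ≤ C * √ρ := by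
  obtain ⟨C, hC, h⟩ := B_sharp
  have hpi := Real.pi_gt_three
  have hpi2 := Real.pi_lt_d2
  refine ⟨C * 3 + 20, by positivity, ?_⟩
  intro ρ hρ hρ1 p M hM
  obtain ⟨t, ht⟩ : ∃ t, t = 2 * Real.pi * ρ := ⟨_, rfl⟩
  have ht0 : 0 < t := by rw [ht]; positivity
  have ht1 : t ≤ 1 := by rw [ht]; nlinarith
  have hρt : ρ ≤ t := by rw [ht]; nlinarith
  have hlog : Real.log (1 / t) = Real.log (1 / ρ) - Real.log (2 * Real.pi) := by
    rw [ht, one_div, one_div, Real.log_inv, Real.log_inv, Real.log_mul (by positivity) hρ.ne']; ring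
  have hl2pi : 0 ≤ Real.log (2 * Real.pi) := Real.log_nonneg (by linarith)
  have hl2pi' : Real.log (2 * Real.pi) ≤ 2 := by
    rw [Real.log_le_iff_le_exp (by positivity)]
    have h1 : (2.7:ℝ) < Real.exp 1 := by have := Real.exp_one_gt_d9; linarith
    have h2 : Real.exp 2 = Real.exp 1 * Real.exp 1 := by rw [← Real.exp_add]; norm_num
    rw [h2]; nlinarith
  have hNc : 1 / t^2 ≤ M := by
    refine le_trans ?_ hM
    gcongr
  obtain ⟨S, hS⟩ : ∃ S, S = √ρ := ⟨_, rfl⟩
  have hS0 : 0 ≤ S := by rw [hS]; exact Real.sqrt_nonneg _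
  have hs : √t ≤ 3 * S := by
    rw [hS, Real.sqrt_le_left (by positivity), mul_pow, Real.sq_sqrt hρ.le, ht]
    nlinarith
  have hCs : C * √t ≤ C * (3 * S) := mul_le_mul_of_nonneg_left hs hC.le
  rw [← hS]
  have hinv : |-(1 / Real.pi)| ≤ 1 := by
    rw [abs_neg, abs_of_pos (by positivity), div_le_one (by positivity)]; linarith
  have hinv' : |1 / Real.pi| ≤ 1 := by
    rw [abs_of_pos (by positivity), div_le_one (by positivity)]; linarith
  constructor
  · rw [BM_outer, ← ht]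
    have h1 := h (3 * Real.pi/4) t ht0 ht1 M hNc
    have e1 : 3 * Real.pi/4 + Real.pi/4 = Real.pi := by ring
    rw [e1, Real.cos_pi] at h1
    have e2 : -(1 / Real.pi) * (4 / Real.pi * Real.log (1 / t) * (2 * √(Real.pi * t) * -1)) = 8 * √2 / Real.pi * S * Real.log (1 / t) := by
      have : √(Real.pi * t) = Real.pi * (√2 * S) := by
        rw [hS, ht, show Real.pi * (2 * Real.pi * ρ) = Real.pi^2 * (2 * ρ) by ring, Real.sqrt_mul (by positivity),
          Real.sqrt_sq (by positivity), Real.sqrt_mul (by norm_num)]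
      rw [this]; field_simp; ring
    have e3 : -(1 / Real.pi) * ∑ k ∈ Finset.Icc 1 M, gz k * ff (3 * Real.pi/4) t k - lead ρ =
        -(1 / Real.pi) * (∑ k ∈ Finset.Icc 1 M, gz k * ff (3 * Real.pi/4) t k - 4 / Real.pi * Real.log (1 / t) * (2 * √(Real.pi * t) * -1)) -
        8 * √2 / Real.pi * S * Real.log (2 * Real.pi) := by
      rw [mul_sub, e2, lead, hlog, ← hS]; ring
    rw [e3]
    refine (abs_sub _ _).trans ?_
    rw [abs_mul]
    have h2 : |-(1 / Real.pi)| * |∑ k ∈ Finset.Icc 1 M, gz k * ff (3 * Real.pi/4) t k - 4 / Real.pi * Real.log (1 / t) * (2 * √(Real.pi * t) * -1)| ≤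
        1 * (C * (3 * S)) := mul_le_mul hinv (h1.trans hCs) (abs_nonneg _) (by norm_num)
    have h3 : |8 * √2 / Real.pi * S * Real.log (2 * Real.pi)| ≤ 20 * S := by
      rw [abs_of_nonneg (by positivity)]
      have hr2 : √2 ≤ 2 := by rw [Real.sqrt_le_left (by norm_num)]; norm_num
      have h4 : 8 * √2 / Real.pi ≤ 6 := by
        rw [div_le_iff₀ (by positivity)]
        nlinarith
      calc 8 * √2 / Real.pi * S * Real.log (2 * Real.pi) ≤ 6 * S * 2 := by gcongr
        _ ≤ 20 * S := by linarith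
    linarith
  · rw [BM_inner, ← ht]
    have h1 := h (-(3 * Real.pi/4)) t ht0 ht1 M hNc
    have e1 : -(3 * Real.pi/4) + Real.pi/4 = -(Real.pi/2) := by ring
    rw [e1, Real.cos_neg, Real.cos_pi_div_two, mul_zero, mul_zero, sub_zero] at h1
    rw [abs_mul]
    have h2 : |1 / Real.pi| * |∑ k ∈ Finset.Icc 1 M, gz k * ff (-(3 * Real.pi/4)) t k| ≤ 1 * (C * (3 * S)) :=
      mul_le_mul hinv' (h1.trans hCs) (abs_nonneg _) (by norm_num)
    linarith

lemma lead_nonpos {h : ℝ} (hh : h ≤ 0) : lead h = 0 := by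
  unfold lead
  rw [Real.sqrt_eq_zero_of_nonpos hh]; ring

/-- the bias between `p` and `p + h`, both signs -/
theorem BM_pt : ∃ C : ℝ, 0 < C ∧ ∀ h : ℝ, |h| ≤ 1/10 → ∀ p M : ℕ, 1 / h^2 ≤ M →
    |BM Circ.ag (3 * Real.pi/4) p (p + h) M - lead h| ≤ C * √|h| := by
  obtain ⟨C, hC, hh⟩ := BM_sharp
  refine ⟨C, hC, ?_⟩
  intro h hh1 p M hM
  rcases lt_trichotomy h 0 with h0 | h0 | h0
  · have h1 : 0 < -h := by linarith
    have h2 : |h| = -h := abs_of_neg h0
    have h3 := (hh (-h) h1 (by rw [← h2]; exact hh1) p M (by rw [neg_sq]; exact hM)).2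
    have e : BM Circ.ag (3 * Real.pi/4) p (p + h) M = -BM Circ.ag (3 * Real.pi/4) (p - -h) p M := by
      unfold BM
      rw [← Finset.sum_neg_distrib]
      apply Finset.sum_congr rfl
      intro k _
      rw [show (p:ℝ) - -h = p + h by ring]
      ring
    rw [e, lead_nonpos h0.le, sub_zero, abs_neg, h2]
    exact h3
  · subst h0
    rw [lead_nonpos le_rfl]
    unfold BM
    simp
  · have h2 : |h| = h := abs_of_pos h0
    rw [h2]
    exact (hh h h0 (by rw [← h2]; exact hh1) p M hM).1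

end Pool.Agent.D0H53.CL
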