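import Mathlib
import Pool.Agent.D0H53.CL.A5
import Pool.Agent.N48.Ann.AN2

/-! Elementary estimates for the variance sum. -/

set_option autoImplicit false

open Filter Topology
open Pool.Agent.H383.Gauss Pool.Agent.N48.Ann

namespace Pool.Agent.D0H53.CL

lemma bern2 (x : ℝ) : (Polynomial.map (algebraMap ℚ ℝ) (Polynomial.bernoulli 2)).eval x = x^2 - x + 1/6 := by
  have h2 : bernoulli 2 = 1/6 := by
    rw [bernoulli_eq_bernoulli'_of_ne_one (by norm_num), bernoulli'_two]
  simp only [Polynomial.bernoulli, Finset.sum_range_succ, Finset.sum_range_zero, zero_add, Polynomial.map_add,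
    Polynomial.map_monomial, Polynomial.eval_add, Polynomial.eval_monomial, bernoulli_zero, bernoulli_one, h2]
  norm_num
  ring

lemma bern {h : ℝ} (h0 : 0 ≤ h) (h1 : h ≤ 1) :
    HasSum (fun n : ℕ => 1 / (n:ℝ)^2 * (1 - Real.cos (2 * Real.pi * h * n))) (Real.pi^2 * (h - h^2)) := by
  have a := hasSum_one_div_nat_pow_mul_cos (k := 1) one_ne_zero (x := h) ⟨h0, h1⟩
  have b := hasSum_one_div_nat_pow_mul_cos (k := 1) one_ne_zero (x := 0) ⟨le_rfl, zero_le_one⟩
  have c := b.sub a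
  simp only [mul_one, bern2] at c
  have e1 : (fun n : ℕ => 1 / (n:ℝ)^2 * (1 - Real.cos (2 * Real.pi * h * n))) =
      fun b : ℕ => 1 / (b:ℝ) ^ 2 * Real.cos (2 * Real.pi * b * 0) - 1 / (b:ℝ) ^ 2 * Real.cos (2 * Real.pi * b * h) := by
    funext n
    rw [show 2 * Real.pi * (n:ℝ) * 0 = 0 by ring, Real.cos_zero, show 2 * Real.pi * (n:ℝ) * h = 2 * Real.pi * h * n by ring]
    ring
  have e2 : Real.pi ^ 2 * (h - h ^ 2) =
    (-1) ^ (1 + 1) * (2 * Real.pi) ^ 2 / 2 / ((Nat.factorial 2 : ℕ) : ℝ) * (0 ^ 2 - 0 + 1 / 6) -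
      (-1) ^ (1 + 1) * (2 * Real.pi) ^ 2 / 2 / ((Nat.factorial 2 : ℕ) : ℝ) * (h ^ 2 - h + 1 / 6) := by
    simp only [Nat.factorial]
    push_cast
    ring
  rw [e1, e2]
  exact c

/-- the oscillating factor -/
noncomputable def qf (h x : ℝ) : ℝ := 1 - Real.cos (2 * Real.pi * h * x)

lemma qf_nonneg (h x : ℝ) : 0 ≤ qf h x := by
  unfold qf; linarith [Real.cos_le_one (2 * Real.pi * h * x)]

lemma qf_two (h x : ℝ) : qf h x ≤ 2 := by
  unfold qf; linarith [Real.neg_one_le_cos (2 * Real.pi * h * x)]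

lemma qf_sq (h x : ℝ) : qf h x ≤ 20 * h^2 * x^2 := by
  unfold qf
  have h1 := Real.one_sub_sq_div_two_le_cos (x := 2 * Real.pi * h * x)
  have h2 : (2 * Real.pi * h * x)^2 / 2 ≤ 20 * h^2 * x^2 := by
    have hpi := Real.pi_lt_d2
    have hpi0 := Real.pi_pos
    have h3 : Real.pi^2 ≤ 10 := by nlinarith
    have h4 : (2 * Real.pi * h * x)^2 / 2 = 2 * Real.pi^2 * (h^2 * x^2) := by ring
    rw [h4]
    have h5 : 0 ≤ h^2 * x^2 := by positivity
    nlinarith
  linarith

lemma qf_lin {h x : ℝ} (hh : 0 ≤ h) (hx : 0 ≤ x) : qf h x ≤ 7 * h * x := by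
  have h1 := qf_two h x
  have h2 := qf_sq h x
  have h0 : 0 ≤ h * x := mul_nonneg hh hx
  rcases le_total (h * x) (2/7) with hc | hc
  · have : 20 * h^2 * x^2 = 20 * (h * x) * (h * x) := by ring
    rw [this] at h2
    nlinarith
  · nlinarith

lemma qf_lip {h x y : ℝ} (hh : 0 ≤ h) : |qf h x - qf h y| ≤ 7 * h * |x - y| := by
  unfold qf
  have e : 1 - Real.cos (2 * Real.pi * h * x) - (1 - Real.cos (2 * Real.pi * h * y)) =
      Real.cos (2 * Real.pi * h * y) - Real.cos (2 * Real.pi * h * x) := by ring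
  rw [e]
  refine (Real.abs_cos_sub_cos_le _ _).trans ?_
  rw [← mul_sub, abs_mul, abs_of_nonneg (by have := Real.pi_pos; positivity), abs_sub_comm]
  have := Real.pi_lt_d2
  have h2 : 0 ≤ h * |x - y| := mul_nonneg hh (abs_nonneg _)
  nlinarith

/-- finer Lipschitz bound near the origin -/
lemma qf_lip2 {h x y : ℝ} (hh : 0 ≤ h) (hx : 0 ≤ x) (hxy : x ≤ y) : |qf h x - qf h y| ≤ 40 * h^2 * y * (y - x) := by
  unfold qf
  have e : 1 - Real.cos (2 * Real.pi * h * x) - (1 - Real.cos (2 * Real.pi * h * y)) =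
      Real.cos (2 * Real.pi * h * y) - Real.cos (2 * Real.pi * h * x) := by ring
  have hpi := Real.pi_pos
  have hpi2 := Real.pi_lt_d2
  rw [e, Real.cos_sub_cos, abs_mul, abs_mul]
  have hy : 0 ≤ y := hx.trans hxy
  have e1 : (2 * Real.pi * h * y + 2 * Real.pi * h * x) / 2 = Real.pi * h * (y + x) := by ring
  have e2 : (2 * Real.pi * h * y - 2 * Real.pi * h * x) / 2 = Real.pi * h * (y - x) := by ring
  rw [e1, e2]
  have h1 : |Real.sin (Real.pi * h * (y + x))| ≤ Real.pi * h * (y + x) := by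
    refine (Real.abs_sin_le_abs).trans ?_
    rw [abs_of_nonneg (by positivity)]
  have h2 : |Real.sin (Real.pi * h * (y - x))| ≤ Real.pi * h * (y - x) := by
    refine (Real.abs_sin_le_abs).trans ?_
    have : 0 ≤ y - x := by linarith
    rw [abs_of_nonneg (by positivity)]
  have h3 : |(-2:ℝ)| = 2 := by norm_num
  rw [h3]
  have h4 : 0 ≤ y - x := by linarith
  have h5 : Real.pi^2 ≤ 10 := by nlinarith
  calc 2 * |Real.sin (Real.pi * h * (y + x))| * |Real.sin (Real.pi * h * (y - x))| ≤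
        2 * (Real.pi * h * (y + x)) * (Real.pi * h * (y - x)) := by
        apply mul_le_mul _ h2 (abs_nonneg _) (by positivity)
        linarith
    _ = 2 * Real.pi^2 * (h^2 * (y + x) * (y - x)) := by ring
    _ ≤ 2 * 10 * (h^2 * (2 * y) * (y - x)) := by
        have h6 : h^2 * (y + x) * (y - x) ≤ h^2 * (2 * y) * (y - x) := by
          apply mul_le_mul_of_nonneg_right _ h4
          apply mul_le_mul_of_nonneg_left _ (sq_nonneg h)
          linarith
        have h7 : 0 ≤ h^2 * (y + x) * (y - x) := mul_nonneg (by positivity) h4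
        nlinarith
    _ = _ := by ring

/-- inverse cubes -/
lemma cube_diff {x y : ℝ} (hx : 1 ≤ x) (hxy : x ≤ y) (hy : y ≤ x + 1) : |1 / x^3 - 1 / y^3| ≤ 3 / x^4 := by
  have hx0 : 0 < x := by linarith
  have hy0 : 0 < y := by linarith
  have h1 : 1 / y^3 ≤ 1 / x^3 := one_div_le_one_div_of_le (by positivity) (pow_le_pow_left₀ hx0.le hxy 3)
  rw [abs_of_nonneg (by linarith), div_sub_div _ _ (by positivity) (by positivity), div_le_div_iff₀ (by positivity) (by positivity)]
  have h2 : 1 * y ^ 3 - x ^ 3 * 1 = (y - x) * (y^2 + x * y + x^2) := by ring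
  rw [h2]
  have h3 : (y - x) * (y^2 + x * y + x^2) ≤ 1 * (3 * y^2) := by
    apply mul_le_mul (by linarith) _ (by positivity) (by norm_num)
    nlinarith
  have h4 : x^4 ≤ x^3 * y := by nlinarith [pow_pos hx0 3]
  calc (y - x) * (y ^ 2 + x * y + x ^ 2) * x ^ 4 ≤ (3 * y^2) * (x^3 * y) := by
        apply mul_le_mul (by linarith) h4 (by positivity) (by positivity)
    _ = 3 * (x ^ 3 * y ^ 3) := by ring

end Pool.Agent.D0H53.CL
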