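import Mathlib
import Pool.Agent.D0H53.CL.A6

/-! The variance sum: grouping by the integer part of the square root. -/

set_option autoImplicit false

open Filter Topology
open Pool.Agent.H383.Gauss Pool.Agent.N48.Ann

namespace Pool.Agent.D0H53.CL

lemma grp (f : ℕ → ℝ) (J : ℕ) : ∑ j ∈ Finset.Icc 1 J, ∑ m ∈ Finset.Ico (j^2) ((j+1)^2), f m = ∑ m ∈ Finset.Ico 1 ((J+1)^2), f m := by
  induction J with
  | zero => simp
  | succ J ih =>
    rw [Finset.sum_Icc_succ_top (by omega), ih]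
    apply Finset.sum_Ico_consecutive
    · exact Nat.one_le_pow _ _ (by omega)
    · exact Nat.pow_le_pow_left (by omega) 2

/-- grouped squares -/
noncomputable def cj (j : ℕ) : ℝ := ∑ m ∈ Finset.Ico (j^2) ((j+1)^2), (rA m)^2

lemma jlog {J : ℕ} (hJ : 1 ≤ J) : |∑ j ∈ Finset.Icc 1 J, (j:ℝ) * Real.log j - 1/2 * ((J:ℝ)^2 * Real.log J)| ≤ (J:ℝ)^2 := by
  have hJ1 : (1:ℝ) ≤ J := by exact_mod_cast hJ
  have hJ0 : (0:ℝ) < J := by linarith
  have hs : ∑ j ∈ Finset.Icc 1 J, (j:ℝ) = (J:ℝ) * (J+1) / 2 := by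
    have h : ∀ n : ℕ, ∑ j ∈ Finset.Icc 1 n, (j:ℝ) = (n:ℝ) * (n+1) / 2 := by
      intro n
      induction n with
      | zero => simp
      | succ n ih => rw [Finset.sum_Icc_succ_top (by omega), ih]; push_cast; ring
    exact h J
  have hlog : 0 ≤ Real.log J := Real.log_nonneg hJ1
  have hlog2 : Real.log J ≤ J := by
    have := Real.log_le_sub_one_of_pos hJ0
    linarith
  have h1 : ∑ j ∈ Finset.Icc 1 J, (j:ℝ) * Real.log j ≤ (J:ℝ) * (J+1) / 2 * Real.log J := by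
    rw [← hs, Finset.sum_mul]
    apply Finset.sum_le_sum
    intro j hj
    rw [Finset.mem_Icc] at hj
    apply mul_le_mul_of_nonneg_left _ (Nat.cast_nonneg j)
    exact Real.log_le_log (by exact_mod_cast hj.1) (by exact_mod_cast hj.2)
  have h2 : (J:ℝ) * (J+1) / 2 * Real.log J - ∑ j ∈ Finset.Icc 1 J, (j:ℝ) * Real.log j ≤ (J:ℝ)^2 := by
    rw [← hs, Finset.sum_mul, ← Finset.sum_sub_distrib]
    calc ∑ j ∈ Finset.Icc 1 J, ((j:ℝ) * Real.log J - (j:ℝ) * Real.log j) ≤ ∑ _j ∈ Finset.Icc 1 J, (J:ℝ) := by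
          apply Finset.sum_le_sum
          intro j hj
          rw [Finset.mem_Icc] at hj
          have hj0 : (0:ℝ) < j := by exact_mod_cast hj.1
          have h3 := Real.log_le_sub_one_of_pos (show (0:ℝ) < J / j by positivity)
          rw [Real.log_div hJ0.ne' hj0.ne'] at h3
          rw [← mul_sub]
          calc (j:ℝ) * (Real.log J - Real.log j) ≤ j * (J / j - 1) := by gcongr
            _ = J - j := by field_simp
            _ ≤ J := by linarith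
      _ = (J:ℝ)^2 := by rw [Finset.sum_const, Nat.card_Icc, Nat.add_sub_cancel, nsmul_eq_mul]; ring
  have h4 : (J:ℝ) * Real.log J ≤ (J:ℝ)^2 := by nlinarith
  rw [abs_le]
  constructor
  · nlinarith [mul_nonneg hJ0.le hlog]
  · nlinarith

lemma cj_sum : ∃ C : ℝ, 0 < C ∧ ∀ J : ℕ, 1 ≤ J → |∑ j ∈ Finset.Icc 1 J, (cj j - 16 * ((j:ℝ) * Real.log j))| ≤ C * (J:ℝ)^2 := by
  obtain ⟨C, hC, h⟩ := sum_rA_sq
  refine ⟨3 * C + 70, by positivity, ?_⟩
  intro J hJ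
  have hJ1 : (1:ℝ) ≤ J := by exact_mod_cast hJ
  have hJ0 : (0:ℝ) < J := by linarith
  rw [Finset.sum_sub_distrib]
  have e1 : ∑ j ∈ Finset.Icc 1 J, cj j = ∑ m ∈ Finset.Icc 1 ((J+1)^2 - 1), (rA m)^2 := by
    unfold cj
    rw [grp]
    apply Finset.sum_congr _ (fun _ _ => rfl)
    ext m
    rw [Finset.mem_Ico, Finset.mem_Icc]
    have : 1 ≤ (J+1)^2 := Nat.one_le_pow _ _ (by omega)
    omega
  obtain ⟨N, hN⟩ : ∃ N : ℕ, N = (J+1)^2 - 1 := ⟨_, rfl⟩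
  have hNn : N = J^2 + 2 * J := by
    rw [hN]
    have : (J+1)^2 = J^2 + 2 * J + 1 := by ring
    omega
  have hNc : (N:ℝ) = (J:ℝ)^2 + 2 * J := by rw [hNn]; push_cast; ring
  have hN1 : 1 ≤ N := by rw [hNn]; nlinarith
  have h1 := h N hN1
  rw [e1, ← hN, ← Finset.mul_sum]
  have h2 := jlog hJ
  have hlog : 0 ≤ Real.log J := Real.log_nonneg hJ1
  have hlog2 : Real.log J ≤ J := by
    have := Real.log_le_sub_one_of_pos hJ0
    linarith
  have h3 : |4 * ((N:ℝ) * Real.log N) - 8 * ((J:ℝ)^2 * Real.log J)| ≤ 40 * (J:ℝ)^2 := by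
    have e2 : Real.log N = 2 * Real.log J + Real.log (1 + 2 / J) := by
      have : (N:ℝ) = (J:ℝ)^2 * (1 + 2 / J) := by rw [hNc]; field_simp
      rw [this, Real.log_mul (by positivity) (by positivity), Real.log_pow]
      push_cast; ring
    have h4 : 0 ≤ Real.log (1 + 2 / J) := Real.log_nonneg (by
      have : 0 ≤ 2 / (J:ℝ) := by positivity
      linarith)
    have h5 : Real.log (1 + 2 / J) ≤ 2 / J := by
      have := Real.log_le_sub_one_of_pos (show (0:ℝ) < 1 + 2 / J by positivity)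
      linarith
    have e3 : 4 * ((N:ℝ) * Real.log N) - 8 * ((J:ℝ)^2 * Real.log J) = 16 * (J * Real.log J) + 4 * N * Real.log (1 + 2 / J) := by
      rw [e2, hNc]; ring
    rw [e3, abs_of_nonneg (by positivity)]
    have h6 : (J:ℝ) * Real.log J ≤ (J:ℝ)^2 := by nlinarith
    have h7 : 4 * (N:ℝ) * Real.log (1 + 2 / J) ≤ 24 * (J:ℝ)^2 := by
      calc 4 * (N:ℝ) * Real.log (1 + 2 / J) ≤ 4 * (N:ℝ) * (2 / J) := by gcongr
        _ = 8 * (J + 2) := by rw [hNc]; field_simp; ring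
        _ ≤ 24 * (J:ℝ)^2 := by nlinarith
    linarith
  have h8 : C * (N:ℝ) ≤ 3 * C * (J:ℝ)^2 := by
    have : (N:ℝ) ≤ 3 * (J:ℝ)^2 := by rw [hNc]; nlinarith
    calc C * (N:ℝ) ≤ C * (3 * (J:ℝ)^2) := mul_le_mul_of_nonneg_left this hC.le
      _ = _ := by ring
  obtain ⟨a1, a2⟩ := abs_le.mp h1
  obtain ⟨b1, b2⟩ := abs_le.mp h2
  obtain ⟨c1, c2⟩ := abs_le.mp h3
  rw [abs_le]
  constructor <;> linarith

lemma r2_sum_log (X : ℕ) (hX : 1 ≤ X) : ∑ m ∈ Finset.Icc 1 X, (rA m)^2 ≤ 1000 * (X * (1 + Real.log X)) := by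
  have := sum_r_sq X hX
  simp only [← rA_ZN] at this
  linarith

lemma r2_conv : ∃ C : ℝ, 0 < C ∧ ∀ N : ℕ, ∑ m ∈ Finset.Icc 1 N, (rA m)^2 * (m:ℝ) ^ (-(3/2):ℝ) ≤ C := by
  refine ⟨(rA 1)^2 + 38000 + 1, by positivity, ?_⟩
  intro N
  have h1 := split_le (f := fun m => (rA m)^2 * (m:ℝ) ^ (-(3/2):ℝ)) (fun m => by positivity) 1 N
  have h2 := u_tail (u := fun m => (rA m)^2) (fun m => sq_nonneg _) (C := 1000) (by norm_num) r2_sum_log le_rfl N
  refine h1.trans ?_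
  have e : ∑ m ∈ Finset.Icc 1 1, (rA m)^2 * (m:ℝ) ^ (-(3/2):ℝ) = (rA 1)^2 := by simp
  rw [e]
  have e2 : 38 * (1000:ℝ) * ((1 + Real.log ((1:ℕ):ℝ)) * ((1:ℕ):ℝ) ^ (-(1/2):ℝ)) = 38000 := by simp; norm_num
  rw [e2] at h2
  linarith

lemma rpow_sqrt {m : ℕ} (hm : 1 ≤ m) : (m:ℝ) ^ (-(3/2):ℝ) = 1 / (√(m:ℝ))^3 := by
  have hm0 : (0:ℝ) < m := by exact_mod_cast hm
  rw [Real.sqrt_eq_rpow, ← Real.rpow_natCast, ← Real.rpow_mul hm0.le, one_div, ← Real.rpow_neg hm0.le]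
  norm_num

/-- replacing the square root by its integer part -/
lemma repl {h : ℝ} (hh : 0 ≤ h) {j m : ℕ} (hj : 1 ≤ j) (hm : m ∈ Finset.Ico (j^2) ((j+1)^2)) :
    |(m:ℝ) ^ (-(3/2):ℝ) * qf h √(m:ℝ) - 1 / (j:ℝ)^3 * qf h j| ≤ 175 * h * (m:ℝ) ^ (-(3/2):ℝ) := by
  rw [Finset.mem_Ico] at hm
  have hj1 : (1:ℝ) ≤ j := by exact_mod_cast hj
  have hj0 : (0:ℝ) < j := by linarith
  have hm1 : 1 ≤ m := le_trans (Nat.one_le_pow _ _ hj) hm.1
  have hm0 : (0:ℝ) < m := by exact_mod_cast hm1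
  rw [rpow_sqrt hm1]
  obtain ⟨x, hx⟩ : ∃ x, x = √(m:ℝ) := ⟨_, rfl⟩
  have hx1 : (j:ℝ) ≤ x := by
    rw [hx]
    apply Real.le_sqrt_of_sq_le
    exact_mod_cast hm.1
  have hx2 : x ≤ j + 1 := by
    rw [hx, Real.sqrt_le_left (by positivity)]
    exact_mod_cast hm.2.le
  have hx0 : 0 < x := by linarith
  rw [← hx]
  have e : 1 / x^3 * qf h x - 1 / (j:ℝ)^3 * qf h j = 1 / x^3 * (qf h x - qf h j) + (1 / x^3 - 1 / (j:ℝ)^3) * qf h j := by ring
  rw [e]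
  refine (abs_add_le _ _).trans ?_
  rw [abs_mul, abs_mul, abs_of_pos (show 0 < 1 / x^3 by positivity), abs_of_nonneg (qf_nonneg h j)]
  have h1 : |qf h x - qf h j| ≤ 7 * h := by
    refine (qf_lip hh).trans ?_
    have : |x - j| ≤ 1 := by rw [abs_le]; constructor <;> linarith
    calc 7 * h * |x - j| ≤ 7 * h * 1 := by gcongr
      _ = 7 * h := by ring
  have h2 : |1 / x^3 - 1 / (j:ℝ)^3| ≤ 3 / (j:ℝ)^4 := by
    rw [abs_sub_comm]; exact cube_diff hj1 hx1 hx2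
  have h3 := qf_lin (x := (j:ℝ)) hh hj0.le
  have h4 : 1 / (j:ℝ)^3 ≤ 8 * (1 / x^3) := by
    have h5 : x^3 ≤ (2 * j)^3 := pow_le_pow_left₀ hx0.le (by linarith) 3
    rw [mul_one_div, div_le_div_iff₀ (by positivity) (by positivity)]
    calc 1 * x^3 ≤ (2 * j)^3 := by linarith
      _ = 8 * (j:ℝ)^3 := by ring
  calc 1 / x ^ 3 * |qf h x - qf h j| + |1 / x ^ 3 - 1 / (j:ℝ) ^ 3| * qf h j
      ≤ 1 / x ^ 3 * (7 * h) + 3 / (j:ℝ)^4 * (7 * h * j) := by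
        apply add_le_add
        · exact mul_le_mul_of_nonneg_left h1 (by positivity)
        · exact mul_le_mul h2 h3 (qf_nonneg h j) (by positivity)
    _ = 1 / x ^ 3 * (7 * h) + 21 * h * (1 / (j:ℝ)^3) := by field_simp; ring
    _ ≤ 1 / x ^ 3 * (7 * h) + 21 * h * (8 * (1 / x^3)) := by gcongr
    _ = _ := by ring

lemma grouped : ∃ C : ℝ, 0 < C ∧ ∀ h : ℝ, 0 ≤ h → ∀ J : ℕ,
    |∑ m ∈ Finset.Ico 1 ((J+1)^2), (rA m)^2 * ((m:ℝ) ^ (-(3/2):ℝ) * qf h √(m:ℝ)) - ∑ j ∈ Finset.Icc 1 J, cj j * (1 / (j:ℝ)^3 * qf h j)| ≤ C * h := by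
  obtain ⟨C, hC, hc⟩ := r2_conv
  refine ⟨175 * C, by positivity, ?_⟩
  intro h hh J
  rw [← grp, ← Finset.sum_sub_distrib]
  refine (Finset.abs_sum_le_sum_abs _ _).trans ?_
  calc _ ≤ ∑ j ∈ Finset.Icc 1 J, ∑ m ∈ Finset.Ico (j^2) ((j+1)^2), 175 * h * ((rA m)^2 * (m:ℝ) ^ (-(3/2):ℝ)) := by
        apply Finset.sum_le_sum
        intro j hj
        rw [Finset.mem_Icc] at hj
        unfold cj
        rw [Finset.sum_mul, ← Finset.sum_sub_distrib]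
        refine (Finset.abs_sum_le_sum_abs _ _).trans (Finset.sum_le_sum fun m hm => ?_)
        rw [← mul_sub, abs_mul, abs_of_nonneg (sq_nonneg _)]
        calc (rA m)^2 * _ ≤ (rA m)^2 * (175 * h * (m:ℝ) ^ (-(3/2):ℝ)) := mul_le_mul_of_nonneg_left (repl hh hj.1 hm) (sq_nonneg _)
          _ = _ := by ring
    _ = 175 * h * ∑ m ∈ Finset.Ico 1 ((J+1)^2), ((rA m)^2 * (m:ℝ) ^ (-(3/2):ℝ)) := by
        rw [grp (fun m => 175 * h * ((rA m)^2 * (m:ℝ) ^ (-(3/2):ℝ))), Finset.mul_sum]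
    _ ≤ 175 * h * ∑ m ∈ Finset.Icc 1 ((J+1)^2), ((rA m)^2 * (m:ℝ) ^ (-(3/2):ℝ)) := by
        apply mul_le_mul_of_nonneg_left _ (by positivity)
        apply Finset.sum_le_sum_of_subset_of_nonneg
        · exact Finset.Ico_subset_Icc_self
        · intro _ _ _; positivity
    _ ≤ 175 * h * C := mul_le_mul_of_nonneg_left (hc _) (by positivity)
    _ = _ := by ring

/-- Abel summation -/
lemma abel_var : ∃ C : ℝ, 0 < C ∧ ∀ h : ℝ, 0 ≤ h → ∀ J : ℕ, 1 ≤ J →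
    |∑ j ∈ Finset.Icc 1 J, (cj j - 16 * ((j:ℝ) * Real.log j)) * (1 / (j:ℝ)^3 * qf h j)| ≤ C * (1 / J + h^2 * J) := by
  obtain ⟨C, hC, hc⟩ := cj_sum
  refine ⟨320 * C, by positivity, ?_⟩
  intro h hh J hJ
  have hJ1 : (1:ℝ) ≤ J := by exact_mod_cast hJ
  have hJ0 : (0:ℝ) < J := by linarith
  refine (abel_gen (D := fun j : ℕ => cj j - 16 * ((j:ℝ) * Real.log j)) (f := fun j : ℕ => 1 / (j:ℝ)^3 * qf h j)
    (B := fun j : ℕ => C * (j:ℝ)^2) hc hJ).trans ?_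
  have h1 : C * (J:ℝ)^2 * |1 / (J:ℝ)^3 * qf h J| ≤ 320 * C * (1 / J) := by
    rw [abs_of_nonneg (mul_nonneg (by positivity) (qf_nonneg _ _))]
    calc C * (J:ℝ)^2 * (1 / (J:ℝ)^3 * qf h J) ≤ C * (J:ℝ)^2 * (1 / (J:ℝ)^3 * 2) := by
          have := qf_two h J
          gcongr
      _ = 2 * C * (1 / J) := by field_simp
      _ ≤ 320 * C * (1 / J) := by
          have : 0 < 1 / (J:ℝ) := by positivity
          nlinarith [mul_pos hC this]
  have h2 : ∑ j ∈ Finset.Icc 1 (J-1), C * (j:ℝ)^2 * |1 / (j:ℝ)^3 * qf h j - 1 / ((j+1:ℕ):ℝ)^3 * qf h ((j+1:ℕ):ℝ)| ≤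
      320 * C * (h^2 * J) := by
    calc _ ≤ ∑ j ∈ Finset.Icc 1 (J-1), 320 * C * h^2 := by
          apply Finset.sum_le_sum
          intro j hj
          rw [Finset.mem_Icc] at hj
          have hj1 : (1:ℝ) ≤ j := by exact_mod_cast hj.1
          have hj0 : (0:ℝ) < j := by linarith
          push_cast
          have e : 1 / (j:ℝ)^3 * qf h j - 1 / ((j:ℝ)+1)^3 * qf h ((j:ℝ)+1) =
              1 / (j:ℝ)^3 * (qf h j - qf h ((j:ℝ)+1)) + (1 / (j:ℝ)^3 - 1 / ((j:ℝ)+1)^3) * qf h ((j:ℝ)+1) := by ring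
          have h3 : |1 / (j:ℝ)^3 * qf h j - 1 / ((j:ℝ)+1)^3 * qf h ((j:ℝ)+1)| ≤ 320 * h^2 * (1 / (j:ℝ)^2) := by
            rw [e]
            refine (abs_add_le _ _).trans ?_
            rw [abs_mul, abs_mul, abs_of_pos (show 0 < 1 / (j:ℝ)^3 by positivity), abs_of_nonneg (qf_nonneg h _)]
            have a1 := qf_lip2 (h := h) (x := (j:ℝ)) (y := (j:ℝ)+1) hh hj0.le (by linarith)
            have a2 := cube_diff hj1 (show (j:ℝ) ≤ (j:ℝ)+1 by linarith) le_rfl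
            have a3 := qf_sq h ((j:ℝ)+1)
            calc _ ≤ 1 / (j:ℝ)^3 * (40 * h^2 * ((j:ℝ)+1) * ((j:ℝ)+1 - j)) + 3 / (j:ℝ)^4 * (20 * h^2 * ((j:ℝ)+1)^2) := by
                  apply add_le_add
                  · exact mul_le_mul_of_nonneg_left a1 (by positivity)
                  · exact mul_le_mul a2 a3 (qf_nonneg h _) (by positivity)
              _ ≤ 1 / (j:ℝ)^3 * (40 * h^2 * (2 * j) * 1) + 3 / (j:ℝ)^4 * (20 * h^2 * (2 * j)^2) := by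
                  have b1 : (j:ℝ) + 1 ≤ 2 * j := by linarith
                  have b2 : (j:ℝ) + 1 - j = 1 := by ring
                  rw [b2]
                  gcongr
              _ = 320 * h^2 * (1 / (j:ℝ)^2) := by field_simp; ring
          calc C * (j:ℝ)^2 * _ ≤ C * (j:ℝ)^2 * (320 * h^2 * (1 / (j:ℝ)^2)) := by gcongr
            _ = 320 * C * h^2 := by field_simp
      _ = ((J - 1 : ℕ) : ℝ) * (320 * C * h^2) := by
          rw [Finset.sum_const, Nat.card_Icc, Nat.add_sub_cancel, nsmul_eq_mul]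
      _ ≤ (J:ℝ) * (320 * C * h^2) := by
          apply mul_le_mul_of_nonneg_right _ (by positivity)
          exact_mod_cast Nat.sub_le J 1
      _ = _ := by ring
  calc _ ≤ 320 * C * (1 / J) + 320 * C * (h^2 * J) := add_le_add h1 h2
    _ = _ := by ring

end Pool.Agent.D0H53.CL
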