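import Mathlib
import Pool.Agent.D0H53.CL.A7

/-! The variance sum: asymptotic evaluation. -/

set_option autoImplicit false

open Filter Topology
open Pool.Agent.H383 Pool.Agent.H383.Gauss Pool.Agent.N48.Ann

namespace Pool.Agent.D0H53.CL

lemma log_part {h : ℝ} (hh : 0 < h) {J : ℕ} {B : ℝ} (hB : 1 ≤ B) (hJ : h * J ≤ B) :
    |∑ j ∈ Finset.Icc 1 J, Real.log (h * j) * (1 / (j:ℝ)^2 * qf h j)| ≤ (80 * B + 20 * B^2) * h := by
  refine (Finset.abs_sum_le_sum_abs _ _).trans ?_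
  have hsh : 0 < √h := Real.sqrt_pos.mpr hh
  calc _ ≤ ∑ j ∈ Finset.Icc 1 J, (40 * h^2 / √h * (1 / √(j:ℝ)) + 20 * h^2 * B) := by
        apply Finset.sum_le_sum
        intro j hj
        rw [Finset.mem_Icc] at hj
        have hj1 : (1:ℝ) ≤ j := by exact_mod_cast hj.1
        have hj0 : (0:ℝ) < j := by linarith
        have hjJ : (j:ℝ) ≤ J := by exact_mod_cast hj.2
        have hsj : 0 < √(j:ℝ) := Real.sqrt_pos.mpr hj0
        have hhj : 0 < h * j := by positivity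
        have h1 : |Real.log (h * j)| ≤ 2 * (1 / (√h * √(j:ℝ))) + B := by
          rcases le_total (h * j) 1 with hc | hc
          · rw [abs_of_nonpos (Real.log_nonpos hhj.le hc), ← Real.log_inv]
            have h2 := Real.log_le_rpow_div (show 0 ≤ (h * j)⁻¹ by positivity) (show (0:ℝ) < 1/2 by norm_num)
            have h3 : ((h * j)⁻¹) ^ (1/2:ℝ) = 1 / (√h * √(j:ℝ)) := by
              rw [← Real.sqrt_eq_rpow, Real.sqrt_inv, Real.sqrt_mul hh.le, one_div]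
            rw [h3] at h2
            linarith
          · rw [abs_of_nonneg (Real.log_nonneg hc)]
            have h2 := Real.log_le_sub_one_of_pos hhj
            have h3 : h * j ≤ h * J := by gcongr
            have h4 : 0 < 2 * (1 / (√h * √(j:ℝ))) := by positivity
            linarith
        have h2 : 1 / (j:ℝ)^2 * qf h j ≤ 20 * h^2 := by
          have := qf_sq h (j:ℝ)
          calc 1 / (j:ℝ)^2 * qf h j ≤ 1 / (j:ℝ)^2 * (20 * h^2 * (j:ℝ)^2) := by gcongr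
            _ = 20 * h^2 := by field_simp
        have h3 : 0 ≤ 1 / (j:ℝ)^2 * qf h j := mul_nonneg (by positivity) (qf_nonneg _ _)
        rw [abs_mul, abs_of_nonneg h3]
        calc |Real.log (h * j)| * (1 / (j:ℝ)^2 * qf h j) ≤ (2 * (1 / (√h * √(j:ℝ))) + B) * (20 * h^2) :=
              mul_le_mul h1 h2 h3 (by positivity)
          _ = _ := by field_simp; ring
    _ = 40 * h^2 / √h * ∑ j ∈ Finset.Icc 1 J, (1 / √(j:ℝ)) + 20 * h^2 * B * J := by
        rw [Finset.sum_add_distrib, ← Finset.mul_sum, Finset.sum_const, Nat.card_Icc, Nat.add_sub_cancel, nsmul_eq_mul]; ring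
    _ ≤ 40 * h^2 / √h * (2 * √(J:ℝ)) + 20 * h^2 * B * J := by
        have := sum_inv_sqrt J
        gcongr
    _ ≤ (80 * B + 20 * B^2) * h := by
        have e1 : 40 * h^2 / √h * (2 * √(J:ℝ)) = 80 * h * √(h * J) := by
          rw [Real.sqrt_mul hh.le]
          have h0 : h * h = h * (√h * √h) := by rw [Real.mul_self_sqrt hh.le]
          calc 40 * h^2 / √h * (2 * √(J:ℝ)) = 80 * (h * h) / √h * √(J:ℝ) := by ring
            _ = 80 * (h * (√h * √h)) / √h * √(J:ℝ) := by rw [h0]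
            _ = _ := by field_simp
        have e2 : √(h * J) ≤ B := by
          rw [Real.sqrt_le_left (by linarith)]
          nlinarith
        have e3 : 20 * h^2 * B * J = 20 * h * B * (h * J) := by ring
        rw [e1, e3]
        have e4 : 80 * h * √(h * J) ≤ 80 * h * B := by gcongr
        have e5 : 20 * h * B * (h * J) ≤ 20 * h * B * B := by gcongr
        linarith

lemma bern_part {h : ℝ} (hh : 0 < h) (hh1 : h ≤ 1) {J : ℕ} (hJ : 1 ≤ J) :
    |∑ j ∈ Finset.Icc 1 J, 1 / (j:ℝ)^2 * qf h j - Real.pi^2 * h| ≤ 10 * h^2 + 2 / J := by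
  have hb := bern hh.le hh1
  have hJ0 : (0:ℝ) < J := by exact_mod_cast hJ
  have hpi := Real.pi_pos
  have hpi2 := Real.pi_lt_d2
  have hpp : Real.pi^2 ≤ 10 := by nlinarith
  have hr : ∀ N : ℕ, ∑ n ∈ Finset.range (N+1), 1 / (n:ℝ)^2 * (1 - Real.cos (2 * Real.pi * h * n)) =
      ∑ j ∈ Finset.Icc 1 N, 1 / (j:ℝ)^2 * qf h j := by
    intro N
    rw [Finset.sum_range_succ']
    simp only [Nat.cast_zero]
    have e0 : (1:ℝ) / 0 ^ 2 * (1 - Real.cos (2 * Real.pi * h * 0)) = 0 := by simp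
    rw [e0, add_zero]
    have : Finset.Icc 1 N = Finset.Ico 1 (N+1) := by ext a; rw [Finset.mem_Icc, Finset.mem_Ico]; omega
    rw [this, Finset.sum_Ico_eq_sum_range, Nat.add_sub_cancel]
    apply Finset.sum_congr rfl
    intro k _
    unfold qf
    rw [add_comm 1 k]
  have h1 : ∑ j ∈ Finset.Icc 1 J, 1 / (j:ℝ)^2 * qf h j ≤ Real.pi^2 * (h - h^2) := by
    rw [← hr]
    exact sum_le_hasSum _ (fun n _ => mul_nonneg (by positivity) (by linarith [Real.cos_le_one (2 * Real.pi * h * n)])) hb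
  have h2 : Real.pi^2 * (h - h^2) ≤ ∑ j ∈ Finset.Icc 1 J, 1 / (j:ℝ)^2 * qf h j + 2 / J := by
    apply le_of_tendsto (hb.tendsto_sum_nat)
    filter_upwards [eventually_ge_atTop (J+1)] with N hN
    obtain ⟨N', rfl⟩ : ∃ N', N = N' + 1 := ⟨N - 1, by omega⟩
    rw [hr]
    have e1 : ∑ j ∈ Finset.Icc 1 N', (1:ℝ) / (j:ℝ)^2 * qf h (j:ℝ) ≤
        ∑ j ∈ Finset.Icc 1 J, (1:ℝ) / (j:ℝ)^2 * qf h (j:ℝ) + ∑ j ∈ Finset.Ioc J N', (1:ℝ) / (j:ℝ)^2 * qf h (j:ℝ) :=
      split_le (f := fun j : ℕ => (1:ℝ) / (j:ℝ)^2 * qf h (j:ℝ))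
        (fun j => mul_nonneg (div_nonneg zero_le_one (sq_nonneg _)) (qf_nonneg _ _)) J N'
    have e2 : ∑ j ∈ Finset.Ioc J N', (1:ℝ) / (j:ℝ)^2 * qf h (j:ℝ) ≤ 2 / (J:ℝ) := by
      have e3 := tail_rpow (s := 2) (by norm_num) hJ N'
      have e4 : (J:ℝ) ^ (1 - 2:ℝ) / (2 - 1) = 1 / J := by
        rw [show (1 - 2:ℝ) = -1 by norm_num, Real.rpow_neg_one]; norm_num
      rw [e4] at e3
      calc ∑ j ∈ Finset.Ioc J N', (1:ℝ) / (j:ℝ)^2 * qf h (j:ℝ) ≤ ∑ j ∈ Finset.Ioc J N', 2 * (j:ℝ) ^ (-2:ℝ) := by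
            apply Finset.sum_le_sum
            intro j hj
            rw [Finset.mem_Ioc] at hj
            have hj0 : (0:ℝ) < j := by exact_mod_cast (by omega : 0 < j)
            have e5 : (j:ℝ) ^ (-2:ℝ) = 1 / (j:ℝ)^2 := by
              rw [Real.rpow_neg hj0.le, show (2:ℝ) = ((2:ℕ):ℝ) by norm_num, Real.rpow_natCast, one_div]
            rw [e5]
            have := qf_two h (j:ℝ)
            calc (1:ℝ) / (j:ℝ)^2 * qf h (j:ℝ) ≤ 1 / (j:ℝ)^2 * 2 :=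
                  mul_le_mul_of_nonneg_left this (div_nonneg zero_le_one (sq_nonneg _))
              _ = _ := by ring
        _ = 2 * ∑ j ∈ Finset.Ioc J N', (j:ℝ) ^ (-2:ℝ) := by rw [Finset.mul_sum]
        _ ≤ 2 * (1 / J) := mul_le_mul_of_nonneg_left e3 (by norm_num)
        _ = 2 / J := by ring
    linarith
  have h3 : Real.pi^2 * h^2 ≤ 10 * h^2 := mul_le_mul_of_nonneg_right hpp (sq_nonneg h)
  have h4 : 0 ≤ Real.pi^2 * h^2 := by positivity
  have h5 : (0:ℝ) ≤ 2 / J := by positivity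
  rw [abs_le]
  constructor <;> linarith

lemma inv_pi_sq : 1 / Real.pi^2 ≤ 1 := by
  have := Real.pi_gt_three
  rw [div_le_one (by positivity)]; nlinarith

/-- the variance sum -/
noncomputable def Sv (h : ℝ) (M : ℕ) : ℝ := ∑ m ∈ Finset.Icc 1 (M^2), (Circ.ag m)^2 * qf h √(m:ℝ)

lemma ag_sq' {m : ℕ} (hm : 1 ≤ m) : (Circ.ag m)^2 = 1 / Real.pi^2 * ((rA m)^2 * (m:ℝ) ^ (-(3/2):ℝ)) := by
  have hm0 : (0:ℝ) < m := by exact_mod_cast hm
  unfold Circ.ag
  have e : ((√(m:ℝ)) ^ (-(3/2):ℝ))^2 = (m:ℝ) ^ (-(3/2):ℝ) := by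
    rw [Real.sqrt_eq_rpow, ← Real.rpow_natCast, ← Real.rpow_mul hm0.le, ← Real.rpow_mul hm0.le]
    norm_num
  rw [mul_pow, e, div_pow]; ring

theorem var_B {B : ℝ} (hB : 1 ≤ B) : ∃ C : ℝ, 0 < C ∧ ∀ h : ℝ, 0 < h → h ≤ 1 / (8 * B) → ∀ M : ℕ, 1 / h^2 ≤ M →
    |Sv h M - 16 * (h * Real.log (1 / h))| ≤ C * h + (200000 / B + 200 * h) * (h * Real.log (1 / h)) := by
  obtain ⟨C1, hC1, h1⟩ := grouped
  obtain ⟨C2, hC2, h2⟩ := abel_var
  have hlB : 0 ≤ Real.log (3 * B) := Real.log_nonneg (by linarith)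
  refine ⟨C1 + C2 * (1 + 2 * B) + 16 * (80 * (2 * B) + 20 * (2 * B)^2) + 76000 * (1 + 2 * Real.log (3 * B)), by positivity, ?_⟩
  intro h hh hh1 M hM
  have hB0 : 0 < B := by linarith
  have hpi := Real.pi_gt_three
  have h8B : 8 * B * h ≤ 1 := by
    rw [le_div_iff₀ (by positivity)] at hh1; linarith
  have hh8 : h ≤ 1/8 := by nlinarith
  obtain ⟨L, hL⟩ : ∃ L, L = Real.log (1 / h) := ⟨_, rfl⟩
  rw [← hL]
  have hL0 : 0 ≤ L := by
    rw [hL]; apply Real.log_nonneg; rw [one_le_div hh]; linarith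
  obtain ⟨J, hJ⟩ : ∃ J, J = ⌈B / h⌉₊ := ⟨_, rfl⟩
  have hJl : B / h ≤ J := by rw [hJ]; exact Nat.le_ceil _
  have hBh : 1 ≤ B / h := by rw [one_le_div hh]; linarith
  have hJu : (J:ℝ) ≤ 2 * (B / h) := by
    have := Nat.ceil_lt_add_one (show 0 ≤ B / h by positivity)
    rw [← hJ] at this; linarith
  have hJ1' : (1:ℝ) ≤ J := hBh.trans hJl
  have hJ1 : 1 ≤ J := by exact_mod_cast hJ1'
  have hJ0 : (0:ℝ) < J := by linarith
  have hhJ : h * J ≤ 2 * B := by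
    calc h * J ≤ h * (2 * (B / h)) := by gcongr
      _ = 2 * B := by field_simp
  have hJinv : 1 / (J:ℝ) ≤ h / B := by
    rw [div_le_div_iff₀ hJ0 hB0]
    rw [div_le_iff₀ hh] at hJl; linarith
  have hJM : (J+1)^2 - 1 ≤ M^2 := by
    have h3 : (J:ℝ) + 1 ≤ M := by
      refine le_trans ?_ hM
      have : (J:ℝ) + 1 ≤ 3 * (B / h) := by linarith
      refine this.trans ?_
      rw [le_div_iff₀ (by positivity)]
      have : 3 * (B / h) * h^2 = 3 * B * h := by field_simp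
      rw [this]; nlinarith
    have h4 : J + 1 ≤ M := by exact_mod_cast h3
    have := Nat.pow_le_pow_left h4 2
    omega
  obtain ⟨K, hK⟩ : ∃ K, K = (J+1)^2 - 1 := ⟨_, rfl⟩
  have hKJ : J^2 ≤ K := by
    have : (J+1)^2 = J^2 + 2 * J + 1 := by ring
    omega
  have hK1 : 1 ≤ K := le_trans (Nat.one_le_pow _ _ hJ1) hKJ
  have hK1' : (1:ℝ) ≤ K := by exact_mod_cast hK1
  have hK0 : (0:ℝ) < K := by linarith
  -- the full sum
  obtain ⟨Tt, hTt⟩ : ∃ Tt : ℝ, Tt = ∑ m ∈ Finset.Icc 1 (M^2), (rA m)^2 * ((m:ℝ) ^ (-(3/2):ℝ) * qf h √(m:ℝ)) := ⟨_, rfl⟩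
  have hSv : Sv h M = 1 / Real.pi^2 * Tt := by
    unfold Sv
    rw [hTt, Finset.mul_sum]
    apply Finset.sum_congr rfl
    intro m hm
    rw [Finset.mem_Icc] at hm
    rw [ag_sq' hm.1]; ring
  obtain ⟨Ti, hTi⟩ : ∃ Ti : ℝ, Ti = ∑ m ∈ Finset.Ico 1 ((J+1)^2), (rA m)^2 * ((m:ℝ) ^ (-(3/2):ℝ) * qf h √(m:ℝ)) := ⟨_, rfl⟩
  obtain ⟨Te, hTe⟩ : ∃ Te : ℝ, Te = ∑ m ∈ Finset.Ioc K (M^2), (rA m)^2 * ((m:ℝ) ^ (-(3/2):ℝ) * qf h √(m:ℝ)) := ⟨_, rfl⟩
  have hsplit : Tt = Ti + Te := by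
    rw [hTt, hTi, hTe, ← Finset.sum_union]
    · apply Finset.sum_congr _ (fun _ _ => rfl)
      ext m
      rw [Finset.mem_union, Finset.mem_Icc, Finset.mem_Ico, Finset.mem_Ioc]
      have : 1 ≤ (J+1)^2 := Nat.one_le_pow _ _ (by omega)
      omega
    · rw [Finset.disjoint_left]
      intro m a1 a2
      rw [Finset.mem_Ico] at a1
      rw [Finset.mem_Ioc] at a2
      omega
  have hterm0 : ∀ m : ℕ, 0 ≤ (rA m)^2 * ((m:ℝ) ^ (-(3/2):ℝ) * qf h √(m:ℝ)) := fun m =>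
    mul_nonneg (sq_nonneg _) (mul_nonneg (by positivity) (qf_nonneg _ _))
  have hTe0 : 0 ≤ Te := by rw [hTe]; exact Finset.sum_nonneg fun m _ => hterm0 m
  have hTe1 : Te ≤ 76000 * (h / B) * (1 + 2 * Real.log (3 * B) + 2 * L) := by
    have a1 := u_tail (u := fun m => (rA m)^2) (fun m => sq_nonneg _) (C := 1000) (by norm_num) r2_sum_log hK1 (M^2)
    have a2 : Te ≤ 2 * ∑ m ∈ Finset.Ioc K (M^2), (rA m)^2 * (m:ℝ) ^ (-(3/2):ℝ) := by
      rw [hTe, Finset.mul_sum]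
      apply Finset.sum_le_sum
      intro m _
      have := qf_two h √(m:ℝ)
      have b1 : 0 ≤ (rA m)^2 * (m:ℝ) ^ (-(3/2):ℝ) := by positivity
      calc (rA m)^2 * ((m:ℝ) ^ (-(3/2):ℝ) * qf h √(m:ℝ)) = ((rA m)^2 * (m:ℝ) ^ (-(3/2):ℝ)) * qf h √(m:ℝ) := by ring
        _ ≤ ((rA m)^2 * (m:ℝ) ^ (-(3/2):ℝ)) * 2 := mul_le_mul_of_nonneg_left this b1
        _ = _ := by ring
    have a3 : (K:ℝ) ^ (-(1/2):ℝ) ≤ h / B := by
      refine le_trans ?_ hJinv
      have : (J:ℝ)^2 ≤ K := by exact_mod_cast hKJ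
      calc (K:ℝ) ^ (-(1/2):ℝ) ≤ ((J:ℝ)^2) ^ (-(1/2):ℝ) := Real.rpow_le_rpow_of_nonpos (by positivity) this (by norm_num)
        _ = 1 / J := by
            rw [← Real.rpow_natCast, ← Real.rpow_mul hJ0.le]
            norm_num
            rw [Real.rpow_neg_one]
    have a4 : Real.log K ≤ 2 * Real.log (3 * B) + 2 * L := by
      have b1 : (K:ℝ) ≤ (3 * B / h)^2 := by
        have b2 : (K:ℝ) ≤ ((J:ℝ) + 1)^2 := by
          have : K ≤ (J+1)^2 := by omega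
          exact_mod_cast this
        have b3 : (J:ℝ) + 1 ≤ 3 * B / h := by
          have e : 3 * B / h = 3 * (B / h) := by ring
          rw [e]; linarith
        exact b2.trans (pow_le_pow_left₀ (by positivity) b3 2)
      have b2 := Real.log_le_log hK0 b1
      rw [Real.log_pow] at b2
      have b3 : Real.log (3 * B / h) = Real.log (3 * B) + L := by
        rw [hL, ← Real.log_mul (by positivity) (by positivity)]; congr 1; ring
      rw [b3] at b2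
      push_cast at b2
      linarith
    have a5 : 0 ≤ Real.log K := Real.log_nonneg hK1'
    calc Te ≤ 2 * (38 * 1000 * ((1 + Real.log K) * (K:ℝ) ^ (-(1/2):ℝ))) := a2.trans (mul_le_mul_of_nonneg_left a1 (by norm_num))
      _ ≤ 2 * (38 * 1000 * ((1 + (2 * Real.log (3 * B) + 2 * L)) * (h / B))) := by gcongr
      _ = _ := by ring
  -- grouped
  obtain ⟨Sj, hSj⟩ : ∃ Sj : ℝ, Sj = ∑ j ∈ Finset.Icc 1 J, cj j * (1 / (j:ℝ)^3 * qf h j) := ⟨_, rfl⟩
  have k1 := h1 h hh.le J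
  rw [← hTi, ← hSj] at k1
  have k2 := h2 h hh.le J hJ1
  have k3 := log_part hh (B := 2 * B) (by linarith) hhJ
  have k4 := bern_part hh (by linarith) hJ1
  obtain ⟨Sl, hSl⟩ : ∃ Sl : ℝ, Sl = ∑ j ∈ Finset.Icc 1 J, Real.log (h * j) * (1 / (j:ℝ)^2 * qf h j) := ⟨_, rfl⟩
  obtain ⟨Sb, hSb⟩ : ∃ Sb : ℝ, Sb = ∑ j ∈ Finset.Icc 1 J, 1 / (j:ℝ)^2 * qf h j := ⟨_, rfl⟩
  rw [← hSl] at k3
  rw [← hSb] at k4
  have k5 : ∑ j ∈ Finset.Icc 1 J, (cj j - 16 * ((j:ℝ) * Real.log j)) * (1 / (j:ℝ)^3 * qf h j) = Sj - 16 * (L * Sb + Sl) := by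
    rw [hSj, hSb, hSl, Finset.mul_sum, ← Finset.sum_add_distrib, Finset.mul_sum, ← Finset.sum_sub_distrib]
    apply Finset.sum_congr rfl
    intro j hj
    rw [Finset.mem_Icc] at hj
    have hj0 : (0:ℝ) < j := by exact_mod_cast hj.1
    have e : Real.log j = L + Real.log (h * j) := by
      rw [hL, Real.log_mul hh.ne' hj0.ne', one_div, Real.log_inv]; ring
    rw [e]
    field_simp
  rw [k5] at k2
  have k6 : C2 * (1 / J + h^2 * J) ≤ C2 * (1 + 2 * B) * h := by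
    have a1 : 1 / (J:ℝ) ≤ h := hJinv.trans (div_le_self hh.le hB)
    have a2 : h^2 * J ≤ 2 * B * h := by
      calc h^2 * J = h * (h * J) := by ring
        _ ≤ h * (2 * B) := by gcongr
        _ = _ := by ring
    calc C2 * (1 / J + h^2 * J) ≤ C2 * (h + 2 * B * h) := by gcongr
      _ = _ := by ring
  have k7 : |16 * L * (Sb - Real.pi^2 * h)| ≤ 16 * L * (10 * h^2 + 2 * (h / B)) := by
    rw [abs_mul, abs_of_nonneg (by positivity)]
    have : 2 / (J:ℝ) ≤ 2 * (h / B) := by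
      calc 2 / (J:ℝ) = 2 * (1 / J) := by ring
        _ ≤ _ := by gcongr
    have := k4.trans (add_le_add_right this (10 * h^2))
    gcongr
  have hBinv : 1 / B ≤ 1 := by rw [div_le_one hB0]; exact hB
  have k8 : 76000 * (h / B) * (1 + 2 * Real.log (3 * B) + 2 * L) ≤ 76000 * (1 + 2 * Real.log (3 * B)) * h + 152000 / B * (h * L) := by
    have e : 76000 * (h / B) * (1 + 2 * Real.log (3 * B) + 2 * L) = 76000 * (1 + 2 * Real.log (3 * B)) * h * (1 / B) + 152000 / B * (h * L) := by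
      field_simp; ring
    rw [e]
    have : 76000 * (1 + 2 * Real.log (3 * B)) * h * (1 / B) ≤ 76000 * (1 + 2 * Real.log (3 * B)) * h * 1 := by gcongr
    linarith
  have hTT : |Tt - 16 * Real.pi^2 * (h * L)| ≤ (C1 + C2 * (1 + 2 * B) + 16 * (80 * (2 * B) + 20 * (2 * B)^2) + 76000 * (1 + 2 * Real.log (3 * B))) * h +
      (200000 / B + 200 * h) * (h * L) := by
    have e1 : Tt - 16 * Real.pi^2 * (h * L) = (Ti - Sj) + (Sj - 16 * (L * Sb + Sl)) + 16 * Sl + 16 * L * (Sb - Real.pi^2 * h) + Te := by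
      rw [hsplit]; ring
    have e2 : 16 * L * (10 * h^2 + 2 * (h / B)) = 160 * h * (h * L) + 32 / B * (h * L) := by field_simp; ring
    have e3 : 0 ≤ h * L := by positivity
    have e4 : 152000 / B * (h * L) + 32 / B * (h * L) ≤ 200000 / B * (h * L) := by
      have : 152000 / B * (h * L) + 32 / B * (h * L) = 152032 * (1 / B * (h * L)) := by ring
      rw [this]
      have e5 : 200000 / B * (h * L) = 200000 * (1 / B * (h * L)) := by ring
      rw [e5]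
      have : 0 ≤ 1 / B * (h * L) := by positivity
      linarith
    have e6 : 160 * h * (h * L) ≤ 200 * h * (h * L) := by
      have : 0 ≤ h * (h * L) := by positivity
      linarith
    obtain ⟨a1, a2⟩ := abs_le.mp k1
    obtain ⟨b1, b2⟩ := abs_le.mp k2
    obtain ⟨c1, c2⟩ := abs_le.mp k3
    obtain ⟨d1, d2⟩ := abs_le.mp k7
    rw [e2] at d1 d2
    rw [e1, abs_le]
    constructor <;> linarith
  rw [hSv]
  have e7 : 1 / Real.pi^2 * Tt - 16 * (h * L) = 1 / Real.pi^2 * (Tt - 16 * Real.pi^2 * (h * L)) := by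
    field_simp
  rw [e7, abs_mul, abs_of_pos (by positivity)]
  have e8 : 1 / Real.pi^2 ≤ 1 := inv_pi_sq
  calc 1 / Real.pi^2 * |Tt - 16 * Real.pi^2 * (h * L)| ≤ 1 * |Tt - 16 * Real.pi^2 * (h * L)| :=
        mul_le_mul_of_nonneg_right e8 (abs_nonneg _)
    _ ≤ _ := by rw [one_mul]; exact hTT

theorem var_asymp {δ : ℝ} (hδ : 0 < δ) : ∃ h₀ : ℝ, 0 < h₀ ∧ h₀ ≤ 1/8 ∧ ∀ h : ℝ, 0 < h → h ≤ h₀ → ∀ M : ℕ, 1 / h^2 ≤ M →
    |Sv h M - 16 * (h * Real.log (1 / h))| ≤ δ * (h * Real.log (1 / h)) := by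
  obtain ⟨B, hBd⟩ : ∃ B : ℝ, B = max 1 (800000 / δ) := ⟨_, rfl⟩
  have hB : 1 ≤ B := by rw [hBd]; exact le_max_left _ _
  have hB0 : 0 < B := by linarith
  have hB2 : 200000 / B ≤ δ / 4 := by
    have : 800000 / δ ≤ B := by rw [hBd]; exact le_max_right _ _
    rw [div_le_iff₀ hδ] at this
    rw [div_le_div_iff₀ hB0 (by norm_num)]
    linarith
  obtain ⟨C, hC, h1⟩ := var_B hB
  obtain ⟨h₀, hh₀⟩ : ∃ h₀ : ℝ, h₀ = min (min (1 / (8 * B)) (δ / 800)) (Real.exp (-(4 * C / δ))) := ⟨_, rfl⟩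
  have hp0 : 0 < h₀ := by rw [hh₀]; positivity
  have hp1 : h₀ ≤ 1 / (8 * B) := by rw [hh₀]; exact (min_le_left _ _).trans (min_le_left _ _)
  have hp2 : h₀ ≤ δ / 800 := by rw [hh₀]; exact (min_le_left _ _).trans (min_le_right _ _)
  have hp3 : h₀ ≤ Real.exp (-(4 * C / δ)) := by rw [hh₀]; exact min_le_right _ _
  have hB8 : 1 / (8 * B) ≤ 1/8 := by
    apply one_div_le_one_div_of_le (by norm_num); linarith
  refine ⟨h₀, hp0, hp1.trans hB8, ?_⟩
  intro h hh hhu M hM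
  have h2 := h1 h hh (hhu.trans hp1) M hM
  refine h2.trans ?_
  obtain ⟨L, hL⟩ : ∃ L, L = Real.log (1 / h) := ⟨_, rfl⟩
  rw [← hL]
  have hLC : 4 * C / δ ≤ L := by
    rw [hL, Real.le_log_iff_exp_le (by positivity), le_div_iff₀ hh]
    calc Real.exp (4 * C / δ) * h ≤ Real.exp (4 * C / δ) * Real.exp (-(4 * C / δ)) := by
          have := hhu.trans hp3
          gcongr
      _ = 1 := by rw [← Real.exp_add]; simp
  have hCL : C ≤ δ / 4 * L := by
    rw [div_le_iff₀ hδ] at hLC; linarith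
  have hL0 : 0 ≤ L := le_trans (by positivity) hLC
  have h3 : 200 * h ≤ δ / 4 := by linarith
  have h4 : C * h ≤ δ / 4 * (h * L) := by
    calc C * h ≤ (δ / 4 * L) * h := by gcongr
      _ = _ := by ring
  have h5 : 0 ≤ h * L := by positivity
  have h6 : (200000 / B + 200 * h) * (h * L) ≤ (δ / 4 + δ / 4) * (h * L) := by gcongr
  have h7 : 0 ≤ δ * (h * L) := by positivity
  linarith

end Pool.Agent.D0H53.CL
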