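import Mathlib

/-! Taylor bounds for the exponential on the imaginary axis and for the hyperbolic cosine. -/

set_option autoImplicit false

open Filter Topology

namespace Pool.Agent.D0H53.CL

/-- Taylor remainder of `e^{ix}` -/
noncomputable def tr (K : ℕ) (x : ℝ) : ℂ :=
  Complex.exp ((x:ℂ) * Complex.I) - ∑ r ∈ Finset.range K, ((x:ℂ) * Complex.I) ^ r / (r.factorial : ℂ)

lemma tr_zero (x : ℝ) : tr 0 x = Complex.exp ((x:ℂ) * Complex.I) := by simp [tr]

lemma tr_succ (K : ℕ) (x : ℝ) : tr (K+1) x = tr K x - ((x:ℂ) * Complex.I) ^ K / (K.factorial : ℂ) := by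
  unfold tr
  rw [Finset.sum_range_succ]; ring

lemma tr_deriv (K : ℕ) (x : ℝ) : HasDerivAt (tr (K+1)) (Complex.I * tr K x) x := by
  have hlin : HasDerivAt (fun y : ℝ => (y:ℂ) * Complex.I) Complex.I x := by
    have := (Complex.ofRealCLM.hasDerivAt (x := x)).mul_const Complex.I
    simpa using this
  induction K with
  | zero =>
    have h1 : tr 1 = fun y : ℝ => Complex.exp ((y:ℂ) * Complex.I) - 1 := by
      funext y; simp [tr]
    rw [h1, tr_zero]
    have h2 := hlin.cexp.sub_const 1
    rw [mul_comm]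
    exact h2
  | succ K ih =>
    have h1 : tr (K+1+1) = fun y : ℝ => tr (K+1) y - ((y:ℂ) * Complex.I) ^ (K+1) / ((K+1).factorial : ℂ) := by
      funext y; exact tr_succ (K+1) y
    rw [h1, tr_succ K x]
    have h2 := ih.sub ((hlin.pow (K+1)).div_const ((K+1).factorial : ℂ))
    refine HasDerivAt.congr_deriv (f := fun y : ℝ => tr (K+1) y - ((y:ℂ) * Complex.I) ^ (K+1) / ((K+1).factorial : ℂ)) h2 ?_
    rw [Nat.factorial_succ]
    have h3 : ((K:ℂ) + 1) ≠ 0 := by exact_mod_cast Nat.succ_ne_zero K
    have h4 : ((K.factorial : ℕ) : ℂ) ≠ 0 := by exact_mod_cast Nat.factorial_ne_zero K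
    push_cast
    field_simp

lemma tr_at_zero (K : ℕ) : tr (K+1) 0 = 0 := by
  unfold tr
  rw [Finset.sum_range_succ']
  simp

lemma tr_nonneg (K : ℕ) : ∀ x : ℝ, 0 ≤ x → ‖tr K x‖ ≤ x ^ K / K.factorial := by
  induction K with
  | zero =>
    intro x _
    rw [tr_zero, Complex.norm_exp_ofReal_mul_I]; simp
  | succ K ih =>
    intro x hx
    have hB : ∀ y : ℝ, HasDerivAt (fun y : ℝ => y ^ (K+1) / ((K+1).factorial : ℝ)) (y ^ K / (K.factorial : ℝ)) y := by
      intro y
      have h := (hasDerivAt_pow (K+1) y).div_const ((K+1).factorial : ℝ)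
      refine HasDerivAt.congr_deriv (f := fun y : ℝ => y ^ (K+1) / ((K+1).factorial : ℝ)) h ?_
      rw [Nat.factorial_succ]
      have h3 : ((K:ℝ) + 1) ≠ 0 := by positivity
      have h4 : ((K.factorial : ℕ) : ℝ) ≠ 0 := by positivity
      push_cast
      field_simp
    have key := image_norm_le_of_norm_deriv_right_le_deriv_boundary (a := 0) (b := x) (f := tr (K+1))
      (f' := fun y => Complex.I * tr K y) (B := fun y : ℝ => y ^ (K+1) / ((K+1).factorial : ℝ))
      (B' := fun y : ℝ => y ^ K / (K.factorial : ℝ))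
      (fun y _ => (tr_deriv K y).continuousAt.continuousWithinAt)
      (fun y _ => (tr_deriv K y).hasDerivWithinAt)
      (by rw [tr_at_zero]; simp)
      (fun y => hB y)
      (by
        intro y hy
        rw [norm_mul, Complex.norm_I, one_mul]
        exact ih y hy.1)
    exact key (Set.right_mem_Icc.mpr hx)

lemma tr_neg (K : ℕ) (x : ℝ) : tr K (-x) = (starRingEnd ℂ) (tr K x) := by
  unfold tr
  rw [map_sub, map_sum, ← Complex.exp_conj, map_mul, Complex.conj_ofReal, Complex.conj_I]
  congr 1
  · congr 1; push_cast; ring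
  · apply Finset.sum_congr rfl
    intro r _
    rw [map_div₀, map_pow, map_mul, Complex.conj_ofReal, Complex.conj_I, map_natCast]
    congr 2; push_cast; ring

theorem tr_le (K : ℕ) (x : ℝ) : ‖tr K x‖ ≤ |x| ^ K / K.factorial := by
  rcases le_total 0 x with h | h
  · rw [abs_of_nonneg h]; exact tr_nonneg K x h
  · have h1 := tr_nonneg K (-x) (by linarith)
    rw [tr_neg, RCLike.norm_conj] at h1
    rw [abs_of_nonpos h]
    exact h1

/-- even powers are dominated by exponentials -/
lemma pow_le_cosh {K : ℕ} (hK : Even K) (x : ℝ) : x ^ K / K.factorial ≤ (Real.exp (2 * x) + Real.exp (-(2 * x))) * (1/2) ^ K := by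
  have h : ∀ y : ℝ, 0 ≤ y → y ^ K / K.factorial ≤ Real.exp (2 * y) * (1/2) ^ K := by
    intro y hy
    have h1 := Real.pow_div_factorial_le_exp (2 * y) (by linarith) K
    rw [mul_pow] at h1
    have h2 : y ^ K / K.factorial = (2 ^ K * y ^ K / K.factorial) * (1/2) ^ K := by
      rw [one_div, inv_pow]; field_simp
    rw [h2]
    exact mul_le_mul_of_nonneg_right h1 (by positivity)
  rcases le_total 0 x with hx | hx
  · refine (h x hx).trans ?_
    apply mul_le_mul_of_nonneg_right _ (by positivity)
    have := Real.exp_pos (-(2 * x))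
    linarith
  · have h1 := h (-x) (by linarith)
    rw [hK.neg_pow] at h1
    refine h1.trans ?_
    apply mul_le_mul_of_nonneg_right _ (by positivity)
    have e : 2 * -x = -(2 * x) := by ring
    rw [e]
    have := Real.exp_pos (2 * x)
    linarith

end Pool.Agent.D0H53.CL
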