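import Mathlib
import Pool.Agent.H425R3.JD.B1
import Pool.Agent.W24.Liou
import Pool.Agent.D0H53.CL.C1

/-! Window averages of powers of trigonometric polynomials against their means. -/

set_option autoImplicit false

open Filter Topology
open Pool.Agent.H383.AP Pool.Agent.H383.Gauss Pool.Agent.H383.Gen Pool.Agent.H425R3.JD
open Pool.Agent.W24.Liou (vv vv_pos liou)

namespace Pool.Agent.D0H53.CL

/-- character sums -/
lemma cm_chr_le {θ δ : ℝ} (hδ : 0 < δ) (h : ∀ k : ℤ, δ ≤ |θ - k|) {N : ℕ} (hN : 1 ≤ N) :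
    ‖cm (chr θ) N‖ ≤ 1 / (2 * δ * N) := by
  have hpi := Real.pi_pos
  have hN0 : (0:ℝ) < N := by exact_mod_cast hN
  obtain ⟨x, hx⟩ : ∃ x : ℝ, x = θ - round θ := ⟨_, rfl⟩
  have hx1 : |x| ≤ 1/2 := by rw [hx]; exact abs_sub_round θ
  have hx2 : δ ≤ |x| := by rw [hx]; exact h _
  obtain ⟨z, hz⟩ : ∃ z : ℂ, z = Complex.exp (Complex.I * ((2 * Real.pi * x : ℝ) : ℂ)) := ⟨_, rfl⟩
  have hpow : ∀ n : ℕ, chr θ n = z ^ n := by
    intro n
    rw [hz, ← Complex.exp_nat_mul]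
    unfold chr
    rw [Complex.exp_eq_exp_iff_exists_int]
    refine ⟨n * round θ, ?_⟩
    rw [hx]; push_cast; ring
  have hnz : ∀ n, ‖z ^ n‖ = 1 := fun n => by rw [← hpow]; exact norm_chr θ n
  have h4 : 4 * δ ≤ ‖z - 1‖ := by
    rw [hz, Complex.norm_exp_I_mul_ofReal_sub_one, norm_mul, Real.norm_eq_abs, Real.norm_eq_abs]
    have e : 2 * Real.pi * x / 2 = Real.pi * x := by ring
    rw [e]
    have h5 := Real.mul_abs_le_abs_sin (x := Real.pi * x) (by
      rw [abs_mul, abs_of_pos hpi]; nlinarith)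
    rw [abs_mul, abs_of_pos hpi] at h5
    have h6 : 2 / Real.pi * (Real.pi * |x|) = 2 * |x| := by field_simp
    rw [h6] at h5
    rw [abs_of_pos (by norm_num : (0:ℝ) < 2)]
    linarith
  have hz1 : z ≠ 1 := by
    intro h1
    rw [h1, sub_self, norm_zero] at h4
    linarith
  unfold cm
  have e : ∑ n ∈ Finset.range N, chr θ n = (z^N - 1)/(z - 1) := by
    rw [← geom_sum_eq hz1]
    exact Finset.sum_congr rfl (fun n _ => hpow n)
  rw [e, norm_div, norm_div, Complex.norm_natCast]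
  have h7 : ‖z^N - 1‖ ≤ 2 := by
    refine (norm_sub_le _ _).trans ?_
    rw [hnz, norm_one]; norm_num
  calc ‖z ^ N - 1‖ / ‖z - 1‖ / N ≤ 2 / (4 * δ) / N := by gcongr
    _ = 1 / (2 * δ * N) := by field_simp; norm_num

lemma cm_sum {ι : Type*} (s : Finset ι) (f : ι → ℕ → ℂ) (N : ℕ) : cm (∑ i ∈ s, f i) N = ∑ i ∈ s, cm (f i) N := by
  classical
  induction s using Finset.induction_on with
  | empty => simp [cm]
  | insert i s hi ih => rw [Finset.sum_insert hi, Finset.sum_insert hi, cm_add, Pi.add_apply, ih]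

lemma comb_mean {ι : Type*} (s : Finset ι) (c : ι → ℂ) (ξ : ι → ℝ) :
    HasMean (∑ i ∈ s, c i • chr (ξ i)) (∑ i ∈ s, c i * mc (ξ i)) :=
  HasMean.sum s _ _ (fun i _ => (chr_mean (ξ i)).smul (c i))

lemma cm_mn_comb {ι : Type*} (s : Finset ι) (c : ι → ℂ) (ξ : ι → ℝ) {δ : ℝ} (hδ : 0 < δ)
    (h : ∀ i ∈ s, (∃ k : ℤ, ξ i = k) ∨ ∀ k : ℤ, δ ≤ |ξ i - k|) {N : ℕ} (hN : 1 ≤ N) :
    ‖cm (∑ i ∈ s, c i • chr (ξ i)) N - mn (∑ i ∈ s, c i • chr (ξ i))‖ ≤ (∑ i ∈ s, ‖c i‖) * (1 / (2 * δ * N)) := by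
  have hN0 : (0:ℝ) < N := by exact_mod_cast hN
  rw [(comb_mean s c ξ).mn_eq, cm_sum, ← Finset.sum_sub_distrib, Finset.sum_mul]
  refine (norm_sum_le _ _).trans (Finset.sum_le_sum fun i hi => ?_)
  have e1 : cm (c i • chr (ξ i)) N = c i * cm (chr (ξ i)) N := by rw [cm_smul]; rfl
  rw [e1, ← mul_sub, norm_mul]
  apply mul_le_mul_of_nonneg_left _ (norm_nonneg _)
  rcases h i hi with hk | hk
  · have h1 : mc (ξ i) = 1 := by unfold mc; rw [if_pos hk]
    have h2 : cm (chr (ξ i)) N = 1 := by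
      obtain ⟨k, hk⟩ := hk
      have : chr (ξ i) = fun _ => 1 := by
        funext n
        simp only [chr, hk]
        rw [Complex.exp_eq_one_iff]
        refine ⟨n * k, ?_⟩
        push_cast; ring
      rw [this]
      unfold cm
      rw [Finset.sum_const, Finset.card_range, nsmul_eq_mul, mul_one]
      exact div_self (by exact_mod_cast hN0.ne')
    rw [h1, h2, sub_self, norm_zero]
    positivity
  · have h1 : mc (ξ i) = 0 := by
      unfold mc
      rw [if_neg]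
      rintro ⟨k, hk'⟩
      have := hk k
      rw [hk', sub_self, abs_zero] at this
      linarith
    rw [h1, sub_zero]
    exact cm_chr_le hδ hk hN

/-- coefficients of the two exponentials of a term -/
noncomputable def cz (Z : ℕ → ℂ) (y : ℕ × Bool) : ℂ := if y.2 then Z y.1 / 2 else (starRingEnd ℂ) (Z y.1) / 2

/-- sign -/
def sg (b : Bool) : ℤ := if b then 1 else -1

/-- frequencies -/
noncomputable def fz (y : ℕ × Bool) : ℝ := (sg y.2 : ℝ) * √(y.1 : ℝ)

lemma norm_cz (Z : ℕ → ℂ) (y : ℕ × Bool) : ‖cz Z y‖ = ‖Z y.1‖ / 2 := by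
  unfold cz
  split_ifs
  · rw [norm_div]; norm_num
  · rw [norm_div, RCLike.norm_conj]; norm_num

lemma SC_exp (Z : ℕ → ℂ) (T : Finset ℕ) (n : ℕ) :
    ((SC Z 1 T n : ℝ) : ℂ) = ∑ y ∈ T ×ˢ (Finset.univ : Finset Bool), cz Z y * chr (fz y) n := by
  have h := congrFun (SC_trig Z 1 T) n
  rw [h, Finset.sum_apply, Finset.sum_product]
  apply Finset.sum_congr rfl
  intro m _
  rw [Fintype.sum_bool]
  simp only [Pi.add_apply, Pi.smul_apply, smul_eq_mul, cz, fz, sg, if_true, Bool.false_eq_true, if_false,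
    Int.cast_one, Int.cast_neg, one_mul, neg_mul]

lemma chr_sum {ι : Type*} (s : Finset ι) (f : ι → ℝ) (n : ℕ) : chr (∑ i ∈ s, f i) n = ∏ i ∈ s, chr (f i) n := by
  classical
  induction s using Finset.induction_on with
  | empty => rw [Finset.sum_empty, Finset.prod_empty, chr_zero]; rfl
  | insert a s ha ih =>
    rw [Finset.sum_insert ha, Finset.prod_insert ha, ← ih, ← chr_mul]; rfl

/-- the tuples -/
def tp (T : Finset ℕ) (r : ℕ) : Finset (Fin r → ℕ × Bool) :=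
  Fintype.piFinset (fun _ : Fin r => T ×ˢ (Finset.univ : Finset Bool))

lemma SC_pow (Z : ℕ → ℂ) (T : Finset ℕ) (r : ℕ) : (fun n : ℕ => ((SC Z 1 T n : ℝ) : ℂ) ^ r) =
    ∑ y ∈ tp T r, (∏ i, cz Z (y i)) • chr (∑ i, fz (y i)) := by
  funext n
  rw [SC_exp, Finset.sum_pow', Finset.sum_apply]
  unfold tp
  apply Finset.sum_congr rfl
  intro y _
  rw [Pi.smul_apply, smul_eq_mul, chr_sum, Finset.prod_mul_distrib]

lemma sum_norm_tp (Z : ℕ → ℂ) (T : Finset ℕ) (r : ℕ) : ∑ y ∈ tp T r, ‖∏ i, cz Z (y i)‖ = (bC Z T) ^ r := by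
  have h : bC Z T = ∑ y ∈ T ×ˢ (Finset.univ : Finset Bool), ‖cz Z y‖ := by
    rw [Finset.sum_product]
    unfold bC
    apply Finset.sum_congr rfl
    intro m _
    simp only [norm_cz, Finset.sum_const, Finset.card_univ, Fintype.card_bool, nsmul_eq_mul]
    push_cast; ring
  rw [h, Finset.sum_pow']
  unfold tp
  apply Finset.sum_congr rfl
  intro y _
  rw [norm_prod]

lemma fz_gap {T : Finset ℕ} {M r : ℕ} (hT : ∀ m ∈ T, 1 ≤ m ∧ m ≤ M^2) {y : Fin r → ℕ × Bool} (hy : y ∈ tp T r) :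
    (∃ k : ℤ, ∑ i, fz (y i) = k) ∨ ∀ k : ℤ, 1 / ((2 * r * M + 2 : ℕ) : ℝ) ^ (2 ^ r) ≤ |∑ i, fz (y i) - k| := by
  classical
  by_cases hint : ∃ k : ℤ, ∑ i, fz (y i) = k
  · left; exact hint
  right
  intro k
  obtain ⟨B, hB⟩ : ∃ B : ℝ, B = ((2 * r * M + 2 : ℕ) : ℝ) := ⟨_, rfl⟩
  rw [← hB]
  have hrM : (0:ℝ) ≤ (r:ℝ) * M := by positivity
  have hB2 : 2 ≤ B := by rw [hB]; push_cast; nlinarith
  have hB1 : 1 ≤ B := by linarith
  have hBp : 1 ≤ B ^ (2^r) := one_le_pow₀ hB1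
  unfold tp at hy
  rw [Fintype.mem_piFinset] at hy
  obtain ⟨g, hg⟩ : ∃ g : Fin r → ℕ, g = fun i => (y i).1 := ⟨_, rfl⟩
  have hgi : ∀ i, (y i).1 = g i := fun i => by rw [hg]
  have hgT : ∀ i, g i ∈ T := by
    intro i
    have := hy i
    rw [Finset.mem_product] at this
    rw [← hgi]; exact this.1
  have hg1 : ∀ i, 1 ≤ g i := fun i => (hT _ (hgT i)).1
  have hsq : ∀ i, √(g i : ℝ) ≤ M := by
    intro i
    rw [Real.sqrt_le_left (Nat.cast_nonneg _)]
    exact_mod_cast (hT _ (hgT i)).2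
  have hsg : ∀ b : Bool, |(sg b : ℝ)| = 1 := by
    intro b; unfold sg; split_ifs <;> simp
  have hfz : ∀ i, |fz (y i)| ≤ M := by
    intro i
    unfold fz
    rw [abs_mul, hsg, one_mul, abs_of_nonneg (Real.sqrt_nonneg _), hgi]
    exact hsq i
  have hsum : |∑ i, fz (y i)| ≤ r * M := by
    refine (Finset.abs_sum_le_sum_abs _ _).trans ?_
    calc ∑ i, |fz (y i)| ≤ ∑ _i : Fin r, (M:ℝ) := Finset.sum_le_sum fun i _ => hfz i
      _ = r * M := by simp
  rcases le_or_gt (|(k:ℝ)|) (r * M + 1) with hk | hk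
  · -- the algebraic case
    obtain ⟨c, hc⟩ : ∃ c : Finset (Fin r) → ℤ, c = fun T =>
      (∑ i, if ({i} : Finset (Fin r)) = T then sg (y i).2 else 0) - (if (∅ : Finset (Fin r)) = T then k else 0) := ⟨_, rfl⟩
    have hv : ∀ i : Fin r, vv g {i} = √(g i : ℝ) := by
      intro i; unfold vv; rw [Finset.prod_singleton]
    have hv0 : vv g ∅ = 1 := by unfold vv; simp
    have hswap : ∀ f : Fin r → ℝ, ∑ T : Finset (Fin r), (∑ i, (if ({i} : Finset (Fin r)) = T then f i else 0)) * vv g T =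
        ∑ i, f i * √(g i : ℝ) := by
      intro f
      simp only [Finset.sum_mul]
      rw [Finset.sum_comm]
      apply Finset.sum_congr rfl
      intro k _
      rw [Finset.sum_eq_single ({k} : Finset (Fin r))]
      · rw [if_pos rfl, hv]
      · intro T _ hT
        rw [if_neg (Ne.symm hT), zero_mul]
      · intro h; exact absurd (Finset.mem_univ _) h
    have hswap0 : ∀ a : ℝ, ∑ T : Finset (Fin r), (if (∅ : Finset (Fin r)) = T then a else 0) * vv g T = a := by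
      intro a
      rw [Finset.sum_eq_single (∅ : Finset (Fin r))]
      · rw [if_pos rfl, hv0, mul_one]
      · intro T _ hT
        rw [if_neg (Ne.symm hT), zero_mul]
      · intro h; exact absurd (Finset.mem_univ _) h
    have h1 : ∑ T, (c T : ℝ) * vv g T = ∑ i, fz (y i) - k := by
      simp only [hc]
      push_cast
      simp only [sub_mul]
      rw [Finset.sum_sub_distrib, hswap, hswap0]
      congr 1
      apply Finset.sum_congr rfl
      intro i _
      unfold fz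
      rw [hgi]
    have h2 : ∑ T, |(c T : ℝ)| * vv g T ≤ B := by
      have h3 : ∀ T, |(c T : ℝ)| * vv g T ≤ (∑ i, (if ({i} : Finset (Fin r)) = T then (1:ℝ) else 0)) * vv g T +
          (if (∅ : Finset (Fin r)) = T then |(k:ℝ)| else 0) * vv g T := by
        intro T
        rw [← add_mul]
        apply mul_le_mul_of_nonneg_right _ (vv_pos hg1 T).le
        simp only [hc]
        push_cast
        refine (abs_sub _ _).trans (add_le_add ?_ ?_)
        · refine (Finset.abs_sum_le_sum_abs _ _).trans (le_of_eq ?_)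
          apply Finset.sum_congr rfl
          intro i _
          split_ifs
          · exact hsg _
          · simp
        · split_ifs <;> simp
      refine (Finset.sum_le_sum (fun T _ => h3 T)).trans ?_
      rw [Finset.sum_add_distrib, hswap (fun _ => 1), hswap0]
      have h4 : ∑ i, (1:ℝ) * √(g i : ℝ) ≤ r * M := by
        calc ∑ i, (1:ℝ) * √(g i : ℝ) ≤ ∑ _i : Fin r, (M:ℝ) := Finset.sum_le_sum fun i _ => by rw [one_mul]; exact hsq i
          _ = r * M := by simp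
      rw [hB]; push_cast; linarith
    have hne : ∑ T, (c T : ℝ) * vv g T ≠ 0 := by
      rw [h1]
      intro h0
      exact hint ⟨k, by linarith⟩
    have h4 := liou hg1 c hB1 h2 hne
    rw [Fintype.card_fin, h1] at h4
    rw [div_le_iff₀ (by positivity)]
    exact h4
  · have h5 : 1 ≤ |∑ i, fz (y i) - k| := by
      have := abs_sub_abs_le_abs_sub (k:ℝ) (∑ i, fz (y i))
      rw [abs_sub_comm]
      linarith
    calc 1 / B ^ (2^r) ≤ 1 := by rw [div_le_one (by positivity)]; exact hBp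
      _ ≤ _ := h5

/-- window averages of powers -/
theorem pow_close {T : Finset ℕ} {M : ℕ} (hT : ∀ m ∈ T, 1 ≤ m ∧ m ≤ M^2) (Z : ℕ → ℂ) (r : ℕ) {N : ℕ} (hN : 1 ≤ N) :
    ‖cm (fun n : ℕ => ((SC Z 1 T n : ℝ) : ℂ) ^ r) N - mn (fun n : ℕ => ((SC Z 1 T n : ℝ) : ℂ) ^ r)‖ ≤
      (bC Z T) ^ r * (((2 * r * M + 2 : ℕ) : ℝ) ^ (2 ^ r) / N) := by
  rw [SC_pow]
  have h := cm_mn_comb (tp T r) (fun y => ∏ i, cz Z (y i)) (fun y => ∑ i, fz (y i))
    (δ := 1 / ((2 * r * M + 2 : ℕ) : ℝ) ^ (2 ^ r)) (by positivity) (fun y hy => fz_gap hT hy) hN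
  rw [sum_norm_tp] at h
  refine h.trans ?_
  have hN0 : (0:ℝ) < N := by exact_mod_cast hN
  have h0 : 0 ≤ bC Z T := bC_nonneg
  apply mul_le_mul_of_nonneg_left _ (pow_nonneg h0 r)
  have hP : (0:ℝ) < ((2 * r * M + 2 : ℕ) : ℝ) ^ (2 ^ r) := by positivity
  rw [div_le_div_iff₀ (by positivity) hN0]
  obtain ⟨P, hPd⟩ : ∃ P : ℝ, P = ((2 * r * M + 2 : ℕ) : ℝ) ^ (2 ^ r) := ⟨_, rfl⟩
  rw [← hPd] at hP ⊢
  have e : P * (2 * (1 / P) * N) = 2 * N := by field_simp
  rw [e]; linarith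

end Pool.Agent.D0H53.CL
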