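import Mathlib
import Pool.Agent.D0H53.CL.C2

/-! Window averages of the exponential of a trigonometric polynomial against its mean. -/

set_option autoImplicit false

open Filter Topology
open Pool.Agent.H383.AP Pool.Agent.H383.Gauss Pool.Agent.H383.Gen Pool.Agent.H425R3.JD

namespace Pool.Agent.D0H53.CL

lemma rm_tendsto {f : ℕ → ℝ} {L : ℂ} (h : HasMean (fun n => (f n : ℂ)) L) : Tendsto (rm f) atTop (𝓝 L.re) := by
  unfold HasMean at h
  have e : cm (fun n => (f n : ℂ)) = fun N => ((rm f N : ℝ) : ℂ) := by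
    funext N; exact cm_ofReal _ N
  rw [e] at h
  have h4 := (Complex.continuous_re.tendsto _).comp h
  exact h4

lemma pow_mean (Z : ℕ → ℂ) (T : Finset ℕ) (r : ℕ) : HasMean (fun n : ℕ => ((SC Z 1 T n : ℝ) : ℂ) ^ r)
    (mn (fun n : ℕ => ((SC Z 1 T n : ℝ) : ℂ) ^ r)) := by
  rw [SC_pow]
  have h := comb_mean (tp T r) (fun y => ∏ i, cz Z (y i)) (fun y => ∑ i, fz (y i))
  rw [h.mn_eq]; exact h

/-- Taylor polynomial of the exponential -/
noncomputable def PK (Z : ℕ → ℂ) (T : Finset ℕ) (K : ℕ) : ℕ → ℂ :=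
  ∑ r ∈ Finset.range K, (Complex.I ^ r / (r.factorial : ℂ)) • (fun n : ℕ => ((SC Z 1 T n : ℝ) : ℂ) ^ r)

lemma PK_mean (Z : ℕ → ℂ) (T : Finset ℕ) (K : ℕ) : HasMean (PK Z T K)
    (∑ r ∈ Finset.range K, (Complex.I ^ r / (r.factorial : ℂ)) * mn (fun n : ℕ => ((SC Z 1 T n : ℝ) : ℂ) ^ r)) :=
  HasMean.sum _ _ _ (fun r _ => (pow_mean Z T r).smul _)

lemma exC_sub_PK (Z : ℕ → ℂ) (T : Finset ℕ) {K : ℕ} (hK : Even K) (n : ℕ) :
    ‖exC Z 1 Complex.I T n - PK Z T K n‖ ≤ (SC Z 1 T n) ^ K / K.factorial := by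
  have e : exC Z 1 Complex.I T n - PK Z T K n = tr K (SC Z 1 T n) := by
    unfold exC PK tr
    rw [Finset.sum_apply, mul_comm]
    congr 1
    apply Finset.sum_congr rfl
    intro r _
    rw [Pi.smul_apply, smul_eq_mul, mul_pow]; ring
  rw [e]
  refine (tr_le K _).trans (le_of_eq ?_)
  rw [hK.pow_abs]

lemma exC_real (Z : ℕ → ℂ) (T : Finset ℕ) (t : ℝ) : exC Z 1 (t:ℂ) T = fun n => ((Real.exp (t * SC Z 1 T n) : ℝ) : ℂ) := by
  funext n
  unfold exC
  push_cast; rfl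

/-- the `K`-th moment of the model -/
lemma moment_le (Z : ℕ → ℂ) (T : Finset ℕ) {K : ℕ} (hK : Even K) {A : ℝ}
    (hA : ‖mn (exC Z 1 ((2:ℝ):ℂ) T)‖ + ‖mn (exC Z 1 ((-2:ℝ):ℂ) T)‖ ≤ A) :
    (mn (fun n : ℕ => ((SC Z 1 T n : ℝ) : ℂ) ^ K)).re / K.factorial ≤ A * (1/2) ^ K := by
  have h1 : Tendsto (rm (fun n => (SC Z 1 T n) ^ K)) atTop (𝓝 (mn (fun n : ℕ => ((SC Z 1 T n : ℝ) : ℂ) ^ K)).re) := by
    apply rm_tendsto
    have e : (fun n : ℕ => ((((SC Z 1 T n) ^ K : ℝ)) : ℂ)) = (fun n : ℕ => ((SC Z 1 T n : ℝ) : ℂ) ^ K) := by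
      funext n; push_cast; rfl
    rw [e]; exact pow_mean Z T K
  have h2 : ∀ t : ℝ, Tendsto (rm (fun n => Real.exp (t * SC Z 1 T n))) atTop (𝓝 (mn (exC Z 1 (t:ℂ) T)).re) := by
    intro t
    apply rm_tendsto
    rw [← exC_real]
    exact UC_hasMean (exC_UC_top _)
  have h3 : ∀ N, rm (fun n => (SC Z 1 T n) ^ K) N / K.factorial ≤
      (rm (fun n => Real.exp (2 * SC Z 1 T n)) N + rm (fun n => Real.exp (-2 * SC Z 1 T n)) N) * (1/2)^K := by
    intro N
    rw [← rm_add, mul_comm _ ((1/2:ℝ)^K), ← rm_mul, div_eq_mul_inv, mul_comm _ ((K.factorial:ℝ)⁻¹), ← rm_mul]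
    apply rm_mono
    intro n
    have := pow_le_cosh hK (SC Z 1 T n)
    rw [mul_comm ((1/2:ℝ)^K), mul_comm, ← div_eq_mul_inv]
    rw [neg_mul]
    exact this
  have h4 := le_of_tendsto_of_tendsto' (h1.div_const (K.factorial : ℝ)) (((h2 2).add (h2 (-2))).mul_const ((1/2:ℝ)^K)) h3
  refine h4.trans ?_
  apply mul_le_mul_of_nonneg_right _ (by positivity)
  refine le_trans (add_le_add (Complex.re_le_norm _) (Complex.re_le_norm _)) hA

/-- the characteristic function in a window against its mean -/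
theorem char_close {T : Finset ℕ} {M : ℕ} (hT : ∀ m ∈ T, 1 ≤ m ∧ m ≤ M^2) (Z : ℕ → ℂ) {K : ℕ} (hK : Even K) {A : ℝ}
    (hA : ‖mn (exC Z 1 ((2:ℝ):ℂ) T)‖ + ‖mn (exC Z 1 ((-2:ℝ):ℂ) T)‖ ≤ A) {N : ℕ} (hN : 1 ≤ N) :
    ‖cm (exC Z 1 Complex.I T) N - mn (exC Z 1 Complex.I T)‖ ≤
      2 * (A * (1/2)^K) + (K + 1) * ((1 + bC Z T) ^ K * (((2 * K * M + 2 : ℕ) : ℝ) ^ (2 ^ K) / N)) := by
  have hN0 : (0:ℝ) < N := by exact_mod_cast hN
  have hb0 : 0 ≤ bC Z T := bC_nonneg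
  obtain ⟨D, hD⟩ : ∃ D : ℝ, D = (1 + bC Z T) ^ K * (((2 * K * M + 2 : ℕ) : ℝ) ^ (2 ^ K) / N) := ⟨_, rfl⟩
  have hD0 : 0 ≤ D := by rw [hD]; positivity
  -- moments
  have hmom : ∀ r, r ≤ K → ‖cm (fun n : ℕ => ((SC Z 1 T n : ℝ) : ℂ) ^ r) N - mn (fun n : ℕ => ((SC Z 1 T n : ℝ) : ℂ) ^ r)‖ ≤ D := by
    intro r hr
    refine (pow_close hT Z r hN).trans ?_
    rw [hD]
    have h1 : (bC Z T) ^ r ≤ (1 + bC Z T) ^ K := by
      calc (bC Z T) ^ r ≤ (1 + bC Z T) ^ r := pow_le_pow_left₀ hb0 (by linarith) r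
        _ ≤ (1 + bC Z T) ^ K := pow_le_pow_right₀ (by linarith) hr
    have h2 : ((2 * r * M + 2 : ℕ) : ℝ) ^ (2 ^ r) ≤ ((2 * K * M + 2 : ℕ) : ℝ) ^ (2 ^ K) := by
      have h3 : ((2 * r * M + 2 : ℕ) : ℝ) ≤ ((2 * K * M + 2 : ℕ) : ℝ) := by
        have : 2 * r * M + 2 ≤ 2 * K * M + 2 := by
          have := Nat.mul_le_mul_right M (Nat.mul_le_mul_left 2 hr)
          omega
        exact_mod_cast this
      have h4 : (1:ℝ) ≤ ((2 * K * M + 2 : ℕ) : ℝ) := by
        push_cast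
        have : (0:ℝ) ≤ 2 * K * M := by positivity
        linarith
      calc ((2 * r * M + 2 : ℕ) : ℝ) ^ (2 ^ r) ≤ ((2 * K * M + 2 : ℕ) : ℝ) ^ (2 ^ r) :=
            pow_le_pow_left₀ (Nat.cast_nonneg _) h3 _
        _ ≤ _ := pow_le_pow_right₀ h4 (Nat.pow_le_pow_right (by norm_num) hr)
    gcongr
  -- the K-th moment
  have hmK := moment_le Z T hK hA
  obtain ⟨mK, hmKd⟩ : ∃ mK : ℝ, mK = (mn (fun n : ℕ => ((SC Z 1 T n : ℝ) : ℂ) ^ K)).re := ⟨_, rfl⟩
  rw [← hmKd] at hmK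
  have hfac : (1:ℝ) ≤ (K.factorial : ℝ) := by exact_mod_cast Nat.one_le_iff_ne_zero.mpr (Nat.factorial_ne_zero K)
  have hrmK : rm (fun n => (SC Z 1 T n) ^ K / K.factorial) N ≤ A * (1/2)^K + D := by
    have e1 : rm (fun n => (SC Z 1 T n) ^ K / K.factorial) N = rm (fun n => (SC Z 1 T n) ^ K) N / K.factorial := by
      have : (fun n => (SC Z 1 T n) ^ K / (K.factorial:ℝ)) = fun n => ((K.factorial:ℝ))⁻¹ * (SC Z 1 T n) ^ K := by
        funext n; rw [div_eq_mul_inv, mul_comm]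
      rw [this, rm_mul]; rw [div_eq_mul_inv, mul_comm]
    have e2 : rm (fun n => (SC Z 1 T n) ^ K) N - mK ≤ D := by
      have h1 := hmom K le_rfl
      have h2 : cm (fun n : ℕ => ((SC Z 1 T n : ℝ) : ℂ) ^ K) N = ((rm (fun n => (SC Z 1 T n) ^ K) N : ℝ) : ℂ) := by
        rw [← cm_ofReal]; congr 1; funext n; push_cast; rfl
      rw [h2] at h1
      have h3 := (Complex.re_le_norm _).trans h1
      rw [Complex.sub_re, Complex.ofReal_re, ← hmKd] at h3
      exact h3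
    rw [e1]
    calc rm (fun n => (SC Z 1 T n) ^ K) N / K.factorial ≤ (mK + D) / K.factorial := by gcongr; linarith
      _ = mK / K.factorial + D / K.factorial := by ring
      _ ≤ A * (1/2)^K + D := add_le_add hmK (div_le_self hD0 hfac)
  -- first difference
  have d1 : ‖cm (exC Z 1 Complex.I T) N - cm (PK Z T K) N‖ ≤ A * (1/2)^K + D :=
    (norm_cm_sub_le _ _ N).trans ((rm_mono (exC_sub_PK Z T hK) N).trans hrmK)
  -- second difference
  have d2 : ‖cm (PK Z T K) N - mn (PK Z T K)‖ ≤ K * D := by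
    rw [(PK_mean Z T K).mn_eq]
    unfold PK
    rw [cm_sum, ← Finset.sum_sub_distrib]
    refine (norm_sum_le _ _).trans ?_
    calc _ ≤ ∑ r ∈ Finset.range K, D := by
          apply Finset.sum_le_sum
          intro r hr
          rw [Finset.mem_range] at hr
          have e1 : cm ((Complex.I ^ r / (r.factorial : ℂ)) • (fun n : ℕ => ((SC Z 1 T n : ℝ) : ℂ) ^ r)) N =
              (Complex.I ^ r / (r.factorial : ℂ)) * cm (fun n : ℕ => ((SC Z 1 T n : ℝ) : ℂ) ^ r) N := by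
            rw [cm_smul]; rfl
          rw [e1, ← mul_sub, norm_mul]
          have h1 : ‖Complex.I ^ r / (r.factorial : ℂ)‖ ≤ 1 := by
            rw [norm_div, norm_pow, Complex.norm_I, one_pow, Complex.norm_natCast]
            rw [div_le_one (by positivity)]
            exact_mod_cast Nat.one_le_iff_ne_zero.mpr (Nat.factorial_ne_zero r)
          calc _ ≤ 1 * D := mul_le_mul h1 (hmom r hr.le) (norm_nonneg _) zero_le_one
            _ = D := one_mul D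
      _ = K * D := by rw [Finset.sum_const, Finset.card_range, nsmul_eq_mul]
  -- third difference
  have d3 : ‖mn (PK Z T K) - mn (exC Z 1 Complex.I T)‖ ≤ A * (1/2)^K := by
    have h1 : HasMean (PK Z T K) (mn (PK Z T K)) := by
      have := PK_mean Z T K
      rw [this.mn_eq]; exact this
    have h2 := UC_hasMean (exC_UC_top (Z := Z) (α := 1) (T := T) Complex.I)
    have h3 : Tendsto (rm (fun n => (SC Z 1 T n) ^ K / K.factorial)) atTop (𝓝 (mK / K.factorial)) := by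
      have h4 : Tendsto (rm (fun n => (SC Z 1 T n) ^ K)) atTop (𝓝 mK) := by
        rw [hmKd]
        apply rm_tendsto
        have e : (fun n : ℕ => ((((SC Z 1 T n) ^ K : ℝ)) : ℂ)) = (fun n : ℕ => ((SC Z 1 T n : ℝ) : ℂ) ^ K) := by
          funext n; push_cast; rfl
        rw [e]; exact pow_mean Z T K
      have h5 := h4.div_const (K.factorial : ℝ)
      have e : rm (fun n => (SC Z 1 T n) ^ K / (K.factorial : ℝ)) = fun N => rm (fun n => (SC Z 1 T n) ^ K) N / (K.factorial : ℝ) := by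
        funext N
        have : (fun n => (SC Z 1 T n) ^ K / (K.factorial:ℝ)) = fun n => ((K.factorial:ℝ))⁻¹ * (SC Z 1 T n) ^ K := by
          funext n; rw [div_eq_mul_inv, mul_comm]
        rw [this, rm_mul, div_eq_mul_inv, mul_comm]
      rw [e]; exact h5
    have h6 : Tendsto (fun N => ‖cm (PK Z T K) N - cm (exC Z 1 Complex.I T) N‖) atTop
        (𝓝 ‖mn (PK Z T K) - mn (exC Z 1 Complex.I T)‖) := (Tendsto.sub h1 h2).norm
    have h7 : ∀ N, ‖cm (PK Z T K) N - cm (exC Z 1 Complex.I T) N‖ ≤ rm (fun n => (SC Z 1 T n) ^ K / K.factorial) N := by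
      intro N
      rw [norm_sub_rev]
      exact (norm_cm_sub_le _ _ N).trans (rm_mono (exC_sub_PK Z T hK) N)
    exact (le_of_tendsto_of_tendsto' h6 h3 h7).trans hmK
  have e : cm (exC Z 1 Complex.I T) N - mn (exC Z 1 Complex.I T) =
      (cm (exC Z 1 Complex.I T) N - cm (PK Z T K) N) + (cm (PK Z T K) N - mn (PK Z T K)) +
        (mn (PK Z T K) - mn (exC Z 1 Complex.I T)) := by ring
  rw [e, ← hD]
  calc _ ≤ (A * (1/2)^K + D) + K * D + A * (1/2)^K := by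
        refine (norm_add_le _ _).trans (add_le_add ?_ d3)
        exact (norm_add_le _ _).trans (add_le_add d1 d2)
    _ = _ := by ring

end Pool.Agent.D0H53.CL
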