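import Mathlib
import Pool.Agent.D0H53.CL.C3

/-! The mean of the exponential: product over classes and Gaussian approximation. -/

set_option autoImplicit false

open Filter Topology
open Pool.Agent.H383.AP Pool.Agent.H383.Gauss Pool.Agent.H383.Gen Pool.Agent.H425R3.JD

namespace Pool.Agent.D0H53.CL

variable {Z : ℕ → ℂ} {S0 T : Finset ℕ} {s : ℕ}

/-- one block, imaginary exponent -/
lemma blk_gauss (hS : GoodS 1 S0) (hs : Squarefree s) (hs0 : s ∉ S0) (hT : ∀ m ∈ T, 1 ≤ m ∧ InC s m) {b : ℝ}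
    (hb : bC Z T ≤ b) (hb1 : b ≤ 1) :
    ‖mn (exC Z 1 Complex.I T) - ((Real.exp (-(vC Z T / 2)) : ℝ) : ℂ)‖ ≤ b * vC Z T := by
  have hb0 : 0 ≤ b := bC_nonneg.trans hb
  obtain ⟨V, hV⟩ : ∃ V, V = vC Z T := ⟨_, rfl⟩
  have hV0 : 0 ≤ V := by rw [hV]; exact vC_nonneg
  have hVb : V ≤ b^2 := by
    rw [hV]
    exact vC_le.trans (pow_le_pow_left₀ bC_nonneg hb 2)
  rw [← hV]
  obtain ⟨g, hg⟩ : ∃ g : ℕ → ℂ, g = fun n => 1 + Complex.I * ((SC Z 1 T n : ℝ) : ℂ) +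
    (-((1/2 : ℝ) : ℂ)) * (((SC Z 1 T n)^2 : ℝ) : ℂ) := ⟨_, rfl⟩
  have hgm : HasMean g ((1 - V / 2 : ℝ) : ℂ) := by
    have h1 := ((hasMean_const (1:ℂ)).add ((SC_mean (Z := Z) hS hs hs0 hT).smul Complex.I)).add
      ((SC_sq_mean (Z := Z) hS hs hs0 hT).smul (-((1/2 : ℝ) : ℂ)))
    have e : (1:ℂ) + Complex.I * 0 + -((1/2 : ℝ) : ℂ) * ((vC Z T : ℝ) : ℂ) = ((1 - V / 2 : ℝ) : ℂ) := by
      rw [hV]; push_cast; ring
    rw [e] at h1
    rw [hg]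
    exact h1
  have hpt : ∀ n, ‖exC Z 1 Complex.I T n - g n‖ ≤ (b/6) * (SC Z 1 T n)^2 := by
    intro n
    obtain ⟨y, hy⟩ : ∃ y, y = SC Z 1 T n := ⟨_, rfl⟩
    have hy1 : |y| ≤ b := by rw [hy]; exact (abs_SC_le n).trans hb
    have e : exC Z 1 Complex.I T n - g n = tr 3 y := by
      rw [hg]
      unfold exC tr
      rw [Finset.sum_range_succ, Finset.sum_range_succ, Finset.sum_range_one]
      simp only [pow_zero, pow_one, Nat.factorial, Nat.cast_one, div_one, ← hy]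
      push_cast
      rw [mul_comm Complex.I (y:ℂ), mul_pow, Complex.I_sq]
      ring
    rw [e, ← hy]
    refine (tr_le 3 y).trans ?_
    have h3 : |y|^3 = |y| * y^2 := by rw [← sq_abs y]; ring
    have h4 : ((3:ℕ).factorial : ℝ) = 6 := by norm_num [Nat.factorial]
    rw [h3, h4]
    have : |y| * y^2 ≤ b * y^2 := mul_le_mul_of_nonneg_right hy1 (sq_nonneg y)
    linarith
  have hclose : ∀ ε : ℝ, 0 < ε → ‖mn (exC Z 1 Complex.I T) - ((1 - V / 2 : ℝ) : ℂ)‖ ≤ (b/6) * V + ε := by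
    intro ε hε
    apply mean_close (UC_hasMean (exC_UC_top _)) hgm
    have h1 := (rm_SC_sq (Z := Z) hS hs hs0 hT).const_mul (b/6)
    rw [← hV] at h1
    have h2 := h1.eventually (gt_mem_nhds (show (b/6) * V < (b/6) * V + ε by linarith))
    rw [eventually_atTop] at h2
    obtain ⟨N0, hN0⟩ := h2
    refine ⟨N0, fun N hN => ?_⟩
    refine (norm_cm_sub_le _ _ N).trans ?_
    refine (rm_mono hpt N).trans ?_
    rw [rm_mul]
    exact (hN0 N hN).le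
  have hclose' := le_of_forall_pos_le_add hclose
  have h5 : |Real.exp (-(V/2)) - 1 - (-(V/2))| ≤ (-(V/2))^2 := by
    apply Real.abs_exp_sub_one_sub_id_le
    rw [abs_neg, abs_of_nonneg (by positivity)]
    nlinarith
  have h6 : ‖((1 - V / 2 : ℝ) : ℂ) - ((Real.exp (-(V / 2)) : ℝ) : ℂ)‖ ≤ V^2 / 4 := by
    rw [← Complex.ofReal_sub, Complex.norm_real, Real.norm_eq_abs, abs_sub_comm]
    have e : Real.exp (-(V / 2)) - (1 - V / 2) = Real.exp (-(V/2)) - 1 - (-(V/2)) := by ring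
    rw [e]
    refine h5.trans (le_of_eq ?_)
    ring
  have hVb' : V ≤ b := hVb.trans (by nlinarith)
  have h7 : V^2 / 4 ≤ b * V / 4 := by
    have : V * V ≤ b * V := mul_le_mul_of_nonneg_right hVb' hV0
    rw [pow_two]; linarith
  calc ‖mn (exC Z 1 Complex.I T) - ((Real.exp (-(V / 2)) : ℝ) : ℂ)‖
      = ‖(mn (exC Z 1 Complex.I T) - ((1 - V / 2 : ℝ) : ℂ)) + (((1 - V / 2 : ℝ) : ℂ) - ((Real.exp (-(V / 2)) : ℝ) : ℂ))‖ := by
        congr 1; ring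
    _ ≤ (b/6) * V + b * V / 4 := (norm_add_le _ _).trans (add_le_add hclose' (h6.trans h7))
    _ ≤ b * V := by nlinarith [mul_nonneg hb0 hV0]

/-- one block, real exponent -/
lemma blk_exp (hS : GoodS 1 S0) (hs : Squarefree s) (hs0 : s ∉ S0) (hT : ∀ m ∈ T, 1 ≤ m ∧ InC s m)
    (hb : bC Z T ≤ 1/2) {t : ℝ} (ht : |t| = 2) :
    ‖mn (exC Z 1 (t:ℂ) T)‖ ≤ Real.exp (4 * vC Z T) := by
  obtain ⟨V, hV⟩ : ∃ V, V = vC Z T := ⟨_, rfl⟩
  rw [← hV]
  have ht2 : t^2 = 4 := by rw [← sq_abs, ht]; norm_num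
  have hpt : ∀ n, Real.exp (t * SC Z 1 T n) ≤ 1 + (t * SC Z 1 T n + 4 * (SC Z 1 T n)^2) := by
    intro n
    have h1 : |t * SC Z 1 T n| ≤ 1 := by
      rw [abs_mul, ht]
      have := (abs_SC_le (Z := Z) (α := 1) (T := T) n).trans hb
      linarith
    have h2 := Real.abs_exp_sub_one_sub_id_le h1
    have h3 := (abs_le.mp h2).2
    rw [mul_pow, ht2] at h3
    linarith
  have hlim : Tendsto (rm (fun n => 1 + (t * SC Z 1 T n + 4 * (SC Z 1 T n)^2))) atTop (𝓝 (1 + (t * 0 + 4 * V))) := by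
    have h1 : Tendsto (rm (fun n => SC Z 1 T n)) atTop (𝓝 0) := by
      have := rm_tendsto (SC_mean (Z := Z) hS hs hs0 hT)
      rwa [Complex.zero_re] at this
    have h2 := rm_SC_sq (Z := Z) hS hs hs0 hT
    rw [← hV] at h2
    have h3 : Tendsto (rm (fun _ => (1:ℝ))) atTop (𝓝 1) := by
      have : HasMean (fun n => (((fun _ : ℕ => (1:ℝ)) n : ℝ) : ℂ)) 1 := by
        have := hasMean_const (1:ℂ)
        simpa using this
      have h4 := rm_tendsto this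
      rwa [Complex.one_re] at h4
    have h4 := h3.add ((h1.const_mul t).add (h2.const_mul 4))
    refine h4.congr fun N => ?_
    rw [rm_add, rm_add, rm_mul, rm_mul]
  have h1 := (UC_hasMean (exC_UC_top (Z := Z) (α := 1) (T := T) (t:ℂ)))
  have h2 : Tendsto (fun N => ‖cm (exC Z 1 (t:ℂ) T) N‖) atTop (𝓝 ‖mn (exC Z 1 (t:ℂ) T)‖) := Tendsto.norm h1
  have h3 : ∀ N, ‖cm (exC Z 1 (t:ℂ) T) N‖ ≤ rm (fun n => 1 + (t * SC Z 1 T n + 4 * (SC Z 1 T n)^2)) N := by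
    intro N
    rw [exC_real, cm_ofReal, Complex.norm_real, Real.norm_eq_abs, abs_of_nonneg (rm_nonneg (fun n => (Real.exp_pos _).le) N)]
    exact rm_mono hpt N
  have h4 := le_of_tendsto_of_tendsto' h2 hlim h3
  refine h4.trans ?_
  have := Real.add_one_le_exp (4 * V)
  linarith

lemma norm_exC_mn_le (Z : ℕ → ℂ) (T : Finset ℕ) (t : ℝ) : ‖mn (exC Z 1 (t:ℂ) T)‖ ≤ Real.exp (|t| * bC Z T) := by
  apply mn_norm_le (exC_UC_top _) (Real.exp_pos _).le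
  intro n
  rw [exC_real, Complex.norm_real, Real.norm_eq_abs, abs_of_pos (Real.exp_pos _)]
  apply Real.exp_le_exp.mpr
  refine (le_abs_self _).trans ?_
  rw [abs_mul]
  exact mul_le_mul_of_nonneg_left (abs_SC_le n) (abs_nonneg _)

lemma norm_exC_I_le (Z : ℕ → ℂ) (T : Finset ℕ) : ‖mn (exC Z 1 Complex.I T)‖ ≤ 1 := by
  apply mn_norm_le (exC_UC_top _) zero_le_one
  intro n
  unfold exC
  rw [mul_comm, Complex.norm_exp_ofReal_mul_I]

lemma prod_diff {ι : Type*} [DecidableEq ι] (Q : Finset ι) (z w : ι → ℂ) (hz : ∀ i ∈ Q, ‖z i‖ ≤ 1) (hw : ∀ i ∈ Q, ‖w i‖ ≤ 1) :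
    ‖∏ i ∈ Q, z i - ∏ i ∈ Q, w i‖ ≤ ∑ i ∈ Q, ‖z i - w i‖ := by
  induction Q using Finset.induction_on with
  | empty => simp
  | insert i Q hi ih =>
    have ih' := ih (fun j hj => hz j (Finset.mem_insert_of_mem hj)) (fun j hj => hw j (Finset.mem_insert_of_mem hj))
    rw [Finset.prod_insert hi, Finset.prod_insert hi, Finset.sum_insert hi]
    have e : z i * ∏ j ∈ Q, z j - w i * ∏ j ∈ Q, w j = (z i - w i) * ∏ j ∈ Q, z j + w i * (∏ j ∈ Q, z j - ∏ j ∈ Q, w j) := by ring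
    rw [e]
    have h1 : ‖∏ j ∈ Q, z j‖ ≤ 1 := by
      rw [norm_prod]
      exact Finset.prod_le_one (fun _ _ => norm_nonneg _) (fun j hj => hz j (Finset.mem_insert_of_mem hj))
    have h2 := hw i (Finset.mem_insert_self i Q)
    refine (norm_add_le _ _).trans ?_
    rw [norm_mul, norm_mul]
    apply add_le_add
    · calc _ ≤ ‖z i - w i‖ * 1 := mul_le_mul_of_nonneg_left h1 (norm_nonneg _)
        _ = _ := mul_one _
    · calc _ ≤ 1 * ‖∏ j ∈ Q, z j - ∏ j ∈ Q, w j‖ := mul_le_mul_of_nonneg_right h2 (norm_nonneg _)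
        _ ≤ _ := by rw [one_mul]; exact ih'

open Classical in
/-- the total variance of the classes in `Q` -/
noncomputable def vQ (Z : ℕ → ℂ) (Q T : Finset ℕ) : ℝ := ∑ s ∈ Q, vC Z (T.filter (InC s))

lemma vQ_nonneg (Z : ℕ → ℂ) (Q T : Finset ℕ) : 0 ≤ vQ Z Q T := Finset.sum_nonneg fun _ _ => vC_nonneg

open Classical in
theorem model_gauss (hS : GoodS 1 S0) {Q : Finset ℕ} (hQ : ∀ s ∈ Q, Squarefree s ∧ s ∉ S0) (hT : ∀ m ∈ T, 1 ≤ m)
    {b : ℝ} (hb : ∀ s ∈ Q, bC Z (T.filter (InC s)) ≤ b) (hb1 : b ≤ 1) :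
    ‖mn (exC Z 1 Complex.I T) - ((Real.exp (-(vQ Z Q T / 2)) : ℝ) : ℂ) *
      mn (exC Z 1 Complex.I (T.filter (fun m => ∀ s ∈ Q, ¬ InC s m)))‖ ≤ b * vQ Z Q T := by
  rw [prod_formulaC hS Complex.I hT Q hQ, ← sub_mul, norm_mul]
  have h1 := norm_exC_I_le Z (T.filter (fun m => ∀ s ∈ Q, ¬ InC s m))
  have h2 : ((Real.exp (-(vQ Z Q T / 2)) : ℝ) : ℂ) = ∏ s ∈ Q, ((Real.exp (-(vC Z (T.filter (InC s)) / 2)) : ℝ) : ℂ) := by
    rw [← Complex.ofReal_prod, ← Real.exp_sum]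
    congr 2
    unfold vQ
    rw [Finset.sum_neg_distrib, Finset.sum_div]
  have h3 : ‖∏ s ∈ Q, mn (exC Z 1 Complex.I (T.filter (InC s))) - ((Real.exp (-(vQ Z Q T / 2)) : ℝ) : ℂ)‖ ≤ b * vQ Z Q T := by
    rw [h2]
    refine (prod_diff Q _ _ (fun s _ => norm_exC_I_le Z _) (fun s _ => ?_)).trans ?_
    · rw [Complex.norm_real, Real.norm_eq_abs, abs_of_pos (Real.exp_pos _), Real.exp_le_one_iff]
      have : 0 ≤ vC Z (T.filter (InC s)) := vC_nonneg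
      linarith
    · unfold vQ
      rw [Finset.mul_sum]
      apply Finset.sum_le_sum
      intro s hs
      refine blk_gauss hS (hQ s hs).1 (hQ s hs).2 ?_ (hb s hs) hb1
      intro m hm
      rw [Finset.mem_filter] at hm
      exact ⟨hT m hm.1, hm.2⟩
  calc _ ≤ (b * vQ Z Q T) * 1 := mul_le_mul h3 h1 (norm_nonneg _) ((norm_nonneg _).trans h3)
    _ = _ := mul_one _

open Classical in
theorem model_exp (hS : GoodS 1 S0) {Q : Finset ℕ} (hQ : ∀ s ∈ Q, Squarefree s ∧ s ∉ S0) (hT : ∀ m ∈ T, 1 ≤ m)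
    (hb : ∀ s ∈ Q, bC Z (T.filter (InC s)) ≤ 1/2) {t : ℝ} (ht : |t| = 2) :
    ‖mn (exC Z 1 (t:ℂ) T)‖ ≤ Real.exp (4 * vQ Z Q T + 2 * bC Z (T.filter (fun m => ∀ s ∈ Q, ¬ InC s m))) := by
  rw [prod_formulaC hS (t:ℂ) hT Q hQ, norm_mul, norm_prod, Real.exp_add]
  apply mul_le_mul _ _ (norm_nonneg _) (Real.exp_pos _).le
  · have h2 : Real.exp (4 * vQ Z Q T) = ∏ s ∈ Q, Real.exp (4 * vC Z (T.filter (InC s))) := by
      rw [← Real.exp_sum]
      congr 1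
      unfold vQ
      rw [Finset.mul_sum]
    rw [h2]
    apply Finset.prod_le_prod (fun _ _ => norm_nonneg _)
    intro s hs
    refine blk_exp hS (hQ s hs).1 (hQ s hs).2 ?_ (hb s hs) ht
    intro m hm
    rw [Finset.mem_filter] at hm
    exact ⟨hT m hm.1, hm.2⟩
  · have := norm_exC_mn_le Z (T.filter (fun m => ∀ s ∈ Q, ¬ InC s m)) t
    rw [ht] at this
    exact this

open Classical in
/-- **the characteristic function in a window** -/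
theorem window_char (hS : GoodS 1 S0) {Q : Finset ℕ} (hQ : ∀ s ∈ Q, Squarefree s ∧ s ∉ S0) {M : ℕ}
    (hT : ∀ m ∈ T, 1 ≤ m ∧ m ≤ M^2) {b v β : ℝ} (hb0 : 0 ≤ b) (hb : ∀ s ∈ Q, bC Z (T.filter (InC s)) ≤ b) (hb1 : b ≤ 1/2)
    (hv : vQ Z Q T ≤ v) (hβ : bC Z (T.filter (fun m => ∀ s ∈ Q, ¬ InC s m)) ≤ β)
    {K : ℕ} (hK : Even K) {N : ℕ} (hN : 1 ≤ N) :
    ‖cm (exC Z 1 Complex.I T) N - ((Real.exp (-(vQ Z Q T / 2)) : ℝ) : ℂ) *
      mn (exC Z 1 Complex.I (T.filter (fun m => ∀ s ∈ Q, ¬ InC s m)))‖ ≤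
      4 * Real.exp (4 * v + 2 * β) * (1/2)^K + b * v +
        (K + 1) * ((1 + bC Z T) ^ K * (((2 * K * M + 2 : ℕ) : ℝ) ^ (2 ^ K) / N)) := by
  have hT1 : ∀ m ∈ T, 1 ≤ m := fun m hm => (hT m hm).1
  have hb2 : ∀ s ∈ Q, bC Z (T.filter (InC s)) ≤ 1/2 := fun s hs => (hb s hs).trans hb1
  have h1 := model_exp (Z := Z) hS hQ hT1 hb2 (t := 2) (by norm_num)
  have h2 := model_exp (Z := Z) hS hQ hT1 hb2 (t := -2) (by norm_num)
  have h3 : Real.exp (4 * vQ Z Q T + 2 * bC Z (T.filter (fun m => ∀ s ∈ Q, ¬ InC s m))) ≤ Real.exp (4 * v + 2 * β) := by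
    apply Real.exp_le_exp.mpr
    linarith
  have hA : ‖mn (exC Z 1 ((2:ℝ):ℂ) T)‖ + ‖mn (exC Z 1 ((-2:ℝ):ℂ) T)‖ ≤ 2 * Real.exp (4 * v + 2 * β) := by linarith
  have h4 := char_close hT Z hK hA hN
  have h5 := model_gauss (Z := Z) hS hQ hT1 hb (by linarith)
  have hQ0 : 0 ≤ vQ Z Q T := vQ_nonneg Z Q T
  have h6 : b * vQ Z Q T ≤ b * v := mul_le_mul_of_nonneg_left hv hb0
  have e : cm (exC Z 1 Complex.I T) N - ((Real.exp (-(vQ Z Q T / 2)) : ℝ) : ℂ) *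
      mn (exC Z 1 Complex.I (T.filter (fun m => ∀ s ∈ Q, ¬ InC s m))) =
      (cm (exC Z 1 Complex.I T) N - mn (exC Z 1 Complex.I T)) + (mn (exC Z 1 Complex.I T) - ((Real.exp (-(vQ Z Q T / 2)) : ℝ) : ℂ) *
      mn (exC Z 1 Complex.I (T.filter (fun m => ∀ s ∈ Q, ¬ InC s m)))) := by ring
  rw [e]
  refine (norm_add_le _ _).trans ?_
  refine (add_le_add h4 (h5.trans h6)).trans (le_of_eq ?_)
  ring

end Pool.Agent.D0H53.CL
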