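import Mathlib
import Pool.Agent.D0H53.CL.C4
import Pool.Agent.D0H53.CL.A8
import Pool.Agent.N48.Ann.AN3

/-! The amplitudes of the increments and their variance. -/

set_option autoImplicit false

open Filter Topology
open Pool.Agent.H383 Pool.Agent.H383.AP Pool.Agent.H383.Gauss Pool.Agent.H383.Gen Pool.Agent.H425R3.JD Pool.Agent.N48.Ann

namespace Pool.Agent.D0H53.CL

lemma nsq {d : ℕ} (c α β : Fin d → ℝ) :
    ‖∑ i, (c i : ℂ) * (Complex.exp ((α i : ℂ) * Complex.I) - Complex.exp ((β i : ℂ) * Complex.I))‖^2 =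
      ∑ i, ∑ j, c i * c j * (Real.cos (α i - α j) + Real.cos (β i - β j) - Real.cos (α i - β j) - Real.cos (β i - α j)) := by
  have hre : (∑ i, (c i : ℂ) * (Complex.exp ((α i : ℂ) * Complex.I) - Complex.exp ((β i : ℂ) * Complex.I))).re =
      ∑ i, c i * (Real.cos (α i) - Real.cos (β i)) := by
    rw [Complex.re_sum]
    apply Finset.sum_congr rfl
    intro i _
    rw [Complex.re_ofReal_mul, Complex.sub_re, Complex.exp_ofReal_mul_I_re, Complex.exp_ofReal_mul_I_re]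
  have him : (∑ i, (c i : ℂ) * (Complex.exp ((α i : ℂ) * Complex.I) - Complex.exp ((β i : ℂ) * Complex.I))).im =
      ∑ i, c i * (Real.sin (α i) - Real.sin (β i)) := by
    rw [Complex.im_sum]
    apply Finset.sum_congr rfl
    intro i _
    rw [Complex.im_ofReal_mul, Complex.sub_im, Complex.exp_ofReal_mul_I_im, Complex.exp_ofReal_mul_I_im]
  rw [← Complex.normSq_eq_norm_sq, Complex.normSq_apply, hre, him, Finset.sum_mul_sum, Finset.sum_mul_sum, ← Finset.sum_add_distrib]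
  apply Finset.sum_congr rfl
  intro i _
  rw [← Finset.sum_add_distrib]
  apply Finset.sum_congr rfl
  intro j _
  rw [Real.cos_sub, Real.cos_sub, Real.cos_sub, Real.cos_sub]
  ring

/-- amplitudes of the combination of increments -/
noncomputable def Zi {d : ℕ} (X ρ σ : ℝ) (u : Fin (d+1) → ℝ) (s : Fin d → ℝ) (m : ℕ) : ℂ :=
  ∑ i, ((s i / σ : ℝ) : ℂ) * (ac Circ.ag (3 * Real.pi/4) (X + ρ * u i.succ) m - ac Circ.ag (3 * Real.pi/4) (X + ρ * u i.castSucc) m)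

lemma Zi_sq {d : ℕ} (X ρ σ : ℝ) (u : Fin (d+1) → ℝ) (s : Fin d → ℝ) (m : ℕ) :
    ‖Zi X ρ σ u s m‖^2 = ∑ i, ∑ j, s i * s j / σ^2 * ((Circ.ag m)^2 * (qf (ρ * (u i.succ - u j.castSucc)) √(m:ℝ) +
      qf (ρ * (u i.castSucc - u j.succ)) √(m:ℝ) - qf (ρ * (u i.succ - u j.succ)) √(m:ℝ) -
      qf (ρ * (u i.castSucc - u j.castSucc)) √(m:ℝ))) := by
  obtain ⟨θ, hθ⟩ : ∃ θ : ℝ → ℝ, θ = fun Y => 2 * Real.pi * (Y * √(m:ℝ)) - 3 * Real.pi/4 := ⟨_, rfl⟩
  have h1 : Zi X ρ σ u s m = ∑ i, ((s i / σ * Circ.ag m : ℝ) : ℂ) *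
      (Complex.exp ((θ (X + ρ * u i.succ) : ℂ) * Complex.I) - Complex.exp ((θ (X + ρ * u i.castSucc) : ℂ) * Complex.I)) := by
    unfold Zi ac
    apply Finset.sum_congr rfl
    intro i _
    rw [hθ]
    push_cast
    ring
  rw [h1, nsq]
  apply Finset.sum_congr rfl
  intro i _
  apply Finset.sum_congr rfl
  intro j _
  have e : ∀ a b : ℝ, θ (X + ρ * a) - θ (X + ρ * b) = 2 * Real.pi * (ρ * (a - b)) * √(m:ℝ) := by
    intro a b
    rw [hθ]
    simp only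
    ring
  rw [e, e, e, e]
  unfold qf
  ring

lemma Sv_neg (h : ℝ) (M : ℕ) : Sv (-h) M = Sv h M := by
  unfold Sv qf
  apply Finset.sum_congr rfl
  intro m _
  rw [show 2 * Real.pi * -h * √(m:ℝ) = -(2 * Real.pi * h * √(m:ℝ)) by ring, Real.cos_neg]

lemma Sv_abs (h : ℝ) (M : ℕ) : Sv |h| M = Sv h M := by
  rcases abs_choice h with e | e
  · rw [e]
  · rw [e, Sv_neg]

lemma Sv_zero (M : ℕ) : Sv 0 M = 0 := by
  unfold Sv qf
  apply Finset.sum_eq_zero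
  intro m _
  simp

lemma Zi_sum {d : ℕ} (X ρ σ : ℝ) (u : Fin (d+1) → ℝ) (s : Fin d → ℝ) (M : ℕ) :
    ∑ m ∈ Finset.Icc 1 (M^2), ‖Zi X ρ σ u s m‖^2 = ∑ i, ∑ j, s i * s j * (Sv (ρ * (u i.succ - u j.castSucc)) M / σ^2 +
      Sv (ρ * (u i.castSucc - u j.succ)) M / σ^2 - Sv (ρ * (u i.succ - u j.succ)) M / σ^2 -
      Sv (ρ * (u i.castSucc - u j.castSucc)) M / σ^2) := by
  simp_rw [Zi_sq]
  rw [Finset.sum_comm]
  apply Finset.sum_congr rfl
  intro i _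
  rw [Finset.sum_comm]
  apply Finset.sum_congr rfl
  intro j _
  unfold Sv
  rw [← Finset.mul_sum]
  have e : ∑ m ∈ Finset.Icc 1 (M^2), ((Circ.ag m)^2 * (qf (ρ * (u i.succ - u j.castSucc)) √(m:ℝ) +
      qf (ρ * (u i.castSucc - u j.succ)) √(m:ℝ) - qf (ρ * (u i.succ - u j.succ)) √(m:ℝ) -
      qf (ρ * (u i.castSucc - u j.castSucc)) √(m:ℝ))) =
      ∑ m ∈ Finset.Icc 1 (M^2), (Circ.ag m)^2 * qf (ρ * (u i.succ - u j.castSucc)) √(m:ℝ) +
      ∑ m ∈ Finset.Icc 1 (M^2), (Circ.ag m)^2 * qf (ρ * (u i.castSucc - u j.succ)) √(m:ℝ) -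
      ∑ m ∈ Finset.Icc 1 (M^2), (Circ.ag m)^2 * qf (ρ * (u i.succ - u j.succ)) √(m:ℝ) -
      ∑ m ∈ Finset.Icc 1 (M^2), (Circ.ag m)^2 * qf (ρ * (u i.castSucc - u j.castSucc)) √(m:ℝ) := by
    rw [← Finset.sum_add_distrib, ← Finset.sum_sub_distrib, ← Finset.sum_sub_distrib]
    apply Finset.sum_congr rfl
    intro m _
    ring
  rw [e]
  ring

lemma abs_id {d : ℕ} {u : Fin (d+1) → ℝ} (hu : Monotone u) (i j : Fin d) :
    |u i.succ - u j.castSucc| + |u i.castSucc - u j.succ| - |u i.succ - u j.succ| - |u i.castSucc - u j.castSucc| =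
      if i = j then 2 * (u i.succ - u i.castSucc) else 0 := by
  have hi : u i.castSucc ≤ u i.succ := hu (Fin.castSucc_lt_succ (i := i)).le
  have hj : u j.castSucc ≤ u j.succ := hu (Fin.castSucc_lt_succ (i := j)).le
  rcases lt_trichotomy i j with h | h | h
  · rw [if_neg h.ne]
    have h1 : u i.succ ≤ u j.castSucc := hu (by
      rw [Fin.le_def, Fin.val_succ, Fin.val_castSucc]
      exact h)
    rw [abs_of_nonpos (by linarith), abs_of_nonpos (by linarith), abs_of_nonpos (by linarith), abs_of_nonpos (by linarith)]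
    ring
  · subst h
    rw [if_pos rfl, sub_self, sub_self, abs_zero, abs_of_nonneg (by linarith), abs_of_nonpos (by linarith)]
    ring
  · rw [if_neg h.ne']
    have h1 : u j.succ ≤ u i.castSucc := hu (by
      rw [Fin.le_def, Fin.val_succ, Fin.val_castSucc]
      exact h)
    rw [abs_of_nonneg (by linarith), abs_of_nonneg (by linarith), abs_of_nonneg (by linarith), abs_of_nonneg (by linarith)]
    ring

lemma abs_sum_id {d : ℕ} {u : Fin (d+1) → ℝ} (hu : Monotone u) (s : Fin d → ℝ) :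
    ∑ i, ∑ j, s i * s j * (|u i.succ - u j.castSucc| + |u i.castSucc - u j.succ| - |u i.succ - u j.succ| - |u i.castSucc - u j.castSucc|) =
      2 * ∑ i, (s i)^2 * (u i.succ - u i.castSucc) := by
  rw [Finset.mul_sum]
  apply Finset.sum_congr rfl
  intro i _
  simp_rw [abs_id hu]
  simp only [mul_ite, mul_zero]
  rw [Finset.sum_ite_eq]
  rw [if_pos (Finset.mem_univ i)]
  ring

/-- the normalisation -/
noncomputable def sgm (ρ : ℝ) : ℝ := 4 * √(ρ * Real.log (1 / ρ))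

lemma sgm_sq {ρ : ℝ} (hρ : 0 < ρ) (hρ1 : ρ ≤ 1) : (sgm ρ)^2 = 16 * (ρ * Real.log (1 / ρ)) := by
  unfold sgm
  have : 0 ≤ Real.log (1 / ρ) := Real.log_nonneg (by rw [one_le_div hρ]; exact hρ1)
  rw [mul_pow, Real.sq_sqrt (by positivity)]; norm_num

/-- normalised variance sums -/
lemma Sv_lim (w : ℝ) {δ : ℝ} (hδ : 0 < δ) : ∃ ρ₀ : ℝ, 0 < ρ₀ ∧ ρ₀ ≤ 1/10 ∧ ∀ ρ : ℝ, 0 < ρ → ρ ≤ ρ₀ → ∀ M : ℕ, 1 / ρ^3 ≤ M →
    |Sv (ρ * w) M / (sgm ρ)^2 - abs w| ≤ δ := by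
  rcases eq_or_ne w 0 with h0 | h0
  · refine ⟨1/10, by norm_num, le_rfl, ?_⟩
    intro ρ _ _ M _
    subst h0
    rw [mul_zero, Sv_zero, zero_div, abs_zero, sub_zero, abs_zero]
    exact hδ.le
  obtain ⟨W, hW⟩ : ∃ W, W = |w| := ⟨_, rfl⟩
  have hW0 : 0 < W := by rw [hW]; exact abs_pos.mpr h0
  rw [← hW]
  obtain ⟨δ1, hδ1⟩ : ∃ δ1, δ1 = min 1 (δ / (4 * W)) := ⟨_, rfl⟩
  have hδ10 : 0 < δ1 := by rw [hδ1]; positivity
  have hδ11 : δ1 ≤ 1 := by rw [hδ1]; exact min_le_left _ _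
  have hδ12 : W * δ1 ≤ δ / 4 := by
    have : δ1 ≤ δ / (4 * W) := by rw [hδ1]; exact min_le_right _ _
    rw [le_div_iff₀ (by positivity)] at this
    linarith
  obtain ⟨h₀, hh₀, hh₀8, hv⟩ := var_asymp hδ10
  obtain ⟨lw, hlw⟩ : ∃ lw, lw = |Real.log W| := ⟨_, rfl⟩
  have hlw0 : 0 ≤ lw := by rw [hlw]; exact abs_nonneg _
  obtain ⟨B, hB⟩ : ∃ B, B = 4 * W * lw / δ + 1 := ⟨_, rfl⟩
  have hB0 : 1 ≤ B := by rw [hB]; have : 0 ≤ 4 * W * lw / δ := by positivity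
                         linarith
  obtain ⟨ρ₀, hρ₀⟩ : ∃ ρ₀, ρ₀ = min (min (h₀ / W) (1/10)) (min (W^2) (Real.exp (-B))) := ⟨_, rfl⟩
  have q0 : 0 < ρ₀ := by rw [hρ₀]; positivity
  have q1 : ρ₀ ≤ h₀ / W := by rw [hρ₀]; exact (min_le_left _ _).trans (min_le_left _ _)
  have q2 : ρ₀ ≤ 1/10 := by rw [hρ₀]; exact (min_le_left _ _).trans (min_le_right _ _)
  have q3 : ρ₀ ≤ W^2 := by rw [hρ₀]; exact (min_le_right _ _).trans (min_le_left _ _)
  have q4 : ρ₀ ≤ Real.exp (-B) := by rw [hρ₀]; exact (min_le_right _ _).trans (min_le_right _ _)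
  refine ⟨ρ₀, q0, q2, ?_⟩
  intro ρ hρ hρu M hM
  have r1 : ρ ≤ 1/10 := hρu.trans q2
  obtain ⟨L, hL⟩ : ∃ L, L = Real.log (1 / ρ) := ⟨_, rfl⟩
  have hLB : B ≤ L := by
    rw [hL, Real.le_log_iff_exp_le (by positivity), le_div_iff₀ hρ]
    calc Real.exp B * ρ ≤ Real.exp B * Real.exp (-B) := by
          have := hρu.trans q4
          gcongr
      _ = 1 := by rw [← Real.exp_add]; simp
  have hL0 : 0 < L := by linarith
  have hsg : (sgm ρ)^2 = 16 * (ρ * L) := by rw [sgm_sq hρ (by linarith), hL]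
  have hSv : Sv (ρ * w) M = Sv (ρ * W) M := by
    rw [← Sv_abs, abs_mul, abs_of_pos hρ, hW]
  have hh : ρ * W ≤ h₀ := by
    have := hρu.trans q1
    rw [le_div_iff₀ hW0] at this
    exact this
  have hMM : 1 / (ρ * W)^2 ≤ M := by
    refine le_trans ?_ hM
    apply one_div_le_one_div_of_le (by positivity)
    have := hρu.trans q3
    calc ρ^3 = ρ * ρ^2 := by ring
      _ ≤ W^2 * ρ^2 := by gcongr
      _ = _ := by ring
  have h1 := hv (ρ * W) (by positivity) hh M hMM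
  rw [← hSv] at h1
  have e1 : Real.log (1 / (ρ * W)) = L - Real.log W := by
    rw [hL, one_div, one_div, Real.log_inv, Real.log_inv, Real.log_mul hρ.ne' hW0.ne']; ring
  rw [e1] at h1
  rw [hSv] at h1 ⊢
  have hρL : 0 < 16 * (ρ * L) := by positivity
  have e2 : Sv (ρ * W) M / (sgm ρ)^2 - W = ((Sv (ρ * W) M - 16 * (ρ * W * (L - Real.log W))) - 16 * (ρ * W) * Real.log W) / (16 * (ρ * L)) := by
    rw [hsg]
    field_simp
    ring
  have hlogW : |Real.log W| = lw := hlw.symm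
  have hLlw : lw * (4 * W) ≤ δ * L := by
    have : 4 * W * lw / δ ≤ L := by linarith
    rw [div_le_iff₀ hδ] at this
    linarith
  have e3 : ρ * W * (L - Real.log W) ≤ ρ * W * (L + lw) := by
    have := neg_abs_le (Real.log W)
    rw [hlogW] at this
    gcongr
    linarith
  rw [e2, abs_div, abs_of_pos hρL, div_le_iff₀ hρL]
  have h2 : |16 * (ρ * W) * Real.log W| = 16 * (ρ * W) * lw := by
    rw [abs_mul, abs_of_pos (by positivity), hlogW]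
  refine (abs_sub _ _).trans ?_
  rw [h2]
  have h3 : δ1 * (ρ * W * (L - Real.log W)) ≤ δ1 * (ρ * W * (L + lw)) := mul_le_mul_of_nonneg_left e3 hδ10.le
  have h4 : δ1 * (ρ * W * (L + lw)) ≤ ρ * (δ / 4 * L) + ρ * (W * lw) := by
    have a1 : ρ * L * (W * δ1) ≤ ρ * L * (δ / 4) := by gcongr
    have a2 : δ1 * (ρ * (W * lw)) ≤ 1 * (ρ * (W * lw)) := by gcongr
    nlinarith
  have h5 : ρ * (W * lw) ≤ ρ * (δ / 4 * L) := by
    apply mul_le_mul_of_nonneg_left _ hρ.le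
    linarith
  have h6 : 0 ≤ ρ * (δ / 4 * L) := by positivity
  nlinarith

/-- **the variance of the combination of increments** -/
theorem var_lim {d : ℕ} {u : Fin (d+1) → ℝ} (hu : Monotone u) (s : Fin d → ℝ) {δ : ℝ} (hδ : 0 < δ) :
    ∃ ρ₀ : ℝ, 0 < ρ₀ ∧ ρ₀ ≤ 1/10 ∧ ∀ ρ : ℝ, 0 < ρ → ρ ≤ ρ₀ → ∀ M : ℕ, 1 / ρ^3 ≤ M → ∀ X : ℝ,
    |(1/2) * ∑ m ∈ Finset.Icc 1 (M^2), ‖Zi X ρ (sgm ρ) u s m‖^2 - ∑ i, (s i)^2 * (u i.succ - u i.castSucc)| ≤ δ := by
  obtain ⟨A, hA⟩ : ∃ A : ℝ, A = ∑ i, ∑ j, |s i * s j| := ⟨_, rfl⟩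
  have hA0 : 0 ≤ A := by rw [hA]; exact Finset.sum_nonneg fun _ _ => Finset.sum_nonneg fun _ _ => abs_nonneg _
  obtain ⟨δ1, hδ1⟩ : ∃ δ1, δ1 = δ / (2 * (A + 1)) := ⟨_, rfl⟩
  have hδ10 : 0 < δ1 := by rw [hδ1]; positivity
  choose r hr0 hr1 hr using fun w : ℝ => Sv_lim w hδ10
  obtain ⟨F, hF⟩ : ∃ F : Finset ℝ, F = Finset.image (fun p : Fin (d+1) × Fin (d+1) => u p.1 - u p.2) Finset.univ := ⟨_, rfl⟩
  have hFne : F.Nonempty := by
    rw [hF]; exact Finset.univ_nonempty.image _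
  obtain ⟨ρ₀, hρ₀⟩ : ∃ ρ₀, ρ₀ = F.inf' hFne r := ⟨_, rfl⟩
  have hρ₀0 : 0 < ρ₀ := by
    rw [hρ₀, Finset.lt_inf'_iff]
    intro b _; exact hr0 b
  have hle : ∀ a b : Fin (d+1), ρ₀ ≤ r (u a - u b) := by
    intro a b
    rw [hρ₀]
    apply Finset.inf'_le
    rw [hF]
    exact Finset.mem_image.mpr ⟨(a, b), Finset.mem_univ _, rfl⟩
  refine ⟨ρ₀, hρ₀0, (hle 0 0).trans (hr1 _), ?_⟩
  intro ρ hρ hρu M hM X
  have key : ∀ a b : Fin (d+1), |Sv (ρ * (u a - u b)) M / (sgm ρ)^2 - abs (u a - u b)| ≤ δ1 := fun a b =>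
    hr (u a - u b) ρ hρ (hρu.trans (hle a b)) M hM
  have e0 : (1/2) * ∑ m ∈ Finset.Icc 1 (M^2), ‖Zi X ρ (sgm ρ) u s m‖^2 - ∑ i, (s i)^2 * (u i.succ - u i.castSucc) =
      (1/2) * (∑ m ∈ Finset.Icc 1 (M^2), ‖Zi X ρ (sgm ρ) u s m‖^2 - 2 * ∑ i, (s i)^2 * (u i.succ - u i.castSucc)) := by ring
  rw [e0, Zi_sum, ← abs_sum_id hu, ← Finset.sum_sub_distrib]
  have e1 : |∑ i : Fin d, (∑ j : Fin d, s i * s j * (Sv (ρ * (u i.succ - u j.castSucc)) M / (sgm ρ)^2 +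
      Sv (ρ * (u i.castSucc - u j.succ)) M / (sgm ρ)^2 - Sv (ρ * (u i.succ - u j.succ)) M / (sgm ρ)^2 -
      Sv (ρ * (u i.castSucc - u j.castSucc)) M / (sgm ρ)^2) - ∑ j : Fin d, s i * s j * (|u i.succ - u j.castSucc| +
      |u i.castSucc - u j.succ| - |u i.succ - u j.succ| - |u i.castSucc - u j.castSucc|))| ≤ 4 * δ1 * A := by
    refine (Finset.abs_sum_le_sum_abs _ _).trans ?_
    rw [hA, Finset.mul_sum]
    apply Finset.sum_le_sum
    intro i _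
    rw [← Finset.sum_sub_distrib]
    refine (Finset.abs_sum_le_sum_abs _ _).trans ?_
    rw [Finset.mul_sum]
    apply Finset.sum_le_sum
    intro j _
    rw [← mul_sub, abs_mul, mul_comm (4 * δ1)]
    apply mul_le_mul_of_nonneg_left _ (abs_nonneg _)
    obtain ⟨a1, a2⟩ := abs_le.mp (key i.succ j.castSucc)
    obtain ⟨b1, b2⟩ := abs_le.mp (key i.castSucc j.succ)
    obtain ⟨c1, c2⟩ := abs_le.mp (key i.succ j.succ)
    obtain ⟨d1, d2⟩ := abs_le.mp (key i.castSucc j.castSucc)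
    rw [abs_le]
    constructor <;> linarith
  rw [abs_mul, abs_of_pos (by norm_num : (0:ℝ) < 1/2)]
  have e2 : (1/2) * (4 * δ1 * A) ≤ δ := by
    rw [hδ1]
    have : (1/2) * (4 * (δ / (2 * (A + 1))) * A) = δ * (A / (A + 1)) := by field_simp; ring
    rw [this]
    have : A / (A + 1) ≤ 1 := by rw [div_le_one (by linarith)]; linarith
    nlinarith
  have := mul_le_mul_of_nonneg_left e1 (show (0:ℝ) ≤ 1/2 by norm_num)
  linarith

end Pool.Agent.D0H53.CL
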