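import Mathlib
import Pool.Agent.D0H53.CL.C5
import Pool.Agent.H383.Reg
import Pool.Agent.H452R2.Win.V8

/-! Bounds for the amplitudes. -/

set_option autoImplicit false

open Filter Topology
open Pool.Agent.H383 Pool.Agent.H383.AP Pool.Agent.H383.Gauss Pool.Agent.H383.Gen Pool.Agent.H425R3.JD Pool.Agent.N48.Ann

namespace Pool.Agent.D0H53.CL

lemma min_pow {y θ : ℝ} (hy : 0 ≤ y) (h0 : 0 < θ) (h1 : θ ≤ 1) : min 2 y ≤ 2 * y ^ θ := by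
  rcases le_total y 1 with h | h
  · refine (min_le_right _ _).trans ?_
    have h2 : y ≤ y ^ θ := by
      rcases hy.eq_or_lt with h3 | h3
      · rw [← h3, Real.zero_rpow h0.ne']
      · nth_rewrite 1 [← Real.rpow_one y]
        exact Real.rpow_le_rpow_of_exponent_ge h3 h h1
    have : 0 ≤ y ^ θ := Real.rpow_nonneg hy _
    linarith
  · refine (min_le_left _ _).trans ?_
    have := Real.one_le_rpow h h0.le
    linarith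

lemma Zi_le {d : ℕ} (X : ℝ) {ρ σ W : ℝ} (hρ : 0 ≤ ρ) (hσ : 0 < σ) {u : Fin (d+1) → ℝ}
    (hW : ∀ i : Fin d, |u i.succ - u i.castSucc| ≤ W) (s : Fin d → ℝ) (m : ℕ) :
    ‖Zi X ρ σ u s m‖ ≤ (∑ i, |s i|) / σ * (|Circ.ag m| * min 2 (2 * Real.pi * (ρ * W) * √(m:ℝ))) := by
  have hpi := Real.pi_pos
  unfold Zi
  refine (norm_sum_le _ _).trans ?_
  rw [Finset.sum_div, Finset.sum_mul]
  apply Finset.sum_le_sum
  intro i _
  rw [norm_mul, Complex.norm_real, Real.norm_eq_abs, abs_div, abs_of_pos hσ]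
  apply mul_le_mul_of_nonneg_left _ (by positivity)
  refine (ac_diff _ _ _ _ _).trans ?_
  apply mul_le_mul_of_nonneg_left _ (abs_nonneg _)
  apply min_le_min_left
  have e : X + ρ * u i.succ - (X + ρ * u i.castSucc) = ρ * (u i.succ - u i.castSucc) := by ring
  rw [e, abs_mul, abs_of_nonneg hρ]
  have := hW i
  gcongr

/-- pointwise bound with exponent `θ` -/
lemma ag_min {θ : ℝ} (h0 : 0 < θ) (h1 : θ ≤ 1) : ∃ C : ℝ, 0 < C ∧ ∀ h : ℝ, 0 ≤ h → ∀ m : ℕ, 1 ≤ m →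
    |Circ.ag m| * min 2 (2 * Real.pi * h * √(m:ℝ)) ≤ C * h ^ θ * (m:ℝ) ^ (-(3/4 - 1/50 - θ/2)) := by
  obtain ⟨C, hC, hag⟩ := Pool.Agent.H452R2.Win.ag_Bdw (1/50) (by norm_num)
  have hpi := Real.pi_pos
  refine ⟨C * 2 * (2 * Real.pi) ^ θ, by positivity, ?_⟩
  intro h hh m hm
  have hm0 : (0:ℝ) < m := by exact_mod_cast hm
  have a1 := hag m hm
  have a2 := min_pow (y := 2 * Real.pi * h * √(m:ℝ)) (by positivity) h0 h1
  have e1 : (2 * Real.pi * h * √(m:ℝ)) ^ θ = (2 * Real.pi) ^ θ * h ^ θ * (m:ℝ) ^ (θ/2) := by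
    rw [Real.mul_rpow (by positivity) (Real.sqrt_nonneg _), Real.mul_rpow (by positivity) hh, Real.sqrt_eq_rpow, ← Real.rpow_mul hm0.le]
    congr 2; ring
  rw [e1] at a2
  calc |Circ.ag m| * min 2 (2 * Real.pi * h * √(m:ℝ)) ≤ (C * (m:ℝ) ^ (-(3/4) + 1/50:ℝ)) * (2 * ((2 * Real.pi) ^ θ * h ^ θ * (m:ℝ) ^ (θ/2))) := by
        apply mul_le_mul a1 a2 _ (by positivity)
        apply le_min (by norm_num) (by positivity)
    _ = C * 2 * (2 * Real.pi) ^ θ * h ^ θ * ((m:ℝ) ^ (-(3/4) + 1/50:ℝ) * (m:ℝ) ^ (θ/2)) := by ring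
    _ = _ := by
        rw [← Real.rpow_add hm0]
        congr 2; ring

/-- bound for one class -/
lemma Zi_block {d : ℕ} (u : Fin (d+1) → ℝ) (s : Fin d → ℝ) : ∃ C : ℝ, 0 < C ∧ ∀ X ρ σ : ℝ, 0 < ρ → 0 < σ →
    ∀ (q : ℕ) (T : Finset ℕ), 1 ≤ q → (∀ m ∈ T, 1 ≤ m ∧ InC q m) →
    bC (Zi X ρ σ u s) T ≤ C * ρ ^ (11/25:ℝ) / σ * (q:ℝ) ^ (-(51/100):ℝ) := by
  obtain ⟨C, hC, h⟩ := ag_min (θ := 11/25) (by norm_num) (by norm_num)
  obtain ⟨W, hW⟩ : ∃ W : ℝ, W = ∑ i : Fin d, |u i.succ - u i.castSucc| + 1 := ⟨_, rfl⟩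
  have hW0 : 0 < W := by rw [hW]; positivity
  have hWi : ∀ i : Fin d, |u i.succ - u i.castSucc| ≤ W := by
    intro i
    rw [hW]
    have := Finset.single_le_sum (f := fun i : Fin d => |u i.succ - u i.castSucc|) (fun i _ => abs_nonneg _) (Finset.mem_univ i)
    linarith
  obtain ⟨L, hL⟩ : ∃ L : ℝ, L = ∑ i : Fin d, |s i| + 1 := ⟨_, rfl⟩
  have hL0 : 0 < L := by rw [hL]; positivity
  have hZ0 : 0 ≤ ∑' t : ℕ, (t:ℝ) ^ (-(2 * (51/100)):ℝ) := tsum_nonneg (fun t => by positivity)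
  refine ⟨L * C * W ^ (11/25:ℝ) * (∑' t : ℕ, (t:ℝ) ^ (-(2 * (51/100)):ℝ)) + 1, by positivity, ?_⟩
  intro X ρ σ hρ hσ q T hq hT
  have hpt : ∀ m : ℕ, 1 ≤ m → |‖Zi X ρ σ u s m‖| ≤ (L / σ * (C * (ρ * W) ^ (11/25:ℝ))) * (m:ℝ) ^ (-(51/100):ℝ) := by
    intro m hm
    rw [abs_of_nonneg (norm_nonneg _)]
    refine (Zi_le X hρ.le hσ hWi s m).trans ?_
    have a1 := h (ρ * W) (by positivity) m hm
    have e : -(3/4 - 1/50 - 11/25/2:ℝ) = -(51/100) := by norm_num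
    rw [e] at a1
    have a2 : (∑ i, |s i|) / σ ≤ L / σ := by
      apply div_le_div_of_nonneg_right _ hσ.le
      rw [hL]; linarith
    have hpi := Real.pi_pos
    have a3 : 0 ≤ |Circ.ag m| * min 2 (2 * Real.pi * (ρ * W) * √(m:ℝ)) := by
      apply mul_nonneg (abs_nonneg _)
      apply le_min (by norm_num) (by positivity)
    calc _ ≤ L / σ * (C * (ρ * W) ^ (11/25:ℝ) * (m:ℝ) ^ (-(51/100):ℝ)) := mul_le_mul a2 a1 a3 (by positivity)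
      _ = _ := by ring
  have h1 := bT_le (a := fun m => ‖Zi X ρ σ u s m‖) (κ := 51/100) (by norm_num) (C := L / σ * (C * (ρ * W) ^ (11/25:ℝ))) (by positivity)
    hpt hq hT
  have e1 : bC (Zi X ρ σ u s) T = bT (fun m => ‖Zi X ρ σ u s m‖) T := by
    unfold bC bT
    apply Finset.sum_congr rfl
    intro m _
    rw [abs_of_nonneg (norm_nonneg _)]
  rw [e1]
  refine h1.trans ?_
  rw [Real.mul_rpow hρ.le hW0.le]
  have a4 : 0 ≤ ρ ^ (11/25:ℝ) / σ * (q:ℝ) ^ (-(51/100):ℝ) := by positivity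
  calc L / σ * (C * (ρ ^ (11/25:ℝ) * W ^ (11/25:ℝ))) * (∑' t : ℕ, (t:ℝ) ^ (-(2 * (51/100)):ℝ)) * (q:ℝ) ^ (-(51/100):ℝ)
      = (L * C * W ^ (11/25:ℝ) * (∑' t : ℕ, (t:ℝ) ^ (-(2 * (51/100)):ℝ))) * (ρ ^ (11/25:ℝ) / σ * (q:ℝ) ^ (-(51/100):ℝ)) := by ring
    _ ≤ (L * C * W ^ (11/25:ℝ) * (∑' t : ℕ, (t:ℝ) ^ (-(2 * (51/100)):ℝ)) + 1) * (ρ ^ (11/25:ℝ) / σ * (q:ℝ) ^ (-(51/100):ℝ)) := by
        apply mul_le_mul_of_nonneg_right _ a4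
        linarith
    _ = _ := by ring

/-- sums over numbers with small squarefree part -/
lemma low_sum : ∃ C : ℝ, 0 < C ∧ ∀ (D : ℕ) (S : Finset ℕ), (∀ m ∈ S, ∃ q t : ℕ, 1 ≤ q ∧ q ≤ D ∧ 1 ≤ t ∧ m = q * t^2) →
    ∑ m ∈ S, (m:ℝ) ^ (-(14/25):ℝ) ≤ C * (D:ℝ) ^ (11/25:ℝ) := by
  have hZs : Summable (fun t : ℕ => (t:ℝ) ^ (-(28/25):ℝ)) := by
    rw [Real.summable_nat_rpow]; norm_num
  obtain ⟨Z, hZ⟩ : ∃ Z, Z = ∑' t : ℕ, (t:ℝ) ^ (-(28/25):ℝ) := ⟨_, rfl⟩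
  have hZ0 : 0 ≤ Z := by rw [hZ]; exact tsum_nonneg (fun t => by positivity)
  refine ⟨3 * Z + 1, by positivity, ?_⟩
  intro D S hS
  choose! q t hq1 hqD ht1 he using hS
  have hinj : Set.InjOn (fun m => (q m, t m)) S := by
    intro m hm m' hm' h
    simp only [Prod.mk.injEq] at h
    rw [he m hm, he m' hm', h.1, h.2]
  have h1 : ∑ m ∈ S, (m:ℝ) ^ (-(14/25):ℝ) = ∑ p ∈ S.image (fun m => (q m, t m)), (p.1:ℝ) ^ (-(14/25):ℝ) * (p.2:ℝ) ^ (-(28/25):ℝ) := by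
    rw [Finset.sum_image hinj]
    apply Finset.sum_congr rfl
    intro m hm
    have a1 : (0:ℝ) < q m := by exact_mod_cast hq1 m hm
    have a2 : (0:ℝ) < t m := by exact_mod_cast ht1 m hm
    nth_rewrite 1 [he m hm]
    push_cast
    rw [Real.mul_rpow a1.le (by positivity), ← Real.rpow_natCast, ← Real.rpow_mul a2.le]
    norm_num
  have h2 : S.image (fun m => (q m, t m)) ⊆ (Finset.Icc 1 D) ×ˢ (S.image t) := by
    intro p hp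
    rw [Finset.mem_image] at hp
    obtain ⟨m, hm, rfl⟩ := hp
    rw [Finset.mem_product, Finset.mem_Icc, Finset.mem_image]
    exact ⟨⟨hq1 m hm, hqD m hm⟩, m, hm, rfl⟩
  have h3 : ∑ q ∈ Finset.Icc 1 D, (q:ℝ) ^ (-(14/25):ℝ) ≤ 3 * (D:ℝ) ^ (11/25:ℝ) := by
    have := head_rpow (s := 14/25) (by norm_num) (by norm_num) D
    refine this.trans ?_
    have e : (1 - 14/25:ℝ) = 11/25 := by norm_num
    rw [e, div_le_iff₀ (by norm_num)]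
    have : 0 ≤ (D:ℝ) ^ (11/25:ℝ) := by positivity
    linarith
  calc ∑ m ∈ S, (m:ℝ) ^ (-(14/25):ℝ) = _ := h1
    _ ≤ ∑ p ∈ (Finset.Icc 1 D) ×ˢ (S.image t), (p.1:ℝ) ^ (-(14/25):ℝ) * (p.2:ℝ) ^ (-(28/25):ℝ) :=
        Finset.sum_le_sum_of_subset_of_nonneg h2 (fun _ _ _ => by positivity)
    _ = (∑ q ∈ Finset.Icc 1 D, (q:ℝ) ^ (-(14/25):ℝ)) * ∑ t ∈ S.image t, (t:ℝ) ^ (-(28/25):ℝ) := by
        rw [Finset.sum_mul_sum, Finset.sum_product]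
    _ ≤ (3 * (D:ℝ) ^ (11/25:ℝ)) * Z := by
        apply mul_le_mul h3 _ (Finset.sum_nonneg fun _ _ => by positivity) (by positivity)
        rw [hZ]
        exact hZs.sum_le_tsum _ (fun _ _ => by positivity)
    _ ≤ (3 * Z + 1) * (D:ℝ) ^ (11/25:ℝ) := by
        have : 0 ≤ (D:ℝ) ^ (11/25:ℝ) := by positivity
        nlinarith

/-- the variance of the low classes -/
lemma Zi_low {d : ℕ} (u : Fin (d+1) → ℝ) (s : Fin d → ℝ) : ∃ C : ℝ, 0 < C ∧ ∀ X ρ σ : ℝ, 0 < ρ → 0 < σ →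
    ∀ (D : ℕ) (S : Finset ℕ), (∀ m ∈ S, ∃ q t : ℕ, 1 ≤ q ∧ q ≤ D ∧ 1 ≤ t ∧ m = q * t^2) →
    ∑ m ∈ S, ‖Zi X ρ σ u s m‖^2 ≤ C * ρ ^ (9/5:ℝ) / σ^2 * (D:ℝ) ^ (11/25:ℝ) := by
  obtain ⟨C, hC, h⟩ := ag_min (θ := 9/10) (by norm_num) (by norm_num)
  obtain ⟨C', hC', h'⟩ := low_sum
  obtain ⟨W, hW⟩ : ∃ W : ℝ, W = ∑ i : Fin d, |u i.succ - u i.castSucc| + 1 := ⟨_, rfl⟩
  have hW0 : 0 < W := by rw [hW]; positivity
  have hWi : ∀ i : Fin d, |u i.succ - u i.castSucc| ≤ W := by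
    intro i
    rw [hW]
    have := Finset.single_le_sum (f := fun i : Fin d => |u i.succ - u i.castSucc|) (fun i _ => abs_nonneg _) (Finset.mem_univ i)
    linarith
  obtain ⟨L, hL⟩ : ∃ L : ℝ, L = ∑ i : Fin d, |s i| + 1 := ⟨_, rfl⟩
  have hL0 : 0 < L := by rw [hL]; positivity
  refine ⟨L^2 * C^2 * W ^ (9/5:ℝ) * C', by positivity, ?_⟩
  intro X ρ σ hρ hσ D S hS
  have hpt : ∀ m ∈ S, ‖Zi X ρ σ u s m‖^2 ≤ (L^2 * C^2 * W ^ (9/5:ℝ) * ρ ^ (9/5:ℝ) / σ^2) * (m:ℝ) ^ (-(14/25):ℝ) := by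
    intro m hm
    obtain ⟨q, t, hq, -, ht, he⟩ := hS m hm
    have hm1 : 1 ≤ m := by
      rw [he]
      have := Nat.one_le_pow 2 _ ht
      nlinarith
    have hm0 : (0:ℝ) < m := by exact_mod_cast hm1
    have hpi := Real.pi_pos
    have b1 : ‖Zi X ρ σ u s m‖ ≤ L / σ * (C * (ρ * W) ^ (9/10:ℝ) * (m:ℝ) ^ (-(7/25):ℝ)) := by
      refine (Zi_le X hρ.le hσ hWi s m).trans ?_
      have a1 := h (ρ * W) (by positivity) m hm1
      have e : -(3/4 - 1/50 - 9/10/2:ℝ) = -(7/25) := by norm_num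
      rw [e] at a1
      have a2 : (∑ i, |s i|) / σ ≤ L / σ := by
        apply div_le_div_of_nonneg_right _ hσ.le
        rw [hL]; linarith
      have a3 : 0 ≤ |Circ.ag m| * min 2 (2 * Real.pi * (ρ * W) * √(m:ℝ)) := by
        apply mul_nonneg (abs_nonneg _)
        apply le_min (by norm_num) (by positivity)
      exact mul_le_mul a2 a1 a3 (by positivity)
    have b2 := pow_le_pow_left₀ (norm_nonneg _) b1 2
    refine b2.trans (le_of_eq ?_)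
    have e1 : ((m:ℝ) ^ (-(7/25):ℝ))^2 = (m:ℝ) ^ (-(14/25):ℝ) := by
      rw [← Real.rpow_natCast, ← Real.rpow_mul hm0.le]; norm_num
    have e2 : ((ρ * W) ^ (9/10:ℝ))^2 = ρ ^ (9/5:ℝ) * W ^ (9/5:ℝ) := by
      rw [← Real.rpow_natCast, ← Real.rpow_mul (by positivity), ← Real.mul_rpow hρ.le hW0.le]; norm_num
    rw [mul_pow, mul_pow, mul_pow, e1, e2, div_pow]
    ring
  calc ∑ m ∈ S, ‖Zi X ρ σ u s m‖^2 ≤ ∑ m ∈ S, (L^2 * C^2 * W ^ (9/5:ℝ) * ρ ^ (9/5:ℝ) / σ^2) * (m:ℝ) ^ (-(14/25):ℝ) :=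
        Finset.sum_le_sum hpt
    _ = (L^2 * C^2 * W ^ (9/5:ℝ) * ρ ^ (9/5:ℝ) / σ^2) * ∑ m ∈ S, (m:ℝ) ^ (-(14/25):ℝ) := by rw [Finset.mul_sum]
    _ ≤ (L^2 * C^2 * W ^ (9/5:ℝ) * ρ ^ (9/5:ℝ) / σ^2) * (C' * (D:ℝ) ^ (11/25:ℝ)) :=
        mul_le_mul_of_nonneg_left (h' D S hS) (by positivity)
    _ = _ := by ring

end Pool.Agent.D0H53.CL
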