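import Mathlib
import Pool.Agent.D0H53.CL.C6
import Pool.Agent.D0H53.CL.A11
import Pool.Agent.N48.Ann.AN1W

/-! The model and its distance to the increments in mean square. -/

set_option autoImplicit false

open Filter Topology
open Pool.Agent.H383 Pool.Agent.H383.AP Pool.Agent.H383.Gauss Pool.Agent.H383.Gen Pool.Agent.H425R3.JD Pool.Agent.N48.Ann

namespace Pool.Agent.D0H53.CL

open Classical in
/-- the high classes -/
noncomputable def QD (D M : ℕ) : Finset ℕ := (Finset.Icc (D+1) (M^2)).filter Squarefree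

/-- membership in the low classes -/
def lowP (D M m : ℕ) : Prop := ∀ q ∈ QD D M, ¬ InC q m

lemma mem_QD {D M q : ℕ} : q ∈ QD D M ↔ (D + 1 ≤ q ∧ q ≤ M^2) ∧ Squarefree q := by
  unfold QD
  rw [Finset.mem_filter, Finset.mem_Icc]

lemma low_of_le {D M m : ℕ} (hm : 1 ≤ m) (hmD : m ≤ D) : lowP D M m := by
  rintro q hq ⟨t, ht⟩
  rw [mem_QD] at hq
  have ht0 : 1 ≤ t := by
    by_contra h
    have : t = 0 := by omega
    rw [this] at ht; omega
  have := Nat.one_le_pow 2 _ ht0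
  nlinarith [hq.1.1]

lemma low_sq {D M k : ℕ} (hD : 1 ≤ D) (hk : 1 ≤ k) : lowP D M (k^2) := by
  rintro q hq ⟨t, ht⟩
  rw [mem_QD] at hq
  have h1 : t^2 ∣ k^2 := ⟨q, by rw [ht]; ring⟩
  have h2 : t ∣ k := (Nat.pow_dvd_pow_iff (by norm_num)).mp h1
  obtain ⟨j, hj⟩ := h2
  have ht0 : 0 < t := by
    rcases Nat.eq_zero_or_pos t with h | h
    · rw [h] at hj; omega
    · exact h
  have h3 : q = j * j := by
    have : t^2 * (j * j) = t^2 * q := by
      calc t^2 * (j * j) = (t * j)^2 := by ring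
        _ = k^2 := by rw [hj]
        _ = q * t^2 := ht
        _ = _ := by ring
    exact (Nat.eq_of_mul_eq_mul_left (by positivity) this).symm
  have h4 : IsUnit j := hq.2 j ⟨1, by rw [h3]; ring⟩
  rw [Nat.isUnit_iff] at h4
  rw [h4] at h3
  omega

lemma low_rep {D M m : ℕ} (hm : 1 ≤ m) (hmM : m ≤ M^2) (hl : lowP D M m) : ∃ q t : ℕ, 1 ≤ q ∧ q ≤ D ∧ 1 ≤ t ∧ m = q * t^2 := by
  obtain ⟨a, b, hab, ha⟩ := Nat.sq_mul_squarefree m
  have hb : 1 ≤ b := by
    by_contra h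
    have : b = 0 := by omega
    rw [this] at hab; omega
  have ha1 : 1 ≤ a := by
    by_contra h
    have : a = 0 := by omega
    rw [this] at hab; omega
  refine ⟨a, b, ha1, ?_, hb, by rw [← hab]; ring⟩
  by_contra h
  apply hl a _ ⟨b, by rw [← hab]; ring⟩
  rw [mem_QD]
  have := Nat.one_le_pow 2 _ hb
  exact ⟨⟨by omega, by nlinarith⟩, ha⟩

open Classical in
/-- the amplitudes of the model -/
noncomputable def Zf {d : ℕ} (D M M0 : ℕ) (X ρ σ : ℝ) (u : Fin (d+1) → ℝ) (s0 : ℝ) (s : Fin d → ℝ) (m : ℕ) : ℂ :=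
  if lowP D M m then (if m ≤ M0^2 then (s0 : ℂ) * ac Circ.ag (3 * Real.pi/4) X m else 0) else Zi X ρ σ u s m

open Classical in
lemma SC_Zf {d : ℕ} {D M M0 : ℕ} (hD : M0^2 ≤ D) (hD1 : 1 ≤ D) (hM : M0 ≤ M) (X ρ σ : ℝ) (u : Fin (d+1) → ℝ) (s0 : ℝ) (s : Fin d → ℝ) (n : ℕ) :
    SC (Zf D M M0 X ρ σ u s0 s) 1 (Finset.Icc 1 (M^2)) n = s0 * U Circ.ag (3 * Real.pi/4) (X + n) M0 +
      (∑ m ∈ NS M, Zi X ρ σ u s m * chr (1 * √(m:ℝ)) n).re -
      (∑ m ∈ (NS M).filter (lowP D M), Zi X ρ σ u s m * chr (1 * √(m:ℝ)) n).re := by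
  have hM2 : M0^2 ≤ M^2 := Nat.pow_le_pow_left hM 2
  have h1 : ∑ m ∈ Finset.Icc 1 (M^2), Zf D M M0 X ρ σ u s0 s m * chr (1 * √(m:ℝ)) n =
      ∑ m ∈ Finset.Icc 1 (M0^2), (s0 : ℂ) * (ac Circ.ag (3 * Real.pi/4) X m * chr (1 * √(m:ℝ)) n) +
      (∑ m ∈ NS M, Zi X ρ σ u s m * chr (1 * √(m:ℝ)) n - ∑ m ∈ (NS M).filter (lowP D M), Zi X ρ σ u s m * chr (1 * √(m:ℝ)) n) := by
    rw [← Finset.sum_filter_add_sum_filter_not (Finset.Icc 1 (M^2)) (lowP D M)]
    congr 1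
    · have h2 : ∑ m ∈ (Finset.Icc 1 (M^2)).filter (lowP D M), Zf D M M0 X ρ σ u s0 s m * chr (1 * √(m:ℝ)) n =
          ∑ m ∈ (Finset.Icc 1 (M^2)).filter (lowP D M), (if m ≤ M0^2 then (s0 : ℂ) * (ac Circ.ag (3 * Real.pi/4) X m * chr (1 * √(m:ℝ)) n) else 0) := by
        apply Finset.sum_congr rfl
        intro m hm
        rw [Finset.mem_filter] at hm
        unfold Zf
        rw [if_pos hm.2]
        split_ifs
        · ring
        · ring
      rw [h2, ← Finset.sum_filter, Finset.filter_filter]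
      apply Finset.sum_congr _ (fun _ _ => rfl)
      ext m
      rw [Finset.mem_filter, Finset.mem_Icc, Finset.mem_Icc]
      constructor
      · rintro ⟨⟨a1, a2⟩, a3, a4⟩
        exact ⟨a1, a4⟩
      · rintro ⟨a1, a2⟩
        exact ⟨⟨a1, a2.trans hM2⟩, low_of_le a1 (a2.trans hD), a2⟩
    · have h2 : ∑ m ∈ (Finset.Icc 1 (M^2)).filter (fun m => ¬ lowP D M m), Zf D M M0 X ρ σ u s0 s m * chr (1 * √(m:ℝ)) n =
          ∑ m ∈ (NS M).filter (fun m => ¬ lowP D M m), Zi X ρ σ u s m * chr (1 * √(m:ℝ)) n := by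
        have h3 : (Finset.Icc 1 (M^2)).filter (fun m => ¬ lowP D M m) = (NS M).filter (fun m => ¬ lowP D M m) := by
          ext m
          unfold NS
          rw [Finset.mem_filter, Finset.mem_filter, Finset.mem_filter, Finset.mem_Icc]
          constructor
          · rintro ⟨⟨a1, a2⟩, a3⟩
            refine ⟨⟨⟨a1, a2⟩, ?_⟩, a3⟩
            rintro ⟨k, hk⟩
            apply a3
            have hk1 : 1 ≤ k := by
              by_contra h
              have : k = 0 := by omega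
              rw [this] at hk; omega
            rw [hk, show k * k = k^2 by ring]
            exact low_sq hD1 hk1
          · rintro ⟨⟨a1, -⟩, a2⟩
            exact ⟨a1, a2⟩
        rw [h3]
        apply Finset.sum_congr rfl
        intro m hm
        rw [Finset.mem_filter] at hm
        unfold Zf
        rw [if_neg hm.2]
      rw [h2, eq_sub_iff_add_eq, add_comm]
      exact Finset.sum_filter_add_sum_filter_not _ _ _
  unfold SC
  rw [h1, Complex.add_re, Complex.sub_re]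
  have h4 : U Circ.ag (3 * Real.pi/4) (X + n) M0 = (∑ m ∈ Finset.Icc 1 (M0^2), ac Circ.ag (3 * Real.pi/4) X m * chr (1 * √(m:ℝ)) n).re := by
    have := U_eq_re Circ.ag (3 * Real.pi/4) X 1 M0 n
    rw [mul_one] at this
    exact this
  rw [h4, ← Finset.mul_sum, Complex.re_ofReal_mul]
  ring

lemma BM_add (a : ℕ → ℝ) (φ X Y Z : ℝ) (M : ℕ) : BM a φ Y Z M = BM a φ X Z M - BM a φ X Y M := by
  unfold BM
  rw [← Finset.sum_sub_distrib]
  apply Finset.sum_congr rfl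
  intro k _
  ring

/-- the increments, model form -/
lemma NS_Zi {d : ℕ} (M : ℕ) (X ρ σ : ℝ) (u : Fin (d+1) → ℝ) (s : Fin d → ℝ) (n : ℕ) :
    (∑ m ∈ NS M, Zi X ρ σ u s m * chr (1 * √(m:ℝ)) n).re = ∑ i, s i / σ *
      (U Circ.ag (3 * Real.pi/4) (X + ρ * u i.succ + n) M - U Circ.ag (3 * Real.pi/4) (X + ρ * u i.castSucc + n) M -
        BM Circ.ag (3 * Real.pi/4) (X + ρ * u i.castSucc) (X + ρ * u i.succ) M) := by
  have h1 : ∑ m ∈ NS M, Zi X ρ σ u s m * chr (1 * √(m:ℝ)) n = ∑ i, ((s i / σ : ℝ) : ℂ) *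
      ∑ m ∈ NS M, (ac Circ.ag (3 * Real.pi/4) (X + ρ * u i.succ) m - ac Circ.ag (3 * Real.pi/4) (X + ρ * u i.castSucc) m) *
        chr (1 * √(m:ℝ)) n := by
    unfold Zi
    simp only [Finset.sum_mul, Finset.mul_sum]
    rw [Finset.sum_comm]
    apply Finset.sum_congr rfl
    intro i _
    apply Finset.sum_congr rfl
    intro m _
    ring
  rw [h1, Complex.re_sum]
  apply Finset.sum_congr rfl
  intro i _
  rw [Complex.re_ofReal_mul, U_split]
  congr 3
  funext m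
  unfold chr
  rw [one_mul]

/-- the normalised increments, combined -/
noncomputable def Wd {d : ℕ} (X ρ σ : ℝ) (u : Fin (d+1) → ℝ) (s0 : ℝ) (s : Fin d → ℝ) (n : ℕ) : ℝ :=
  s0 * En (X + n) + ∑ i, s i / σ * (En (X + ρ * u i.succ + n) - En (X + ρ * u i.castSucc + n) -
    (lead (ρ * u i.succ) - lead (ρ * u i.castSucc)))

/-- decomposition of the error -/
lemma Wd_sub {d : ℕ} {D M M0 : ℕ} (hD : M0^2 ≤ D) (hD1 : 1 ≤ D) (hM : M0 ≤ M) (X ρ σ : ℝ) (u : Fin (d+1) → ℝ) (s0 : ℝ) (s : Fin d → ℝ) (n : ℕ) :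
    Wd X ρ σ u s0 s n - SC (Zf D M M0 X ρ σ u s0 s) 1 (Finset.Icc 1 (M^2)) n =
      s0 * (En (X + n) - U Circ.ag (3 * Real.pi/4) (X + n) M0) +
      ∑ i, s i / σ * ((En (X + ρ * u i.succ + n) - U Circ.ag (3 * Real.pi/4) (X + ρ * u i.succ + n) M) -
        (En (X + ρ * u i.castSucc + n) - U Circ.ag (3 * Real.pi/4) (X + ρ * u i.castSucc + n) M)) +
      ∑ i, s i / σ * ((BM Circ.ag (3 * Real.pi/4) X (X + ρ * u i.succ) M - lead (ρ * u i.succ)) -
        (BM Circ.ag (3 * Real.pi/4) X (X + ρ * u i.castSucc) M - lead (ρ * u i.castSucc))) +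
      (by classical exact (∑ m ∈ (NS M).filter (lowP D M), Zi X ρ σ u s m * chr (1 * √(m:ℝ)) n).re) := by
  classical
  rw [SC_Zf hD hD1 hM, NS_Zi]
  unfold Wd
  have e : ∑ i, s i / σ * (En (X + ρ * u i.succ + n) - En (X + ρ * u i.castSucc + n) -
      (lead (ρ * u i.succ) - lead (ρ * u i.castSucc))) - ∑ i, s i / σ *
      (U Circ.ag (3 * Real.pi/4) (X + ρ * u i.succ + n) M - U Circ.ag (3 * Real.pi/4) (X + ρ * u i.castSucc + n) M -
        BM Circ.ag (3 * Real.pi/4) (X + ρ * u i.castSucc) (X + ρ * u i.succ) M) =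
      ∑ i, s i / σ * ((En (X + ρ * u i.succ + n) - U Circ.ag (3 * Real.pi/4) (X + ρ * u i.succ + n) M) -
        (En (X + ρ * u i.castSucc + n) - U Circ.ag (3 * Real.pi/4) (X + ρ * u i.castSucc + n) M)) +
      ∑ i, s i / σ * ((BM Circ.ag (3 * Real.pi/4) X (X + ρ * u i.succ) M - lead (ρ * u i.succ)) -
        (BM Circ.ag (3 * Real.pi/4) X (X + ρ * u i.castSucc) M - lead (ρ * u i.castSucc))) := by
    rw [← Finset.sum_sub_distrib, ← Finset.sum_add_distrib]
    apply Finset.sum_congr rfl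
    intro i _
    rw [BM_add _ _ X (X + ρ * u i.castSucc) (X + ρ * u i.succ)]
    ring
  rw [← sub_eq_zero]
  rw [← sub_eq_zero] at e
  linear_combination e

lemma cs_sum {d : ℕ} (c x : Fin d → ℝ) : (∑ i, c i * x i)^2 ≤ (∑ i, (c i)^2) * ∑ i, (x i)^2 :=
  Finset.sum_mul_sq_le_sq_mul_sq _ _ _

open Classical in
/-- the low part in mean square -/
lemma low_ms {D M N : ℕ} (hM : 1 ≤ M) (hN : 32 * M^3 < N) (Z : ℕ → ℂ) :
    ∑ n ∈ Finset.range N, ((∑ m ∈ (NS M).filter (lowP D M), Z m * chr (1 * √(m:ℝ)) n).re)^2 ≤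
      8 * N * ∑ m ∈ (NS M).filter (lowP D M), ‖Z m‖^2 := by
  have hN1 : 1 ≤ N := by omega
  have h := ls ((NS M).filter (lowP D M)) Z (fun m => √(m:ℝ)) hN1
  calc _ ≤ ∑ n ∈ Finset.range N, ‖∑ m ∈ (NS M).filter (lowP D M), Z m * Complex.exp (((2 * Real.pi * (n * √(m:ℝ)) : ℝ) : ℂ) * Complex.I)‖^2 := by
        apply Finset.sum_le_sum
        intro n _
        rw [← sq_abs]
        refine pow_le_pow_left₀ (abs_nonneg _) ((Complex.abs_re_le_norm _).trans (le_of_eq ?_)) 2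
        unfold chr
        simp only [one_mul]
    _ ≤ ∑ n ∈ Finset.range (N+1), ‖∑ m ∈ (NS M).filter (lowP D M), Z m * Complex.exp (((2 * Real.pi * (n * √(m:ℝ)) : ℝ) : ℂ) * Complex.I)‖^2 := by
        apply Finset.sum_le_sum_of_subset_of_nonneg
        · exact Finset.range_subset_range.mpr (by omega)
        · intro _ _ _; positivity
    _ ≤ 8 * N * ∑ i ∈ (NS M).filter (lowP D M), ∑ j ∈ (NS M).filter (lowP D M), ‖Z i‖ * ‖Z j‖ * near N (√(i:ℝ) - √(j:ℝ)) := h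
    _ ≤ _ := by
        apply mul_le_mul_of_nonneg_left _ (by positivity)
        apply Finset.sum_le_sum
        intro i hi
        have h1 : ∑ j ∈ (NS M).filter (lowP D M), ‖Z i‖ * ‖Z j‖ * near N (√(i:ℝ) - √(j:ℝ)) = ‖Z i‖ * ‖Z i‖ * near N (√(i:ℝ) - √(i:ℝ)) := by
          apply Finset.sum_eq_single_of_mem i hi
          intro j hj hji
          rw [Finset.mem_filter] at hi hj
          have hi' := hi.1
          have hj' := hj.1
          unfold NS at hi' hj'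
          rw [Finset.mem_filter, Finset.mem_Icc] at hi' hj'
          rw [sep hM hN hi'.1.2 hj'.1.2 hj'.2 (Ne.symm hji), mul_zero]
        rw [h1]
        have h2 : near N (√(i:ℝ) - √(i:ℝ)) ≤ 1 := by unfold near; split_ifs <;> norm_num
        calc ‖Z i‖ * ‖Z i‖ * near N (√(i:ℝ) - √(i:ℝ)) ≤ ‖Z i‖ * ‖Z i‖ * 1 := by gcongr
          _ = ‖Z i‖^2 := by ring

end Pool.Agent.D0H53.CL
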