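import Mathlib
import Pool.Agent.D0H53.CL.C7

/-! The mean square distance between the increments and the model. -/

set_option autoImplicit false

open Filter Topology
open Pool.Agent.H383 Pool.Agent.H383.AP Pool.Agent.H383.Gauss Pool.Agent.H383.Gen Pool.Agent.H425R3.JD Pool.Agent.N48.Ann

namespace Pool.Agent.D0H53.CL

lemma two_sq (x y : ℝ) : (x - y)^2 ≤ 2 * (x^2 + y^2) := by nlinarith [sq_nonneg (x + y)]

lemma two_sq' {x y A : ℝ} (hx : x^2 ≤ A) (hy : y^2 ≤ A) : (x - y)^2 ≤ 4 * A := by nlinarith [sq_nonneg (x + y)]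

lemma four_sq (a b c e : ℝ) : (a + b + c + e)^2 ≤ 4 * (a^2 + b^2 + c^2 + e^2) := by
  nlinarith [sq_nonneg (a - b), sq_nonneg (a - c), sq_nonneg (a - e), sq_nonneg (b - c), sq_nonneg (b - e), sq_nonneg (c - e)]

lemma W_bd {ρ W : ℝ} (hρ : 0 < ρ) (hW : 1 ≤ W) (h : ρ * (10 * W^2) ≤ 1) : ρ * W ≤ 1/10 ∧ ρ ≤ 1/10 ∧ ρ * W^2 ≤ 1 := by
  have h1 : W ≤ W^2 := by nlinarith
  have h2 := mul_le_mul_of_nonneg_left h1 hρ.le
  have h3 := mul_le_mul_of_nonneg_left hW hρ.le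
  refine ⟨by linarith, by linarith, by linarith⟩

/-- **mean square distance** -/
theorem ms_model {ε : ℝ} (hε : 0 < ε) {d : ℕ} (u : Fin (d+1) → ℝ) (s0 : ℝ) (s : Fin d → ℝ) :
    ∃ ω : ℝ, 0 < ω ∧ ω ≤ 1 ∧ ∃ C : ℝ, 0 < C ∧ ∃ ρ₀ : ℝ, 0 < ρ₀ ∧ ρ₀ ≤ 1/10 ∧ ∃ N0 : ℕ, ∀ N : ℕ, N0 ≤ N → ∀ M0 M D : ℕ, 1 ≤ M0 → M0 ≤ M → M0^2 ≤ D →
    32 * M^3 < N → 2 * (M + 1) ≤ N → ∀ ρ σ : ℝ, 0 < ρ → ρ ≤ ρ₀ → 0 < σ → 1 / ρ^3 ≤ M → ∀ p : ℕ, 5 ≤ p → ((p:ℝ) + 1) ^ (1/2 + ε) ≤ N →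
    ∑ n ∈ Finset.range N, (Wd p ρ σ u s0 s n - SC (Zf D M M0 p ρ σ u s0 s) 1 (Finset.Icc 1 (M^2)) n)^2 ≤
      C * N * (((M0:ℝ) ^ (-ω) + (M0:ℝ)^4 * (N:ℝ) ^ (-ω)) + ((M:ℝ) ^ (-ω) + (M:ℝ)^4 * (N:ℝ) ^ (-ω)) / σ^2 + ρ / σ^2 +
        ρ ^ (9/5:ℝ) / σ^2 * (D:ℝ) ^ (11/25:ℝ)) := by
  classical
  obtain ⟨ω0, hω0, C1, hC1, N1, hA⟩ := Pool.Agent.N48.AnnW.ap_quantW (E := En) Pool.Agent.H452R2.Win.ag_Bdw Circ.ag_zero Circ.wg_Wt
    Pool.Agent.H452R2.Win.En_SandW (α := 1) one_pos hε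
  obtain ⟨C2, hC2, hB⟩ := BM_pt
  obtain ⟨C3, hC3, hL⟩ := Zi_low u s
  obtain ⟨ω, hω⟩ : ∃ ω, ω = min ω0 1 := ⟨_, rfl⟩
  have hω1 : 0 < ω := by rw [hω]; positivity
  have hω2 : ω ≤ ω0 := by rw [hω]; exact min_le_left _ _
  have hω3 : ω ≤ 1 := by rw [hω]; exact min_le_right _ _
  obtain ⟨W, hW⟩ : ∃ W : ℝ, W = ∑ i : Fin (d+1), (|u i| + |u i|⁻¹) + 1 := ⟨_, rfl⟩
  have hterm : ∀ i : Fin (d+1), 0 ≤ |u i| + |u i|⁻¹ := fun i => by positivity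
  have hW1 : 1 ≤ W := by
    rw [hW]
    have : 0 ≤ ∑ i : Fin (d+1), (|u i| + |u i|⁻¹) := Finset.sum_nonneg fun i _ => hterm i
    linarith
  have hW0 : 0 < W := by linarith
  have hWs : ∀ i : Fin (d+1), |u i| + |u i|⁻¹ ≤ W := by
    intro i
    rw [hW]
    have := Finset.single_le_sum (f := fun i : Fin (d+1) => |u i| + |u i|⁻¹) (fun i _ => hterm i) (Finset.mem_univ i)
    linarith
  have hWi : ∀ i : Fin (d+1), |u i| ≤ W := by
    intro i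
    have h1 : 0 ≤ |u i|⁻¹ := by positivity
    linarith [hWs i]
  have hWinv : ∀ i : Fin (d+1), |u i|⁻¹ ≤ W := by
    intro i
    have h1 : 0 ≤ |u i| := by positivity
    linarith [hWs i]
  obtain ⟨S, hS⟩ : ∃ S : ℝ, S = ∑ i, (s i)^2 := ⟨_, rfl⟩
  have hS0 : 0 ≤ S := by rw [hS]; exact Finset.sum_nonneg fun _ _ => sq_nonneg _
  obtain ⟨C, hC⟩ : ∃ C : ℝ, C = 4 * (s0^2 * C1 + S * (4 * d * C1) + S * (4 * d * C2^2 * W) + 8 * C3) + 1 := ⟨_, rfl⟩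
  have hC0 : 0 < C := by rw [hC]; positivity
  refine ⟨ω, hω1, hω3, C, hC0, 1 / (10 * W^2), by positivity, ?_, max N1 1, ?_⟩
  · rw [div_le_div_iff₀ (by positivity) (by norm_num)]
    nlinarith
  intro N hN M0 M D hM01 hM0M hM0D hM3 hMN ρ σ hρ hρ0 hσ hρM p hp hpN
  have hNN1 : N1 ≤ N := by omega
  have hN1 : 1 ≤ N := by omega
  have hN1' : (1:ℝ) ≤ N := by exact_mod_cast hN1
  have hN0 : (0:ℝ) < N := by linarith
  have hM1 : 1 ≤ M := by omega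
  have hD1 : 1 ≤ D := le_trans (Nat.one_le_pow 2 _ hM01) hM0D
  have hM1' : (1:ℝ) ≤ M := by exact_mod_cast hM1
  have hM01' : (1:ℝ) ≤ M0 := by exact_mod_cast hM01
  have hρW : ρ * (10 * W^2) ≤ 1 := by
    rw [le_div_iff₀ (by positivity)] at hρ0; exact hρ0
  obtain ⟨hρW1, hρ1, hρW2⟩ := W_bd hρ hW1 hρW
  -- the points
  have hp5 : (5:ℝ) ≤ p := by exact_mod_cast hp
  have hpt : ∀ h : ℝ, |h| ≤ ρ * W → 4 ≤ (p:ℝ) + h ∧ ((p:ℝ) + h) ^ (1/2 + ε) ≤ N := by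
    intro h hh
    obtain ⟨a1, a2⟩ := abs_le.mp hh
    refine ⟨by linarith, le_trans ?_ hpN⟩
    exact Real.rpow_le_rpow (by linarith) (by linarith) (by positivity)
  have hui : ∀ i : Fin (d+1), |ρ * u i| ≤ ρ * W := by
    intro i
    rw [abs_mul, abs_of_pos hρ]
    exact mul_le_mul_of_nonneg_left (hWi i) hρ.le
  have hωle : ∀ x : ℝ, 1 ≤ x → x ^ (-ω0) ≤ x ^ (-ω) := fun x hx => Real.rpow_le_rpow_of_exponent_le hx (by linarith)
  have hms : ∀ M' : ℕ, 1 ≤ M' → M' ≤ M → ∀ h : ℝ, |h| ≤ ρ * W →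
      ∑ n ∈ Finset.range N, (En (p + h + n) - U Circ.ag (3 * Real.pi/4) (p + h + n) M')^2 ≤
        C1 * ((M':ℝ) ^ (-ω) + (M':ℝ)^4 * (N:ℝ) ^ (-ω)) * N := by
    intro M' hM' hM'M h hh
    obtain ⟨a1, a2⟩ := hpt h hh
    have hMM : 2 * ((M':ℝ) + 1) ≤ min 1 1 * N := by
      rw [min_self, one_mul]
      have : 2 * (M' + 1) ≤ N := by omega
      exact_mod_cast this
    have a3 := hA M' hM' N hNN1 hMM (p + h) a1 a2
    simp only [mul_one] at a3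
    have hM'1 : (1:ℝ) ≤ M' := by exact_mod_cast hM'
    refine a3.trans ?_
    have b1 := hωle M' hM'1
    have b2 := hωle N hN1'
    gcongr
  -- the four parts
  obtain ⟨A0, hA0⟩ : ∃ A0 : ℕ → ℝ, A0 = fun n : ℕ => En ((p:ℝ) + (n:ℝ)) - U Circ.ag (3 * Real.pi/4) ((p:ℝ) + (n:ℝ)) M0 := ⟨_, rfl⟩
  obtain ⟨Aj, hAj⟩ : ∃ Aj : Fin (d+1) → ℕ → ℝ, Aj = fun (j : Fin (d+1)) (n : ℕ) => En ((p:ℝ) + ρ * u j + (n:ℝ)) - U Circ.ag (3 * Real.pi/4) ((p:ℝ) + ρ * u j + (n:ℝ)) M := ⟨_, rfl⟩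
  obtain ⟨Bj, hBj⟩ : ∃ Bj : Fin (d+1) → ℝ, Bj = fun j => BM Circ.ag (3 * Real.pi/4) (p:ℝ) ((p:ℝ) + ρ * u j) M - lead (ρ * u j) := ⟨_, rfl⟩
  obtain ⟨Lw, hLw⟩ : ∃ Lw : ℕ → ℝ, Lw = fun n => (∑ m ∈ (NS M).filter (lowP D M), Zi p ρ σ u s m * chr (1 * √(m:ℝ)) n).re := ⟨_, rfl⟩
  have hdec : ∀ n : ℕ, Wd p ρ σ u s0 s n - SC (Zf D M M0 p ρ σ u s0 s) 1 (Finset.Icc 1 (M^2)) n =
      s0 * A0 n + ∑ i, s i / σ * (Aj i.succ n - Aj i.castSucc n) + ∑ i, s i / σ * (Bj i.succ - Bj i.castSucc) + Lw n := by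
    intro n
    rw [Wd_sub hM0D hD1 hM0M, hA0, hAj, hBj, hLw]
  have hSσ : ∑ i, (s i / σ)^2 = S / σ^2 := by
    rw [hS, Finset.sum_div]
    apply Finset.sum_congr rfl
    intro i _
    rw [div_pow]
  -- first
  have p1 : ∑ n ∈ Finset.range N, (s0 * A0 n)^2 ≤ s0^2 * (C1 * ((M0:ℝ) ^ (-ω) + (M0:ℝ)^4 * (N:ℝ) ^ (-ω)) * N) := by
    have a1 := hms M0 hM01 hM0M 0 (by rw [abs_zero]; positivity)
    simp only [add_zero] at a1
    simp_rw [mul_pow]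
    rw [← Finset.mul_sum, hA0]
    exact mul_le_mul_of_nonneg_left a1 (sq_nonneg _)
  -- second
  have p2 : ∑ n ∈ Finset.range N, (∑ i : Fin d, s i / σ * (Aj i.succ n - Aj i.castSucc n))^2 ≤
      S / σ^2 * (4 * d * (C1 * ((M:ℝ) ^ (-ω) + (M:ℝ)^4 * (N:ℝ) ^ (-ω)) * N)) := by
    calc _ ≤ ∑ n ∈ Finset.range N, S / σ^2 * ∑ i : Fin d, (Aj i.succ n - Aj i.castSucc n)^2 := by
          apply Finset.sum_le_sum
          intro n _
          rw [← hSσ]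
          exact cs_sum _ _
      _ = S / σ^2 * ∑ i : Fin d, ∑ n ∈ Finset.range N, (Aj i.succ n - Aj i.castSucc n)^2 := by
          rw [← Finset.mul_sum, Finset.sum_comm]
      _ ≤ S / σ^2 * ∑ i : Fin d, 4 * (C1 * ((M:ℝ) ^ (-ω) + (M:ℝ)^4 * (N:ℝ) ^ (-ω)) * N) := by
          apply mul_le_mul_of_nonneg_left _ (by positivity)
          apply Finset.sum_le_sum
          intro i _
          have a1 := hms M hM1 le_rfl (ρ * u i.succ) (hui _)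
          have a2 := hms M hM1 le_rfl (ρ * u i.castSucc) (hui _)
          calc ∑ n ∈ Finset.range N, (Aj i.succ n - Aj i.castSucc n)^2 ≤ ∑ n ∈ Finset.range N, 2 * ((Aj i.succ n)^2 + (Aj i.castSucc n)^2) := by
                apply Finset.sum_le_sum
                intro n _
                exact two_sq _ _
            _ = 2 * (∑ n ∈ Finset.range N, (Aj i.succ n)^2 + ∑ n ∈ Finset.range N, (Aj i.castSucc n)^2) := by
                rw [← Finset.mul_sum, Finset.sum_add_distrib]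
            _ ≤ _ := by
                rw [hAj]
                simp only
                linarith
      _ = _ := by
          rw [Finset.sum_const, Finset.card_univ, Fintype.card_fin, nsmul_eq_mul]; ring
  -- third
  have hBb : ∀ j, |Bj j| ≤ C2 * √(ρ * W) := by
    intro j
    have hmm : 1 / (ρ * u j)^2 ≤ M := by
      rcases eq_or_ne (u j) 0 with h0 | h0
      · rw [h0]; simp
      · have hu0 : 0 < |u j| := abs_pos.mpr h0
        refine le_trans ?_ hρM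
        rw [mul_pow, ← sq_abs (u j), one_div, one_div, mul_inv]
        have b1 : (|u j|^2)⁻¹ ≤ W^2 := by
          rw [← inv_pow]
          exact pow_le_pow_left₀ (by positivity) (hWinv j) 2
        have b2 : W^2 ≤ ρ⁻¹ := by
          rw [← one_div, le_div_iff₀ hρ]; linarith
        calc (ρ^2)⁻¹ * (|u j|^2)⁻¹ ≤ (ρ^2)⁻¹ * ρ⁻¹ := by
              apply mul_le_mul_of_nonneg_left (b1.trans b2) (by positivity)
          _ = (ρ^3)⁻¹ := by rw [← mul_inv]; congr 1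
    have a1 := hB (ρ * u j) ((hui j).trans hρW1) p M hmm
    rw [hBj]
    refine a1.trans ?_
    have := Real.sqrt_le_sqrt (hui j)
    gcongr
  have p3 : (∑ i, s i / σ * (Bj i.succ - Bj i.castSucc))^2 ≤ S / σ^2 * (4 * d * C2^2 * (ρ * W)) := by
    refine (cs_sum _ _).trans ?_
    rw [hSσ]
    apply mul_le_mul_of_nonneg_left _ (by positivity)
    calc ∑ i : Fin d, (Bj i.succ - Bj i.castSucc)^2 ≤ ∑ i : Fin d, 4 * (C2^2 * (ρ * W)) := by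
          apply Finset.sum_le_sum
          intro i _
          have a1 : (Bj i.succ)^2 ≤ C2^2 * (ρ * W) := by
            rw [← sq_abs]
            refine (pow_le_pow_left₀ (abs_nonneg _) (hBb _) 2).trans (le_of_eq ?_)
            rw [mul_pow, Real.sq_sqrt (by positivity)]
          have a2 : (Bj i.castSucc)^2 ≤ C2^2 * (ρ * W) := by
            rw [← sq_abs]
            refine (pow_le_pow_left₀ (abs_nonneg _) (hBb _) 2).trans (le_of_eq ?_)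
            rw [mul_pow, Real.sq_sqrt (by positivity)]
          exact two_sq' a1 a2
      _ = _ := by
          rw [Finset.sum_const, Finset.card_univ, Fintype.card_fin, nsmul_eq_mul]; ring
  -- fourth
  have p4 : ∑ n ∈ Finset.range N, (Lw n)^2 ≤ 8 * N * (C3 * ρ ^ (9/5:ℝ) / σ^2 * (D:ℝ) ^ (11/25:ℝ)) := by
    rw [hLw]
    refine (low_ms hM1 hM3 _).trans ?_
    apply mul_le_mul_of_nonneg_left _ (by positivity)
    apply hL p ρ σ hρ hσ D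
    intro m hm
    rw [Finset.mem_filter] at hm
    have hm' := hm.1
    unfold NS at hm'
    rw [Finset.mem_filter, Finset.mem_Icc] at hm'
    exact low_rep hm'.1.1 hm'.1.2 hm.2
  -- assembly
  obtain ⟨x1, hx1⟩ : ∃ x1, x1 = (M0:ℝ) ^ (-ω) + (M0:ℝ)^4 * (N:ℝ) ^ (-ω) := ⟨_, rfl⟩
  obtain ⟨x2, hx2⟩ : ∃ x2, x2 = ((M:ℝ) ^ (-ω) + (M:ℝ)^4 * (N:ℝ) ^ (-ω)) / σ^2 := ⟨_, rfl⟩
  obtain ⟨x3, hx3⟩ : ∃ x3, x3 = ρ / σ^2 := ⟨_, rfl⟩
  obtain ⟨x4, hx4⟩ : ∃ x4, x4 = ρ ^ (9/5:ℝ) / σ^2 * (D:ℝ) ^ (11/25:ℝ) := ⟨_, rfl⟩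
  have y1 : 0 ≤ x1 := by rw [hx1]; positivity
  have y2 : 0 ≤ x2 := by rw [hx2]; positivity
  have y3 : 0 ≤ x3 := by rw [hx3]; positivity
  have y4 : 0 ≤ x4 := by rw [hx4]; positivity
  rw [← hx1, ← hx2, ← hx3, ← hx4]
  have q2 : S / σ^2 * (4 * d * (C1 * ((M:ℝ) ^ (-ω) + (M:ℝ)^4 * (N:ℝ) ^ (-ω)) * N)) = S * (4 * d * C1) * (x2 * N) := by
    rw [hx2]; ring
  have q3 : S / σ^2 * (4 * d * C2^2 * (ρ * W)) = S * (4 * d * C2^2 * W) * x3 := by rw [hx3]; ring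
  have q4 : 8 * N * (C3 * ρ ^ (9/5:ℝ) / σ^2 * (D:ℝ) ^ (11/25:ℝ)) = 8 * C3 * (x4 * N) := by rw [hx4]; ring
  rw [← hx1] at p1
  rw [q2] at p2
  rw [q3] at p3
  rw [q4] at p4
  calc ∑ n ∈ Finset.range N, (Wd p ρ σ u s0 s n - SC (Zf D M M0 p ρ σ u s0 s) 1 (Finset.Icc 1 (M^2)) n)^2
      ≤ ∑ n ∈ Finset.range N, 4 * ((s0 * A0 n)^2 + (∑ i, s i / σ * (Aj i.succ n - Aj i.castSucc n))^2 +
        (∑ i, s i / σ * (Bj i.succ - Bj i.castSucc))^2 + (Lw n)^2) := by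
        apply Finset.sum_le_sum
        intro n _
        rw [hdec]
        exact four_sq _ _ _ _
    _ = 4 * (∑ n ∈ Finset.range N, (s0 * A0 n)^2 + ∑ n ∈ Finset.range N, (∑ i, s i / σ * (Aj i.succ n - Aj i.castSucc n))^2 +
        N * (∑ i, s i / σ * (Bj i.succ - Bj i.castSucc))^2 + ∑ n ∈ Finset.range N, (Lw n)^2) := by
        rw [← Finset.mul_sum, Finset.sum_add_distrib, Finset.sum_add_distrib, Finset.sum_add_distrib, Finset.sum_const, Finset.card_range, nsmul_eq_mul]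
    _ ≤ 4 * (s0^2 * (C1 * x1 * N) + S * (4 * d * C1) * (x2 * N) + N * (S * (4 * d * C2^2 * W) * x3) + 8 * C3 * (x4 * N)) := by
        have := mul_le_mul_of_nonneg_left p3 hN0.le
        linarith
    _ ≤ C * N * (x1 + x2 + x3 + x4) := by
        have c1 : 0 ≤ s0^2 * C1 := by positivity
        have c2 : 0 ≤ S * (4 * d * C1) := by positivity
        have c3 : 0 ≤ S * (4 * d * C2^2 * W) := by positivity
        have z1 : 0 ≤ N * x1 := by positivity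
        have z2 : 0 ≤ N * x2 := by positivity
        have z3 : 0 ≤ N * x3 := by positivity
        have z4 : 0 ≤ N * x4 := by positivity
        have hCe : C * N * (x1 + x2 + x3 + x4) = C * (N * x1) + C * (N * x2) + C * (N * x3) + C * (N * x4) := by ring
        rw [hCe]
        have k1 : 4 * (s0^2 * C1) * (N * x1) ≤ C * (N * x1) := mul_le_mul_of_nonneg_right (by rw [hC]; linarith) z1
        have k2 : 4 * (S * (4 * d * C1)) * (N * x2) ≤ C * (N * x2) := mul_le_mul_of_nonneg_right (by rw [hC]; linarith) z2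
        have k3 : 4 * (S * (4 * d * C2^2 * W)) * (N * x3) ≤ C * (N * x3) := mul_le_mul_of_nonneg_right (by rw [hC]; linarith) z3
        have k4 : 4 * (8 * C3) * (N * x4) ≤ C * (N * x4) := mul_le_mul_of_nonneg_right (by rw [hC]; linarith) z4
        linarith

end Pool.Agent.D0H53.CL
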