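import Mathlib
import Pool.Agent.D0H53.CL.C8

/-! Quantities of the model. -/

set_option autoImplicit false

open Filter Topology
open Pool.Agent.H383 Pool.Agent.H383.AP Pool.Agent.H383.Gauss Pool.Agent.H383.Gen Pool.Agent.H425R3.JD Pool.Agent.N48.Ann

namespace Pool.Agent.D0H53.CL

variable {d : ℕ} {D M M0 : ℕ} {X ρ σ : ℝ} {u : Fin (d+1) → ℝ} {s0 : ℝ} {s : Fin d → ℝ}

open Classical in
lemma Zf_high {m q : ℕ} (hq : q ∈ QD D M) (hm : InC q m) : Zf D M M0 X ρ σ u s0 s m = Zi X ρ σ u s m := by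
  unfold Zf
  rw [if_neg]
  intro h
  exact h q hq hm

open Classical in
/-- the variance of the high classes -/
lemma vQ_eq : vQ (Zf D M M0 X ρ σ u s0 s) (QD D M) (Finset.Icc 1 (M^2)) =
    (1/2) * ∑ m ∈ (Finset.Icc 1 (M^2)).filter (fun m => ¬ lowP D M m), ‖Zi X ρ σ u s m‖^2 := by
  unfold vQ vC
  rw [← Finset.mul_sum]
  congr 1
  have h1 : (Finset.Icc 1 (M^2)).filter (fun m => ¬ lowP D M m) = (QD D M).biUnion (fun q => (Finset.Icc 1 (M^2)).filter (InC q)) := by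
    ext m
    rw [Finset.mem_filter, Finset.mem_biUnion]
    constructor
    · rintro ⟨h1, h2⟩
      unfold lowP at h2
      push Not at h2
      obtain ⟨q, hq, hm⟩ := h2
      exact ⟨q, hq, Finset.mem_filter.mpr ⟨h1, hm⟩⟩
    · rintro ⟨q, hq, hm⟩
      rw [Finset.mem_filter] at hm
      exact ⟨hm.1, fun h => h q hq hm.2⟩
  rw [h1, Finset.sum_biUnion]
  · apply Finset.sum_congr rfl
    intro q hq
    apply Finset.sum_congr rfl
    intro m hm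
    rw [Finset.mem_filter] at hm
    rw [Zf_high hq hm.2]
  · intro q hq q' hq' hne
    rw [Function.onFun, Finset.disjoint_left]
    intro m hm hm'
    rw [Finset.mem_filter, Finset.mem_Icc] at hm hm'
    apply hne
    rw [Finset.mem_coe, mem_QD] at hq hq'
    exact inC_unique hq.2 hq'.2 hm.1.1 hm.2 hm'.2

open Classical in
lemma vQ_close {V δ1 δ2 : ℝ} (h1 : |(1/2) * ∑ m ∈ Finset.Icc 1 (M^2), ‖Zi X ρ σ u s m‖^2 - V| ≤ δ1)
    (h2 : ∑ m ∈ (Finset.Icc 1 (M^2)).filter (lowP D M), ‖Zi X ρ σ u s m‖^2 ≤ δ2) :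
    |vQ (Zf D M M0 X ρ σ u s0 s) (QD D M) (Finset.Icc 1 (M^2)) - V| ≤ δ1 + δ2 := by
  rw [vQ_eq]
  have h3 := Finset.sum_filter_add_sum_filter_not (Finset.Icc 1 (M^2)) (lowP D M) (fun m => ‖Zi X ρ σ u s m‖^2)
  have h4 : 0 ≤ ∑ m ∈ (Finset.Icc 1 (M^2)).filter (lowP D M), ‖Zi X ρ σ u s m‖^2 := Finset.sum_nonneg fun _ _ => sq_nonneg _
  obtain ⟨a1, a2⟩ := abs_le.mp h1
  rw [← h3] at a1 a2
  rw [abs_le]
  constructor <;> linarith

open Classical in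
/-- the low part of the model -/
lemma SC_low (hD : M0^2 ≤ D) (hM : M0 ≤ M) (n : ℕ) :
    SC (Zf D M M0 X ρ σ u s0 s) 1 ((Finset.Icc 1 (M^2)).filter (fun m => ∀ q ∈ QD D M, ¬ InC q m)) n =
      s0 * U Circ.ag (3 * Real.pi/4) (X + n) M0 := by
  have hM2 : M0^2 ≤ M^2 := Nat.pow_le_pow_left hM 2
  have h2 : ∑ m ∈ (Finset.Icc 1 (M^2)).filter (fun m => ∀ q ∈ QD D M, ¬ InC q m), Zf D M M0 X ρ σ u s0 s m * chr (1 * √(m:ℝ)) n =
      ∑ m ∈ (Finset.Icc 1 (M^2)).filter (fun m => ∀ q ∈ QD D M, ¬ InC q m), (if m ≤ M0^2 then (s0 : ℂ) * (ac Circ.ag (3 * Real.pi/4) X m * chr (1 * √(m:ℝ)) n) else 0) := by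
    apply Finset.sum_congr rfl
    intro m hm
    rw [Finset.mem_filter] at hm
    unfold Zf
    rw [if_pos (show lowP D M m from hm.2)]
    split_ifs
    · ring
    · ring
  have h3 : ((Finset.Icc 1 (M^2)).filter (fun m => ∀ q ∈ QD D M, ¬ InC q m)).filter (fun m => m ≤ M0^2) = Finset.Icc 1 (M0^2) := by
    ext m
    rw [Finset.mem_filter, Finset.mem_filter, Finset.mem_Icc, Finset.mem_Icc]
    constructor
    · rintro ⟨⟨⟨a1, a2⟩, a3⟩, a4⟩
      exact ⟨a1, a4⟩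
    · rintro ⟨a1, a2⟩
      exact ⟨⟨⟨a1, a2.trans hM2⟩, low_of_le a1 (a2.trans hD)⟩, a2⟩
  have h4 : U Circ.ag (3 * Real.pi/4) (X + n) M0 = (∑ m ∈ Finset.Icc 1 (M0^2), ac Circ.ag (3 * Real.pi/4) X m * chr (1 * √(m:ℝ)) n).re := by
    have := U_eq_re Circ.ag (3 * Real.pi/4) X 1 M0 n
    rw [mul_one] at this
    exact this
  unfold SC
  rw [h2, ← Finset.sum_filter, h3, h4, ← Finset.mul_sum, Complex.re_ofReal_mul]

open Classical in
lemma bC_low : bC (Zf D M M0 X ρ σ u s0 s) ((Finset.Icc 1 (M^2)).filter (fun m => ∀ q ∈ QD D M, ¬ InC q m)) ≤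
    |s0| * ∑ m ∈ Finset.Icc 1 (M0^2), |Circ.ag m| := by
  unfold bC
  have h2 : ∑ m ∈ (Finset.Icc 1 (M^2)).filter (fun m => ∀ q ∈ QD D M, ¬ InC q m), ‖Zf D M M0 X ρ σ u s0 s m‖ =
      ∑ m ∈ (Finset.Icc 1 (M^2)).filter (fun m => ∀ q ∈ QD D M, ¬ InC q m), (if m ≤ M0^2 then |s0| * |Circ.ag m| else 0) := by
    apply Finset.sum_congr rfl
    intro m hm
    rw [Finset.mem_filter] at hm
    unfold Zf
    rw [if_pos (show lowP D M m from hm.2)]
    split_ifs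
    · rw [norm_mul, Complex.norm_real, Real.norm_eq_abs, norm_ac]
    · simp
  rw [h2, ← Finset.sum_filter, Finset.mul_sum]
  apply Finset.sum_le_sum_of_subset_of_nonneg
  · intro m hm
    rw [Finset.mem_filter, Finset.mem_filter, Finset.mem_Icc] at hm
    rw [Finset.mem_Icc]
    exact ⟨hm.1.1.1, hm.2⟩
  · intro _ _ _; positivity

/-- total size -/
lemma bC_total (u : Fin (d+1) → ℝ) (s0 : ℝ) (s : Fin d → ℝ) : ∃ A : ℝ, 0 < A ∧ ∀ (X ρ σ : ℝ) (D M M0 : ℕ), 0 < ρ → ρ ≤ 1 → 0 < σ → 1 ≤ M → 1 / σ ≤ M →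
    1 + bC (Zf D M M0 X ρ σ u s0 s) (Finset.Icc 1 (M^2)) ≤ A * (M:ℝ)^3 := by
  classical
  obtain ⟨C, hC, hag⟩ := Pool.Agent.H452R2.Win.ag_Bdw (1/50) (by norm_num)
  obtain ⟨L, hL⟩ : ∃ L : ℝ, L = ∑ i : Fin d, |s i| := ⟨_, rfl⟩
  have hL0 : 0 ≤ L := by rw [hL]; positivity
  obtain ⟨W, hW⟩ : ∃ W : ℝ, W = ∑ i : Fin d, |u i.succ - u i.castSucc| := ⟨_, rfl⟩
  have hWi : ∀ i : Fin d, |u i.succ - u i.castSucc| ≤ W := by
    intro i
    rw [hW]
    exact Finset.single_le_sum (f := fun i : Fin d => |u i.succ - u i.castSucc|) (fun i _ => abs_nonneg _) (Finset.mem_univ i)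
  have hW0 : 0 ≤ W := by rw [hW]; positivity
  refine ⟨1 + |s0| * C + L * C * 2, by positivity, ?_⟩
  intro X ρ σ D M M0 hρ _ hσ hM hσM
  have hM1 : (1:ℝ) ≤ M := by exact_mod_cast hM
  have hag1 : ∀ m : ℕ, 1 ≤ m → |Circ.ag m| ≤ C := by
    intro m hm
    have hm1 : (1:ℝ) ≤ m := by exact_mod_cast hm
    refine (hag m hm).trans ?_
    have : (m:ℝ) ^ (-(3/4) + 1/50:ℝ) ≤ 1 := Real.rpow_le_one_of_one_le_of_nonpos hm1 (by norm_num)
    calc C * (m:ℝ) ^ (-(3/4) + 1/50:ℝ) ≤ C * 1 := by gcongr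
      _ = C := mul_one C
  have hpt : ∀ m ∈ Finset.Icc 1 (M^2), ‖Zf D M M0 X ρ σ u s0 s m‖ ≤ (|s0| * C + L * C * 2) * M := by
    intro m hm
    rw [Finset.mem_Icc] at hm
    have a1 := hag1 m hm.1
    have hpi := Real.pi_pos
    have b1 : |s0| * |Circ.ag m| ≤ |s0| * C * M := by
      calc |s0| * |Circ.ag m| ≤ |s0| * C * 1 := by rw [mul_one]; gcongr
        _ ≤ _ := by gcongr
    have b2 : ‖Zi X ρ σ u s m‖ ≤ L * C * 2 * M := by
      refine (Zi_le X hρ.le hσ hWi s m).trans ?_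
      rw [← hL]
      have c1 : min 2 (2 * Real.pi * (ρ * W) * √(m:ℝ)) ≤ 2 := min_le_left _ _
      have c2 : 0 ≤ min 2 (2 * Real.pi * (ρ * W) * √(m:ℝ)) := le_min (by norm_num) (by positivity)
      calc L / σ * (|Circ.ag m| * min 2 (2 * Real.pi * (ρ * W) * √(m:ℝ))) ≤ L / σ * (C * 2) := by
            apply mul_le_mul_of_nonneg_left _ (by positivity)
            exact mul_le_mul a1 c1 c2 hC.le
        _ = L * C * 2 * (1 / σ) := by ring
        _ ≤ _ := by gcongr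
    have b3 : 0 ≤ |s0| * C * M := by positivity
    have b4 : 0 ≤ L * C * 2 * M := by positivity
    unfold Zf
    split_ifs
    · rw [norm_mul, Complex.norm_real, Real.norm_eq_abs, norm_ac]
      nlinarith
    · rw [norm_zero]; nlinarith
    · nlinarith
  have h1 : bC (Zf D M M0 X ρ σ u s0 s) (Finset.Icc 1 (M^2)) ≤ (M:ℝ)^2 * ((|s0| * C + L * C * 2) * M) := by
    unfold bC
    refine (Finset.sum_le_sum hpt).trans (le_of_eq ?_)
    rw [Finset.sum_const, Nat.card_Icc, Nat.add_sub_cancel, nsmul_eq_mul]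
    push_cast; ring
  have h2 : (1:ℝ) ≤ (M:ℝ)^3 := one_le_pow₀ hM1
  calc 1 + bC (Zf D M M0 X ρ σ u s0 s) (Finset.Icc 1 (M^2)) ≤ (M:ℝ)^3 + (M:ℝ)^2 * ((|s0| * C + L * C * 2) * M) := add_le_add h2 h1
    _ = _ := by ring

end Pool.Agent.D0H53.CL
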