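import Mathlib
import Pool.Agent.D0H53.CL.C9
import Pool.Agent.N48.Ann.AN4

/-! Choice of parameters. -/

set_option autoImplicit false

open Filter Topology
open Pool.Agent.H383 Pool.Agent.H383.AP Pool.Agent.H383.Gauss Pool.Agent.H383.Gen Pool.Agent.H425R3.JD Pool.Agent.N48.Ann

namespace Pool.Agent.D0H53.CL

lemma sgm_pos {ρ : ℝ} (hρ : 0 < ρ) (hρ1 : ρ ≤ 1/10) : 0 < sgm ρ := by
  unfold sgm
  have := log_ge hρ hρ1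
  positivity

/-- small widths -/
lemma small_rho {δ : ℝ} (hδ : 0 < δ) : ∃ ρ₀ : ℝ, 0 < ρ₀ ∧ ρ₀ ≤ 1/10 ∧ ∀ ρ : ℝ, 0 < ρ → ρ ≤ ρ₀ →
    ρ ≤ (sgm ρ)^2 ∧ ρ / (sgm ρ)^2 ≤ δ ∧ (∀ D : ℝ, 0 ≤ D → D ≤ 2 / ρ → ρ ^ (9/5:ℝ) / (sgm ρ)^2 * D ^ (11/25:ℝ) ≤ δ) ∧
    (∀ q : ℝ, 1 / ρ ≤ q → ρ ^ (11/25:ℝ) / sgm ρ * q ^ (-(51/100):ℝ) ≤ δ) := by
  obtain ⟨ρ₀, hρ₀⟩ : ∃ ρ₀, ρ₀ = min (min (1/10) (Real.exp (-(1/δ)))) (min ((δ/2) ^ (25/9:ℝ)) (δ ^ (20/9:ℝ))) := ⟨_, rfl⟩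
  have q0 : 0 < ρ₀ := by rw [hρ₀]; positivity
  have q1 : ρ₀ ≤ 1/10 := by rw [hρ₀]; exact (min_le_left _ _).trans (min_le_left _ _)
  have q2 : ρ₀ ≤ Real.exp (-(1/δ)) := by rw [hρ₀]; exact (min_le_left _ _).trans (min_le_right _ _)
  have q3 : ρ₀ ≤ (δ/2) ^ (25/9:ℝ) := by rw [hρ₀]; exact (min_le_right _ _).trans (min_le_left _ _)
  have q4 : ρ₀ ≤ δ ^ (20/9:ℝ) := by rw [hρ₀]; exact (min_le_right _ _).trans (min_le_right _ _)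
  refine ⟨ρ₀, q0, q1, ?_⟩
  intro ρ hρ hρu
  have hρ1 : ρ ≤ 1/10 := hρu.trans q1
  obtain ⟨L, hL⟩ : ∃ L, L = Real.log (1 / ρ) := ⟨_, rfl⟩
  have hL1 : 1 ≤ L := by rw [hL]; exact log_ge hρ hρ1
  have hLd : 1 / δ ≤ L := by
    rw [hL, Real.le_log_iff_exp_le (by positivity), le_div_iff₀ hρ]
    calc Real.exp (1/δ) * ρ ≤ Real.exp (1/δ) * Real.exp (-(1/δ)) := by
          have := hρu.trans q2
          gcongr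
      _ = 1 := by rw [← Real.exp_add]; simp
  have hσ2 : (sgm ρ)^2 = 16 * (ρ * L) := by rw [sgm_sq hρ (by linarith), hL]
  have hσ0 := sgm_pos hρ hρ1
  have hσρ : ρ ≤ (sgm ρ)^2 := by
    rw [hσ2]
    nlinarith [mul_pos hρ (show 0 < L by linarith)]
  have hσh : ρ ^ (1/2:ℝ) ≤ sgm ρ := by
    rw [← Real.sqrt_eq_rpow]
    rw [Real.sqrt_le_left hσ0.le]
    exact hσρ
  refine ⟨hσρ, ?_, ?_, ?_⟩
  · rw [hσ2, div_le_iff₀ (by positivity)]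
    rw [div_le_iff₀ hδ] at hLd
    nlinarith
  · intro D hD0 hD
    have a1 : D ^ (11/25:ℝ) ≤ 2 * ρ ^ (-(11/25):ℝ) := by
      calc D ^ (11/25:ℝ) ≤ (2 / ρ) ^ (11/25:ℝ) := Real.rpow_le_rpow hD0 hD (by norm_num)
        _ = (2:ℝ) ^ (11/25:ℝ) * ρ ^ (-(11/25):ℝ) := by
            rw [Real.div_rpow (by norm_num) hρ.le, Real.rpow_neg hρ.le]; ring
        _ ≤ 2 * ρ ^ (-(11/25):ℝ) := by
            have : (2:ℝ) ^ (11/25:ℝ) ≤ 2 := by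
              calc (2:ℝ) ^ (11/25:ℝ) ≤ (2:ℝ) ^ (1:ℝ) := Real.rpow_le_rpow_of_exponent_le (by norm_num) (by norm_num)
                _ = 2 := Real.rpow_one 2
            gcongr
    have a2 : ρ ^ (9/25:ℝ) ≤ δ / 2 := by
      calc ρ ^ (9/25:ℝ) ≤ ((δ/2) ^ (25/9:ℝ)) ^ (9/25:ℝ) := Real.rpow_le_rpow hρ.le (hρu.trans q3) (by norm_num)
        _ = δ / 2 := by rw [← Real.rpow_mul (by positivity)]; norm_num
    calc ρ ^ (9/5:ℝ) / (sgm ρ)^2 * D ^ (11/25:ℝ) ≤ ρ ^ (9/5:ℝ) / ρ * (2 * ρ ^ (-(11/25):ℝ)) := by gcongr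
      _ = 2 * (ρ ^ (9/5:ℝ) * ρ ^ (-1:ℝ) * ρ ^ (-(11/25):ℝ)) := by rw [Real.rpow_neg_one]; ring
      _ = 2 * ρ ^ (9/25:ℝ) := by rw [← Real.rpow_add hρ, ← Real.rpow_add hρ]; norm_num
      _ ≤ δ := by linarith
  · intro q hq
    have hq0 : 0 < q := lt_of_lt_of_le (by positivity) hq
    have a1 : q ^ (-(51/100):ℝ) ≤ ρ ^ (51/100:ℝ) := by
      calc q ^ (-(51/100):ℝ) ≤ (1 / ρ) ^ (-(51/100):ℝ) := Real.rpow_le_rpow_of_nonpos (by positivity) hq (by norm_num)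
        _ = ρ ^ (51/100:ℝ) := by
            rw [one_div, Real.inv_rpow hρ.le, Real.rpow_neg hρ.le, inv_inv]
    have a2 : ρ ^ (9/20:ℝ) ≤ δ := by
      calc ρ ^ (9/20:ℝ) ≤ (δ ^ (20/9:ℝ)) ^ (9/20:ℝ) := Real.rpow_le_rpow hρ.le (hρu.trans q4) (by norm_num)
        _ = δ := by rw [← Real.rpow_mul (by positivity)]; norm_num
    calc ρ ^ (11/25:ℝ) / sgm ρ * q ^ (-(51/100):ℝ) ≤ ρ ^ (11/25:ℝ) / ρ ^ (1/2:ℝ) * ρ ^ (51/100:ℝ) := by gcongr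
      _ = ρ ^ (11/25:ℝ) * ρ ^ (-(1/2):ℝ) * ρ ^ (51/100:ℝ) := by rw [Real.rpow_neg hρ.le]; ring
      _ = ρ ^ (9/20:ℝ) := by rw [← Real.rpow_add hρ, ← Real.rpow_add hρ]; norm_num
      _ ≤ δ := a2

/-- large windows -/
lemma choice {ω : ℝ} (hω : 0 < ω) (hω1 : ω ≤ 1) (K M0 : ℕ) {A : ℝ} (hA : 0 < A) : ∃ c : ℝ, 0 < c ∧ ∀ δ : ℝ, 0 < δ → ∃ N0 : ℕ, ∀ N : ℕ, N0 ≤ N →
    ∃ M : ℕ, 1 ≤ M ∧ M0 ≤ M ∧ 32 * M^3 < N ∧ 2 * (M + 1) ≤ N ∧ (M0:ℝ)^4 * (N:ℝ) ^ (-ω) ≤ δ ∧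
      (∀ B : ℝ, 0 ≤ B → B ≤ A * (M:ℝ)^3 → (K + 1) * (B ^ K * (((2 * K * M + 2 : ℕ) : ℝ) ^ (2 ^ K) / N)) ≤ δ) ∧
      ∀ ρ : ℝ, (N:ℝ) ^ (-c) ≤ ρ → ρ ≤ 1 → 1 / ρ^3 ≤ M ∧ (M:ℝ) ^ (-ω) + (M:ℝ)^4 * (N:ℝ) ^ (-ω) ≤ 17 * ρ := by
  obtain ⟨E, hE⟩ : ∃ E : ℕ, E = 3 * K + 2 ^ K := ⟨_, rfl⟩
  have hE1 : 1 ≤ E := by
    rw [hE]
    have := Nat.one_le_two_pow (n := K)
    omega
  have hE1' : (1:ℝ) ≤ E := by exact_mod_cast hE1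
  obtain ⟨c1, hc1⟩ : ∃ c1 : ℝ, c1 = ω / (8 * E) := ⟨_, rfl⟩
  have hc10 : 0 < c1 := by rw [hc1]; positivity
  have hc1E : c1 * E = ω / 8 := by rw [hc1]; field_simp
  have hc1ω : c1 ≤ ω / 8 := by rw [← hc1E]; nlinarith
  refine ⟨ω * c1 / 8, by positivity, ?_⟩
  intro δ hδ
  obtain ⟨CK, hCK⟩ : ∃ CK : ℝ, CK = (K + 1) * (A ^ K * ((2 * K + 2) ^ (2^K) * 2 ^ E)) := ⟨_, rfl⟩
  have hCK0 : 0 ≤ CK := by rw [hCK]; positivity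
  obtain ⟨N1, hN1⟩ : ∃ N1 : ℕ, ∀ N : ℕ, N1 ≤ N → 1000 ≤ (N:ℝ) ^ (1/2:ℝ) := by
    have : Tendsto (fun N : ℕ => (N:ℝ) ^ (1/2:ℝ)) atTop atTop :=
      (tendsto_rpow_atTop (by norm_num)).comp tendsto_natCast_atTop_atTop
    exact (eventually_atTop.mp (this.eventually_ge_atTop 1000))
  obtain ⟨N2, hN2⟩ : ∃ N2 : ℕ, ∀ N : ℕ, N2 ≤ N → (M0:ℝ)^4 / δ ≤ (N:ℝ) ^ ω := by
    have : Tendsto (fun N : ℕ => (N:ℝ) ^ ω) atTop atTop :=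
      (tendsto_rpow_atTop hω).comp tendsto_natCast_atTop_atTop
    exact (eventually_atTop.mp (this.eventually_ge_atTop _))
  obtain ⟨N3, hN3⟩ : ∃ N3 : ℕ, ∀ N : ℕ, N3 ≤ N → CK / δ ≤ (N:ℝ) ^ (1/2:ℝ) := by
    have : Tendsto (fun N : ℕ => (N:ℝ) ^ (1/2:ℝ)) atTop atTop :=
      (tendsto_rpow_atTop (by norm_num)).comp tendsto_natCast_atTop_atTop
    exact (eventually_atTop.mp (this.eventually_ge_atTop _))
  obtain ⟨N4, hN4⟩ : ∃ N4 : ℕ, ∀ N : ℕ, N4 ≤ N → (M0:ℝ) ≤ (N:ℝ) ^ c1 := by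
    have : Tendsto (fun N : ℕ => (N:ℝ) ^ c1) atTop atTop :=
      (tendsto_rpow_atTop hc10).comp tendsto_natCast_atTop_atTop
    exact (eventually_atTop.mp (this.eventually_ge_atTop _))
  refine ⟨max (max N1 N2) (max (max N3 N4) 1), ?_⟩
  intro N hN
  have hb1 := hN1 N (by omega)
  have hb2 := hN2 N (by omega)
  have hb3 := hN3 N (by omega)
  have hb4 := hN4 N (by omega)
  have hN1 : 1 ≤ N := by omega
  have hN1' : (1:ℝ) ≤ N := by exact_mod_cast hN1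
  have hN0 : (0:ℝ) < N := by linarith
  obtain ⟨q, hq⟩ : ∃ q, q = (N:ℝ) ^ c1 := ⟨_, rfl⟩
  have hq1 : 1 ≤ q := by rw [hq]; exact Real.one_le_rpow hN1' hc10.le
  obtain ⟨M, hM⟩ : ∃ M : ℕ, M = ⌈q⌉₊ := ⟨_, rfl⟩
  have hMq : q ≤ M := by rw [hM]; exact Nat.le_ceil q
  have hMq2 : (M:ℝ) ≤ 2 * q := by
    have := Nat.ceil_lt_add_one (show 0 ≤ q by linarith)
    rw [← hM] at this
    linarith
  have hM1' : (1:ℝ) ≤ M := hq1.trans hMq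
  have hM1 : 1 ≤ M := by exact_mod_cast hM1'
  have hq4 : q ^ 4 ≤ (N:ℝ) ^ (ω/2) := by
    rw [hq, ← Real.rpow_natCast, ← Real.rpow_mul hN0.le]
    apply Real.rpow_le_rpow_of_exponent_le hN1'
    push_cast; linarith
  have hsmall : (N:ℝ) ^ (ω/2) ≤ (N:ℝ) ^ (1/2:ℝ) := Real.rpow_le_rpow_of_exponent_le hN1' (by linarith)
  have hNN : (N:ℝ) = (N:ℝ) ^ (1/2:ℝ) * (N:ℝ) ^ (1/2:ℝ) := by
    rw [← Real.rpow_add hN0]; norm_num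
  have hM4 : (M:ℝ)^4 ≤ 16 * q^4 := by
    calc (M:ℝ)^4 ≤ (2 * q)^4 := by gcongr
      _ = _ := by ring
  have hM3 : 32 * M^3 < N := by
    have h1 : (M:ℝ)^3 ≤ (M:ℝ)^4 := pow_le_pow_right₀ hM1' (by norm_num)
    have h2 : 32 * (M:ℝ)^3 < N := by
      calc 32 * (M:ℝ)^3 ≤ 32 * (16 * (N:ℝ) ^ (1/2:ℝ)) := by linarith
        _ < 1000 * (N:ℝ) ^ (1/2:ℝ) := by
            have : 0 < (N:ℝ) ^ (1/2:ℝ) := by positivity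
            nlinarith
        _ ≤ (N:ℝ) ^ (1/2:ℝ) * (N:ℝ) ^ (1/2:ℝ) := by gcongr
        _ = N := hNN.symm
    exact_mod_cast h2
  refine ⟨M, hM1, ?_, hM3, ?_, ?_, ?_, ?_⟩
  · have : (M0:ℝ) ≤ M := by rw [hq] at hMq; exact hb4.trans hMq
    exact_mod_cast this
  · have h1 : M ≤ M^3 := Nat.le_self_pow (by norm_num) M
    have h2 : 1 ≤ M^3 := Nat.one_le_pow _ _ hM1
    omega
  · rw [Real.rpow_neg hN0.le, ← div_eq_mul_inv, div_le_iff₀ (by positivity)]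
    rw [div_le_iff₀ hδ] at hb2
    linarith
  · intro B hB0 hB
    have e1 : (((2 * K * M + 2 : ℕ) : ℝ)) ≤ (2 * K + 2) * M := by
      push_cast
      nlinarith [(Nat.cast_nonneg K : (0:ℝ) ≤ K)]
    have e2 : (M:ℝ) ^ E ≤ 2 ^ E * (N:ℝ) ^ (1/2:ℝ) := by
      calc (M:ℝ) ^ E ≤ (2 * q) ^ E := by gcongr
        _ = 2 ^ E * q ^ E := mul_pow _ _ _
        _ ≤ 2 ^ E * (N:ℝ) ^ (1/2:ℝ) := by
            apply mul_le_mul_of_nonneg_left _ (by positivity)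
            rw [hq, ← Real.rpow_natCast, ← Real.rpow_mul hN0.le, hc1E]
            apply Real.rpow_le_rpow_of_exponent_le hN1'
            linarith
    calc (K + 1) * (B ^ K * (((2 * K * M + 2 : ℕ) : ℝ) ^ (2 ^ K) / N))
        ≤ (K + 1) * ((A * (M:ℝ)^3) ^ K * (((2 * K + 2) * M) ^ (2 ^ K) / N)) := by gcongr
      _ = (K + 1) * (A ^ K * (2 * K + 2) ^ (2 ^ K)) * ((M:ℝ) ^ E) / N := by
          rw [hE, pow_add, mul_pow, mul_pow, ← pow_mul]; ring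
      _ ≤ (K + 1) * (A ^ K * (2 * K + 2) ^ (2 ^ K)) * (2 ^ E * (N:ℝ) ^ (1/2:ℝ)) / N := by gcongr
      _ = CK * (N:ℝ) ^ (1/2:ℝ) / N := by rw [hCK]; ring
      _ ≤ δ := by
          rw [div_le_iff₀ hN0]
          rw [div_le_iff₀ hδ] at hb3
          nth_rewrite 2 [hNN]
          have : 0 ≤ (N:ℝ) ^ (1/2:ℝ) := by positivity
          nlinarith
  · intro ρ hρ hρ1
    have hρ0 : 0 < ρ := lt_of_lt_of_le (by positivity) hρ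
    constructor
    · refine le_trans ?_ hMq
      have h1 : ((N:ℝ) ^ (-(ω * c1 / 8)))^3 ≤ ρ^3 := pow_le_pow_left₀ (by positivity) hρ 3
      have h2 : ((N:ℝ) ^ (-(ω * c1 / 8)))^3 = (N:ℝ) ^ (-(3 * (ω * c1 / 8))) := by
        rw [← Real.rpow_natCast, ← Real.rpow_mul hN0.le]; congr 1; push_cast; ring
      rw [h2] at h1
      calc 1 / ρ^3 ≤ 1 / (N:ℝ) ^ (-(3 * (ω * c1 / 8))) := by gcongr
        _ = (N:ℝ) ^ (3 * (ω * c1 / 8)) := by rw [Real.rpow_neg hN0.le, one_div, inv_inv]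
        _ ≤ q := by
            rw [hq]
            apply Real.rpow_le_rpow_of_exponent_le hN1'
            nlinarith [mul_pos hω hc10]
    · have h1 : (M:ℝ) ^ (-ω) ≤ ρ := by
        calc (M:ℝ) ^ (-ω) ≤ q ^ (-ω) := Real.rpow_le_rpow_of_nonpos (by linarith) hMq (by linarith)
          _ = (N:ℝ) ^ (-(ω * c1)) := by
              rw [hq, ← Real.rpow_mul hN0.le]; congr 1; ring
          _ ≤ (N:ℝ) ^ (-(ω * c1 / 8)) := Real.rpow_le_rpow_of_exponent_le hN1' (by nlinarith [mul_pos hω hc10])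
          _ ≤ ρ := hρ
      have h2 : (M:ℝ)^4 * (N:ℝ) ^ (-ω) ≤ 16 * ρ := by
        calc (M:ℝ)^4 * (N:ℝ) ^ (-ω) ≤ 16 * (N:ℝ) ^ (ω/2) * (N:ℝ) ^ (-ω) := by
              have : (M:ℝ)^4 ≤ 16 * (N:ℝ) ^ (ω/2) := by linarith
              gcongr
          _ = 16 * (N:ℝ) ^ (ω/2 + -ω) := by rw [mul_assoc, ← Real.rpow_add hN0]
          _ ≤ 16 * (N:ℝ) ^ (-(ω * c1 / 8)) := by
              apply mul_le_mul_of_nonneg_left (Real.rpow_le_rpow_of_exponent_le hN1' _) (by norm_num)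
              nlinarith [mul_pos hω hc10]
          _ ≤ 16 * ρ := by gcongr
      linarith

end Pool.Agent.D0H53.CL
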