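import Mathlib
import Pool.Agent.D0H53.CL.C10

/-! The characteristic function of the normalised increments in a short window. -/

set_option autoImplicit false

open Filter Topology
open Pool.Agent.H383 Pool.Agent.H383.AP Pool.Agent.H383.Gauss Pool.Agent.H383.Gen Pool.Agent.H425R3.JD Pool.Agent.N48.Ann

namespace Pool.Agent.D0H53.CL

lemma exp_I_sub_le (x y : ℝ) : ‖Complex.exp ((x:ℂ) * Complex.I) - Complex.exp (Complex.I * (y:ℂ))‖ ≤ |x - y| := by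
  have e0 : Complex.I * ((y : ℝ) : ℂ) = ((y : ℝ) : ℂ) * Complex.I := mul_comm _ _
  rw [e0]
  have e1 : Complex.exp (((x : ℝ) : ℂ) * Complex.I) - Complex.exp (((y : ℝ) : ℂ) * Complex.I) =
      Complex.exp (((y : ℝ) : ℂ) * Complex.I) * (Complex.exp (Complex.I * ((x - y : ℝ) : ℂ)) - 1) := by
    rw [mul_sub, ← Complex.exp_add, mul_one]
    congr 2
    push_cast; ring
  rw [e1, norm_mul, Complex.norm_exp_ofReal_mul_I, one_mul]
  have := Real.norm_exp_I_mul_ofReal_sub_one_le (x := x - y)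
  rw [Real.norm_eq_abs] at this
  exact this

lemma cm_exp_close (x y : ℕ → ℝ) (N : ℕ) {A : ℝ} (hA : 0 ≤ A) (h : ∑ n ∈ Finset.range N, (x n - y n)^2 ≤ A^2 * N) :
    ‖cm (fun n => Complex.exp ((x n : ℂ) * Complex.I)) N - cm (fun n => Complex.exp (Complex.I * (y n : ℂ))) N‖ ≤ A := by
  refine (norm_cm_sub_le _ _ N).trans ?_
  refine (rm_mono (fun n => exp_I_sub_le (x n) (y n)) N).trans ?_
  unfold rm
  rcases Nat.eq_zero_or_pos N with h0 | h0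
  · subst h0; simp; exact hA
  have hN : (0:ℝ) < N := by exact_mod_cast h0
  rw [div_le_iff₀ hN]
  have h1 : (∑ n ∈ Finset.range N, |x n - y n|)^2 ≤ (A * N)^2 := by
    have h2 := Finset.sum_mul_sq_le_sq_mul_sq (Finset.range N) (fun _ => (1:ℝ)) (fun n => |x n - y n|)
    simp only [one_mul, one_pow, Finset.sum_const, Finset.card_range, nsmul_eq_mul, mul_one, sq_abs] at h2
    calc _ ≤ (N:ℝ) * ∑ n ∈ Finset.range N, (x n - y n)^2 := h2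
      _ ≤ N * (A^2 * N) := by gcongr
      _ = _ := by ring
  exact le_of_sq_le_sq h1 (by positivity)
where
  le_of_sq_le_sq {a b : ℝ} (h : a^2 ≤ b^2) (hb : 0 ≤ b) : a ≤ b := by
    exact (abs_le_of_sq_le_sq' h hb).2

open Classical in
/-- the mean of the low part -/
lemma low_mean (s0 : ℝ) {κ : ℝ} (hκ : 0 < κ) : ∃ M1 : ℕ, ∀ M0 : ℕ, M1 ≤ M0 → 1 ≤ M0 → ∀ p : ℕ, 5 ≤ p →
    ∀ L : ℂ, HasMean (fun n : ℕ => Complex.exp (((s0 * En ((p:ℝ) + n) : ℝ) : ℂ) * Complex.I)) L →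
    ∀ {d : ℕ} (D M : ℕ) (ρ σ : ℝ) (u : Fin (d+1) → ℝ) (s : Fin d → ℝ), M0^2 ≤ D → M0 ≤ M →
    ‖mn (exC (Zf D M M0 p ρ σ u s0 s) 1 Complex.I ((Finset.Icc 1 (M^2)).filter (fun m => ∀ q ∈ QD D M, ¬ InC q m))) - L‖ ≤ κ := by
  obtain ⟨ω, hω, C, hC, N1, hA⟩ := Pool.Agent.N48.AnnW.ap_quantW (E := En) Pool.Agent.H452R2.Win.ag_Bdw Circ.ag_zero Circ.wg_Wt
    Pool.Agent.H452R2.Win.En_SandW (α := 1) one_pos (ε := 1) one_pos
  obtain ⟨M1, hM1⟩ : ∃ M1 : ℕ, ∀ M : ℕ, M1 ≤ M → 2 * (s0^2 + 1) * C / κ^2 ≤ (M:ℝ) ^ ω := by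
    have : Tendsto (fun N : ℕ => (N:ℝ) ^ ω) atTop atTop :=
      (tendsto_rpow_atTop hω).comp tendsto_natCast_atTop_atTop
    exact (eventually_atTop.mp (this.eventually_ge_atTop _))
  refine ⟨M1, ?_⟩
  intro M0 hM0 hM01 p hp L hL d D M ρ σ u s hD hM
  obtain ⟨T, hT⟩ : ∃ T, T = (Finset.Icc 1 (M^2)).filter (fun m => ∀ q ∈ QD D M, ¬ InC q m) := ⟨_, rfl⟩
  have hmean := UC_hasMean (exC_UC_top (Z := Zf D M M0 p ρ σ u s0 s) (α := 1) (T := T) Complex.I)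
  rw [← hT]
  have hM0r : (1:ℝ) ≤ M0 := by exact_mod_cast hM01
  have hM00 : (0:ℝ) < M0 := by linarith
  rw [norm_sub_rev]
  apply mean_close hL hmean
  obtain ⟨N2, hN2⟩ : ∃ N2 : ℕ, ∀ N : ℕ, N2 ≤ N → (M0:ℝ)^4 * (M0:ℝ) ^ ω ≤ (N:ℝ) ^ ω := by
    have : Tendsto (fun N : ℕ => (N:ℝ) ^ ω) atTop atTop :=
      (tendsto_rpow_atTop hω).comp tendsto_natCast_atTop_atTop
    exact (eventually_atTop.mp (this.eventually_ge_atTop _))
  obtain ⟨N3, hN3⟩ : ∃ N3 : ℕ, (p:ℝ) ^ (1/2 + 1:ℝ) ≤ N3 := ⟨_, Nat.le_ceil _⟩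
  refine ⟨max (max N1 N2) (max N3 (2 * (M0 + 1))), ?_⟩
  intro N hN
  have hb2 := hN2 N (by omega)
  have hNN3 : (N3:ℝ) ≤ N := by
    have : N3 ≤ N := by omega
    exact_mod_cast this
  have hN0 : (0:ℝ) < N := by
    have : 0 < N := by omega
    exact_mod_cast this
  have hMN : 2 * ((M0:ℝ) + 1) ≤ min 1 1 * N := by
    rw [min_self, one_mul]
    have : 2 * (M0 + 1) ≤ N := by omega
    exact_mod_cast this
  have hp4 : (4:ℝ) ≤ p := by exact_mod_cast (by omega : 4 ≤ p)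
  have h1 := hA M0 hM01 N (by omega) hMN p hp4 (hN3.trans hNN3)
  simp only [mul_one] at h1
  have hexC : exC (Zf D M M0 p ρ σ u s0 s) 1 Complex.I T = fun n : ℕ => Complex.exp (Complex.I * ((s0 * U Circ.ag (3 * Real.pi/4) ((p:ℝ) + n) M0 : ℝ) : ℂ)) := by
    funext n
    unfold exC
    rw [hT, SC_low hD hM]
  rw [hexC]
  apply cm_exp_close (fun n : ℕ => s0 * En ((p:ℝ) + n)) (fun n : ℕ => s0 * U Circ.ag (3 * Real.pi/4) ((p:ℝ) + n) M0) N hκ.le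
  have e1 : ∑ n ∈ Finset.range N, (s0 * En ((p:ℝ) + n) - s0 * U Circ.ag (3 * Real.pi/4) ((p:ℝ) + n) M0)^2 =
      s0^2 * ∑ n ∈ Finset.range N, (En ((p:ℝ) + n) - U Circ.ag (3 * Real.pi/4) ((p:ℝ) + n) M0)^2 := by
    rw [Finset.mul_sum]
    apply Finset.sum_congr rfl
    intro n _
    ring
  rw [e1]
  have e2 : (M0:ℝ)^4 * (N:ℝ) ^ (-ω) ≤ (M0:ℝ) ^ (-ω) := by
    rw [Real.rpow_neg hN0.le, Real.rpow_neg hM00.le, ← div_eq_mul_inv, div_le_iff₀ (by positivity), ← div_eq_inv_mul, le_div_iff₀ (by positivity)]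
    exact hb2
  have e3 : 2 * (s0^2 + 1) * C * (M0:ℝ) ^ (-ω) ≤ κ^2 := by
    have := hM1 M0 hM0
    rw [div_le_iff₀ (by positivity)] at this
    rw [Real.rpow_neg hM00.le, ← div_eq_mul_inv, div_le_iff₀ (by positivity)]
    linarith
  calc s0^2 * ∑ n ∈ Finset.range N, (En ((p:ℝ) + n) - U Circ.ag (3 * Real.pi/4) ((p:ℝ) + n) M0)^2
      ≤ s0^2 * (C * ((M0:ℝ) ^ (-ω) + (M0:ℝ)^4 * (N:ℝ) ^ (-ω)) * N) := mul_le_mul_of_nonneg_left h1 (sq_nonneg _)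
    _ ≤ (s0^2 + 1) * (C * ((M0:ℝ) ^ (-ω) + (M0:ℝ) ^ (-ω)) * N) := by gcongr; linarith
    _ = (2 * (s0^2 + 1) * C * (M0:ℝ) ^ (-ω)) * N := by ring
    _ ≤ κ^2 * N := by gcongr

lemma exp_neg_lip {a b : ℝ} (ha : 0 ≤ a) (hb : 0 ≤ b) : |Real.exp (-a) - Real.exp (-b)| ≤ |a - b| := by
  wlog h : a ≤ b generalizing a b
  · rw [abs_sub_comm, abs_sub_comm a b]
    exact this hb ha (le_of_not_ge h)
  have h1 : Real.exp (-b) = Real.exp (-a) * Real.exp (-(b-a)) := by rw [← Real.exp_add]; congr 1; ring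
  have h2 : 1 - (b - a) ≤ Real.exp (-(b-a)) := by
    have := Real.add_one_le_exp (-(b-a)); linarith
  have h3 : Real.exp (-a) ≤ 1 := by rw [Real.exp_le_one_iff]; linarith
  have h4 : 0 < Real.exp (-a) := Real.exp_pos _
  have h5 : Real.exp (-b) ≤ Real.exp (-a) := Real.exp_le_exp.mpr (by linarith)
  rw [abs_of_nonneg (by linarith), abs_of_nonpos (by linarith), h1]
  have h6 : Real.exp (-a) * (1 - Real.exp (-(b-a))) ≤ 1 * (b - a) := by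
    apply mul_le_mul h3 (by linarith) _ (by norm_num)
    have : Real.exp (-(b-a)) ≤ 1 := by rw [Real.exp_le_one_iff]; linarith
    linarith
  linarith

end Pool.Agent.D0H53.CL
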