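import Mathlib
import Pool.Agent.D0H53.CL.C11

/-! Limit of the characteristic function. -/

set_option autoImplicit false

open Filter Topology
open Pool.Agent.H383 Pool.Agent.H383.AP Pool.Agent.H383.Gauss Pool.Agent.H383.Gen Pool.Agent.H425R3.JD Pool.Agent.N48.Ann

namespace Pool.Agent.D0H53.CL

lemma inv_sig {ρ σ : ℝ} (hρ : 0 < ρ) (hρ1 : ρ ≤ 1) (hσ : 0 < σ) (h : ρ ≤ σ^2) : 1 / σ ≤ 1 / ρ^3 := by
  rw [div_le_div_iff₀ hσ (by positivity), one_mul, one_mul]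
  have h1 : ρ^3 ≤ ρ^2 * 1 := by
    rw [pow_succ]; gcongr
  have h2 : ρ^2 ≤ ρ * 1 := by
    rw [pow_two]; gcongr
  by_contra hcon
  push Not at hcon
  nlinarith

/-- **the characteristic function of the normalised increments in a short window** -/
theorem char_lim {ε : ℝ} (hε : 0 < ε) {d : ℕ} {u : Fin (d+1) → ℝ} (hu : Monotone u) (s0 : ℝ) (s : Fin d → ℝ) {L : ℂ}
    (hL : ∀ p : ℕ, 5 ≤ p → HasMean (fun n : ℕ => Complex.exp (((s0 * En ((p:ℝ) + n) : ℝ) : ℂ) * Complex.I)) L) (hL1 : ‖L‖ ≤ 1)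
    {η : ℝ} (hη : 0 < η) :
    ∃ c : ℝ, 0 < c ∧ ∃ N0 : ℕ, ∀ N : ℕ, N0 ≤ N → ∀ ρ : ℝ, (N:ℝ) ^ (-c) ≤ ρ → ρ ≤ c → ∀ p : ℕ, 5 ≤ p → ((p:ℝ) + 1) ^ (1/2 + ε) ≤ N →
    ‖cm (fun n : ℕ => Complex.exp (((Wd p ρ (sgm ρ) u s0 s n : ℝ) : ℂ) * Complex.I)) N -
      L * ((Real.exp (-((∑ i, (s i)^2 * (u i.succ - u i.castSucc)) / 2)) : ℝ) : ℂ)‖ ≤ η := by
  classical
  obtain ⟨κ, hκ⟩ : ∃ κ : ℝ, κ = min 1 (η / 8) := ⟨_, rfl⟩
  have hκ0 : 0 < κ := by rw [hκ]; positivity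
  have hκ1 : κ ≤ 1 := by rw [hκ]; exact min_le_left _ _
  have hκη : κ ≤ η / 8 := by rw [hκ]; exact min_le_right _ _
  obtain ⟨V, hV⟩ : ∃ V : ℝ, V = ∑ i, (s i)^2 * (u i.succ - u i.castSucc) := ⟨_, rfl⟩
  have hV0 : 0 ≤ V := by
    rw [hV]
    apply Finset.sum_nonneg
    intro i _
    have := hu (Fin.castSucc_lt_succ (i := i)).le
    exact mul_nonneg (sq_nonneg _) (by linarith)
  rw [← hV]
  obtain ⟨ω, hω, hω1, C, hC, ρ1, hρ1, hρ1', N1, hms⟩ := ms_model hε u s0 s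
  -- M0
  obtain ⟨M1, hM1⟩ := low_mean s0 hκ0
  obtain ⟨M2, hM2⟩ : ∃ M2 : ℕ, ∀ M : ℕ, M2 ≤ M → 8 * C / κ^2 ≤ (M:ℝ) ^ ω := by
    have : Tendsto (fun N : ℕ => (N:ℝ) ^ ω) atTop atTop :=
      (tendsto_rpow_atTop hω).comp tendsto_natCast_atTop_atTop
    exact (eventually_atTop.mp (this.eventually_ge_atTop _))
  obtain ⟨M0, hM0⟩ : ∃ M0, M0 = max (max M1 M2) 1 := ⟨_, rfl⟩
  have hM0a : M1 ≤ M0 := by omega
  have hM0b : M2 ≤ M0 := by omega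
  have hM0c : 1 ≤ M0 := by omega
  have hM00 : (0:ℝ) < M0 := by exact_mod_cast hM0c
  have hCM0 : C * (M0:ℝ) ^ (-ω) ≤ κ^2 / 8 := by
    have := hM2 M0 hM0b
    rw [div_le_iff₀ (by positivity)] at this
    rw [Real.rpow_neg hM00.le, ← div_eq_mul_inv, div_le_iff₀ (by positivity)]
    linarith
  -- K
  obtain ⟨v, hv⟩ : ∃ v : ℝ, v = V + 1 := ⟨_, rfl⟩
  have hv0 : 0 < v := by linarith
  obtain ⟨β, hβ⟩ : ∃ β : ℝ, β = |s0| * ∑ m ∈ Finset.Icc 1 (M0^2), |Circ.ag m| := ⟨_, rfl⟩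
  obtain ⟨K, hKe, hK⟩ : ∃ K : ℕ, Even K ∧ 4 * Real.exp (4 * v + 2 * β) * (1/2)^K ≤ κ := by
    have h1 : Tendsto (fun n : ℕ => 4 * Real.exp (4 * v + 2 * β) * ((1/2:ℝ))^n) atTop (𝓝 (4 * Real.exp (4 * v + 2 * β) * 0)) :=
      (tendsto_pow_atTop_nhds_zero_of_lt_one (by norm_num) (by norm_num)).const_mul _
    rw [mul_zero] at h1
    obtain ⟨n0, hn0⟩ := eventually_atTop.mp (h1.eventually (gt_mem_nhds hκ0))
    exact ⟨2 * n0, even_two_mul n0, (hn0 (2 * n0) (by omega)).le⟩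
  -- constants
  obtain ⟨A, hA, hbC⟩ := bC_total u s0 s
  obtain ⟨CB, hCB, hblock⟩ := Zi_block u s
  obtain ⟨CL, hCL, hlow⟩ := Zi_low u s
  obtain ⟨S0, hS0⟩ := exists_S (α := 1) one_pos
  obtain ⟨c1, hc1, hch⟩ := choice hω hω1 K M0 hA
  obtain ⟨N2, hN2⟩ := hch (min κ (κ^2 / (8 * C))) (by positivity)
  obtain ⟨b, hb⟩ : ∃ b : ℝ, b = min (1/2) (κ / v) := ⟨_, rfl⟩
  have hb0 : 0 < b := by rw [hb]; positivity
  have hb1 : b ≤ 1/2 := by rw [hb]; exact min_le_left _ _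
  have hbv : b * v ≤ κ := by
    have : b ≤ κ / v := by rw [hb]; exact min_le_right _ _
    rw [le_div_iff₀ hv0] at this
    exact this
  obtain ⟨δ, hδ⟩ : ∃ δ : ℝ, δ = min (κ^2 / (200 * C)) (min (κ / (4 * CL)) (b / CB)) := ⟨_, rfl⟩
  have hδ0 : 0 < δ := by rw [hδ]; positivity
  have hδ1 : C * δ ≤ κ^2 / 200 := by
    have : δ ≤ κ^2 / (200 * C) := by rw [hδ]; exact min_le_left _ _
    rw [le_div_iff₀ (by positivity)] at this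
    linarith
  have hδ2 : CL * δ ≤ κ / 4 := by
    have : δ ≤ κ / (4 * CL) := by rw [hδ]; exact (min_le_right _ _).trans (min_le_left _ _)
    rw [le_div_iff₀ (by positivity)] at this
    linarith
  have hδ3 : CB * δ ≤ b := by
    have : δ ≤ b / CB := by rw [hδ]; exact (min_le_right _ _).trans (min_le_right _ _)
    rw [le_div_iff₀ hCB] at this
    linarith
  obtain ⟨ρ2, hρ2, hρ2', hsr⟩ := small_rho hδ0
  obtain ⟨ρ3, hρ3, hρ3', hvar⟩ := var_lim hu s (δ := κ/4) (by positivity)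
  obtain ⟨B0, hB0⟩ : ∃ B0 : ℕ, B0 = M0^2 + S0.sup id + 1 := ⟨_, rfl⟩
  have hB00 : (0:ℝ) < B0 := by
    have : 0 < B0 := by omega
    exact_mod_cast this
  obtain ⟨c, hc⟩ : ∃ c : ℝ, c = min (min c1 (1 / B0)) (min ρ1 (min ρ2 ρ3)) := ⟨_, rfl⟩
  have hc0 : 0 < c := by rw [hc]; positivity
  have hcc1 : c ≤ c1 := by rw [hc]; exact (min_le_left _ _).trans (min_le_left _ _)
  have hcB : c ≤ 1 / B0 := by rw [hc]; exact (min_le_left _ _).trans (min_le_right _ _)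
  have hcρ1 : c ≤ ρ1 := by rw [hc]; exact (min_le_right _ _).trans (min_le_left _ _)
  have hcρ2 : c ≤ ρ2 := by rw [hc]; exact (min_le_right _ _).trans ((min_le_right _ _).trans (min_le_left _ _))
  have hcρ3 : c ≤ ρ3 := by rw [hc]; exact (min_le_right _ _).trans ((min_le_right _ _).trans (min_le_right _ _))
  refine ⟨c, hc0, max (max N1 N2) 1, ?_⟩
  intro N hN ρ hρl hρu p hp hpN
  have hNN1 : N1 ≤ N := by omega
  have hNN2 : N2 ≤ N := by omega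
  have hN1 : 1 ≤ N := by omega
  have hN1' : (1:ℝ) ≤ N := by exact_mod_cast hN1
  have hN0 : (0:ℝ) < N := by linarith
  have hρ0 : 0 < ρ := lt_of_lt_of_le (by positivity) hρl
  have hρ10 : ρ ≤ 1/10 := hρu.trans (hcρ2.trans hρ2')
  have hρ1'' : ρ ≤ 1 := by linarith
  have hρl1 : (N:ℝ) ^ (-c1) ≤ ρ := le_trans (Real.rpow_le_rpow_of_exponent_le hN1' (by linarith)) hρl
  obtain ⟨M, hMa, hMb, hMc, hMd, hMe, hMf, hMg⟩ := hN2 N hNN2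
  obtain ⟨hMρ, hMω⟩ := hMg ρ hρl1 hρ1''
  obtain ⟨D, hD⟩ : ∃ D : ℕ, D = ⌈1 / ρ⌉₊ := ⟨_, rfl⟩
  have hDl : 1 / ρ ≤ D := by rw [hD]; exact Nat.le_ceil _
  have hρinv : 1 ≤ 1 / ρ := by rw [one_le_div hρ0]; exact hρ1''
  have hDu : (D:ℝ) ≤ 2 / ρ := by
    have := Nat.ceil_lt_add_one (show 0 ≤ 1 / ρ by positivity)
    rw [← hD] at this
    have e : 2 / ρ = 1 / ρ + 1 / ρ := by ring
    rw [e]; linarith
  have hDB : B0 ≤ D := by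
    have h1 := hρu.trans hcB
    rw [le_div_iff₀ hB00] at h1
    have h2 : (B0:ℝ) ≤ 1 / ρ := by rw [le_div_iff₀ hρ0]; linarith
    exact_mod_cast h2.trans hDl
  have hDM0 : M0^2 ≤ D := by omega
  have hD1 : 1 ≤ D := by omega
  have hQ : ∀ q ∈ QD D M, Squarefree q ∧ q ∉ S0 := by
    intro q hq
    rw [mem_QD] at hq
    refine ⟨hq.2, fun h => ?_⟩
    have := Finset.le_sup (f := id) h
    simp only [id] at this
    omega
  obtain ⟨σ, hσ⟩ : ∃ σ, σ = sgm ρ := ⟨_, rfl⟩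
  have hσ0 : 0 < σ := by rw [hσ]; exact sgm_pos hρ0 hρ10
  obtain ⟨r1, r2, r3, r4⟩ := hsr ρ hρ0 (hρu.trans hcρ2)
  rw [← hσ] at r1 r2 r3 r4
  rw [← hσ]
  have hσM : 1 / σ ≤ M := by
    refine le_trans ?_ hMρ
    exact inv_sig hρ0 hρ1'' hσ0 r1
  obtain ⟨T, hT⟩ : ∃ T, T = Finset.Icc 1 (M^2) := ⟨_, rfl⟩
  obtain ⟨Z, hZ⟩ : ∃ Z, Z = Zf D M M0 p ρ σ u s0 s := ⟨_, rfl⟩
  -- mean square
  have hms1 := hms N hNN1 M0 M D hM0c hMb hDM0 hMc hMd ρ σ hρ0 (hρu.trans hcρ1) hσ0 hMρ p hp hpN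
  rw [← hT, ← hZ] at hms1
  have hms2 : ∑ n ∈ Finset.range N, (Wd p ρ σ u s0 s n - SC Z 1 T n)^2 ≤ κ^2 * N := by
    refine hms1.trans ?_
    have a1 : C * ((M0:ℝ)^4 * (N:ℝ) ^ (-ω)) ≤ κ^2 / 8 := by
      have := hMe.trans (min_le_right _ _)
      rw [le_div_iff₀ (by positivity)] at this
      linarith
    have a2 : C * (((M:ℝ) ^ (-ω) + (M:ℝ)^4 * (N:ℝ) ^ (-ω)) / σ^2) ≤ 17 * (κ^2 / 200) := by
      have b1 : ((M:ℝ) ^ (-ω) + (M:ℝ)^4 * (N:ℝ) ^ (-ω)) / σ^2 ≤ 17 * ρ / σ^2 := by gcongr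
      have b2 : 17 * ρ / σ^2 ≤ 17 * δ := by
        rw [mul_div_assoc]; linarith
      calc _ ≤ C * (17 * δ) := mul_le_mul_of_nonneg_left (b1.trans b2) hC.le
        _ = 17 * (C * δ) := by ring
        _ ≤ _ := by linarith
    have a3 : C * (ρ / σ^2) ≤ κ^2 / 200 := (mul_le_mul_of_nonneg_left r2 hC.le).trans hδ1
    have a4 : C * (ρ ^ (9/5:ℝ) / σ^2 * (D:ℝ) ^ (11/25:ℝ)) ≤ κ^2 / 200 :=
      (mul_le_mul_of_nonneg_left (r3 D (Nat.cast_nonneg D) hDu) hC.le).trans hδ1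
    have hk2 : 0 < κ^2 := by positivity
    have e : C * N * (((M0:ℝ) ^ (-ω) + (M0:ℝ)^4 * (N:ℝ) ^ (-ω)) + ((M:ℝ) ^ (-ω) + (M:ℝ)^4 * (N:ℝ) ^ (-ω)) / σ^2 + ρ / σ^2 +
        ρ ^ (9/5:ℝ) / σ^2 * (D:ℝ) ^ (11/25:ℝ)) = (C * (M0:ℝ) ^ (-ω) + C * ((M0:ℝ)^4 * (N:ℝ) ^ (-ω)) +
        C * (((M:ℝ) ^ (-ω) + (M:ℝ)^4 * (N:ℝ) ^ (-ω)) / σ^2) + C * (ρ / σ^2) + C * (ρ ^ (9/5:ℝ) / σ^2 * (D:ℝ) ^ (11/25:ℝ))) * N := by ring
    rw [e]
    apply mul_le_mul_of_nonneg_right _ hN0.le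
    linarith
  have c1' := cm_exp_close (fun n : ℕ => Wd p ρ σ u s0 s n) (fun n : ℕ => SC Z 1 T n) N hκ0.le hms2
  have hexC : (fun n : ℕ => Complex.exp (Complex.I * ((SC Z 1 T n : ℝ) : ℂ))) = exC Z 1 Complex.I T := by
    funext n
    rfl
  rw [hexC] at c1'
  -- variance
  have hv1 := hvar ρ hρ0 (hρu.trans hcρ3) M hMρ p
  rw [← hσ, ← hV] at hv1
  have hv2 : ∑ m ∈ (Finset.Icc 1 (M^2)).filter (lowP D M), ‖Zi p ρ σ u s m‖^2 ≤ κ / 4 := by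
    have h1 := hlow p ρ σ hρ0 hσ0 D ((Finset.Icc 1 (M^2)).filter (lowP D M)) (by
      intro m hm
      rw [Finset.mem_filter, Finset.mem_Icc] at hm
      exact low_rep hm.1.1 hm.1.2 hm.2)
    refine h1.trans ?_
    calc CL * ρ ^ (9/5:ℝ) / σ^2 * (D:ℝ) ^ (11/25:ℝ) = CL * (ρ ^ (9/5:ℝ) / σ^2 * (D:ℝ) ^ (11/25:ℝ)) := by ring
      _ ≤ CL * δ := mul_le_mul_of_nonneg_left (r3 D (Nat.cast_nonneg D) hDu) hCL.le
      _ ≤ _ := hδ2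
  have hv3 : |vQ Z (QD D M) T - V| ≤ κ := by
    rw [hZ, hT]
    refine (vQ_close hv1 hv2).trans ?_
    linarith
  have hvQ0 : 0 ≤ vQ Z (QD D M) T := vQ_nonneg _ _ _
  have hvQv : vQ Z (QD D M) T ≤ v := by
    have := (abs_le.mp hv3).2
    linarith
  -- blocks
  have hbl : ∀ q ∈ QD D M, bC Z (T.filter (InC q)) ≤ b := by
    intro q hq
    have hq' := mem_QD.mp hq
    have e1 : bC Z (T.filter (InC q)) = bC (Zi p ρ σ u s) (T.filter (InC q)) := by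
      unfold bC
      apply Finset.sum_congr rfl
      intro m hm
      rw [Finset.mem_filter] at hm
      rw [hZ, Zf_high hq hm.2]
    rw [e1]
    have hqD : 1 / ρ ≤ (q:ℝ) := by
      refine hDl.trans ?_
      exact_mod_cast (by omega : D ≤ q)
    refine (hblock p ρ σ hρ0 hσ0 q (T.filter (InC q)) (by omega) (by
      intro m hm
      rw [Finset.mem_filter, hT, Finset.mem_Icc] at hm
      exact ⟨hm.1.1, hm.2⟩)).trans ?_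
    calc CB * ρ ^ (11/25:ℝ) / σ * (q:ℝ) ^ (-(51/100):ℝ) = CB * (ρ ^ (11/25:ℝ) / σ * (q:ℝ) ^ (-(51/100):ℝ)) := by ring
      _ ≤ CB * δ := mul_le_mul_of_nonneg_left (r4 q hqD) hCB.le
      _ ≤ b := hδ3
  have hTm : ∀ m ∈ T, 1 ≤ m ∧ m ≤ M^2 := by
    intro m hm
    rw [hT, Finset.mem_Icc] at hm
    exact hm
  have hβl : bC Z (T.filter (fun m => ∀ q ∈ QD D M, ¬ InC q m)) ≤ β := by
    rw [hZ, hT, hβ]
    exact bC_low
  have c2 := window_char (Z := Z) (T := T) hS0 hQ hTm hb0.le hbl hb1 hvQv hβl hKe hN1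
  have hbCt : 1 + bC Z T ≤ A * (M:ℝ)^3 := by
    rw [hZ, hT]
    exact hbC p ρ σ D M M0 hρ0 hρ1'' hσ0 hMa hσM
  have hbC0 : 0 ≤ bC Z T := bC_nonneg
  have c3 := (hMf (1 + bC Z T) (by linarith) hbCt).trans (min_le_left _ _)
  obtain ⟨mu, hmu⟩ : ∃ mu, mu = mn (exC Z 1 Complex.I (T.filter (fun m => ∀ q ∈ QD D M, ¬ InC q m))) := ⟨_, rfl⟩
  rw [← hmu] at c2
  have c4 : ‖mu - L‖ ≤ κ := by
    rw [hmu, hZ, hT]
    exact hM1 M0 hM0a hM0c p hp L (hL p hp) D M ρ σ u s hDM0 hMb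
  have c5 : |Real.exp (-(vQ Z (QD D M) T / 2)) - Real.exp (-(V / 2))| ≤ κ := by
    refine (exp_neg_lip (by positivity) (by positivity)).trans ?_
    have : vQ Z (QD D M) T / 2 - V / 2 = (1/2) * (vQ Z (QD D M) T - V) := by ring
    rw [this, abs_mul, abs_of_pos (by norm_num : (0:ℝ) < 1/2)]
    linarith [abs_nonneg (vQ Z (QD D M) T - V)]
  have c6 : ‖((Real.exp (-(vQ Z (QD D M) T / 2)) : ℝ) : ℂ) * mu - L * ((Real.exp (-(V / 2)) : ℝ) : ℂ)‖ ≤ 2 * κ := by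
    have e : ((Real.exp (-(vQ Z (QD D M) T / 2)) : ℝ) : ℂ) * mu - L * ((Real.exp (-(V / 2)) : ℝ) : ℂ) =
        ((Real.exp (-(vQ Z (QD D M) T / 2)) : ℝ) : ℂ) * (mu - L) +
        L * (((Real.exp (-(vQ Z (QD D M) T / 2)) - Real.exp (-(V / 2)) : ℝ)) : ℂ) := by
      push_cast; ring
    rw [e]
    refine (norm_add_le _ _).trans ?_
    rw [norm_mul, norm_mul, Complex.norm_real, Complex.norm_real, Real.norm_eq_abs, Real.norm_eq_abs, abs_of_pos (Real.exp_pos _)]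
    have h1 : Real.exp (-(vQ Z (QD D M) T / 2)) ≤ 1 := by
      rw [Real.exp_le_one_iff]; linarith
    have h2 : Real.exp (-(vQ Z (QD D M) T / 2)) * ‖mu - L‖ ≤ 1 * κ := mul_le_mul h1 c4 (norm_nonneg _) (by norm_num)
    have h3 : ‖L‖ * |Real.exp (-(vQ Z (QD D M) T / 2)) - Real.exp (-(V / 2))| ≤ 1 * κ :=
      mul_le_mul hL1 c5 (abs_nonneg _) (by norm_num)
    linarith
  have etot : cm (fun n : ℕ => Complex.exp (((Wd p ρ σ u s0 s n : ℝ) : ℂ) * Complex.I)) N - L * ((Real.exp (-(V / 2)) : ℝ) : ℂ) =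
      (cm (fun n : ℕ => Complex.exp (((Wd p ρ σ u s0 s n : ℝ) : ℂ) * Complex.I)) N - cm (exC Z 1 Complex.I T) N) +
      (cm (exC Z 1 Complex.I T) N - ((Real.exp (-(vQ Z (QD D M) T / 2)) : ℝ) : ℂ) * mu) +
      (((Real.exp (-(vQ Z (QD D M) T / 2)) : ℝ) : ℂ) * mu - L * ((Real.exp (-(V / 2)) : ℝ) : ℂ)) := by ring
  rw [etot]
  refine (norm_add₃_le).trans ?_
  linarith

end Pool.Agent.D0H53.CL
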