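import Mathlib

/-! Empirical measures, a uniform form of the Lévy continuity theorem, the limit measure. -/

set_option autoImplicit false

open MeasureTheory Filter Topology ProbabilityTheory
open scoped ENNReal RealInnerProductSpace

namespace Pool.Agent.D0H53.CL

section emp

variable {E : Type*} [MeasurableSpace E] [MeasurableSingletonClass E]

/-- empirical measure -/
noncomputable def emp (Y : ℕ → E) (S : Finset ℕ) : Measure E := ((S.card : ℝ≥0∞))⁻¹ • ∑ n ∈ S, Measure.dirac (Y n)

lemma emp_prob (Y : ℕ → E) {S : Finset ℕ} (hS : S.Nonempty) : IsProbabilityMeasure (emp Y S) := by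
  constructor
  unfold emp
  have h0 : (S.card : ℝ≥0∞) ≠ 0 := by
    rw [Nat.cast_ne_zero]; exact hS.card_pos.ne'
  rw [Measure.smul_apply, Measure.finsetSum_apply, smul_eq_mul]
  simp only [measure_univ, Finset.sum_const, nsmul_eq_mul, mul_one]
  exact ENNReal.inv_mul_cancel h0 (ENNReal.natCast_ne_top _)

lemma emp_integral {G : Type*} [NormedAddCommGroup G] [NormedSpace ℝ G] [CompleteSpace G] (Y : ℕ → E) (S : Finset ℕ) (g : E → G) :
    ∫ x, g x ∂(emp Y S) = ((S.card : ℝ))⁻¹ • ∑ n ∈ S, g (Y n) := by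
  unfold emp
  rw [integral_smul_measure, integral_finset_sum_measure]
  · simp only [integral_dirac, ENNReal.toReal_inv, ENNReal.toReal_natCast]
  · intro n _
    exact integrable_dirac (by simp [enorm_lt_top])

end emp

section levy

variable {E : Type*} [NormedAddCommGroup E] [InnerProductSpace ℝ E] [FiniteDimensional ℝ E]
  [MeasurableSpace E] [BorelSpace E]

/-- uniform form of the Lévy continuity theorem -/
theorem levy_unif {ι : Type*} {A : ℕ → Set ι} (hA : Antitone A) (m : ι → ProbabilityMeasure E) (μ₀ : ProbabilityMeasure E)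
    (h : ∀ t : E, ∀ η : ℝ, 0 < η → ∃ j, ∀ a ∈ A j, ‖charFun (m a : Measure E) t - charFun (μ₀ : Measure E) t‖ ≤ η)
    {f : E → ℝ} (hf : Continuous f) (hB : ∃ B, ∀ x, |f x| ≤ B) {η : ℝ} (hη : 0 < η) :
    ∃ j, ∀ a ∈ A j, |∫ x, f x ∂(m a : Measure E) - ∫ x, f x ∂(μ₀ : Measure E)| ≤ η := by
  by_contra hcon
  push Not at hcon
  choose a ha hlt using hcon
  have hT : Tendsto (fun j => m (a j)) atTop (𝓝 μ₀) := by
    rw [ProbabilityMeasure.tendsto_iff_tendsto_charFun]
    intro t
    rw [Metric.tendsto_atTop]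
    intro η' hη'
    obtain ⟨j, hj⟩ := h t (η'/2) (by positivity)
    refine ⟨j, fun i hi => ?_⟩
    rw [dist_eq_norm]
    have := hj (a i) (hA hi (ha i))
    linarith
  rw [ProbabilityMeasure.tendsto_iff_forall_integral_tendsto] at hT
  obtain ⟨B, hB⟩ := hB
  obtain ⟨F, hF⟩ : ∃ F : BoundedContinuousFunction E ℝ, ∀ x, F x = f x :=
    ⟨BoundedContinuousFunction.ofNormedAddCommGroup f hf B (fun x => by rw [Real.norm_eq_abs]; exact hB x), fun x => rfl⟩
  have h1 := hT F
  simp only [hF] at h1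
  rw [Metric.tendsto_atTop] at h1
  obtain ⟨j, hj⟩ := h1 η hη
  have h2 := hj j le_rfl
  rw [Real.dist_eq] at h2
  exact absurd (hlt j) (not_lt.mpr h2.le)

end levy

section limit

variable {d : ℕ}

/-- the map to Euclidean space -/
noncomputable def Phi (d : ℕ) (p : ℝ × (Fin d → ℝ)) : EuclideanSpace ℝ (Fin (d+1)) :=
  WithLp.toLp 2 (Fin.cons (α := fun _ => ℝ) p.1 p.2 : Fin (d+1) → ℝ)

lemma Phi_meas (d : ℕ) : Measurable (Phi d) := by
  unfold Phi
  refine Measurable.comp (by fun_prop) ?_
  rw [measurable_pi_iff]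
  intro i
  refine Fin.cases ?_ ?_ i
  · simp only [Fin.cons_zero]; exact measurable_fst
  · intro j
    simp only [Fin.cons_succ]
    exact (measurable_pi_apply j).comp measurable_snd

/-- the limit measure on Euclidean space -/
noncomputable def limM (ν : Measure ℝ) (g : Fin d → Measure ℝ) : Measure (EuclideanSpace ℝ (Fin (d+1))) :=
  (ν.prod (Measure.pi g)).map (Phi d)

lemma limM_prob (ν : Measure ℝ) (g : Fin d → Measure ℝ) [IsProbabilityMeasure ν] [∀ i, IsProbabilityMeasure (g i)] :
    IsProbabilityMeasure (limM ν g) :=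
  Measure.isProbabilityMeasure_map (Phi_meas d).aemeasurable

lemma limM_char (ν : Measure ℝ) (g : Fin d → Measure ℝ) [IsProbabilityMeasure ν] [∀ i, IsProbabilityMeasure (g i)]
    (t : EuclideanSpace ℝ (Fin (d+1))) :
    charFun (limM ν g) t = charFun ν (t 0) * ∏ i : Fin d, charFun (g i) (t i.succ) := by
  rw [charFun_apply]
  unfold limM
  rw [integral_map (Phi_meas d).aemeasurable (by
    apply Continuous.aestronglyMeasurable
    fun_prop)]
  have h1 : ∀ p : ℝ × (Fin d → ℝ), Complex.exp ((⟪Phi d p, t⟫ : ℝ) * Complex.I) =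
      Complex.exp (t 0 * p.1 * Complex.I) * ∏ i : Fin d, Complex.exp (t i.succ * p.2 i * Complex.I) := by
    intro p
    have h2 : (⟪Phi d p, t⟫ : ℝ) = t 0 * p.1 + ∑ i : Fin d, t i.succ * p.2 i := by
      rw [PiLp.inner_apply, Fin.sum_univ_succ]
      simp [Phi]
    rw [h2, ← Complex.exp_sum, ← Complex.exp_add]
    congr 1
    push_cast
    rw [add_mul, Finset.sum_mul]
  simp_rw [h1]
  rw [integral_prod_mul (fun x : ℝ => Complex.exp (t 0 * x * Complex.I)) (fun z : Fin d → ℝ => ∏ i : Fin d, Complex.exp (t i.succ * z i * Complex.I))]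
  rw [← charFun_apply_real]
  congr 1
  rw [integral_fintype_prod_eq_prod (fun (i : Fin d) (x : ℝ) => Complex.exp (t i.succ * x * Complex.I))]
  apply Finset.prod_congr rfl
  intro i _
  rw [charFun_apply_real]

lemma limM_integral (ν : Measure ℝ) (g : Fin d → Measure ℝ) {f : ℝ × (Fin d → ℝ) → ℝ} (hf : Continuous f) :
    ∫ x, f (x 0, fun i => x i.succ) ∂(limM ν g) = ∫ p, f p ∂(ν.prod (Measure.pi g)) := by
  unfold limM
  rw [integral_map (Phi_meas d).aemeasurable (by
    apply Continuous.aestronglyMeasurable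
    fun_prop)]
  congr 1

end limit

end Pool.Agent.D0H53.CL
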