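import Mathlib
import Pool.Agent.D0H53.CL.C12
import Pool.Agent.D0H53.CL.C13
import Pool.Agent.H383.Full3

/-! From the model to the surpluses. -/

set_option autoImplicit false

open MeasureTheory ProbabilityTheory Filter Topology
open Pool.Agent.H383 Pool.Agent.H383.AP Pool.Agent.H383.Gauss Pool.Agent.H383.Gen Pool.Agent.H425R3.JD Pool.Agent.N48.Ann
open scoped RealInnerProductSpace

namespace Pool.Agent.D0H53.CL

/-- the limit law at integer radii -/
lemma law_int : ∃ ν : ProbabilityMeasure ℝ, ∀ p : ℕ, 1 ≤ p → Law (fun n : ℕ => En ((p:ℝ) + n)) ν := by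
  obtain ⟨μ, g, -, -, -, -, -, h6, -⟩ := Circ.distr3 (a := 1) (b := 2) (c := 1) one_pos (fun n => by positivity)
  refine ⟨μ, ?_⟩
  intro p hp f hf hB
  obtain ⟨B, hB⟩ := hB
  rw [Metric.tendsto_atTop]
  intro η hη
  obtain ⟨N0, hN0⟩ := h6 f hf ⟨|B|, fun x => by
    have h1 := (hB x).trans (le_abs_self B)
    have h2 : |B| * 1 ≤ |B| * (1 + x^2) := mul_le_mul_of_nonneg_left (by nlinarith [sq_nonneg x]) (abs_nonneg _)
    linarith⟩ 1 one_pos (η/2) (by positivity)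
  obtain ⟨N1, hN1⟩ : ∃ N1 : ℕ, (((p-1 : ℕ)):ℝ) ^ (1/2 + 1:ℝ) ≤ N1 := ⟨_, Nat.le_ceil _⟩
  refine ⟨max N0 N1, fun N hN => ?_⟩
  have hNN : (N1:ℝ) ≤ N := by
    have : N1 ≤ N := by omega
    exact_mod_cast this
  have h := hN0 N (by omega) (p-1) (hN1.trans hNN)
  rw [Real.dist_eq]
  have e : rm (fun n : ℕ => f (En ((p:ℝ) + n))) N = (∑ n ∈ Finset.Ico (p-1) (p-1+N),
      f (Circ.Cx (1 * (n:ℝ)^2 + 2 * n + 1) / (1 * (n:ℝ)^2 + 2 * n + 1) ^ (1/4:ℝ))) / N := by
    rw [← Div.rm_Ico (fun n : ℕ => f (Circ.Cx (1 * (n:ℝ)^2 + 2 * n + 1) / (1 * (n:ℝ)^2 + 2 * n + 1) ^ (1/4:ℝ))) (p-1) N]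
    congr 1
    funext n
    congr 1
    rw [← Circ.En_quad (by positivity)]
    congr 1
    have : (1 * (((p - 1 + n : ℕ)):ℝ)^2 + 2 * ((p - 1 + n : ℕ):ℝ) + 1) = ((p:ℝ) + n)^2 := by
      push_cast [Nat.cast_sub hp]; ring
    rw [this, Real.sqrt_sq (by positivity)]
  rw [e]
  linarith

/-- surpluses in terms of the normalised error -/
lemma sur_close : ∃ C : ℝ, 0 < C ∧ ∀ n a b : ℝ, 5 ≤ n → |a| ≤ 1 → |b| ≤ 1 → a ≤ b →
    |sur (n + a) (n + b) / √n - (En (n + b) - En (n + a))| ≤ C * (|a| + |b|) := by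
  obtain ⟨C, hC, h⟩ := En_pt
  refine ⟨2 * C, by positivity, ?_⟩
  intro n a b hn ha hb hab
  have hn0 : 0 < n := by linarith
  have hsn : 0 < √n := Real.sqrt_pos.mpr hn0
  have key : ∀ x : ℝ, |x| ≤ 1 → |(√(n + x) / √n - 1) * En (n + x)| ≤ 2 * C * |x| := by
    intro x hx
    obtain ⟨x1, x2⟩ := abs_le.mp hx
    have h1 : |√(n + x) / √n - 1| ≤ |x| / n := by
      rcases le_total 0 x with h0 | h0
      · rw [abs_of_nonneg h0]
        exact sqrt_ratio hn0 (by linarith) le_rfl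
      · rw [abs_of_nonpos h0, abs_sub_comm]
        exact sqrt_ratio' (by linarith) (by linarith) (by linarith)
    have h2 := h (n + x) (by linarith)
    rw [abs_mul]
    calc |√(n + x) / √n - 1| * |En (n + x)| ≤ |x| / n * (C * (n + x)) := mul_le_mul h1 h2 (abs_nonneg _) (by positivity)
      _ ≤ |x| / n * (C * (2 * n)) := by gcongr; linarith
      _ = 2 * C * |x| := by field_simp
  obtain ⟨a1, a2⟩ := abs_le.mp ha
  obtain ⟨b1, b2⟩ := abs_le.mp hb
  rw [sur_eq (by linarith) (by linarith), ← sqrt_mul_En (show 0 < n + b by linarith), ← sqrt_mul_En (show 0 < n + a by linarith)]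
  have e : (√(n + b) * En (n + b) - √(n + a) * En (n + a)) / √n - (En (n + b) - En (n + a)) =
      (√(n + b) / √n - 1) * En (n + b) - (√(n + a) / √n - 1) * En (n + a) := by
    field_simp; ring
  rw [e]
  have k1 := key a ha
  have k2 := key b hb
  have := abs_sub ((√(n + b) / √n - 1) * En (n + b)) ((√(n + a) / √n - 1) * En (n + a))
  linarith

lemma shift_sum (h : ℕ → ℂ) (hh : ∀ n, ‖h n‖ ≤ 1) (N j : ℕ) :
    ‖∑ n ∈ Finset.range N, h (n + j) - ∑ n ∈ Finset.range N, h n‖ ≤ 2 * j := by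
  induction j with
  | zero => simp
  | succ j ih =>
    have e1 : ∑ n ∈ Finset.range N, h (n + (j + 1)) = ∑ n ∈ Finset.range N, h (n + j) + h (N + j) - h j := by
      have a1 := Finset.sum_range_succ (fun n => h (n + j)) N
      have a2 := Finset.sum_range_succ' (fun n => h (n + j)) N
      simp only [zero_add] at a2
      have a3 : ∑ n ∈ Finset.range N, h (n + 1 + j) = ∑ n ∈ Finset.range N, h (n + (j + 1)) := by
        apply Finset.sum_congr rfl
        intro n _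
        congr 1; ring
      rw [a3] at a2
      rw [a1] at a2
      rw [eq_sub_iff_add_eq]
      exact a2.symm
    have e2 : ∑ n ∈ Finset.range N, h (n + (j + 1)) - ∑ n ∈ Finset.range N, h n =
        (∑ n ∈ Finset.range N, h (n + j) - ∑ n ∈ Finset.range N, h n) + (h (N + j) - h j) := by rw [e1]; ring
    rw [e2]
    have h1 := norm_add_le (∑ n ∈ Finset.range N, h (n + j) - ∑ n ∈ Finset.range N, h n) (h (N + j) - h j)
    have h2 := norm_sub_le (h (N + j)) (h j)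
    have h3 := hh (N + j)
    have h4 := hh j
    push_cast
    linarith

lemma Ioc_range (h : ℕ → ℂ) (k N : ℕ) : ∑ n ∈ Finset.Ioc k (k + N), h n = ∑ n ∈ Finset.range N, h (k + 1 + n) := by
  have : Finset.Ioc k (k + N) = Finset.Ico (k+1) (k + 1 + N) := by
    ext a; rw [Finset.mem_Ioc, Finset.mem_Ico]; omega
  rw [this, Finset.sum_Ico_eq_sum_range]
  congr 2
  omega

/-- the normalised vector at the integer `n` -/
noncomputable def Yv {d : ℕ} (ρ : ℝ) (u : Fin (d+1) → ℝ) (n : ℕ) : ℝ × (Fin d → ℝ) :=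
  ((F n - Real.pi * (n:ℝ)^2) / √(n:ℝ), fun i => (sur (n + ρ * u i.castSucc) (n + ρ * u i.succ) / √(n:ℝ) -
    (lead (ρ * u i.succ) - lead (ρ * u i.castSucc))) / sgm ρ)

lemma inner_Yv {d : ℕ} (ρ : ℝ) (u : Fin (d+1) → ℝ) (n : ℕ) (t : EuclideanSpace ℝ (Fin (d+1))) :
    (⟪Phi d (Yv ρ u n), t⟫ : ℝ) = t 0 * En n + ∑ i : Fin d, t i.succ / sgm ρ *
      (sur (n + ρ * u i.castSucc) (n + ρ * u i.succ) / √(n:ℝ) - (lead (ρ * u i.succ) - lead (ρ * u i.castSucc))) := by
  rw [PiLp.inner_apply, Fin.sum_univ_succ]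
  simp only [Phi, Yv, Fin.cons_zero, Fin.cons_succ, En]
  congr 1
  apply Finset.sum_congr rfl
  intro i _
  simp
  ring

end Pool.Agent.D0H53.CL
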