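import Mathlib
import Pool.Agent.D0H53.CL.C14

/-! The limit theorem. -/

set_option autoImplicit false

open MeasureTheory ProbabilityTheory Filter Topology
open Pool.Agent.H383 Pool.Agent.H383.AP Pool.Agent.H383.Gauss Pool.Agent.H383.Gen Pool.Agent.H425R3.JD Pool.Agent.N48.Ann
open scoped RealInnerProductSpace

namespace Pool.Agent.D0H53.CL

/-- the surpluses against the normalised increments -/
lemma inner_close {d : ℕ} {u : Fin (d+1) → ℝ} (hu : Monotone u) (t : EuclideanSpace ℝ (Fin (d+1))) : ∃ C : ℝ, 0 < C ∧ ∃ ρ₀ : ℝ, 0 < ρ₀ ∧ ρ₀ ≤ 1/10 ∧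
    ∀ ρ : ℝ, 0 < ρ → ρ ≤ ρ₀ → ∀ p n : ℕ, 5 ≤ p →
    |(⟪Phi d (Yv ρ u (p + n)), t⟫ : ℝ) - Wd p ρ (sgm ρ) u (t 0) (fun i => t i.succ) n| ≤ C * √ρ := by
  obtain ⟨C, hC, h⟩ := sur_close
  obtain ⟨W, hW⟩ : ∃ W : ℝ, W = ∑ i : Fin (d+1), |u i| + 1 := ⟨_, rfl⟩
  have hW1 : 1 ≤ W := by
    rw [hW]
    have : 0 ≤ ∑ i : Fin (d+1), |u i| := Finset.sum_nonneg fun _ _ => abs_nonneg _
    linarith
  have hW0 : 0 < W := by linarith
  have hWi : ∀ i : Fin (d+1), |u i| ≤ W := by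
    intro i
    rw [hW]
    have := Finset.single_le_sum (f := fun i : Fin (d+1) => |u i|) (fun i _ => abs_nonneg _) (Finset.mem_univ i)
    linarith
  obtain ⟨L, hL⟩ : ∃ L : ℝ, L = ∑ i : Fin d, |t i.succ| := ⟨_, rfl⟩
  have hL0 : 0 ≤ L := by rw [hL]; positivity
  refine ⟨L * (C * (2 * W)) + 1, by positivity, 1 / (10 * W), by positivity, ?_, ?_⟩
  · rw [div_le_div_iff₀ (by positivity) (by norm_num)]
    linarith
  intro ρ hρ hρ0 p n hp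
  have hρW : ρ * (10 * W) ≤ 1 := by rw [le_div_iff₀ (by positivity)] at hρ0; exact hρ0
  have hρ10 : ρ ≤ 1/10 := by nlinarith
  have hσ := sgm_pos hρ hρ10
  have hsρ : 0 < √ρ := Real.sqrt_pos.mpr hρ
  have hρσ : ρ / sgm ρ ≤ √ρ := by
    rw [div_le_iff₀ hσ]
    have h1 : √ρ ≤ sgm ρ := by
      rw [Real.sqrt_le_left hσ.le, sgm_sq hρ (by linarith)]
      have := log_ge hρ hρ10
      nlinarith
    calc ρ = √ρ * √ρ := (Real.mul_self_sqrt hρ.le).symm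
      _ ≤ √ρ * sgm ρ := by gcongr
  have hn5 : (5:ℝ) ≤ ((p + n : ℕ):ℝ) := by exact_mod_cast (by omega : 5 ≤ p + n)
  have hui : ∀ i : Fin (d+1), |ρ * u i| ≤ ρ * W := by
    intro i
    rw [abs_mul, abs_of_pos hρ]
    exact mul_le_mul_of_nonneg_left (hWi i) hρ.le
  have hui1 : ∀ i : Fin (d+1), |ρ * u i| ≤ 1 := fun i => (hui i).trans (by linarith)
  rw [inner_Yv]
  unfold Wd
  have e0 : En ((p:ℝ) + n) = En ((p + n : ℕ):ℝ) := by push_cast; rfl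
  rw [e0]
  have e1 : ∀ x y : ℝ, x + y - (x + (∑ i : Fin d, t i.succ / sgm ρ * (En ((p:ℝ) + ρ * u i.succ + n) - En ((p:ℝ) + ρ * u i.castSucc + n) -
      (lead (ρ * u i.succ) - lead (ρ * u i.castSucc))))) = y - ∑ i : Fin d, t i.succ / sgm ρ * (En ((p:ℝ) + ρ * u i.succ + n) - En ((p:ℝ) + ρ * u i.castSucc + n) -
      (lead (ρ * u i.succ) - lead (ρ * u i.castSucc))) := by intro x y; ring
  rw [e1, ← Finset.sum_sub_distrib]
  refine (Finset.abs_sum_le_sum_abs _ _).trans ?_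
  have hterm : ∀ i : Fin d, |t i.succ / sgm ρ * (sur (((p + n : ℕ):ℝ) + ρ * u i.castSucc) (((p + n : ℕ):ℝ) + ρ * u i.succ) / √((p + n : ℕ):ℝ) -
      (lead (ρ * u i.succ) - lead (ρ * u i.castSucc))) - t i.succ / sgm ρ * (En ((p:ℝ) + ρ * u i.succ + n) - En ((p:ℝ) + ρ * u i.castSucc + n) -
      (lead (ρ * u i.succ) - lead (ρ * u i.castSucc)))| ≤ |t i.succ| * (C * (2 * W) * √ρ) := by
    intro i
    have a1 := h ((p + n : ℕ):ℝ) (ρ * u i.castSucc) (ρ * u i.succ) hn5 (hui1 _) (hui1 _)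
      (mul_le_mul_of_nonneg_left (hu (Fin.castSucc_lt_succ (i := i)).le) hρ.le)
    have e2 : (p:ℝ) + ρ * u i.succ + n = ((p + n : ℕ):ℝ) + ρ * u i.succ := by push_cast; ring
    have e3 : (p:ℝ) + ρ * u i.castSucc + n = ((p + n : ℕ):ℝ) + ρ * u i.castSucc := by push_cast; ring
    rw [e2, e3, ← mul_sub, abs_mul, abs_div, abs_of_pos hσ]
    have e4 : sur (((p + n : ℕ):ℝ) + ρ * u i.castSucc) (((p + n : ℕ):ℝ) + ρ * u i.succ) / √((p + n : ℕ):ℝ) -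
        (lead (ρ * u i.succ) - lead (ρ * u i.castSucc)) - (En (((p + n : ℕ):ℝ) + ρ * u i.succ) - En (((p + n : ℕ):ℝ) + ρ * u i.castSucc) -
        (lead (ρ * u i.succ) - lead (ρ * u i.castSucc))) = sur (((p + n : ℕ):ℝ) + ρ * u i.castSucc) (((p + n : ℕ):ℝ) + ρ * u i.succ) / √((p + n : ℕ):ℝ) -
        (En (((p + n : ℕ):ℝ) + ρ * u i.succ) - En (((p + n : ℕ):ℝ) + ρ * u i.castSucc)) := by ring
    rw [e4]
    have a2 := hui i.castSucc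
    have a3 := hui i.succ
    have a4 : |sur (((p + n : ℕ):ℝ) + ρ * u i.castSucc) (((p + n : ℕ):ℝ) + ρ * u i.succ) / √((p + n : ℕ):ℝ) -
        (En (((p + n : ℕ):ℝ) + ρ * u i.succ) - En (((p + n : ℕ):ℝ) + ρ * u i.castSucc))| ≤ C * (2 * W) * ρ := by
      refine a1.trans ?_
      calc C * (|ρ * u i.castSucc| + |ρ * u i.succ|) ≤ C * (ρ * W + ρ * W) := by gcongr
        _ = _ := by ring
    calc |t i.succ| / sgm ρ * _ ≤ |t i.succ| / sgm ρ * (C * (2 * W) * ρ) := mul_le_mul_of_nonneg_left a4 (by positivity)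
      _ = |t i.succ| * (C * (2 * W) * (ρ / sgm ρ)) := by ring
      _ ≤ _ := by gcongr
  calc _ ≤ ∑ i : Fin d, |t i.succ| * (C * (2 * W) * √ρ) := Finset.sum_le_sum fun i _ => hterm i
    _ = L * (C * (2 * W)) * √ρ := by rw [← Finset.sum_mul, hL]; ring
    _ ≤ _ := by nlinarith

/-- characteristic function of the empirical law in a window -/
theorem emp_char {ν : ProbabilityMeasure ℝ} (hν : ∀ p : ℕ, 1 ≤ p → Law (fun n : ℕ => En ((p:ℝ) + n)) ν)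
    {d : ℕ} {u : Fin (d+1) → ℝ} (hu : Monotone u) {ε : ℝ} (hε : 0 < ε) (t : EuclideanSpace ℝ (Fin (d+1))) {η : ℝ} (hη : 0 < η) :
    ∃ c : ℝ, 0 < c ∧ ∃ N0 : ℕ, ∀ N : ℕ, N0 ≤ N → ∀ k : ℕ, (k:ℝ) ^ (1/2 + ε) ≤ N → ∀ ρ : ℝ, (N:ℝ) ^ (-c) ≤ ρ → ρ ≤ c →
    ‖charFun (emp (fun n => Phi d (Yv ρ u n)) (Finset.Ioc k (k + N))) t -
      charFun (ν : Measure ℝ) (t 0) * ((Real.exp (-((∑ i : Fin d, (t i.succ)^2 * (u i.succ - u i.castSucc)) / 2)) : ℝ) : ℂ)‖ ≤ η := by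
  obtain ⟨C, hC, ρ₀, hρ₀, hρ₀', hcl⟩ := inner_close hu t
  obtain ⟨c1, hc1, N1, h1⟩ := char_lim (show 0 < ε/2 by positivity) hu (t 0) (fun i => t i.succ) (L := charFun (ν : Measure ℝ) (t 0))
    (fun p hp => (hν p (by omega)).char (t 0)) (norm_charFun_le_one _) (show 0 < η/3 by positivity)
  obtain ⟨N2, h2⟩ := win_exp hε
  obtain ⟨N3, hN3⟩ : ∃ N3 : ℕ, 24 / η ≤ N3 := ⟨_, Nat.le_ceil _⟩
  obtain ⟨c, hc⟩ : ∃ c : ℝ, c = min (min c1 ρ₀) ((η / (3 * C))^2) := ⟨_, rfl⟩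
  have hc0 : 0 < c := by rw [hc]; positivity
  have hcc1 : c ≤ c1 := by rw [hc]; exact (min_le_left _ _).trans (min_le_left _ _)
  have hcρ : c ≤ ρ₀ := by rw [hc]; exact (min_le_left _ _).trans (min_le_right _ _)
  have hcη : c ≤ (η / (3 * C))^2 := by rw [hc]; exact min_le_right _ _
  refine ⟨c, hc0, max (max N1 N2) (max N3 1), ?_⟩
  intro N hN k hk ρ hρl hρu
  have hN1 : 1 ≤ N := by omega
  have hN1' : (1:ℝ) ≤ N := by exact_mod_cast hN1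
  have hN0 : (0:ℝ) < N := by linarith
  have hρ0 : 0 < ρ := lt_of_lt_of_le (by positivity) hρl
  have hρl1 : (N:ℝ) ^ (-c1) ≤ ρ := le_trans (Real.rpow_le_rpow_of_exponent_le hN1' (by linarith)) hρl
  obtain ⟨Kk, hKk⟩ : ∃ Kk : ℕ, Kk = max k 4 := ⟨_, rfl⟩
  have hKp : (((Kk + 1 : ℕ):ℝ) + 1) ^ (1/2 + ε/2) ≤ N := by
    have := h2 N (by omega) k hk
    rw [← hKk] at this
    have e : ((Kk + 1 : ℕ):ℝ) + 1 = (Kk:ℝ) + 2 := by push_cast; ring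
    rw [e]; exact this
  have h3 := h1 N (by omega) ρ hρl1 (hρu.trans hcc1) (Kk + 1) (by omega) hKp
  obtain ⟨g, hg⟩ : ∃ g : ℕ → ℂ, g = fun n => Complex.exp ((⟪Phi d (Yv ρ u n), t⟫ : ℝ) * Complex.I) := ⟨_, rfl⟩
  have hg1 : ∀ n, ‖g n‖ ≤ 1 := by
    intro n
    rw [hg]
    simp only
    rw [Complex.norm_exp_ofReal_mul_I]
  have e1 : charFun (emp (fun n => Phi d (Yv ρ u n)) (Finset.Ioc k (k + N))) t = (∑ n ∈ Finset.range N, g (k + 1 + n)) / N := by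
    rw [charFun_apply, emp_integral, ← Ioc_range, Nat.card_Ioc, hg]
    rw [show k + N - k = N by omega, Complex.real_smul]
    push_cast
    rw [div_eq_inv_mul]
  have s1 : ‖(∑ n ∈ Finset.range N, g (k + 1 + n)) / N - (∑ n ∈ Finset.range N, g (Kk + 1 + n)) / N‖ ≤ η / 3 := by
    rw [← sub_div, norm_div, Complex.norm_natCast, div_le_iff₀ hN0, norm_sub_rev]
    obtain ⟨j, hj⟩ : ∃ j, j = Kk - k := ⟨_, rfl⟩
    have hj4 : j ≤ 4 := by omega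
    have hjj : Kk = k + j := by omega
    have := shift_sum (fun n => g (k + 1 + n)) (fun n => hg1 _) N j
    have e2 : ∑ n ∈ Finset.range N, g (Kk + 1 + n) = ∑ n ∈ Finset.range N, (fun n => g (k + 1 + n)) (n + j) := by
      apply Finset.sum_congr rfl
      intro n _
      simp only
      congr 1; omega
    rw [e2]
    refine this.trans ?_
    have hj4' : (j:ℝ) ≤ 4 := by exact_mod_cast hj4
    have h4 : 24 / η ≤ N := hN3.trans (by exact_mod_cast (by omega : N3 ≤ N))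
    rw [div_le_iff₀ hη] at h4
    linarith
  have s2 : ‖(∑ n ∈ Finset.range N, g (Kk + 1 + n)) / N - cm (fun n : ℕ => Complex.exp (((Wd ((Kk + 1 : ℕ):ℝ) ρ (sgm ρ) u (t 0) (fun i => t i.succ) n : ℝ) : ℂ) * Complex.I)) N‖ ≤ η / 3 := by
    have e2 : (∑ n ∈ Finset.range N, g (Kk + 1 + n)) / (N:ℂ) = cm (fun n => g (Kk + 1 + n)) N := rfl
    rw [e2]
    refine (norm_cm_sub_le _ _ N).trans ?_
    have h4 : ∀ n, ‖g (Kk + 1 + n) - Complex.exp (((Wd ((Kk + 1 : ℕ):ℝ) ρ (sgm ρ) u (t 0) (fun i => t i.succ) n : ℝ) : ℂ) * Complex.I)‖ ≤ η / 3 := by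
      intro n
      have a1 := exp_I_sub_le (⟪Phi d (Yv ρ u (Kk + 1 + n)), t⟫ : ℝ) (Wd ((Kk + 1 : ℕ):ℝ) ρ (sgm ρ) u (t 0) (fun i => t i.succ) n)
      rw [mul_comm Complex.I] at a1
      rw [hg]
      refine a1.trans ((hcl ρ hρ0 (hρu.trans hcρ) (Kk + 1) n (by omega)).trans ?_)
      have h5 : √ρ ≤ η / (3 * C) := by
        rw [Real.sqrt_le_left (by positivity)]
        exact hρu.trans hcη
      calc C * √ρ ≤ C * (η / (3 * C)) := by gcongr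
        _ = η / 3 := by field_simp
    exact (rm_mono h4 N).trans (rm_const_le (by positivity) N)
  rw [e1]
  calc _ = ‖((∑ n ∈ Finset.range N, g (k + 1 + n)) / (N:ℂ) - (∑ n ∈ Finset.range N, g (Kk + 1 + n)) / N) +
      ((∑ n ∈ Finset.range N, g (Kk + 1 + n)) / N - cm (fun n : ℕ => Complex.exp (((Wd ((Kk + 1 : ℕ):ℝ) ρ (sgm ρ) u (t 0) (fun i => t i.succ) n : ℝ) : ℂ) * Complex.I)) N) +
      (cm (fun n : ℕ => Complex.exp (((Wd ((Kk + 1 : ℕ):ℝ) ρ (sgm ρ) u (t 0) (fun i => t i.succ) n : ℝ) : ℂ) * Complex.I)) N -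
      charFun (ν : Measure ℝ) (t 0) * ((Real.exp (-((∑ i : Fin d, (t i.succ)^2 * (u i.succ - u i.castSucc)) / 2)) : ℝ) : ℂ))‖ := by
        congr 1; ring
    _ ≤ η / 3 + η / 3 + η / 3 := norm_add₃_le.trans (add_le_add (add_le_add s1 s2) h3)
    _ = η := by ring

/-- **the limit theorem** -/
theorem brown : ∃ ν : ProbabilityMeasure ℝ, ∀ (d : ℕ) (u : Fin (d+1) → ℝ), Monotone u → ∀ f : ℝ × (Fin d → ℝ) → ℝ, Continuous f → (∃ B, ∀ x, |f x| ≤ B) →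
    ∀ ε : ℝ, 0 < ε → ∀ η : ℝ, 0 < η → ∃ c : ℝ, 0 < c ∧ ∃ N0 : ℕ, ∀ N : ℕ, N0 ≤ N → ∀ k : ℕ, (k:ℝ) ^ (1/2 + ε) ≤ N →
    ∀ ρ : ℝ, (N:ℝ) ^ (-c) ≤ ρ → ρ ≤ c →
    |(∑ n ∈ Finset.Ioc k (k + N), f (Yv ρ u n)) / N -
      ∫ x, f x ∂((ν : Measure ℝ).prod (Measure.pi (fun i : Fin d => gaussianReal 0 (Real.toNNReal (u i.succ - u i.castSucc)))))| ≤ η := by
  obtain ⟨ν, hν⟩ := law_int
  refine ⟨ν, ?_⟩
  intro d u hu f hf hB ε hε η hη
  obtain ⟨μ₀, hμ₀⟩ : ∃ μ₀ : ProbabilityMeasure (EuclideanSpace ℝ (Fin (d+1))), (μ₀ : Measure _) =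
      limM (ν : Measure ℝ) (fun i : Fin d => gaussianReal 0 (Real.toNNReal (u i.succ - u i.castSucc))) :=
    ⟨⟨_, limM_prob _ _⟩, rfl⟩
  have hchar : ∀ t : EuclideanSpace ℝ (Fin (d+1)), charFun (μ₀ : Measure _) t =
      charFun (ν : Measure ℝ) (t 0) * ((Real.exp (-((∑ i : Fin d, (t i.succ)^2 * (u i.succ - u i.castSucc)) / 2)) : ℝ) : ℂ) := by
    intro t
    rw [hμ₀, limM_char]
    congr 1
    simp_rw [charFun_gaussianReal]
    rw [← Complex.exp_sum, Complex.ofReal_exp]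
    congr 1
    push_cast
    rw [Finset.sum_div, ← Finset.sum_neg_distrib]
    apply Finset.sum_congr rfl
    intro i _
    have h0 : 0 ≤ u i.succ - u i.castSucc := by
      have := hu (Fin.castSucc_lt_succ (i := i)).le
      linarith
    rw [← Complex.ofReal_sub, show ((Real.toNNReal (u i.succ - u i.castSucc) : NNReal) : ℂ) = (((Real.toNNReal (u i.succ - u i.castSucc) : NNReal) : ℝ) : ℂ) from rfl,
      Real.coe_toNNReal _ h0]
    push_cast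
    ring
  obtain ⟨A, hA⟩ : ∃ A : ℕ → Set {a : ℕ × ℕ × ℝ // 1 ≤ a.1}, A = fun (j : ℕ) => {a : {a : ℕ × ℕ × ℝ // 1 ≤ a.1} |
      j ≤ a.1.1 ∧ (a.1.2.1:ℝ) ^ (1/2 + ε) ≤ (a.1.1:ℝ) ∧
      (a.1.1:ℝ) ^ (-(1 / ((j:ℝ) + 1))) ≤ a.1.2.2 ∧ a.1.2.2 ≤ 1 / ((j:ℝ) + 1)} := ⟨_, rfl⟩
  have hAa : Antitone A := by
    intro i j hij a ha
    rw [hA] at ha ⊢
    obtain ⟨h1, h2, h3, h4⟩ := ha
    have hij' : (i:ℝ) ≤ j := by exact_mod_cast hij
    have hle : 1 / ((j:ℝ) + 1) ≤ 1 / ((i:ℝ) + 1) := by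
      apply one_div_le_one_div_of_le (by positivity); linarith
    have ha1 : (1:ℝ) ≤ a.1.1 := by exact_mod_cast a.2
    refine ⟨hij.trans h1, h2, le_trans ?_ h3, h4.trans hle⟩
    exact Real.rpow_le_rpow_of_exponent_le ha1 (by linarith)
  obtain ⟨m, hm⟩ : ∃ m : {a : ℕ × ℕ × ℝ // 1 ≤ a.1} → ProbabilityMeasure (EuclideanSpace ℝ (Fin (d+1))), ∀ a,
      (m a : Measure _) = emp (fun n => Phi d (Yv a.1.2.2 u n)) (Finset.Ioc a.1.2.1 (a.1.2.1 + a.1.1)) :=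
    ⟨fun a => ⟨_, emp_prob _ (by
      rw [Finset.nonempty_Ioc]
      have := a.2
      omega)⟩, fun a => rfl⟩
  obtain ⟨f', hf'⟩ : ∃ f' : EuclideanSpace ℝ (Fin (d+1)) → ℝ, f' = fun x => f (x 0, fun i => x i.succ) := ⟨_, rfl⟩
  have hf'c : Continuous f' := by rw [hf']; fun_prop
  obtain ⟨B, hB⟩ := hB
  have hchar' : ∀ t : EuclideanSpace ℝ (Fin (d+1)), ∀ η : ℝ, 0 < η → ∃ j, ∀ a ∈ A j,
      ‖charFun (m a : Measure _) t - charFun (μ₀ : Measure _) t‖ ≤ η := by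
    intro t η hη
    obtain ⟨c, hc, N0, h⟩ := emp_char hν hu hε t hη
    obtain ⟨j0, hj0⟩ := exists_nat_gt (1 / c)
    refine ⟨max j0 N0, fun a ha => ?_⟩
    rw [hA] at ha
    obtain ⟨h1, h2, h3, h4⟩ := ha
    have ha1 : (1:ℝ) ≤ a.1.1 := by exact_mod_cast a.2
    have hjc : 1 / ((((max j0 N0 : ℕ)):ℝ) + 1) ≤ c := by
      rw [div_le_iff₀ (by positivity)]
      rw [div_lt_iff₀ hc] at hj0
      have : (j0:ℝ) ≤ ((max j0 N0 : ℕ):ℝ) := by exact_mod_cast le_max_left _ _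
      nlinarith
    rw [hm, hchar]
    apply h a.1.1 ((le_max_right _ _).trans h1) a.1.2.1 h2 a.1.2.2 _ (h4.trans hjc)
    exact le_trans (Real.rpow_le_rpow_of_exponent_le ha1 (by linarith)) h3
  obtain ⟨j, hj⟩ := levy_unif hAa m μ₀ hchar' hf'c ⟨B, fun x => by rw [hf']; exact hB _⟩ hη
  refine ⟨1 / ((j:ℝ) + 1), by positivity, max j 1, ?_⟩
  intro N hN k hk ρ hρl hρu
  have h1 := hj ⟨(N, k, ρ), by simp only; omega⟩ (by
    rw [hA]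
    exact ⟨by simp only; omega, hk, hρl, hρu⟩)
  rw [hm, hμ₀, emp_integral, hf', limM_integral _ _ hf] at h1
  simp only [Nat.card_Ioc, smul_eq_mul] at h1
  rw [show k + N - k = N by omega] at h1
  have e : ∀ n : ℕ, f ((Phi d (Yv ρ u n)) 0, fun i => (Phi d (Yv ρ u n)) i.succ) = f (Yv ρ u n) := by
    intro n
    congr 1
  simp only [e] at h1
  rw [div_eq_inv_mul]
  exact h1

end Pool.Agent.D0H53.CL
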